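import Mathlib

set_option autoImplicit false

/-!
# AHX = MP_ea777b_al: small cancellation over subtrees of a tree, definitions

Overview: /team-store/ahx_blueprint.md.

All metrics have values in `ℕ`.
-/

namespace AHX

section tree

variable {V : Type}

/-- `z` lies between `x` and `y`. -/
def Btw (d : V → V → ℕ) (x z y : V) : Prop := d x z + d z y = d x y

/-- The metric of the set of vertices of a simplicial tree. -/
structure Tree (d : V → V → ℕ) : Prop where
  refl : ∀ x, d x x = 0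
  eq0 : ∀ x y, d x y = 0 → x = y
  symm : ∀ x y, d x y = d y x
  tri : ∀ x y z, d x z ≤ d x y + d y z
  mid : ∀ x y k, k ≤ d x y → ∃ z, d x z = k ∧ Btw d x z y
  four : ∀ x y z w, d x y + d z w ≤ d x z + d y w ∨ d x y + d z w ≤ d x w + d y z
  med : ∀ x y z, ∃ q, Btw d x q y ∧ Btw d y q z ∧ Btw d x q z

/-- Convex sets. -/
def Conv (d : V → V → ℕ) (A : Set V) : Prop := ∀ x ∈ A, ∀ y ∈ A, ∀ z, Btw d x z y → z ∈ A

/-- `a` is the gate (nearest point) of `x` in `A`. -/
def Gate (d : V → V → ℕ) (A : Set V) (x a : V) : Prop := a ∈ A ∧ ∀ y ∈ A, Btw d x a y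

open Classical in
/-- The nearest point projection to `A`. -/
noncomputable def pr (d : V → V → ℕ) (A : Set V) (x : V) : V :=
  if h : ∃ a, Gate d A x a then h.choose else x

end tree

section family

variable {V Γ Λ : Type} [Group Γ] [MulAction Γ V] [MulAction Γ Λ]

/-- A group `Γ` acting on a tree, with an invariant family of subtrees `Y l` and an equivariant
family of subgroups `N l` preserving them; `m` is a second, coarsely additive, way to measure
segments.  Different members of the family have a common part of measure `0`, the elements of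
`N l` displace the points of `Y l` by at least `L`. -/
structure Fam (d m : V → V → ℕ) (Y : Λ → Set V) (N : Λ → Subgroup Γ) (L : ℕ) : Prop where
  tree : Tree d
  dinv : ∀ (g : Γ) x y, d (g • x) (g • y) = d x y
  minv : ∀ (g : Γ) x y, m (g • x) (g • y) = m x y
  msymm : ∀ x y, m x y = m y x
  mmono : ∀ x z y, Btw d x z y → m x z ≤ m x y
  madd : ∀ x z y, Btw d x z y → m x y ≤ m x z + m z y + 2
  msmall : ∀ x y, d x y ≤ 1 → m x y = 0
  conv : ∀ l, Conv d (Y l)
  nonempty : ∀ l, (Y l).Nonempty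
  cover : ∀ x y, d x y ≤ 1 → ∃ l, x ∈ Y l ∧ y ∈ Y l
  eqY : ∀ (g : Γ) l x, x ∈ Y l → g • x ∈ Y (g • l)
  fixN : ∀ l, ∀ n ∈ N l, n • l = l
  eqN : ∀ (g : Γ) l n, n ∈ N l → g * n * g⁻¹ ∈ N (g • l)
  ov : ∀ l l' x y, l ≠ l' → x ∈ Y l → x ∈ Y l' → y ∈ Y l → y ∈ Y l' → m x y = 0
  big : ∀ l, ∀ n ∈ N l, n ≠ 1 → ∀ y ∈ Y l, L ≤ m y (n • y)

/-- The element `g` can be reduced to `1`, as seen from the base point `x`: there is a member `l` of
the family such that the projections of `x` and `g x` to `Y l` are at measure at least `R`, and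
after a suitable rotation of `g` around `l` the same holds for the new element, and so on, until
`1` is reached. -/
inductive Red (d m : V → V → ℕ) (Y : Λ → Set V) (N : Λ → Subgroup Γ) (R : ℕ) (x : V) : Γ → Prop
  | one : Red d m Y N R x 1
  | step (l : Λ) (n g : Γ) : n ∈ N l → R ≤ m (pr d (Y l) x) (pr d (Y l) (g • x)) →
      Red d m Y N R x (n⁻¹ * g) → Red d m Y N R x g

/-- Stage of the windmill with centre `x₀`. -/
structure WM (d m : V → V → ℕ) (Y : Λ → Set V) (N : Λ → Subgroup Γ) (L : ℕ) (x₀ : V)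
    (U : Set V) (H : Subgroup Γ) (A : Set Λ) : Prop where
  base : x₀ ∈ U
  conv : Conv d U
  invU : ∀ h ∈ H, ∀ x ∈ U, h • x ∈ U
  invA : ∀ h ∈ H, ∀ l ∈ A, h • l ∈ A
  incl : ∀ l ∈ A, N l ≤ H
  out : ∀ l, l ∉ A → ∀ x ∈ U, ∀ y ∈ U, x ∈ Y l → y ∈ Y l → m x y ≤ 2
  red : ∀ h ∈ H, Red d m Y N (L - 10) x₀ h

/-- The members of the family which are not in `A` and meet `U`. -/
def Sg (Y : Λ → Set V) (U : Set V) (A : Set Λ) : Set Λ := {l | l ∉ A ∧ ∃ u ∈ U, u ∈ Y l}

/-- The neighbourhood of `U` of radius one. -/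
def U1 (d : V → V → ℕ) (U : Set V) : Set V := {x | ∃ u ∈ U, d x u ≤ 1}

/-- The points behind the member `l` of the family, as seen from `U`. -/
inductive Beh (d : V → V → ℕ) (Y : Λ → Set V) (N : Λ → Subgroup Γ) (U : Set V) (S : Set Λ) :
    Λ → V → Prop
  | on {l : Λ} {y : V} : l ∈ S → y ∈ Y l → Beh d Y N U S l y
  | rot {l : Λ} {n : Γ} {y : V} : l ∈ S → n ∈ N l → n ≠ 1 → y ∈ U1 d U →
      Beh d Y N U S l (n • y)
  | step {l l' : Λ} {n : Γ} {y : V} : l ∈ S → n ∈ N l → n ≠ 1 → l' ≠ l →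
      Beh d Y N U S l' y → Beh d Y N U S l (n • y)

/-- The new set. -/
def U2 (d : V → V → ℕ) (Y : Λ → Set V) (N : Λ → Subgroup Γ) (U : Set V) (S : Set Λ) : Set V :=
  U1 d U ∪ {y | ∃ l, Beh d Y N U S l y}

/-- The new group. -/
def H2 (N : Λ → Subgroup Γ) (H : Subgroup Γ) (S : Set Λ) : Subgroup Γ := H ⊔ ⨆ l ∈ S, N l

/-- The new set of members of the family. -/
def A2 (N : Λ → Subgroup Γ) (H : Subgroup Γ) (S A : Set Λ) : Set Λ :=
  {l | ∃ h ∈ H2 N H S, ∃ l' ∈ A ∪ S, l = h • l'}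

/-- Normal forms of the elements of the new group: products `n₁ n₂ ... h`, where `l` is the first
member of the family. -/
inductive Wd (N : Λ → Subgroup Γ) (H : Subgroup Γ) (S : Set Λ) : Λ → Γ → Prop
  | one {l : Λ} {n h : Γ} : l ∈ S → n ∈ N l → n ≠ 1 → h ∈ H → Wd N H S l (n * h)
  | step {l l' : Λ} {n g : Γ} : l ∈ S → n ∈ N l → n ≠ 1 → l' ≠ l → Wd N H S l' g →
      Wd N H S l (n * g)

/-- Chains of length `k` in which consecutive points lie in a common member of the family. -/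
inductive Chn (Y : Λ → Set V) : ℕ → V → V → Prop
  | nil (x : V) : Chn Y 0 x x
  | cons {k : ℕ} {x y z : V} (l : Λ) : x ∈ Y l → y ∈ Y l → Chn Y k y z → Chn Y (k + 1) x z

/-- The electric metric. -/
noncomputable def dX (Y : Λ → Set V) (x y : V) : ℕ := sInf {k | Chn Y k x y}

end family

section quotient

variable {V Γ Λ : Type} [Group Γ] [MulAction Γ V] [MulAction Γ Λ]

/-- The orbits of the subgroup `K`. -/
def orbRel (V : Type) {Γ : Type} [Group Γ] [MulAction Γ V] (K : Subgroup Γ) : Setoid V where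
  r x y := ∃ k ∈ K, y = k • x
  iseqv :=
    { refl := fun x => ⟨1, K.one_mem, (one_smul _ x).symm⟩
      symm := by
        rintro x y ⟨k, hk, rfl⟩
        exact ⟨k⁻¹, K.inv_mem hk, (inv_smul_smul k x).symm⟩
      trans := by
        rintro x y z ⟨k, hk, rfl⟩ ⟨k', hk', rfl⟩
        exact ⟨k' * k, K.mul_mem hk' hk, (mul_smul k' k x).symm⟩ }

/-- The quotient of `V` by the subgroup `K`. -/
def Orb (V : Type) {Γ : Type} [Group Γ] [MulAction Γ V] (K : Subgroup Γ) : Type :=
  Quotient (orbRel V K)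

/-- The orbit of a point. -/
def Orb.mk {V Γ : Type} [Group Γ] [MulAction Γ V] (K : Subgroup Γ) (x : V) : Orb V K :=
  Quotient.mk (orbRel V K) x

/-- The quotient metric. -/
noncomputable def dQ {V Γ : Type} [Group Γ] [MulAction Γ V] (D : V → V → ℕ) (K : Subgroup Γ)
    (a b : Orb V K) : ℕ :=
  sInf {k | ∃ x y : V, Orb.mk K x = a ∧ Orb.mk K y = b ∧ D x y = k}

/-- The pair `x, y` realises the quotient distance. -/
def Tight {V Γ : Type} [Group Γ] [MulAction Γ V] (D : V → V → ℕ) (K : Subgroup Γ) (x y : V) :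
    Prop :=
  D x y = dQ D K (Orb.mk K x) (Orb.mk K y)

/-- The orbit of `x₀` under the powers of `f` is on a line of the tree, `f` translates by `τ`, the
members of the family have a small common part with the line, and the pointwise stabiliser of a
long part of the line is trivial. -/
structure Ax {V Γ Λ : Type} [Group Γ] [MulAction Γ V] (d m : V → V → ℕ) (Y : Λ → Set V) (f : Γ)
    (x₀ : V) (τ D : ℕ) : Prop where
  pos : 1 ≤ τ
  len : ∀ n : ℕ, d x₀ (f ^ n • x₀) = n * τ
  small : ∀ (l : Λ) (n : ℕ) (x y : V), x ∈ Y l → y ∈ Y l → Btw d x₀ x (f ^ n • x₀) →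
    Btw d x₀ y (f ^ n • x₀) → m x y ≤ 5 ∧ d x y ≤ D
  stab : ∃ n₀ : ℕ, ∀ g : Γ, g • x₀ = x₀ → g • f ^ n₀ • x₀ = f ^ n₀ • x₀ → g = 1

end quotient

/-- `G` acts on a connected graph, hyperbolic in the sense of Gromov, and contains an element with
quasi-isometrically embedded orbits which is weakly properly discontinuous (Bestvina-Fujiwara), and
`G` is not virtually cyclic. -/
def WPDHyp (G : Type) [Group G] : Prop :=
  (¬ ∃ H : Subgroup G, IsCyclic H ∧ H.FiniteIndex) ∧
  ∃ (X : Type) (T : SimpleGraph X) (_ : MulAction G X),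
    T.Connected ∧
    (∀ (g : G) (x y : X), T.Adj x y → T.Adj (g • x) (g • y)) ∧
    (∃ δ : ℕ, ∀ x y z w : X,
      T.dist x y + T.dist z w ≤ max (T.dist x z + T.dist y w) (T.dist x w + T.dist y z) + δ) ∧
    ∃ f : G,
      (∃ (x : X) (c : ℕ), ∀ n : ℕ, n ≤ c * T.dist x (f ^ n • x)) ∧
      (∀ (x : X) (r : ℕ), ∃ n : ℕ, 1 ≤ n ∧
        {g : G | T.dist x (g • x) ≤ r ∧ T.dist (f ^ n • x) (g • f ^ n • x) ≤ r}.Finite)

end AHX
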