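import Pool.Agent.Burn.Hyp

set_option autoImplicit false

/-!
# AHX module GRAPH: an integer valued geodesic metric is the metric of a graph

`T.Adj x y` iff `D x y = 1`.  `D x y ≤ T.dist x y`: along a walk every step changes `D x ·` by at most
one.  `T.dist x y ≤ D x y`: by `mid` there is a chain of `D x y` points at consecutive distance `1`;
it gives a walk (induction on `D x y`).
-/

namespace AHX

theorem graph_of_geo {X : Type} [Nonempty X] (D : X → X → ℕ) (hg : Burn.Geo D)
    (h0 : ∀ x y, D x y = 0 → x = y) :
    ∃ T : SimpleGraph X, T.Connected ∧ (∀ x y, T.Adj x y ↔ D x y = 1) ∧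
      ∀ x y, T.dist x y = D x y := by
  let T : SimpleGraph X :=
    { Adj := fun x y => D x y = 1
      symm := ⟨fun x y h => by
        rw [hg.symm]
        exact h⟩
      loopless := ⟨fun x h => by
        rw [hg.refl] at h
        exact absurd h (by decide)⟩ }
  have hA : ∀ n x y, D x y = n → ∃ w : T.Walk x y, w.length = n := by
    intro n
    induction n with
    | zero =>
      intro x y h
      have h1 := h0 x y h
      subst h1
      exact ⟨SimpleGraph.Walk.nil, rfl⟩
    | succ n ih =>
      intro x y h
      obtain ⟨z, h1, h2⟩ := hg.mid x y 1 n (by omega)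
      obtain ⟨w, hw⟩ := ih z y h2
      have hadj : T.Adj x z := h1
      exact ⟨SimpleGraph.Walk.cons hadj w, by rw [SimpleGraph.Walk.length_cons, hw]⟩
  have hB : ∀ {x y : X} (w : T.Walk x y), D x y ≤ w.length := by
    intro x y w
    induction w with
    | nil =>
      rw [hg.refl]
      exact Nat.zero_le _
    | cons h p ih =>
      rename_i u v w
      have h1 : D u v = 1 := h
      have h2 := hg.tri u v w
      rw [SimpleGraph.Walk.length_cons]
      omega
  have hc : T.Connected :=
    { preconnected := fun x y => by
        obtain ⟨w, -⟩ := hA _ x y rfl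
        exact ⟨w⟩
      nonempty := inferInstance }
  refine ⟨T, hc, fun x y => Iff.rfl, fun x y => le_antisymm ?_ ?_⟩
  · obtain ⟨w, hw⟩ := hA _ x y rfl
    rw [← hw]
    exact SimpleGraph.dist_le w
  · obtain ⟨w, hw⟩ := hc.exists_walk_length_eq_dist x y
    rw [← hw]
    exact hB w

end AHX
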