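import Pool.Agent.AHX.AxDn
import Pool.Agent.AHX.Graph

set_option autoImplicit false

/-!
# AHX module ABS: the abstract theorem

`K = ⨆ l, N l`.

* `actQ`: `G` acts on `Orb V K`: for `g ∈ G` choose `γ` with `π γ = g` (`hπ`) and map the orbit of `x` to
  the orbit of `γ • x`; well defined since `K` is normal (`Fam.normal`) and `π.ker = K`.
* `abs`: `X = Orb V K`, `T` from `graph_of_geo` for `dQ (dX Y) K` (`geoQ`, `dQ_eq0`, `dX_smul`, `geoX`,
  `dX_eq0`).  Hyperbolicity: `slimQ` and `Burn.slim_hyp` (constant `14`).  The action preserves `dQ`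
  (both `≤` by `dQ_lift`).  The element is `π f`.
  Loxodromic: `dQ (mk x₀) (mk (f ^ n • x₀)) = dX x₀ (f ^ n • x₀)` (`tight_ax`) and
  `n ≤ n * τ ≤ D * dX ..` (`ax_len`, `A.pos`); `c = D`.
  WPD: first for `mk x₀` and all `r`: the set is contained in the image under `π` of the finite set of
  `ax_fin` (`fin_lift`, surjectivity).  For a general point `x` and `r`, let `e` be the distance of
  `mk x₀` and `x`; an element which moves `x` and `f ^ n • x` by at most `r` moves `mk x₀` and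
  `f ^ n • mk x₀` by at most `r + 2 * e`.
  Not virtually cyclic: let `H` be cyclic of finite index, generated by `h`.  Some powers
  `(π f) ^ a = h ^ α` and `(π s) ^ b = h ^ β` with `a, b ≥ 1` are in `H`
  (`Subgroup.exists_pow_mem_of_index_ne_zero` or similar).  `β ≠ 0` as `(π s) ^ b ≠ 1`.  Then
  `(π f) ^ (a * β) = (π s) ^ (b * α)` fixes the orbit of the fixed point `x` of `s`, so the points
  `(π f) ^ (a * |β| * k) • x` are all equal to `x`, and the orbit of `mk x₀` under these powers is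
  bounded, contradiction to the loxodromic property (`a * |β| ≥ 1`).
-/

namespace AHX

variable {V Γ Λ : Type} [Group Γ] [MulAction Γ V] [MulAction Γ Λ]
  {d m : V → V → ℕ} {Y : Λ → Set V} {N : Λ → Subgroup Γ} {L : ℕ} {f : Γ} {x₀ : V} {τ D : ℕ}

private theorem abs_mk {K : Subgroup Γ} {x y : V} {g : Γ} (hg : g ∈ K) (h : y = g • x) :
    Orb.mk K y = Orb.mk K x :=
  (mk_eq.2 ⟨g, hg, h⟩).symm

theorem exists_act {G : Type} [Group G] (π : Γ →* G) (hπ : Function.Surjective π)
    (K : Subgroup Γ) (hker : π.ker = K) :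
    ∃ _ : MulAction G (Orb V K), ∀ (γ : Γ) (x : V), π γ • Orb.mk K x = Orb.mk K (γ • x) := by
  have hK : ∀ γ γ' : Γ, π γ = π γ' → γ * γ'⁻¹ ∈ K := by
    intro γ γ' h
    rw [← hker, MonoidHom.mem_ker, map_mul, map_inv, h, mul_inv_cancel]
  have hmap : ∀ (γ γ' : Γ), π γ = π γ' → ∀ x y : V, (orbRel V K).r x y →
      Orb.mk K (γ • x) = Orb.mk K (γ' • y) := by
    rintro γ γ' h x y ⟨k, hk, rfl⟩
    have h1 : γ * k⁻¹ * γ'⁻¹ ∈ K := by
      have h2 : π (γ * k⁻¹) = π γ' := by
        have h3 : π k = 1 := by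
          rw [← MonoidHom.mem_ker, hker]
          exact hk
        rw [map_mul, map_inv, h3, inv_one, mul_one, h]
      exact hK _ _ h2
    refine abs_mk h1 ?_
    rw [smul_smul, smul_smul]
    congr 1
    group
  let sm : G → Orb V K → Orb V K := fun g =>
    Quotient.lift (fun x => Orb.mk K (Function.surjInv hπ g • x))
      (fun x y hxy => hmap _ _ rfl x y hxy)
  have key : ∀ (γ : Γ) (x : V), sm (π γ) (Orb.mk K x) = Orb.mk K (γ • x) := by
    intro γ x
    exact hmap _ _ (Function.surjInv_eq hπ (π γ)) x x ⟨1, K.one_mem, (one_smul _ x).symm⟩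
  refine ⟨{ smul := sm, one_smul := ?_, mul_smul := ?_ }, fun γ x => key γ x⟩
  · intro g h a
    obtain ⟨x, rfl⟩ := mk_surj a
    obtain ⟨γ, rfl⟩ := hπ g
    obtain ⟨η, rfl⟩ := hπ h
    show sm (π γ * π η) (Orb.mk K x) = sm (π γ) (sm (π η) (Orb.mk K x))
    rw [← map_mul, key, key, key, mul_smul]
  · intro a
    obtain ⟨x, rfl⟩ := mk_surj a
    show sm 1 (Orb.mk K x) = Orb.mk K x
    rw [← map_one π, key, one_smul]

theorem abs (F : Fam d m Y N L) (hL : 35 ≤ L) (A : Ax d m Y f x₀ τ D) {G : Type} [Group G]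
    (π : Γ →* G) (hπ : Function.Surjective π) (hker : π.ker = ⨆ l, N l) (s : Γ)
    (hs : ∃ x : V, s • x = x) (hs' : ∀ n : ℤ, π s ^ n = 1 → n = 0) : WPDHyp G := by
  obtain ⟨K, hK⟩ : ∃ K : Subgroup Γ, K = ⨆ l, N l := ⟨_, rfl⟩
  obtain ⟨act, hact⟩ := exists_act (V := V) π hπ K (hker.trans hK.symm)
  set Q : Orb V K → Orb V K → ℕ := dQ (dX Y) K with hQdef
  have hQ : Burn.Geo Q := geoQ (dX_smul F) (geoX F)
  have h0 : ∀ a b, Q a b = 0 → a = b :=
    fun a b h => dQ_eq0 (dX_smul F) (geoX F) (fun x y h => dX_eq0 F h) h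
  have hinv1 : ∀ (g : G) a b, Q (g • a) (g • b) ≤ Q a b := by
    intro g a b
    obtain ⟨γ, rfl⟩ := hπ g
    obtain ⟨x, rfl⟩ := mk_surj a
    obtain ⟨y, rfl, h⟩ := dQ_lift (dX_smul F) x b
    rw [hact, hact, hQdef, ← h, ← dX_smul F γ x y]
    exact dQ_le _ _
  have hinv : ∀ (g : G) a b, Q (g • a) (g • b) = Q a b := by
    intro g a b
    refine le_antisymm (hinv1 g a b) ?_
    have := hinv1 g⁻¹ (g • a) (g • b)
    rwa [inv_smul_smul, inv_smul_smul] at this
  have hpow : ∀ (n : ℕ) (x : V), π f ^ n • Orb.mk K x = Orb.mk K (f ^ n • x) := by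
    intro n x
    rw [← map_pow, hact]
  have hlox : ∀ n : ℕ, n ≤ D * Q (Orb.mk K x₀) (π f ^ n • Orb.mk K x₀) := by
    intro n
    have h1 := tight_ax F hL A n
    rw [← hK] at h1
    unfold Tight at h1
    rw [hpow, hQdef, ← h1]
    have h2 := ax_len F A n
    have h3 : n * 1 ≤ n * τ := Nat.mul_le_mul_left n A.pos
    omega
  have hwpd0 : ∀ r : ℕ, ∃ n : ℕ, 1 ≤ n ∧ {g : G | Q (Orb.mk K x₀) (g • Orb.mk K x₀) ≤ r ∧
      Q (π f ^ n • Orb.mk K x₀) (g • π f ^ n • Orb.mk K x₀) ≤ r}.Finite := by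
    intro r
    obtain ⟨n, hn, hfin⟩ := ax_fin F A r
    refine ⟨n, hn, (hfin.image π).subset ?_⟩
    rintro g ⟨h1, h2⟩
    obtain ⟨γ, rfl⟩ := hπ g
    rw [hact] at h1
    rw [hpow, hact] at h2
    subst hK
    obtain ⟨γ', h3, h4, h5⟩ := fin_lift F hL A γ h1 h2
    refine ⟨γ', ⟨h4, h5⟩, ?_⟩
    rw [← hker, MonoidHom.mem_ker, map_mul, map_inv] at h3
    exact mul_inv_eq_one.1 h3
  have hne : Nonempty (Orb V K) := ⟨Orb.mk K x₀⟩
  obtain ⟨T, hT, hadj, hdist⟩ := graph_of_geo Q hQ h0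
  have hhyp : Burn.Hyp Q 14 := by
    have h1 := slimQ F hL
    rw [← hK] at h1
    exact Burn.slim_hyp hQ h1
  refine ⟨?_, Orb V K, T, act, hT, ?_, ⟨14, ?_⟩, π f, ⟨Orb.mk K x₀, D, ?_⟩, ?_⟩
  · rintro ⟨H, hcyc, hfi⟩
    obtain ⟨h, hh⟩ := hcyc.exists_generator
    obtain ⟨a, ha, -, haH⟩ := Subgroup.exists_pow_mem_of_index_ne_zero hfi.index_ne_zero (π f)
    obtain ⟨b, hb, -, hbH⟩ := Subgroup.exists_pow_mem_of_index_ne_zero hfi.index_ne_zero (π s)
    obtain ⟨α, hα⟩ := Subgroup.mem_zpowers_iff.1 (hh ⟨_, haH⟩)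
    obtain ⟨β, hβ⟩ := Subgroup.mem_zpowers_iff.1 (hh ⟨_, hbH⟩)
    have hα' : (h : G) ^ α = π f ^ a := by
      have := congrArg (fun z : H => (z : G)) hα
      simpa using this
    have hβ' : (h : G) ^ β = π s ^ b := by
      have := congrArg (fun z : H => (z : G)) hβ
      simpa using this
    have hβ0 : β ≠ 0 := by
      rintro rfl
      rw [zpow_zero] at hβ'
      have h1 := hs' (b : ℤ) (by rw [zpow_natCast, ← hβ'])
      omega
    obtain ⟨x, hx⟩ := hs
    have hsfix : π s • Orb.mk K x = Orb.mk K x := by rw [hact, hx]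
    have hsz : ∀ n : ℤ, π s ^ n • Orb.mk K x = Orb.mk K x := by
      intro n
      have h1 : π s ∈ MulAction.stabilizer G (Orb.mk K x) := hsfix
      exact (MulAction.stabilizer G (Orb.mk K x)).zpow_mem h1 n
    have hfz : π f ^ ((a : ℤ) * β) • Orb.mk K x = Orb.mk K x := by
      have h1 : π f ^ ((a : ℤ) * β) = π s ^ ((b : ℤ) * α) := by
        rw [zpow_mul, zpow_natCast, ← hα', zpow_mul, zpow_natCast, ← hβ', ← zpow_mul,
          ← zpow_mul, mul_comm]
      rw [h1]
      exact hsz _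
    have hfM : π f ^ (a * β.natAbs) • Orb.mk K x = Orb.mk K x := by
      have h1 : π f ^ ((a : ℤ) * β) ∈ MulAction.stabilizer G (Orb.mk K x) := hfz
      have h2 : π f ^ (a * β.natAbs) ∈ MulAction.stabilizer G (Orb.mk K x) := by
        rcases Int.natAbs_eq β with h3 | h3
        · rw [h3] at h1
          rw [← zpow_natCast]
          push_cast
          push_cast at h1
          exact h1
        · rw [h3] at h1
          rw [← zpow_natCast]
          push_cast
          push_cast at h1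
          have h4 := (MulAction.stabilizer G (Orb.mk K x)).inv_mem h1
          rw [← zpow_neg] at h4
          have h5 : -((a : ℤ) * -|β|) = (a : ℤ) * |β| := by ring
          rwa [h5] at h4
      exact h2
    have hfk : ∀ k : ℕ, π f ^ (a * β.natAbs * k) • Orb.mk K x = Orb.mk K x := by
      intro k
      have h1 : π f ^ (a * β.natAbs) ∈ MulAction.stabilizer G (Orb.mk K x) := hfM
      rw [pow_mul]
      exact (MulAction.stabilizer G (Orb.mk K x)).pow_mem h1 k
    set e := Q (Orb.mk K x₀) (Orb.mk K x) with he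
    set M := a * β.natAbs with hM
    have hM1 : 1 ≤ M := Nat.mul_pos ha (Int.natAbs_pos.2 hβ0)
    set k := D * (2 * e) + 1 with hk
    have h1 := hlox (M * k)
    have h2 : Q (Orb.mk K x₀) (π f ^ (M * k) • Orb.mk K x₀) ≤ 2 * e := by
      have t1 := hQ.tri (Orb.mk K x₀) (Orb.mk K x) (π f ^ (M * k) • Orb.mk K x₀)
      have t2 := hinv (π f ^ (M * k)) (Orb.mk K x) (Orb.mk K x₀)
      rw [hfk k, hQ.symm (Orb.mk K x) (Orb.mk K x₀)] at t2
      omega
    have h3 := Nat.mul_le_mul_left D h2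
    have h4 : 1 * k ≤ M * k := Nat.mul_le_mul_right k hM1
    omega
  · intro g x y hxy
    rw [hadj] at hxy ⊢
    rw [hinv]
    exact hxy
  · intro x y z w
    simp only [hdist]
    rcases hhyp x y z w with h | h
    · have := le_max_left (Q x z + Q y w) (Q x w + Q y z)
      omega
    · have := le_max_right (Q x z + Q y w) (Q x w + Q y z)
      omega
  · intro n
    rw [hdist]
    exact hlox n
  · intro p r
    obtain ⟨n, hn, hfin⟩ := hwpd0 (r + 2 * Q (Orb.mk K x₀) p)
    refine ⟨n, hn, hfin.subset ?_⟩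
    rintro g ⟨h1, h2⟩
    rw [hdist] at h1 h2
    have key : ∀ a b : Orb V K, Q b (g • b) ≤ r → Q a (g • a) ≤ r + 2 * Q a b := by
      intro a b hb
      have t1 := hQ.tri a b (g • a)
      have t2 := hQ.tri b (g • b) (g • a)
      have t3 := hinv g b a
      have t4 := hQ.symm a b
      omega
    refine ⟨key _ _ h1, ?_⟩
    have h3 := key (π f ^ n • Orb.mk K x₀) (π f ^ n • p) h2
    rwa [hinv] at h3

end AHX
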