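import Pool.Agent.AHX.Defs

set_option autoImplicit false

/-!
# AHX: the tree of an amalgam, definitions
-/

namespace AHX

section

variable {Γ : Type} [Group Γ]

/-- Alternating lists of elements of `P \ R` and `Q \ R`; the first element is in `P` if `b` is `true`,
in `Q` if `b` is `false`. -/
def Alt (P Q R : Subgroup Γ) : Bool → List Γ → Prop
  | _, [] => True
  | true, g :: l => g ∈ P ∧ g ∉ R ∧ Alt P Q R false l
  | false, g :: l => g ∈ Q ∧ g ∉ R ∧ Alt P Q R true l

/-- `Γ` is the free product of `P` and `Q` amalgamated over `R`. -/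
structure Amal (P Q R : Subgroup Γ) : Prop where
  hRP : R ≤ P
  hRQ : R ≤ Q
  gen : P ⊔ Q = ⊤
  red : ∀ (b : Bool) (l : List Γ), l ≠ [] → Alt P Q R b l → l.prod ∉ R

/-- The vertices of the subdivided Bass-Serre tree. -/
abbrev Vx (P Q R : Subgroup Γ) : Type := (Γ ⧸ P) ⊕ (Γ ⧸ Q) ⊕ (Γ ⧸ R)

/-- The vertex `g P`. -/
def pv (P Q R : Subgroup Γ) (g : Γ) : Vx P Q R := Sum.inl (g : Γ ⧸ P)

/-- The vertex `g Q`. -/
def qv (P Q R : Subgroup Γ) (g : Γ) : Vx P Q R := Sum.inr (Sum.inl (g : Γ ⧸ Q))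

/-- The vertex `g R` (the middle of the edge from `g P` to `g Q`). -/
def rv (P Q R : Subgroup Γ) (g : Γ) : Vx P Q R := Sum.inr (Sum.inr (g : Γ ⧸ R))

/-- Adjacency: `g R` is adjacent to `g P` and to `g Q`. -/
def EV (P Q R : Subgroup Γ) (x y : Vx P Q R) : Prop :=
  ∃ g : Γ, (x = rv P Q R g ∧ (y = pv P Q R g ∨ y = qv P Q R g)) ∨
    (y = rv P Q R g ∧ (x = pv P Q R g ∨ x = qv P Q R g))

end

section measure

variable {V : Type}

/-- Good triples `u, ρ, w`: points on a line with `d u ρ = d ρ w = 2`. -/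
structure GdS (d : V → V → ℕ) (Gd : V → V → V → Prop) : Prop where
  dist : ∀ u ρ w, Gd u ρ w → d u ρ = 2 ∧ d ρ w = 2 ∧ d u w = 4
  symm : ∀ u ρ w, Gd u ρ w → Gd w ρ u
  par : ∀ u ρ w u' ρ' w', Gd u ρ w → Gd u' ρ' w' → Even (d ρ ρ')

/-- The middle points of the good triples contained in the interval between `x` and `y`. -/
def GS (d : V → V → ℕ) (Gd : V → V → V → Prop) (x y : V) : Set V :=
  {ρ | ∃ u w, Gd u ρ w ∧ d x u + 4 + d w y = d x y}

/-- The number of good triples in the interval between `x` and `y`. -/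
noncomputable def mc (d : V → V → ℕ) (Gd : V → V → V → Prop) (x y : V) : ℕ :=
  (GS d Gd x y).ncard

end measure

end AHX
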