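import Pool.Agent.AHX.Defs

set_option autoImplicit false

/-!
# AHX module GTREE: graphs without closed reduced paths are trees

`E` is a symmetric relation (adjacency), `hc`: connected, `ha`: a reduced chain (no `p i = p (i+2)`) of
positive length is not closed.

Let `d x y` be the smallest length of a chain from `x` to `y` (or use `SimpleGraph.dist`; note that
`E x x` is impossible by `ha` with `n = 1`).  A shortest chain is reduced.

(1) Uniqueness: two reduced chains `p` (length `n`) and `q` (length `m`) with the same ends are equal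
(`n = m`, `p i = q i` for `i ≤ n`): induction on `n + m`.  If `n = 0` then `q` is closed, so `m = 0`
by `ha`; the same if `m = 0`.  If `p 1 = q 1` remove the first vertex.  If `p 1 ≠ q 1` then
`p n, ..., p 1, p 0 = q 0, q 1, ..., q m` is a reduced chain of length `n + m ≥ 1` from `p n` to
`q m = p n`, contradiction to `ha`.
(2) So every reduced chain `p` of length `n` satisfies `d (p 0) (p n) = n`, and, as its parts are
reduced, `d (p i) (p j) = j - i`.
(3) `med`: let `p`, `q` be shortest chains from `x` to `y` and from `x` to `z`, and let `k` be maximal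
such that `p i = q i` for all `i ≤ k`.  The chain `y = p n, ..., p k = q k, ..., q m = z` is reduced,
so `p k` is between `y` and `z`, and it is between `x` and `y`, `x` and `z`.
(4) (T): if `q` is between `x` and `y` then it is between `x` and `w` or between `w` and `y`: take
shortest chains through `q` (`p k = q`) and from `q` to `w` (`r`).  If `r 1 ≠ p (k-1)` then
`x, ..., q, ..., w` is reduced, so `q` is between `x` and `w`; otherwise `r 1 ≠ p (k+1)` and
`w, ..., q, ..., y` is reduced.  (If `k = 0`, `k = n` or `q = w` the claim is trivial.)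
(5) `four x y z w`: let `q` be the median of `x, y, z`.  By (T) `q` is between `y` and `w` or between
`x` and `w`.  In the first case `d z w ≤ d z q + d q w` gives
`d x y + d z w ≤ d x z + d y w`, in the second `d x y + d z w ≤ d x w + d y z`.
-/

namespace AHX

/-- `p` is a reduced chain of length `n` from `x` to `y`. -/
structure GRC {V : Type} (E : V → V → Prop) (p : ℕ → V) (n : ℕ) (x y : V) : Prop where
  ch : ∀ i, i < n → E (p i) (p (i + 1))
  red : ∀ i, i + 2 ≤ n → p i ≠ p (i + 2)
  st : p 0 = x
  en : p n = y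

section

variable {V : Type} {E : V → V → Prop} {p q : ℕ → V} {n m : ℕ} {x y z w : V}

theorem GRC.rev (hs : ∀ x y, E x y → E y x) (h : GRC E p n x y) :
    GRC E (fun i => p (n - i)) n y x where
  ch := by
    intro i hi
    have h1 := hs _ _ (h.ch (n - (i + 1)) (by omega))
    rwa [show n - (i + 1) + 1 = n - i by omega] at h1
  red := by
    intro i hi
    have h1 := (h.red (n - (i + 2)) (by omega)).symm
    rwa [show n - (i + 2) + 2 = n - i by omega] at h1
  st := h.en
  en := by
    show p (n - n) = x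
    rw [Nat.sub_self]; exact h.st

theorem GRC.sub (h : GRC E p n x y) {i j : ℕ} (hij : i ≤ j) (hj : j ≤ n) :
    GRC E (fun t => p (i + t)) (j - i) (p i) (p j) where
  ch := fun t ht => h.ch (i + t) (by omega)
  red := fun t ht => h.red (i + t) (by omega)
  st := rfl
  en := by
    show p (i + (j - i)) = p j
    rw [show i + (j - i) = j by omega]

/-- concatenation of chains -/
def gcat (p q : ℕ → V) (n : ℕ) (i : ℕ) : V := if i < n then p i else q (i - n)

theorem gcat_lt {i : ℕ} (h : i < n) : gcat p q n i = p i := if_pos h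

theorem gcat_ge {i : ℕ} (h : n ≤ i) : gcat p q n i = q (i - n) := if_neg (by omega)

theorem gcat_chain (hp : ∀ i, i < n → E (p i) (p (i + 1))) (hq : ∀ i, i < m → E (q i) (q (i + 1)))
    (hpq : p n = q 0) : ∀ i, i < n + m → E (gcat p q n i) (gcat p q n (i + 1)) := by
  intro i hi
  rcases Nat.lt_trichotomy (i + 1) n with h | h | h
  · rw [gcat_lt h, gcat_lt (by omega)]
    exact hp i (by omega)
  · rw [gcat_lt (by omega), gcat_ge (by omega), h, Nat.sub_self, ← hpq, ← h]
    exact hp i (by omega)
  · rw [gcat_ge (by omega), gcat_ge (by omega), show i + 1 - n = (i - n) + 1 by omega]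
    exact hq _ (by omega)

theorem GRC.cat (h : GRC E p n x y) (h' : GRC E q m y z)
    (hne : n = 0 ∨ m = 0 ∨ p (n - 1) ≠ q 1) : GRC E (gcat p q n) (n + m) x z where
  ch := gcat_chain h.ch h'.ch (h.en.trans h'.st.symm)
  red := by
    intro i hi
    rcases Nat.lt_or_ge (i + 2) n with h1 | h1
    · rw [gcat_lt h1, gcat_lt (by omega)]
      exact h.red i h1.le
    · rcases Nat.eq_or_lt_of_le h1 with h2 | h2
      · have e1 : gcat p q n (i + 2) = p n := by
          rw [gcat_ge h1, ← h2, Nat.sub_self, h.en, h'.st]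
        rw [e1, gcat_lt (by omega)]
        have h3 := h.red i (by omega)
        rwa [← h2] at h3
      · rcases Nat.lt_or_ge i n with h3 | h3
        · have h4 : i + 1 = n := by omega
          rw [gcat_lt h3, gcat_ge h1, show i + 2 - n = 1 by omega]
          have h5 : p (n - 1) ≠ q 1 := by
            rcases hne with h6 | h6 | h6
            · omega
            · omega
            · exact h6
          rwa [show n - 1 = i by omega] at h5
        · rw [gcat_ge h3, gcat_ge h1, show i + 2 - n = (i - n) + 2 by omega]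
          exact h'.red _ (by omega)
  st := by
    rcases Nat.eq_zero_or_pos n with h1 | h1
    · subst h1
      rw [gcat_ge le_rfl, Nat.sub_self, h'.st, ← h.en, h.st]
    · rw [gcat_lt h1, h.st]
  en := by
    rw [gcat_ge (by omega), show n + m - n = m by omega, h'.en]

theorem grc_of_chain : ∀ (n : ℕ) (p : ℕ → V), (∀ i, i < n → E (p i) (p (i + 1))) →
    ∃ m, m ≤ n ∧ ∃ q, GRC E q m (p 0) (p n) := by
  intro n
  induction n using Nat.strong_induction_on with
  | _ n ih =>
    intro p hp
    by_cases hr : ∀ i, i + 2 ≤ n → p i ≠ p (i + 2)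
    · exact ⟨n, le_rfl, p, hp, hr, rfl, rfl⟩
    · push Not at hr
      obtain ⟨i, hi, hpi⟩ := hr
      have hch := gcat_chain (n := i) (m := n - 2 - i) (p := p) (q := fun t => p (i + 2 + t))
        (fun t ht => hp t (by omega))
        (fun t ht => hp (i + 2 + t) (by omega)) hpi
      rw [show i + (n - 2 - i) = n - 2 by omega] at hch
      obtain ⟨m, hm, q, hq⟩ := ih (n - 2) (by omega) _ hch
      refine ⟨m, by omega, q, ?_⟩
      have e1 : gcat p (fun t => p (i + 2 + t)) i 0 = p 0 := by
        rcases Nat.eq_zero_or_pos i with h | h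
        · subst h
          rw [gcat_ge le_rfl]
          exact hpi.symm
        · rw [gcat_lt h]
      have e2 : gcat p (fun t => p (i + 2 + t)) i (n - 2) = p n := by
        rw [gcat_ge (by omega)]
        show p (i + 2 + (n - 2 - i)) = p n
        rw [show i + 2 + (n - 2 - i) = n by omega]
      rwa [e1, e2] at hq

theorem grc_unique (hs : ∀ x y, E x y → E y x)
    (ha : ∀ (p : ℕ → V) (n : ℕ), 1 ≤ n → (∀ i, i < n → E (p i) (p (i + 1))) →
      (∀ i, i + 2 ≤ n → p i ≠ p (i + 2)) → p 0 ≠ p n) :
    ∀ (n m : ℕ) (p q : ℕ → V) (x y : V), GRC E p n x y → GRC E q m x y → n = m := by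
  intro n
  induction n with
  | zero =>
    intro m p q x y hp hq
    by_contra hne
    have hxy : x = y := hp.st.symm.trans hp.en
    exact ha q m (by omega) hq.ch hq.red (by rw [hq.st, hq.en, hxy])
  | succ n ih =>
    intro m p q x y hp hq
    rcases Nat.eq_zero_or_pos m with h0 | h0
    · subst h0
      exfalso
      have hxy : x = y := hq.st.symm.trans hq.en
      exact ha p (n + 1) (by omega) hp.ch hp.red (by rw [hp.st, hp.en, hxy])
    · obtain ⟨m, rfl⟩ : ∃ k, m = k + 1 := ⟨m - 1, by omega⟩
      by_cases h1 : p 1 = q 1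
      · have hp' := hp.sub (i := 1) (j := n + 1) (by omega) le_rfl
        have hq' := hq.sub (i := 1) (j := m + 1) (by omega) le_rfl
        rw [hp.en] at hp'
        rw [hq.en, ← h1] at hq'
        have := ih _ _ _ _ _ hp' hq'
        omega
      · exfalso
        have h2 := (hp.rev hs).cat hq (Or.inr (Or.inr (by
          show p (n + 1 - (n + 1 - 1)) ≠ q 1
          rw [show n + 1 - (n + 1 - 1) = 1 by omega]
          exact h1)))
        exact ha _ _ (by omega) h2.ch h2.red (by rw [h2.st, h2.en])

end

theorem gtree {V : Type} (E : V → V → Prop) (hs : ∀ x y, E x y → E y x)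
    (hc : ∀ x y, ∃ (p : ℕ → V) (n : ℕ), p 0 = x ∧ p n = y ∧ ∀ i, i < n → E (p i) (p (i + 1)))
    (ha : ∀ (p : ℕ → V) (n : ℕ), 1 ≤ n → (∀ i, i < n → E (p i) (p (i + 1))) →
      (∀ i, i + 2 ≤ n → p i ≠ p (i + 2)) → p 0 ≠ p n) :
    ∃ d : V → V → ℕ, Tree d ∧ (∀ x y, E x y ↔ d x y = 1) ∧
      (∀ σ : V → V, (∀ x y, E x y → E (σ x) (σ y)) → ∀ x y, d (σ x) (σ y) ≤ d x y) ∧
      (∀ (p : ℕ → V) (n : ℕ), (∀ i, i < n → E (p i) (p (i + 1))) →
        (∀ i, i + 2 ≤ n → p i ≠ p (i + 2)) → ∀ i j, i ≤ j → j ≤ n → d (p i) (p j) = j - i) := by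
  classical
  have hex : ∀ x y, ∃ n, ∃ p, GRC E p n x y := by
    intro x y
    obtain ⟨p, n, h0, hn, hch⟩ := hc x y
    obtain ⟨m, -, q, hq⟩ := grc_of_chain n p hch
    rw [h0, hn] at hq
    exact ⟨m, q, hq⟩
  choose d hd using hex
  have hlen : ∀ {p : ℕ → V} {n : ℕ} {x y : V}, GRC E p n x y → d x y = n := by
    intro p n x y hp
    obtain ⟨q, hq⟩ := hd x y
    exact grc_unique hs ha _ _ _ _ _ _ hq hp
  have hle : ∀ (p : ℕ → V) (n : ℕ), (∀ i, i < n → E (p i) (p (i + 1))) → d (p 0) (p n) ≤ n := by
    intro p n hp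
    obtain ⟨m, hm, q, hq⟩ := grc_of_chain n p hp
    rw [hlen hq]
    exact hm
  have hrefl : ∀ x, d x x = 0 := fun x =>
    hlen (p := fun _ => x) (n := 0) ⟨fun i hi => by omega, fun i hi => by omega, rfl, rfl⟩
  have hsymm : ∀ x y, d x y = d y x := by
    intro x y
    obtain ⟨q, hq⟩ := hd x y
    exact (hlen (hq.rev hs)).symm
  have htri : ∀ x y z, d x z ≤ d x y + d y z := by
    intro x y z
    obtain ⟨p, hp⟩ := hd x y
    obtain ⟨q, hq⟩ := hd y z
    have h1 := hle _ _ (gcat_chain hp.ch hq.ch (hp.en.trans hq.st.symm))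
    have e1 : gcat p q (d x y) 0 = x := by
      rcases Nat.eq_zero_or_pos (d x y) with h | h
      · rw [gcat_ge (by omega), h, Nat.sub_self, hq.st]
        have := hp.en
        rw [h] at this
        exact this.symm.trans hp.st
      · rw [gcat_lt h, hp.st]
    have e2 : gcat p q (d x y) (d x y + d y z) = z := by
      rw [gcat_ge (by omega), show d x y + d y z - d x y = d y z by omega, hq.en]
    rwa [e1, e2] at h1
  have heq0 : ∀ x y, d x y = 0 → x = y := by
    intro x y h
    obtain ⟨p, hp⟩ := hd x y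
    have h1 := hp.en
    rw [h] at h1
    exact hp.st.symm.trans h1
  have hE : ∀ x y, E x y ↔ d x y = 1 := by
    intro x y
    constructor
    · intro h
      refine hlen (p := fun i => if i = 0 then x else y) (n := 1) ⟨?_, ?_, ?_, ?_⟩
      · intro i hi
        have : i = 0 := by omega
        subst this
        simpa using h
      · intro i hi
        omega
      · simp
      · simp
    · intro h
      obtain ⟨p, hp⟩ := hd x y
      have h1 := hp.ch 0 (by omega)
      have h2 := hp.en
      rw [h] at h2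
      rw [hp.st] at h1
      rw [zero_add, h2] at h1
      exact h1
  -- first step of a shortest chain
  have hstep : ∀ {p : ℕ → V} {x y : V}, GRC E p (d x y) x y → 1 ≤ d x y →
      d x (p 1) = 1 ∧ d (p 1) y + 1 = d x y := by
    intro p x y hp h1
    constructor
    · have := hlen (hp.sub (i := 0) (j := 1) (by omega) h1)
      rw [hp.st] at this
      omega
    · have := hlen (hp.sub (i := 1) (j := d x y) h1 le_rfl)
      rw [hp.en] at this
      omega
  -- diverging chains
  have hdiv : ∀ {p q : ℕ → V} {c y z : V}, GRC E p (d c y) c y → GRC E q (d c z) c z →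
      (d c y = 0 ∨ d c z = 0 ∨ p 1 ≠ q 1) → Btw d y c z := by
    intro p q c y z hp hq h
    have h1 := hlen ((hp.rev hs).cat hq (by
      rcases h with h | h | h
      · exact Or.inl h
      · exact Or.inr (Or.inl h)
      · rcases Nat.eq_zero_or_pos (d c y) with h0 | h0
        · exact Or.inl h0
        · right; right
          show p (d c y - (d c y - 1)) ≠ q 1
          rwa [show d c y - (d c y - 1) = 1 by omega]))
    unfold Btw
    rw [h1, hsymm y c]
  have hmed : ∀ x y z, ∃ q, Btw d x q y ∧ Btw d y q z ∧ Btw d x q z := by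
    intro x y z
    have hP : ∃ k, ∃ c, d x c = k ∧ Btw d x c y ∧ Btw d x c z :=
      ⟨0, x, hrefl x, by unfold Btw; rw [hrefl]; omega, by unfold Btw; rw [hrefl]; omega⟩
    have hbd : ∀ k, (∃ c, d x c = k ∧ Btw d x c y ∧ Btw d x c z) → k ≤ d x y := by
      rintro k ⟨c, hc1, hc2, -⟩
      unfold Btw at hc2
      omega
    set K := Nat.findGreatest (fun k => ∃ c, d x c = k ∧ Btw d x c y ∧ Btw d x c z) (d x y)
      with hK
    have hKs : ∃ c, d x c = K ∧ Btw d x c y ∧ Btw d x c z := by
      obtain ⟨k, hk⟩ := hP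
      exact Nat.findGreatest_spec (P := fun k => ∃ c, d x c = k ∧ Btw d x c y ∧ Btw d x c z)
        (hbd k hk) hk
    obtain ⟨c, hc1, hc2, hc3⟩ := hKs
    obtain ⟨p, hp⟩ := hd c y
    obtain ⟨q, hq⟩ := hd c z
    refine ⟨c, hc2, hdiv hp hq ?_, hc3⟩
    by_contra hcon
    push Not at hcon
    obtain ⟨h1, h2, h3⟩ := hcon
    obtain ⟨s1, s2⟩ := hstep hp (by omega)
    obtain ⟨s3, s4⟩ := hstep hq (by omega)
    rw [← h3] at s3 s4
    have t1 := htri x c (p 1)
    have t2 := htri x (p 1) y
    have t3 := htri x (p 1) z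
    unfold Btw at hc2 hc3
    have h5 : d x (p 1) = K + 1 := by omega
    have h6 : K + 1 ≤ d x y := by omega
    have h7 := Nat.findGreatest_is_greatest
      (P := fun k => ∃ c, d x c = k ∧ Btw d x c y ∧ Btw d x c z) (n := d x y) (k := K + 1)
      (by rw [← hK]; omega) h6
    apply h7
    refine ⟨p 1, h5, ?_, ?_⟩
    · unfold Btw; omega
    · unfold Btw; omega
  have hT : ∀ x y q w, Btw d x q y → Btw d x q w ∨ Btw d w q y := by
    intro x y q w h
    obtain ⟨a, ha1⟩ := hd q x
    obtain ⟨b, hb1⟩ := hd q y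
    obtain ⟨r, hr1⟩ := hd q w
    by_cases h1 : d q x = 0 ∨ d q w = 0 ∨ a 1 ≠ r 1
    · exact Or.inl (hdiv ha1 hr1 h1)
    · by_cases h2 : d q w = 0 ∨ d q y = 0 ∨ r 1 ≠ b 1
      · exact Or.inr (hdiv hr1 hb1 h2)
      · exfalso
        push Not at h1 h2
        obtain ⟨k1, k2, k3⟩ := h1
        obtain ⟨k4, k5, k6⟩ := h2
        obtain ⟨s1, s2⟩ := hstep ha1 (by omega)
        obtain ⟨s3, s4⟩ := hstep hb1 (by omega)
        rw [← k6, ← k3] at s3 s4
        have t1 := htri x (a 1) y
        have t2 := hsymm x (a 1)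
        have t3 := hsymm x q
        unfold Btw at h
        omega
  refine ⟨d, ⟨hrefl, heq0, hsymm, htri, ?_, ?_, hmed⟩, hE, ?_, ?_⟩
  · intro x y k hk
    obtain ⟨p, hp⟩ := hd x y
    have h1 := hlen (hp.sub (i := 0) (j := k) (by omega) hk)
    have h2 := hlen (hp.sub (i := k) (j := d x y) hk le_rfl)
    rw [hp.st] at h1
    rw [hp.en] at h2
    refine ⟨p k, by omega, ?_⟩
    unfold Btw
    omega
  · intro x y z w
    obtain ⟨q, h1, h2, h3⟩ := hmed x y z
    have t1 := htri z q w
    have t2 := hsymm z q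
    have t3 := hsymm w q
    have t4 := hsymm w y
    have t5 := hsymm q y
    rcases hT x y q w h1 with h | h
    · right
      unfold Btw at *
      omega
    · left
      unfold Btw at *
      omega
  · intro σ hσ x y
    obtain ⟨p, hp⟩ := hd x y
    have h1 := hle (fun i => σ (p i)) (d x y) fun i hi => hσ _ _ (hp.ch i hi)
    simp only [hp.st, hp.en] at h1
    exact h1
  · intro p n hp hr i j hij hj
    exact hlen ((⟨hp, hr, rfl, rfl⟩ : GRC E p n (p 0) (p n)).sub hij hj)

end AHX
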