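import Pool.Agent.AHX.AmDefs
import Pool.Agent.AHX.GTree

set_option autoImplicit false

/-!
# AHX module AMT: the (subdivided) Bass-Serre tree of an amalgam

Apply `gtree` to `EV P Q R`.

Connected: `x₀ = rv 1`.  The set of `g` such that `rv g` is joined to `rv 1` by a chain, is everything:
it is stable under right multiplication by `p ∈ P` (`rv g, pv g = pv (g p), rv (g p)`) and by `q ∈ Q`,
and `P ⊔ Q = ⊤`.  Every vertex is equal or adjacent to some `rv g`.

No closed reduced chain (`am_acyc`).  The vertices of a chain are alternately of type `R` and of type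
`P` or `Q`.  The neighbours of `rv g` are `pv g` and `qv g`; the neighbours of `pv g` are `rv (g p)`,
`p ∈ P`.  So a reduced chain which starts at `rv g₀` goes through `rv g₀, rv g₁, ...` with
`g_{i+1} = g_i a_i`, `a_i` alternately in `P \ R` and `Q \ R` (reduced at the middle vertex means
`rv g_i ≠ rv g_{i+1}`, reduced at `rv g_i` means that the types alternate), with a last half step if the
length is odd.  Let the chain be closed.
 * start and end of type `R`: `rv g₀ = rv (g₀ a₁ ... a_k)`, `k ≥ 1`, so `a₁ ... a_k ∈ R`,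
   contradiction to `red`.
 * start and end `pv g₀ = pv g₁` (the case `Q` is the same): the second vertex is `rv h`, `h = g₀ p`, the
   last but one vertex is `rv (h a₁ ... a_k)` and is adjacent to `pv g₀ = pv h`, so
   `a₁ ... a_k ∈ P`; the chain is reduced at `rv h`, so `a₁ ∈ Q \ R`, and at the last `R` vertex,
   so `a_k ∈ Q \ R` (and `k ≥ 1`: if `k = 0` the chain is `pv, rv, pv`, not reduced).  With
   `p' = a₁ ... a_k ∈ P`: if `p' ∈ R` contradiction; otherwise `a₁, ..., a_k, p'⁻¹` is alternating with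
   product `1 ∈ R`, contradiction.

`am_alt`: the chain `rv 1, (pv or qv) 1, rv a₁, (qv or pv) a₁, rv (a₁ a₂), ...` of length
`2 * (l ++ l').length` is reduced.
`even`: every reduced chain between two vertices of type `R` has even length.
-/

namespace AHX

variable {Γ : Type} [Group Γ] {P Q R : Subgroup Γ}

/-- The two factors. -/
def amS (P Q : Subgroup Γ) : Bool → Subgroup Γ
  | true => P
  | false => Q

/-- The vertices of type `P` and `Q`. -/
def amv (P Q R : Subgroup Γ) : Bool → Γ → Vx P Q R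
  | true, g => pv P Q R g
  | false, g => qv P Q R g

/-- The type of a vertex. -/
def amt {P Q R : Subgroup Γ} : Vx P Q R → Bool
  | Sum.inl _ => false
  | Sum.inr (Sum.inl _) => false
  | Sum.inr (Sum.inr _) => true

theorem am_le (A : Amal P Q R) (b : Bool) : R ≤ amS P Q b := by
  cases b
  · exact A.hRQ
  · exact A.hRP

theorem alt_cons {b : Bool} {g : Γ} {l : List Γ} :
    Alt P Q R b (g :: l) ↔ g ∈ amS P Q b ∧ g ∉ R ∧ Alt P Q R (!b) l := by
  cases b <;> exact Iff.rfl

theorem rv_eq {g h : Γ} : rv P Q R g = rv P Q R h ↔ g⁻¹ * h ∈ R := by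
  unfold rv
  rw [Sum.inr.injEq, Sum.inr.injEq, QuotientGroup.eq]

theorem amv_eq {b : Bool} {g h : Γ} : amv P Q R b g = amv P Q R b h ↔ g⁻¹ * h ∈ amS P Q b := by
  cases b
  · unfold amv qv amS
    rw [Sum.inr.injEq, Sum.inl.injEq, QuotientGroup.eq]
  · unfold amv pv amS
    rw [Sum.inl.injEq, QuotientGroup.eq]

theorem amv_inj {b c : Bool} {g h : Γ} (e : amv P Q R b g = amv P Q R c h) : b = c := by
  cases b <;> cases c
  · rfl
  · exact absurd e (by unfold amv pv qv; exact fun e => by cases e)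
  · exact absurd e (by unfold amv pv qv; exact fun e => by cases e)
  · rfl

theorem amt_rv (g : Γ) : amt (rv P Q R g) = true := rfl

theorem amt_amv (b : Bool) (g : Γ) : amt (amv P Q R b g) = false := by
  cases b <;> rfl

theorem am_cases (x : Vx P Q R) : (∃ g, x = rv P Q R g) ∨ ∃ b g, x = amv P Q R b g := by
  rcases x with x | x | x
  · obtain ⟨g, rfl⟩ := QuotientGroup.mk_surjective x
    exact Or.inr ⟨true, g, rfl⟩
  · obtain ⟨g, rfl⟩ := QuotientGroup.mk_surjective x
    exact Or.inr ⟨false, g, rfl⟩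
  · obtain ⟨g, rfl⟩ := QuotientGroup.mk_surjective x
    exact Or.inl ⟨g, rfl⟩

theorem ev_iff (x y : Vx P Q R) : EV P Q R x y ↔
    ∃ (g : Γ) (b : Bool), (x = rv P Q R g ∧ y = amv P Q R b g) ∨
      (y = rv P Q R g ∧ x = amv P Q R b g) := by
  unfold EV
  constructor
  · rintro ⟨g, ⟨h1, h2 | h2⟩ | ⟨h1, h2 | h2⟩⟩
    · exact ⟨g, true, Or.inl ⟨h1, h2⟩⟩
    · exact ⟨g, false, Or.inl ⟨h1, h2⟩⟩
    · exact ⟨g, true, Or.inr ⟨h1, h2⟩⟩
    · exact ⟨g, false, Or.inr ⟨h1, h2⟩⟩
  · rintro ⟨g, b, ⟨h1, h2⟩ | ⟨h1, h2⟩⟩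
    · cases b
      · exact ⟨g, Or.inl ⟨h1, Or.inr h2⟩⟩
      · exact ⟨g, Or.inl ⟨h1, Or.inl h2⟩⟩
    · cases b
      · exact ⟨g, Or.inr ⟨h1, Or.inr h2⟩⟩
      · exact ⟨g, Or.inr ⟨h1, Or.inl h2⟩⟩

theorem ev_symm {x y : Vx P Q R} (h : EV P Q R x y) : EV P Q R y x := by
  obtain ⟨g, h⟩ := h
  exact ⟨g, h.symm⟩

theorem ev_rv_amv (g : Γ) (b : Bool) : EV P Q R (rv P Q R g) (amv P Q R b g) :=
  (ev_iff _ _).2 ⟨g, b, Or.inl ⟨rfl, rfl⟩⟩

theorem ev_amv_rv {g a : Γ} {b : Bool} (ha : a ∈ amS P Q b) :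
    EV P Q R (amv P Q R b g) (rv P Q R (g * a)) := by
  have h1 : amv P Q R b g = amv P Q R b (g * a) := by
    rw [amv_eq, inv_mul_cancel_left]
    exact ha
  rw [h1]
  exact ev_symm (ev_rv_amv _ _)

theorem ev_rv (A : Amal P Q R) {g : Γ} {y : Vx P Q R} (h : EV P Q R (rv P Q R g) y) :
    ∃ b, y = amv P Q R b g := by
  obtain ⟨g', b, ⟨h1, h2⟩ | ⟨h1, h2⟩⟩ := (ev_iff _ _).1 h
  · refine ⟨b, ?_⟩
    rw [h2, eq_comm, amv_eq]
    exact am_le A b (rv_eq.1 h1)
  · have h3 := congrArg amt h2
    rw [amt_rv, amt_amv] at h3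
    exact absurd h3 (by simp)

theorem ev_amv {g : Γ} {b : Bool} {y : Vx P Q R} (h : EV P Q R (amv P Q R b g) y) :
    ∃ a ∈ amS P Q b, y = rv P Q R (g * a) := by
  obtain ⟨g', b', ⟨h1, h2⟩ | ⟨h1, h2⟩⟩ := (ev_iff _ _).1 h
  · have h3 := congrArg amt h1
    rw [amt_rv, amt_amv] at h3
    exact absurd h3 (by simp)
  · have h3 := amv_inj h2
    subst h3
    refine ⟨g⁻¹ * g', amv_eq.1 h2, ?_⟩
    rw [h1, mul_inv_cancel_left]

theorem ev_type {x y : Vx P Q R} (h : EV P Q R x y) : amt y = !(amt x) := by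
  obtain ⟨g, b, ⟨h1, h2⟩ | ⟨h1, h2⟩⟩ := (ev_iff _ _).1 h
  · rw [h1, h2, amt_rv, amt_amv]
    rfl
  · rw [h1, h2, amt_rv, amt_amv]
    rfl

theorem am_chain {x y : Vx P Q R} (h : Relation.ReflTransGen (EV P Q R) x y) :
    ∃ (p : ℕ → Vx P Q R) (n : ℕ), p 0 = x ∧ p n = y ∧ ∀ i, i < n → EV P Q R (p i) (p (i + 1)) := by
  induction h with
  | refl => exact ⟨fun _ => x, 0, rfl, rfl, fun i hi => by omega⟩
  | tail h1 h2 ih =>
    rename_i y z
    obtain ⟨p, n, hp0, hpn, hp⟩ := ih
    refine ⟨fun i => if i ≤ n then p i else z, n + 1, ?_, ?_, fun i hi => ?_⟩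
    · simp only [Nat.zero_le, if_true]
      exact hp0
    · simp
    · rcases Nat.lt_or_ge i n with h3 | h3
      · have e1 : i ≤ n := by omega
        have e2 : i + 1 ≤ n := by omega
        simp only [if_pos e1, if_pos e2]
        exact hp i h3
      · have e1 : i = n := by omega
        subst e1
        have e2 : ¬ i + 1 ≤ i := by omega
        simp only [le_refl, if_true, if_neg e2]
        rw [hpn]
        exact h2

theorem am_rtg_symm {x y : Vx P Q R} (h : Relation.ReflTransGen (EV P Q R) x y) :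
    Relation.ReflTransGen (EV P Q R) y x := by
  induction h with
  | refl => exact Relation.ReflTransGen.refl
  | tail _ h2 ih => exact Relation.ReflTransGen.head (ev_symm h2) ih

theorem am_conn (A : Amal P Q R) (x y : Vx P Q R) : ∃ (p : ℕ → Vx P Q R) (n : ℕ), p 0 = x ∧
    p n = y ∧ ∀ i, i < n → EV P Q R (p i) (p (i + 1)) := by
  let S : Subgroup Γ :=
    { carrier := {g | ∀ h : Γ, Relation.ReflTransGen (EV P Q R) (rv P Q R h) (rv P Q R (h * g))}
      one_mem' := fun h => by rw [mul_one]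
      mul_mem' := fun {a b} ha hb h => by
        have h1 := ha h
        have h2 := hb (h * a)
        rw [mul_assoc] at h2
        exact h1.trans h2
      inv_mem' := fun {a} ha h => by
        have h1 := ha (h * a⁻¹)
        rw [inv_mul_cancel_right] at h1
        exact am_rtg_symm h1 }
  have hS : ∀ b, amS P Q b ≤ S := by
    intro b a ha h
    exact (Relation.ReflTransGen.single (ev_rv_amv h b)).tail (ev_amv_rv ha)
  have hT : S = ⊤ := by
    rw [eq_top_iff, ← A.gen]
    exact sup_le (hS true) (hS false)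
  have h1 : ∀ g : Γ, Relation.ReflTransGen (EV P Q R) (rv P Q R 1) (rv P Q R g) := by
    intro g
    have h2 : g ∈ S := by rw [hT]; exact Subgroup.mem_top g
    have h3 := h2 1
    rwa [one_mul] at h3
  have h2 : ∀ x : Vx P Q R, Relation.ReflTransGen (EV P Q R) (rv P Q R 1) x := by
    intro x
    rcases am_cases x with ⟨g, rfl⟩ | ⟨b, g, rfl⟩
    · exact h1 g
    · exact (h1 g).tail (ev_rv_amv g b)
  exact am_chain ((am_rtg_symm (h2 x)).trans (h2 y))

theorem am_form (A : Amal P Q R) : ∀ (k : ℕ) (p : ℕ → Vx P Q R) (b : Bool) (g₀ : Γ),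
    p 0 = rv P Q R g₀ → p 1 = amv P Q R b g₀ →
    (∀ i, i < 2 * k + 1 → EV P Q R (p i) (p (i + 1))) →
    (∀ i, i + 2 ≤ 2 * k + 1 → p i ≠ p (i + 2)) →
    ∃ (l : List Γ) (e : Bool), l.length = k ∧ Alt P Q R b l ∧
      p (2 * k) = rv P Q R (g₀ * l.prod) ∧ p (2 * k + 1) = amv P Q R e (g₀ * l.prod) ∧
      ∀ a ∈ amS P Q e, a ∉ R → Alt P Q R b (l ++ [a]) := by
  intro k
  induction k with
  | zero =>
    intro p b g₀ h0 h1 _ _
    refine ⟨[], b, rfl, by cases b <;> exact trivial, by simpa using h0, by simpa using h1,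
      fun a ha haR => ?_⟩
    rw [List.nil_append, alt_cons]
    exact ⟨ha, haR, by cases b <;> exact trivial⟩
  | succ k ih =>
    intro p b g₀ h0 h1 hp hr
    have e1 := hp 1 (by omega)
    rw [h1] at e1
    obtain ⟨a, ha, h2⟩ := ev_amv e1
    have haR : a ∉ R := by
      intro haR
      apply hr 0 (by omega)
      rw [h0]
      change _ = p (1 + 1)
      rw [h2, rv_eq, inv_mul_cancel_left]
      exact haR
    have e2 := hp 2 (by omega)
    have h2' : p 2 = rv P Q R (g₀ * a) := h2
    rw [h2'] at e2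
    obtain ⟨b', h3⟩ := ev_rv A e2
    have hb' : b' = !b := by
      by_contra hcon
      have hbb : b' = b := by
        cases b <;> cases b' <;> simp at hcon ⊢
      subst hbb
      apply hr 1 (by omega)
      rw [h1]
      change _ = p (2 + 1)
      rw [h3, amv_eq, inv_mul_cancel_left]
      exact ha
    subst hb'
    obtain ⟨l, e, hl, hA, h4, h5, h6⟩ := ih (fun i => p (i + 2)) (!b) (g₀ * a) h2' h3
      (fun i hi => hp (i + 2) (by omega)) (fun i hi => hr (i + 2) (by omega))
    refine ⟨a :: l, e, by simp [hl], alt_cons.2 ⟨ha, haR, hA⟩, ?_, ?_, fun c hc hcR => ?_⟩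
    · have : 2 * (k + 1) = 2 * k + 2 := by ring
      rw [this, List.prod_cons, ← mul_assoc]
      exact h4
    · have : 2 * (k + 1) + 1 = 2 * k + 1 + 2 := by ring
      rw [this, List.prod_cons, ← mul_assoc]
      exact h5
    · rw [List.cons_append, alt_cons]
      exact ⟨ha, haR, h6 c hc hcR⟩

theorem am_type (p : ℕ → Vx P Q R) (n : ℕ) (hp : ∀ i, i < n → EV P Q R (p i) (p (i + 1))) :
    ∀ i, i ≤ n → (amt (p i) = amt (p 0) ↔ Even i) := by
  intro i
  induction i with
  | zero => intro _; simp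
  | succ i ih =>
    intro hi
    have h1 := ih (by omega)
    have h2 := ev_type (hp i (by omega))
    rw [h2, Nat.even_add_one, ← h1]
    cases amt (p i) <;> cases amt (p 0) <;> simp

theorem am_acyc (A : Amal P Q R) (p : ℕ → Vx P Q R) (n : ℕ) (hn : 1 ≤ n)
    (hp : ∀ i, i < n → EV P Q R (p i) (p (i + 1))) (hr : ∀ i, i + 2 ≤ n → p i ≠ p (i + 2)) :
    p 0 ≠ p n := by
  intro hcl
  have hev : Even n := (am_type p n hp n le_rfl).1 (by rw [hcl])
  obtain ⟨k, rfl⟩ : ∃ k, n = 2 * k + 2 := by
    obtain ⟨m, hm⟩ := hev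
    exact ⟨m - 1, by omega⟩
  have e0 := hp 0 (by omega)
  have e1 := hp 1 (by omega)
  rcases am_cases (p 0) with ⟨g, h0⟩ | ⟨b, g, h0⟩
  · rw [h0] at e0
    obtain ⟨b, h1⟩ := ev_rv A e0
    obtain ⟨l, e, hl, hA, h2, h3, h4⟩ := am_form A k p b g h0 h1
      (fun i hi => hp i (by omega)) (fun i hi => hr i (by omega))
    have e2 := hp (2 * k + 1) (by omega)
    rw [h3] at e2
    obtain ⟨a, ha, h5⟩ := ev_amv e2
    have haR : a ∉ R := by
      intro haR
      apply hr (2 * k) (by omega)
      rw [h2]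
      change _ = p (2 * k + 1 + 1)
      rw [h5, rv_eq, inv_mul_cancel_left]
      exact haR
    have h6 := A.red b (l ++ [a]) (by simp) (h4 a ha haR)
    apply h6
    have h7 : p (2 * k + 2) = rv P Q R (g * l.prod * a) := h5
    rw [← hcl, h0, rv_eq] at h7
    rw [List.prod_append, List.prod_singleton]
    have h8 : g⁻¹ * (g * l.prod * a) = l.prod * a := by group
    rwa [h8] at h7
  · rw [h0] at e0
    obtain ⟨c, hc, h1⟩ := ev_amv e0
    have h1' : p 1 = rv P Q R (g * c) := h1
    have h0' : p 0 = amv P Q R b (g * c) := by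
      rw [h0, amv_eq, inv_mul_cancel_left]
      exact hc
    rw [h1'] at e1
    obtain ⟨b', h2⟩ := ev_rv A e1
    have h2' : p 2 = amv P Q R b' (g * c) := h2
    have hr0 := hr 0 (by omega)
    rw [Nat.zero_add, h0', h2'] at hr0
    have hb' : b' = !b := by
      by_contra hcon
      have hbb : b' = b := by
        cases b <;> cases b' <;> simp at hcon ⊢
      subst hbb
      exact hr0 rfl
    subst hb'
    rcases Nat.eq_zero_or_pos k with hk | hk
    · subst hk
      exact hr0 (by rw [← h0', ← h2', hcl])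
    · obtain ⟨l, e, hl, hA, h3, h4, h5⟩ := am_form A k (fun i => p (i + 1)) (!b) (g * c) h1' h2'
        (fun i hi => hp (i + 1) (by omega)) (fun i hi => hr (i + 1) (by omega))
      have hlne : l ≠ [] := by
        intro h
        rw [h] at hl
        simp at hl
        omega
      have h6 : amv P Q R b (g * c) = amv P Q R e (g * c * l.prod) := by
        rw [← h0', hcl]
        exact h4
      have h7 := amv_inj h6
      subst h7
      rw [amv_eq, inv_mul_cancel_left] at h6
      have h8 := A.red _ l hlne hA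
      have h9 : l.prod⁻¹ ∉ R := fun h => h8 (R.inv_mem_iff.1 h)
      have h10 := h5 l.prod⁻¹ ((amS P Q b).inv_mem h6) h9
      refine A.red _ _ (by simp) h10 ?_
      rw [List.prod_append, List.prod_singleton, mul_inv_cancel]
      exact R.one_mem

theorem am_alt : ∀ (l : List Γ) (b : Bool) (g : Γ), Alt P Q R b l →
    ∃ p : ℕ → Vx P Q R, p 0 = rv P Q R g ∧ p 1 = amv P Q R b g ∧
      (∀ i, i ≤ l.length → p (2 * i) = rv P Q R (g * (l.take i).prod)) ∧
      (∀ i, i < 2 * l.length → EV P Q R (p i) (p (i + 1))) ∧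
      ∀ i, i + 2 ≤ 2 * l.length → p i ≠ p (i + 2) := by
  intro l
  induction l with
  | nil =>
    intro b g _
    refine ⟨fun i => if i = 0 then rv P Q R g else amv P Q R b g, rfl, rfl, fun i hi => ?_,
      fun i hi => by simp at hi, fun i hi => by simp at hi⟩
    have : i = 0 := by simpa using hi
    subst this
    simp
  | cons a l ih =>
    intro b g h
    obtain ⟨ha, haR, hA⟩ := alt_cons.1 h
    obtain ⟨p, h0, h1, h2, h3, h4⟩ := ih (!b) (g * a) hA
    refine ⟨fun i => if i = 0 then rv P Q R g else if i = 1 then amv P Q R b g else p (i - 2),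
      rfl, rfl, fun i hi => ?_, fun i hi => ?_, fun i hi => ?_⟩
    · rcases Nat.eq_zero_or_pos i with hi0 | hi0
      · subst hi0
        simp
      · obtain ⟨j, rfl⟩ : ∃ j, i = j + 1 := ⟨i - 1, by omega⟩
        have e1 : 2 * (j + 1) ≠ 0 := by omega
        have e2 : 2 * (j + 1) ≠ 1 := by omega
        have e3 : 2 * (j + 1) - 2 = 2 * j := by omega
        simp only [if_neg e1, if_neg e2, e3, List.take_succ_cons, List.prod_cons, ← mul_assoc]
        exact h2 j (by simpa using hi)
    · rcases i with _ | _ | i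
      · exact ev_rv_amv g b
      · change EV P Q R (amv P Q R b g) (p 0)
        rw [h0]
        exact ev_amv_rv ha
      · change EV P Q R (p i) (p (i + 1))
        refine h3 i ?_
        simp only [List.length_cons] at hi
        omega
    · rcases i with _ | _ | i
      · change rv P Q R g ≠ p 0
        rw [h0, Ne, rv_eq, inv_mul_cancel_left]
        exact haR
      · change amv P Q R b g ≠ p 1
        rw [h1]
        intro e
        have := amv_inj e
        cases b <;> simp at this
      · change p i ≠ p (i + 2)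
        refine h4 i ?_
        simp only [List.length_cons] at hi
        omega

theorem ev_smul (g : Γ) {x y : Vx P Q R} (h : EV P Q R x y) : EV P Q R (g • x) (g • y) := by
  obtain ⟨g', ⟨rfl, h⟩ | ⟨rfl, h⟩⟩ := h
  · refine ⟨g * g', Or.inl ⟨rfl, ?_⟩⟩
    rcases h with rfl | rfl
    · exact Or.inl rfl
    · exact Or.inr rfl
  · refine ⟨g * g', Or.inr ⟨rfl, ?_⟩⟩
    rcases h with rfl | rfl
    · exact Or.inl rfl
    · exact Or.inr rfl

theorem amal_tree (A : Amal P Q R) : ∃ d : Vx P Q R → Vx P Q R → ℕ, Tree d ∧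
    (∀ (g : Γ) (x y : Vx P Q R), d (g • x) (g • y) = d x y) ∧
    (∀ x y, EV P Q R x y ↔ d x y = 1) ∧
    (∀ (b : Bool) (l l' : List Γ), Alt P Q R b (l ++ l') →
      d (rv P Q R 1) (rv P Q R l.prod) = 2 * l.length ∧
      Btw d (rv P Q R 1) (rv P Q R l.prod) (rv P Q R (l ++ l').prod)) ∧
    (∀ g g' : Γ, Even (d (rv P Q R g) (rv P Q R g'))) := by
  obtain ⟨d, T, hE, hσ, hch⟩ := gtree (EV P Q R) (fun x y h => ev_symm h) (am_conn A)
    (fun p n h1 h2 h3 => am_acyc A p n h1 h2 h3)
  refine ⟨d, T, fun g x y => ?_, hE, fun b l l' h => ?_, fun g g' => ?_⟩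
  · refine le_antisymm (hσ (fun x => g • x) (fun x y h => ev_smul g h) x y) ?_
    have h1 := hσ (fun x => g⁻¹ • x) (fun x y h => ev_smul g⁻¹ h) (g • x) (g • y)
    simpa only [inv_smul_smul] using h1
  · obtain ⟨p, h0, -, h2, h3, h4⟩ := am_alt (l ++ l') b 1 h
    have h5 := hch p _ h3 h4
    have e0 : p 0 = rv P Q R 1 := h0
    have e1 : p (2 * l.length) = rv P Q R l.prod := by
      rw [h2 l.length (by simp), List.take_left', one_mul]
      rfl
    have e2 : p (2 * (l ++ l').length) = rv P Q R (l ++ l').prod := by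
      rw [h2 _ le_rfl, List.take_length, one_mul]
    have hle : 2 * l.length ≤ 2 * (l ++ l').length := by simp
    have k1 := h5 0 (2 * l.length) (Nat.zero_le _) hle
    have k2 := h5 (2 * l.length) (2 * (l ++ l').length) hle le_rfl
    have k3 := h5 0 (2 * (l ++ l').length) (Nat.zero_le _) le_rfl
    rw [e0, e1] at k1
    rw [e1, e2] at k2
    rw [e0, e2] at k3
    refine ⟨by omega, ?_⟩
    unfold Btw
    omega
  · have key : ∀ (k : ℕ) (x y : Vx P Q R), d x y = k → (amt y = amt x ↔ Even k) := by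
      intro k
      induction k with
      | zero =>
        intro x y h
        rw [T.eq0 x y h]
        simp
      | succ k ih =>
        intro x y h
        obtain ⟨z, h1, h2⟩ := T.mid x y k (by omega)
        unfold Btw at h2
        have h3 := ih x z h1
        have h4 : EV P Q R z y := (hE z y).2 (by omega)
        have h5 := ev_type h4
        rw [h5, Nat.even_add_one, ← h3]
        cases amt z <;> cases amt x <;> simp
    exact (key _ _ _ rfl).1 rfl

end AHX
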