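import Pool.Agent.AHX.ArtCP

set_option autoImplicit false

/-!
# AHX module ARTC: parabolic subgroups of Artin groups, consequences of the Charney-Paris action

Notation: `A = Art M Set.univ`, `s r` the simple reflections, `ρ` from `exists_cp M X`,
`o = (1, 1) ∈ St M X`, `inc : Art M X →* A` from `exists_inc`, with image `Par X`.

(a) For `a ∈ Art M X`: `ρ (inc a) (1, h) = (1, a * h)` (for a generator `x ∈ X`: `s x * 1 = 1 * s x`).
* `inc_inj`: so `inc` is injective.  `inc_inj'`: for `X ⊆ X'` compose with `Art M X' → A`.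
(b) For `Z ⊆ B` the set of `(u, h)` with `u ∈ WP Z` and `h ∈ Par M X (X ∩ Z)` is invariant under `ρ g`,
`g ∈ Par Z`: generator `z ∈ Z` (and its inverse): if `s z u` is minimal: clear; if `s z u = u s x`,
then `s x = u⁻¹ s z u ∈ WP Z`, so `x ∈ Z` (`simple_mem`).
* `par_inter`: `g = inc a`; `ρ g o = (1, a)` by (a) and the second component is in
  `Par M X (X ∩ Z)` by (b), so `g ∈ Par (X ∩ Z)`.
* `gen_mem_iff`: if `r ∉ X`, `ρ (gen r) o = (s r, 1)` (`rmin_simple`), and (a).
* `gen_pow_mem`: `ρ (gen r)` exchanges `(1, h)` and `(s r, h)`.  If `gen r ^ n = inc a` then by (a)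
  `(1, a) = ρ (gen r ^ n) o ∈ {(1, 1), (s r, 1)}`, so `a = 1`, `gen r ^ n = 1`, and `n = 0` by
  `exists_len`.
(c) Let `r ∉ X`.  The set of `(u, h)` with `u * s r ∈ WP X` and `h ∈ Par M X (perp X r)` is invariant
under `ρ c`, `c ∈ Par X`: generator `x ∈ X`: if `s x u` is minimal: clear; if `s x u = u s x'` then
with `v = u s r ∈ WP X`: `s r s x' s r = v⁻¹ s x v ∈ WP X`, so `M x' r = 2` (`conj_perp`).
* `star`: let `c' = (gen r)^(-j) * c * (gen r)^i ∈ Par X`, so `c * r^i = r^j * c'`,
  `c = inc a`, `c' = inc a'`.  Apply `ρ` to `o`: the right side is `ρ (r^j) (1, a')`, which is `(1, a')`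
  if `j` is even and `(s r, a')` if `j` is odd.  The left side is `ρ c (1, 1) = (1, a)` if `i` is even,
  and `ρ c (s r, 1) = (u, h)` with `u s r ∈ WP X`, `h ∈ Par M X (perp X r)` if `i` is odd (by (c)).
  - `i` even, `j` odd: `1 = s r`, impossible.  `i` odd, `j` even: `u = 1`, `s r ∈ WP X`, impossible
    (`simple_mem`).
  - `i`, `j` even: `a = a'`, so `c = c'`; the length homomorphism gives `i = j`.
  - `i`, `j` odd: `a' = h`, so `c' ∈ Par (perp X r)` commutes with `r` (`par_perp_comm`), and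
    `c = r^j c' r^(-i) = r^(j-i) c'`, so `r^(j-i) ∈ Par X`, `i = j` by `gen_pow_mem`, `c = c'`.
* `star_one`: `i = j = 1`.
The statements inside `Art M X'` (`X ⊆ X'`) follow by applying the injective homomorphism
`Art M X' → A`; they are not needed, all applications are inside `A`.
-/

namespace AHX

variable {B : Type} {M : CoxeterMatrix B} {X X' Z : Set B}

/-- the base point -/
private def artc_o (M : CoxeterMatrix B) (X : Set B) :
    {u : M.Group // RMin M.toCoxeterSystem X u} := ⟨1, rmin_one M.toCoxeterSystem⟩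

/-- the two properties of the action -/
private def artc_cp (M : CoxeterMatrix B) (X : Set B)
    (ρ : Art M Set.univ →* Equiv.Perm (St M X)) : Prop :=
  (∀ (r : B) (u u' : {u : M.Group // RMin M.toCoxeterSystem X u}) (h : Art M X),
    (u' : M.Group) = M.toCoxeterSystem.simple r * u →
    ρ (gen M Set.univ r) (u, h) = (u', h)) ∧
  (∀ (r x : B) (u : {u : M.Group // RMin M.toCoxeterSystem X u}) (h : Art M X), x ∈ X →
    M.toCoxeterSystem.simple r * u = u * M.toCoxeterSystem.simple x →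
    ρ (gen M Set.univ r) (u, h) = (u, gen M X x * h))

private theorem artc_base {ρ : Art M Set.univ →* Equiv.Perm (St M X)} (hρ : artc_cp M X ρ)
    {φ : Art M X →* Art M Set.univ} (hφ : ∀ i ∈ X, φ (gen M X i) = gen M Set.univ i)
    (a : Art M X) : ∀ h : Art M X, ρ (φ a) (artc_o M X, h) = (artc_o M X, a * h) := by
  have ha : a ∈ Subgroup.closure (gen M X '' X) := by
    rw [gen_top]
    exact Subgroup.mem_top a
  refine Subgroup.closure_induction
    (p := fun a _ => ∀ h : Art M X, ρ (φ a) (artc_o M X, h) = (artc_o M X, a * h))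
    ?_ ?_ ?_ ?_ ha
  · rintro _ ⟨i, hi, rfl⟩ h
    rw [hφ i hi]
    exact hρ.2 i i (artc_o M X) h hi (by simp [artc_o])
  · intro h
    simp
  · intro x y _ _ hx hy h
    rw [map_mul, map_mul, Equiv.Perm.mul_apply, hy, hx, mul_assoc]
  · intro x _ hx h
    rw [map_inv, map_inv, Equiv.Perm.inv_eq_iff_eq, hx]
    simp

/-- the natural homomorphism between Artin groups is injective (van der Lek) -/
theorem inc_inj {φ : Art M X →* Art M Set.univ}
    (h : ∀ i ∈ X, φ (gen M X i) = gen M Set.univ i) : Function.Injective φ := by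
  obtain ⟨ρ, hρ1, hρ2⟩ := exists_cp M X
  have hρ : artc_cp M X ρ := ⟨hρ1, hρ2⟩
  intro a b hab
  have h1 := artc_base hρ h a 1
  have h2 := artc_base hρ h b 1
  rw [hab, h2] at h1
  have h3 := congrArg Prod.snd h1
  simpa using h3.symm

theorem inc_inj' (hX : X ⊆ X') {φ : Art M X →* Art M X'}
    (h : ∀ i ∈ X, φ (gen M X i) = gen M X' i) : Function.Injective φ := by
  obtain ⟨ψ, hψ, -, -⟩ := exists_inc (M := M) (Set.subset_univ X')
  have h1 : Function.Injective (ψ.comp φ) := by
    apply inc_inj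
    intro i hi
    rw [MonoidHom.comp_apply, h i hi, hψ i (hX hi)]
  intro a b hab
  apply h1
  rw [MonoidHom.comp_apply, MonoidHom.comp_apply, hab]

/-- invariance of a set of states under a subgroup -/
private theorem artc_inv {ρ : Art M Set.univ →* Equiv.Perm (St M X)} (S : Set (St M X))
    (h : ∀ z ∈ Z, ∀ p, p ∈ S ↔ ρ (gen M Set.univ z) p ∈ S) {g : Art M Set.univ}
    (hg : g ∈ Par M Set.univ Z) : ∀ p, p ∈ S ↔ ρ g p ∈ S := by
  refine Subgroup.closure_induction (p := fun g _ => ∀ p, p ∈ S ↔ ρ g p ∈ S) ?_ ?_ ?_ ?_ hg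
  · rintro _ ⟨z, hz, rfl⟩ p
    exact h z hz p
  · intro p
    simp
  · intro x y _ _ hx hy p
    rw [map_mul, Equiv.Perm.mul_apply, hy p, hx]
  · intro x _ hx p
    have h1 := hx ((ρ x)⁻¹ p)
    rw [← Equiv.Perm.mul_apply, mul_inv_cancel, Equiv.Perm.one_apply] at h1
    rw [map_inv]
    exact h1.symm

theorem par_inter {g : Art M Set.univ} (h1 : g ∈ Par M Set.univ X)
    (h2 : g ∈ Par M Set.univ Z) : g ∈ Par M Set.univ (X ∩ Z) := by
  obtain ⟨ρ, hρ1, hρ2⟩ := exists_cp M X
  have hρ : artc_cp M X ρ := ⟨hρ1, hρ2⟩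
  obtain ⟨φ, hφ, hr, hm⟩ := exists_inc (M := M) (Set.subset_univ X)
  rw [← hr] at h1
  obtain ⟨a, rfl⟩ := h1
  set cs := M.toCoxeterSystem with hcs
  have hinv := artc_inv (ρ := ρ) (Z := Z)
    {p : St M X | (p.1 : M.Group) ∈ WP cs Z ∧ p.2 ∈ Par M X (X ∩ Z)} (by
      rintro z hz ⟨⟨u, hu⟩, h⟩
      have hsz : cs.simple z ∈ WP cs Z := (simple_mem cs).2 hz
      rcases deodhar cs hu z with hd | ⟨x, hx, hd⟩
      · rw [hρ.1 z ⟨u, hu⟩ ⟨cs.simple z * u, hd⟩ h rfl]
        show (u ∈ WP cs Z ∧ h ∈ Par M X (X ∩ Z)) ↔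
          (cs.simple z * u ∈ WP cs Z ∧ h ∈ Par M X (X ∩ Z))
        rw [Subgroup.mul_mem_cancel_left _ hsz]
      · rw [hρ.2 z x ⟨u, hu⟩ h hx hd]
        show (u ∈ WP cs Z ∧ h ∈ Par M X (X ∩ Z)) ↔
          (u ∈ WP cs Z ∧ gen M X x * h ∈ Par M X (X ∩ Z))
        refine and_congr_right fun huZ => ?_
        have hsx : cs.simple x ∈ WP cs Z := by
          have e : cs.simple x = u⁻¹ * (cs.simple z * u) := by
            rw [hd]
            group
          rw [e]
          exact mul_mem (inv_mem huZ) (mul_mem hsz huZ)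
        have hxZ : x ∈ Z := (simple_mem cs).1 hsx
        have hxm : gen M X x ∈ Par M X (X ∩ Z) := gen_mem_par ⟨hx, hxZ⟩
        rw [Subgroup.mul_mem_cancel_left _ hxm]) h2
  have h3 := (hinv (artc_o M X, 1)).1
    (show (1 : M.Group) ∈ WP cs Z ∧ (1 : Art M X) ∈ Par M X (X ∩ Z) from
      ⟨one_mem _, one_mem _⟩)
  rw [artc_base hρ hφ a 1, mul_one] at h3
  have h4 : a ∈ Par M X (X ∩ Z) := h3.2
  rw [← hm (X ∩ Z) Set.inter_subset_left]
  exact ⟨a, h4, rfl⟩

private theorem artc_sr {r : B} (hr : r ∉ X) {h h' : Art M X}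
    (e : ((artc_o M X, h) : St M X) =
      (⟨M.toCoxeterSystem.simple r, rmin_simple M.toCoxeterSystem hr⟩, h')) : False := by
  have h1 := congrArg (fun p : St M X => (p.1 : M.Group)) e
  have h2 : (1 : M.Group) = M.toCoxeterSystem.simple r := h1
  apply hr
  rw [← simple_mem M.toCoxeterSystem, ← h2]
  exact one_mem _

theorem gen_mem_iff {r : B} : gen M Set.univ r ∈ Par M Set.univ X ↔ r ∈ X := by
  constructor
  · intro h
    by_contra hr
    obtain ⟨ρ, hρ1, hρ2⟩ := exists_cp M X
    have hρ : artc_cp M X ρ := ⟨hρ1, hρ2⟩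
    obtain ⟨φ, hφ, hrg, hm⟩ := exists_inc (M := M) (Set.subset_univ X)
    rw [← hrg] at h
    obtain ⟨a, ha⟩ := h
    have h1 := artc_base hρ hφ a 1
    rw [ha, hρ.1 r (artc_o M X) ⟨M.toCoxeterSystem.simple r, rmin_simple _ hr⟩ 1
      (by simp [artc_o])] at h1
    exact artc_sr hr h1.symm
  · intro h
    exact gen_mem_par h

private theorem artc_pow {ρ : Art M Set.univ →* Equiv.Perm (St M X)} (hρ : artc_cp M X ρ)
    {r : B} (hr : r ∉ X) (h : Art M X) (n : ℤ) :
    (Even n → ρ (gen M Set.univ r ^ n) (artc_o M X, h) = (artc_o M X, h)) ∧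
    (Odd n → ρ (gen M Set.univ r ^ n) (artc_o M X, h) =
      (⟨M.toCoxeterSystem.simple r, rmin_simple _ hr⟩, h)) := by
  have e1 : ρ (gen M Set.univ r) (artc_o M X, h) =
      (⟨M.toCoxeterSystem.simple r, rmin_simple _ hr⟩, h) :=
    hρ.1 r _ _ h (by simp [artc_o])
  have e2 : ρ (gen M Set.univ r) (⟨M.toCoxeterSystem.simple r, rmin_simple _ hr⟩, h) =
      (artc_o M X, h) :=
    hρ.1 r _ _ h (by
      show (1 : M.Group) = M.toCoxeterSystem.simple r * M.toCoxeterSystem.simple r
      rw [M.toCoxeterSystem.simple_mul_simple_self])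
  have e3 : (ρ (gen M Set.univ r) * ρ (gen M Set.univ r)) (artc_o M X, h) = (artc_o M X, h) := by
    rw [Equiv.Perm.mul_apply, e1, e2]
  have e4 : ∀ k : ℤ, ((ρ (gen M Set.univ r) * ρ (gen M Set.univ r)) ^ k) (artc_o M X, h) =
      (artc_o M X, h) := fun k => Equiv.Perm.zpow_apply_eq_self_of_apply_eq_self e3 k
  have e5 : ∀ k : ℤ, ρ (gen M Set.univ r ^ (k + k)) (artc_o M X, h) = (artc_o M X, h) := by
    intro k
    rw [map_zpow, zpow_add, ← (Commute.refl (ρ (gen M Set.univ r))).mul_zpow]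
    exact e4 k
  constructor
  · rintro ⟨k, rfl⟩
    exact e5 k
  · rintro ⟨k, rfl⟩
    rw [show 2 * k + 1 = 1 + (k + k) by ring, zpow_add, zpow_one, map_mul,
      Equiv.Perm.mul_apply, e5, e1]

theorem gen_pow_one {r : B} {n : ℤ} (h : gen M Set.univ r ^ n = 1) : n = 0 := by
  obtain ⟨φ, hφ⟩ := exists_len (M := M)
  have h1 := congrArg φ h
  rw [map_zpow, hφ, map_one φ, ← ofAdd_zsmul] at h1
  have h2 : n • (1 : ℤ) = 0 := Multiplicative.ofAdd.injective h1
  simpa using h2

theorem gen_pow_mem {r : B} (hr : r ∉ X) {n : ℤ}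
    (h : gen M Set.univ r ^ n ∈ Par M Set.univ X) : n = 0 := by
  obtain ⟨ρ, hρ1, hρ2⟩ := exists_cp M X
  have hρ : artc_cp M X ρ := ⟨hρ1, hρ2⟩
  obtain ⟨φ, hφ, hrg, hm⟩ := exists_inc (M := M) (Set.subset_univ X)
  rw [← hrg] at h
  obtain ⟨a, ha⟩ := h
  have h1 := artc_base hρ hφ a 1
  rw [ha, mul_one] at h1
  have hp := artc_pow hρ hr 1 n
  have ha1 : a = 1 := by
    rcases Int.even_or_odd n with he | ho
    · rw [hp.1 he] at h1
      exact (congrArg Prod.snd h1).symm
    · rw [hp.2 ho] at h1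
      exact (congrArg Prod.snd h1).symm
  apply gen_pow_one (M := M) (r := r)
  rw [← ha, ha1, map_one]

/-- The property of all Artin groups on which everything is based. -/
theorem star {r : B} (hr : r ∉ X) {c : Art M Set.univ} (hc : c ∈ Par M Set.univ X) {i j : ℤ}
    (hi : i ≠ 0) (hj : j ≠ 0)
    (h : gen M Set.univ r ^ (-j) * c * gen M Set.univ r ^ i ∈ Par M Set.univ X) :
    i = j ∧ gen M Set.univ r ^ (-i) * c * gen M Set.univ r ^ i = c ∧
      (Odd i → c ∈ Par M Set.univ (perp M X r)) := by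
  obtain ⟨ρ, hρ1, hρ2⟩ := exists_cp M X
  have hρ : artc_cp M X ρ := ⟨hρ1, hρ2⟩
  obtain ⟨φ, hφ, hrg, hm⟩ := exists_inc (M := M) (Set.subset_univ X)
  set cs := M.toCoxeterSystem with hcs
  set R := gen M Set.univ r with hR
  set c' := R ^ (-j) * c * R ^ i with hc'
  have heq : c * R ^ i = R ^ j * c' := by
    rw [hc']
    group
  have hinv := artc_inv (ρ := ρ) (Z := X)
    {p : St M X | (p.1 : M.Group) * cs.simple r ∈ WP cs X ∧ p.2 ∈ Par M X (perp M X r)} (by
      rintro z hz ⟨⟨u, hu⟩, h⟩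
      have hsz : cs.simple z ∈ WP cs X := (simple_mem cs).2 hz
      rcases deodhar cs hu z with hd | ⟨x, hx, hd⟩
      · rw [hρ.1 z ⟨u, hu⟩ ⟨cs.simple z * u, hd⟩ h rfl]
        show (u * cs.simple r ∈ WP cs X ∧ h ∈ Par M X (perp M X r)) ↔
          (cs.simple z * u * cs.simple r ∈ WP cs X ∧ h ∈ Par M X (perp M X r))
        rw [mul_assoc, Subgroup.mul_mem_cancel_left _ hsz]
      · rw [hρ.2 z x ⟨u, hu⟩ h hx hd]
        show (u * cs.simple r ∈ WP cs X ∧ h ∈ Par M X (perp M X r)) ↔
          (u * cs.simple r ∈ WP cs X ∧ gen M X x * h ∈ Par M X (perp M X r))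
        refine and_congr_right fun huZ => ?_
        have hsx : cs.simple r * cs.simple x * cs.simple r ∈ WP cs X := by
          have e : cs.simple r * cs.simple x * cs.simple r =
              (u * cs.simple r)⁻¹ * (cs.simple z * (u * cs.simple r)) := by
            rw [← mul_assoc (cs.simple z), hd, mul_inv_rev, cs.inv_simple]
            group
          rw [e]
          exact mul_mem (inv_mem huZ) (mul_mem hsz huZ)
        have hxp : x ∈ perp M X r := ⟨hx, conj_perp cs hr hx hsx⟩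
        rw [Subgroup.mul_mem_cancel_left _ (gen_mem_par hxp)]) hc
  have hc0 := hc
  have h0 := h
  rw [← hrg] at hc h
  obtain ⟨a, ha⟩ := hc
  obtain ⟨a', ha'⟩ := h
  have hstar : ρ c (ρ (R ^ i) (artc_o M X, 1)) = ρ (R ^ j) (artc_o M X, a') := by
    have e1 := congrArg (fun g => ρ g (artc_o M X, (1 : Art M X))) heq
    simp only [map_mul, Equiv.Perm.mul_apply] at e1
    rw [e1, ← ha', artc_base hρ hφ a' 1, mul_one]
  obtain ⟨hi0, hi1⟩ := artc_pow hρ hr 1 i
  obtain ⟨hj0, hj1⟩ := artc_pow hρ hr a' j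
  rcases Int.even_or_odd i with hie | hio
  · rcases Int.even_or_odd j with hje | hjo
    · rw [hi0 hie, hj0 hje, ← ha, artc_base hρ hφ a 1, mul_one] at hstar
      have haa : a = a' := congrArg Prod.snd hstar
      have hcc : c' = c := by rw [← ha, ← ha', haa]
      have hij : i = j := by
        obtain ⟨l, hl⟩ := exists_len (M := M)
        have e1 := congrArg l heq
        rw [hcc, map_mul, map_mul, map_zpow, map_zpow, mul_comm] at e1
        have e2 := mul_right_cancel e1
        rw [hl, ← ofAdd_zsmul, ← ofAdd_zsmul] at e2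
        have e3 : i • (1 : ℤ) = j • (1 : ℤ) := Multiplicative.ofAdd.injective e2
        simpa using e3
      refine ⟨hij, ?_, ?_⟩
      · rw [← hij] at hc'
        rw [← hc', hcc]
      · intro ho
        exact absurd hie (Int.not_even_iff_odd.2 ho)
    · rw [hi0 hie, hj1 hjo, ← ha, artc_base hρ hφ a 1] at hstar
      exact absurd hstar fun e => artc_sr hr e
  · have hmem := (hinv (⟨cs.simple r, rmin_simple _ hr⟩, 1)).1
      ⟨by
        show cs.simple r * cs.simple r ∈ WP cs X
        rw [cs.simple_mul_simple_self]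
        exact one_mem _, one_mem _⟩
    rcases Int.even_or_odd j with hje | hjo
    · rw [hi1 hio, hj0 hje] at hstar
      rw [hstar] at hmem
      have h5 : (1 : M.Group) * cs.simple r ∈ WP cs X := hmem.1
      rw [one_mul] at h5
      exact absurd ((simple_mem cs).1 h5) hr
    · rw [hi1 hio, hj1 hjo] at hstar
      rw [hstar] at hmem
      have h5 : a' ∈ Par M X (perp M X r) := hmem.2
      have hsub : perp M X r ⊆ X := fun x hx => hx.1
      have h6 : c' ∈ Par M Set.univ (perp M X r) := by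
        rw [← hm (perp M X r) hsub, ← ha']
        exact ⟨a', h5, rfl⟩
      have h7 : R * c' = c' * R :=
        par_perp_comm (Set.mem_univ r) (Set.subset_univ X) h6
      have h8 : Commute R c' := h7
      have h9 : c = R ^ (j - i) * c' := by
        have e1 : c = R ^ j * c' * (R ^ i)⁻¹ := by
          rw [← heq]
          group
        have e2 : c' * (R ^ i)⁻¹ = (R ^ i)⁻¹ * c' := ((h8.zpow_left i).inv_left).symm.eq
        rw [e1, mul_assoc, e2, ← mul_assoc, ← zpow_neg, ← zpow_add, ← sub_eq_add_neg]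
      have h10 : R ^ (j - i) ∈ Par M Set.univ X := by
        have e1 : R ^ (j - i) = c * c'⁻¹ := by
          rw [h9]
          group
        rw [e1]
        exact mul_mem hc0 (inv_mem h0)
      have h11 := gen_pow_mem hr h10
      have hij : i = j := by omega
      have hcc : c = c' := by
        rw [h9, h11, zpow_zero, one_mul]
      refine ⟨hij, ?_, ?_⟩
      · rw [← hij] at hc'
        rw [← hc', ← hcc]
      · intro _
        rw [hcc]
        exact h6

theorem star_one {r : B} (hr : r ∉ X) {c : Art M Set.univ} (hc : c ∈ Par M Set.univ X)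
    (h : (gen M Set.univ r)⁻¹ * c * gen M Set.univ r ∈ Par M Set.univ X) :
    c ∈ Par M Set.univ (perp M X r) ∧ (gen M Set.univ r)⁻¹ * c * gen M Set.univ r = c := by
  have h1 := star hr hc (i := 1) (j := 1) one_ne_zero one_ne_zero (by simpa using h)
  refine ⟨h1.2.2 odd_one, ?_⟩
  have h2 := h1.2.1
  simpa using h2

end AHX
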