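import Pool.Agent.AHX.AppDefs
import Pool.Agent.AHX.AmTree
import Pool.Agent.AHX.ArtC

set_option autoImplicit false

/-!
# AHX module AMALR: the Artin group is an amalgam

`M s t = 0`, so there is no relation between `s` and `t`: `Ga M = P *_R Q` with `P` generated by all
generators except `t`, `Q` by all generators except `s`, and `R = P ∩ Q`.

`amalR`, proof of `red`: put `H = Art M (TT s t)`, `G true = Art M {i | i ≠ t}`,
`G false = Art M {i | i ≠ s}`, `φ b : H →* G b` the natural homomorphisms (`exists_inc` or
`exists_lift`); they are injective by `inc_inj'`.  Let `Π = Monoid.PushoutI φ`.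
`Θ : Ga M →* Π` (`exists_lift`): `s ↦ of true (gen s)`, `t ↦ of false (gen t)`, `i ↦ base (gen i)` for
`i ∈ TT`.  For `i ≠ t` the image is `of true (gen i)`, for `i ≠ s` it is `of false (gen i)`
(`Monoid.PushoutI.of_apply_eq_base`), so all braid relations hold: if `M i j ≠ 0` then `{i, j}` is not
`{s, t}`, so both are `≠ t` or both are `≠ s`; use `altp_map` and `gen_rel`.
Let `inc b : G b →* Ga M` with range `P`, `Q` (`exists_inc`): `Θ ∘ inc b = of b` (`hom_ext`).
So `g ∈ P \ R` has `Θ g = of true a` with `a` not in the range of `φ true` (otherwise `g = inc a` would be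
in `R`), the same for `Q`.  An alternating list gives a word which is `Monoid.PushoutI.Reduced`; if the
product were in `R` then `Θ` of it would be in the range of `base`, so the word would be empty by
`Monoid.PushoutI.Reduced.eq_empty_of_mem_range`.
-/

namespace AHX

variable {B : Type} {M : CoxeterMatrix B} {s t : B}

theorem rr_le_pp (M : CoxeterMatrix B) (s t : B) : RR M s t ≤ PP M s t :=
  par_mono fun _ h => h.2

theorem rr_le_qq (M : CoxeterMatrix B) (s t : B) : RR M s t ≤ QQ M s t :=
  par_mono fun _ h => h.1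

/-- the generators of the two factors -/
private def amX (s t : B) (b : Bool) : Set B := {i | i ≠ if b then t else s}

private theorem tt_sub (s t : B) (b : Bool) : TT s t ⊆ amX s t b := by
  intro i hi
  cases b
  · exact hi.1
  · exact hi.2

private theorem am_word {G : Bool → Type} [∀ b, Group (G b)] {K : Type} [Group K]
    (of : ∀ b, G b →* K) {Γ : Type} [Group Γ] (Θ : Γ →* K) (S : ∀ b, Subgroup (G b))
    (P Q R : Subgroup Γ)
    (hP : ∀ g ∈ P, g ∉ R → ∃ a : G true, a ∉ S true ∧ Θ g = of true a)
    (hQ : ∀ g ∈ Q, g ∉ R → ∃ a : G false, a ∉ S false ∧ Θ g = of false a) :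
    ∀ (l : List Γ) (b : Bool), Alt P Q R b l → ∃ w : List (Σ b, G b), w.length = l.length ∧
      (∀ g ∈ w, g.2 ∉ S g.1) ∧ w.IsChain (fun x y => x.1 ≠ y.1) ∧ (∀ g ∈ w.head?, g.1 = b) ∧
      Θ l.prod = (w.map fun g => of g.1 g.2).prod := by
  intro l
  induction l with
  | nil =>
    intro b _
    exact ⟨[], rfl, by simp, List.isChain_nil, by simp, by simp⟩
  | cons g l ih =>
    intro b hb
    cases b
    · obtain ⟨h1, h2, h3⟩ := hb
      obtain ⟨w, hw1, hw2, hw3, hw4, hw5⟩ := ih true h3
      obtain ⟨a, ha, he⟩ := hQ g h1 h2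
      refine ⟨⟨false, a⟩ :: w, by simp [hw1], ?_, ?_, by simp, ?_⟩
      · intro x hx
        rcases List.mem_cons.1 hx with rfl | hx
        · exact ha
        · exact hw2 x hx
      · rw [List.isChain_cons]
        refine ⟨fun y hy => ?_, hw3⟩
        rw [hw4 y hy]
        simp
      · rw [List.prod_cons, map_mul, he, hw5, List.map_cons, List.prod_cons]
    · obtain ⟨h1, h2, h3⟩ := hb
      obtain ⟨w, hw1, hw2, hw3, hw4, hw5⟩ := ih false h3
      obtain ⟨a, ha, he⟩ := hP g h1 h2
      refine ⟨⟨true, a⟩ :: w, by simp [hw1], ?_, ?_, by simp, ?_⟩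
      · intro x hx
        rcases List.mem_cons.1 hx with rfl | hx
        · exact ha
        · exact hw2 x hx
      · rw [List.isChain_cons]
        refine ⟨fun y hy => ?_, hw3⟩
        rw [hw4 y hy]
        simp
      · rw [List.prod_cons, map_mul, he, hw5, List.map_cons, List.prod_cons]

theorem amalR (hst : s ≠ t) (h0 : M.M s t = 0) : Amal (PP M s t) (QQ M s t) (RR M s t) := by
  classical
  refine ⟨rr_le_pp M s t, rr_le_qq M s t, ?_, ?_⟩
  · rw [eq_top_iff, ← gen_top (M := M) (X := Set.univ), Subgroup.closure_le]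
    rintro _ ⟨i, _, rfl⟩
    by_cases hi : i = t
    · exact Subgroup.mem_sup_right (gen_mem_par (show i ≠ s from hi ▸ hst.symm))
    · exact Subgroup.mem_sup_left (gen_mem_par (show i ≠ t from hi))
  · -- the maps
    have hφ : ∀ b : Bool, ∃ φ : Art M (TT s t) →* Art M (amX s t b),
        (∀ i ∈ TT s t, φ (gen M (TT s t) i) = gen M (amX s t b) i) := fun b =>
      let ⟨φ, h, _⟩ := exists_inc (M := M) (tt_sub s t b)
      ⟨φ, h⟩
    choose φ hφ using hφ
    have hφi : ∀ b, Function.Injective (φ b) := fun b => inc_inj' (tt_sub s t b) (hφ b)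
    have hj : ∀ b : Bool, ∃ j : Art M (amX s t b) →* Ga M,
        (∀ i ∈ amX s t b, j (gen M (amX s t b) i) = gen M Set.univ i) ∧
          j.range = Par M Set.univ (amX s t b) := fun b =>
      let ⟨j, h, h', _⟩ := exists_inc (M := M) (Set.subset_univ (amX s t b))
      ⟨j, h, h'⟩
    choose j hj hjr using hj
    obtain ⟨ι, hι, hιr, -⟩ := exists_inc (M := M) (Set.subset_univ (TT s t))
    have hjι : ∀ b, (j b).comp (φ b) = ι := by
      intro b
      apply hom_ext
      intro i hi
      rw [MonoidHom.comp_apply, hφ b i hi, hj b i (tt_sub s t b hi), hι i hi]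
    -- the pushout
    have e1 : ∀ i ∈ TT s t, Monoid.PushoutI.of (φ := φ) true (gen M (amX s t true) i) =
        Monoid.PushoutI.of (φ := φ) false (gen M (amX s t false) i) := by
      intro i hi
      rw [← hφ true i hi, ← hφ false i hi, Monoid.PushoutI.of_apply_eq_base,
        Monoid.PushoutI.of_apply_eq_base]
    set f : B → Monoid.PushoutI φ := fun i =>
      if i = s then Monoid.PushoutI.of (φ := φ) true (gen M (amX s t true) i)
      else Monoid.PushoutI.of (φ := φ) false (gen M (amX s t false) i) with hf
    have hft : ∀ b, ∀ i ∈ amX s t b, f i = Monoid.PushoutI.of (φ := φ) b (gen M (amX s t b) i) := by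
      intro b i hi
      simp only [hf]
      cases b
      · have : i ≠ s := hi
        rw [if_neg this]
      · by_cases his : i = s
        · rw [if_pos his]
        · rw [if_neg his]
          exact (e1 i ⟨his, hi⟩).symm
    obtain ⟨Θ, hΘ⟩ := exists_lift (M := M) (X := Set.univ) f (fun i hi => absurd (Set.mem_univ i) hi)
      (by
        intro i _ i' _ hm
        have hb : ∃ b, i ∈ amX s t b ∧ i' ∈ amX s t b := by
          by_contra hcon
          push Not at hcon
          have h1 := hcon true
          have h2 := hcon false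
          by_cases hit : i = t
          · by_cases hi's : i' = s
            · apply hm
              rw [hit, hi's, M.symmetric]
              exact h0
            · exact h2 (show i ≠ s from hit ▸ hst.symm) hi's
          · by_cases hi't : i' = t
            · by_cases his : i = s
              · apply hm
                rw [his, hi't]
                exact h0
              · exact h2 his (show i' ≠ s from hi't ▸ hst.symm)
            · exact h1 hit hi't
        obtain ⟨b, hb1, hb2⟩ := hb
        rw [hft b i hb1, hft b i' hb2, ← altp_hom, ← altp_hom, gen_rel hb1 hb2 hm])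
    have hΘj : ∀ b, Θ.comp (j b) = Monoid.PushoutI.of (φ := φ) b := by
      intro b
      apply hom_ext
      intro i hi
      rw [MonoidHom.comp_apply, hj b i hi, hΘ, hft b i hi]
    have hΘι : ∀ h, Θ (ι h) = Monoid.PushoutI.base φ h := by
      intro h
      rw [← hjι true, MonoidHom.comp_apply, ← MonoidHom.comp_apply Θ, hΘj,
        Monoid.PushoutI.of_apply_eq_base]
    have hkey : ∀ b, ∀ g ∈ Par M Set.univ (amX s t b), g ∉ RR M s t →
        ∃ a : Art M (amX s t b), a ∉ (φ b).range ∧ Θ g = Monoid.PushoutI.of (φ := φ) b a := by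
      intro b g hg hgR
      rw [← hjr b] at hg
      obtain ⟨a, rfl⟩ := hg
      refine ⟨a, ?_, ?_⟩
      · rintro ⟨h, rfl⟩
        apply hgR
        show j b (φ b h) ∈ Par M Set.univ (TT s t)
        rw [← hιr, ← MonoidHom.comp_apply, hjι]
        exact ⟨h, rfl⟩
      · rw [← MonoidHom.comp_apply, hΘj]
    intro b l hl halt hprod
    obtain ⟨w, hw1, hw2, hw3, -, hw5⟩ := am_word (fun b => Monoid.PushoutI.of (φ := φ) b) Θ
      (fun b => (φ b).range) (PP M s t) (QQ M s t) (RR M s t) (hkey true) (hkey false) l b halt
    have hne : ∀ g ∈ w, g.2 ≠ 1 := by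
      intro g hg h1
      apply hw2 g hg
      rw [h1]
      exact one_mem _
    have hred : Monoid.PushoutI.Reduced φ (⟨w, hne, hw3⟩ : Monoid.CoprodI.Word _) := hw2
    have hemp := hred.eq_empty_of_mem_range hφi (by
      have h1 : Monoid.PushoutI.ofCoprodI (φ := φ)
          (Monoid.CoprodI.Word.prod (⟨w, hne, hw3⟩ : Monoid.CoprodI.Word _)) = Θ l.prod := by
        rw [hw5]
        unfold Monoid.CoprodI.Word.prod
        rw [map_list_prod, List.map_map]
        rfl
      rw [h1]
      have hprod' : l.prod ∈ ι.range := by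
        rw [hιr]
        exact hprod
      obtain ⟨h, hh⟩ := hprod'
      rw [← hh, hΘι]
      exact ⟨h, rfl⟩)
    have hw0 : w = [] := congrArg Monoid.CoprodI.Word.toList hemp
    rw [hw0] at hw1
    exact hl (List.length_eq_zero_iff.1 hw1.symm)

/-- immediate from `amal_tree` and `amalR` -/
theorem exists_met (hst : s ≠ t) (h0 : M.M s t = 0) :
    ∃ d : VV M s t → VV M s t → ℕ, Met M s t d := by
  obtain ⟨d, h1, h2, h3, h4, h5⟩ := amal_tree (amalR (M := M) hst h0)
  exact ⟨d, h1, h2, h3, h4, h5⟩

end AHX
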