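import Mathlib

set_option autoImplicit false

/-!
# AHX: Coxeter groups and Artin groups, definitions
-/

namespace AHX

section words

/-- The product `a b a b ...` with `n` factors. -/
def altp {H : Type} [Monoid H] (a b : H) : ℕ → H
  | 0 => 1
  | n + 1 => a * altp b a n

/-- The word `i j i j ...` with `n` letters. -/
def altl {B : Type} (i j : B) : ℕ → List B
  | 0 => []
  | n + 1 => i :: altl j i n

end words

section coxeter

variable {B : Type} {W : Type} [Group W] {M : CoxeterMatrix B} (cs : CoxeterSystem M W)

/-- The standard parabolic subgroup. -/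
def WP (X : Set B) : Subgroup W := Subgroup.closure (cs.simple '' X)

/-- `u` is of minimal length in its coset `u W_X`. -/
def RMin (X : Set B) (u : W) : Prop := ∀ x ∈ X, cs.length u < cs.length (u * cs.simple x)

end coxeter

section artin

variable {B : Type}

/-- The relations of the Artin group of `X ⊆ B`; the generators outside `X` are killed. -/
def artRels (M : CoxeterMatrix B) (X : Set B) : Set (FreeGroup B) :=
  {r | ∃ i ∈ X, ∃ j ∈ X, M.M i j ≠ 0 ∧
    r = altp (FreeGroup.of i) (FreeGroup.of j) (M.M i j) *
      (altp (FreeGroup.of j) (FreeGroup.of i) (M.M i j))⁻¹} ∪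
  {r | ∃ i, i ∉ X ∧ r = FreeGroup.of i}

/-- The Artin group of the restriction of the Coxeter matrix `M` to `X`. -/
abbrev Art (M : CoxeterMatrix B) (X : Set B) : Type := PresentedGroup (artRels M X)

/-- The generators; trivial for `i ∉ X`. -/
def gen (M : CoxeterMatrix B) (X : Set B) (i : B) : Art M X := PresentedGroup.of i

/-- The subgroup generated by the generators in `Z`. -/
def Par (M : CoxeterMatrix B) (X Z : Set B) : Subgroup (Art M X) :=
  Subgroup.closure (gen M X '' Z)

/-- The elements of `X` which commute with `r` in the Coxeter matrix. -/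
def perp (M : CoxeterMatrix B) (X : Set B) (r : B) : Set B := {x | x ∈ X ∧ M.M x r = 2}

end artin

end AHX
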