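import Pool.Agent.AHX.AmDefs
import Pool.Agent.AHX.CoxDefs

set_option autoImplicit false

/-!
# AHX: the application, definitions

`M` is a Coxeter matrix with `M s t = 0` (infinity), `Ga M` its Artin group, `k` a natural number; the
quotient of `Ga M` by the braid relation of length `k` between the generators `s` and `t` is the Artin
group we want to study.
-/

namespace AHX

section words

/-- `x ^ e₁ * y ^ e₂ * x ^ e₃ * ...` -/
def ev {H : Type} [Group H] (x y : H) : List ℤ → H
  | [] => 1
  | e :: es => x ^ e * ev y x es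

/-- The list `[x ^ e₁, y ^ e₂, x ^ e₃, ...]`. -/
def evl {H : Type} [Group H] (x y : H) : List ℤ → List H
  | [] => []
  | e :: es => x ^ e :: evl y x es

open Classical in
/-- The number of pairs of consecutive odd members. -/
noncomputable def gp : List ℤ → ℕ
  | [] => 0
  | [_] => 0
  | e :: e' :: es => (if Odd e ∧ Odd e' then 1 else 0) + gp (e' :: es)

end words

section application

variable {B : Type} (M : CoxeterMatrix B) (s t : B) (k : ℕ)

/-- The Artin group of `M`. -/
abbrev Ga : Type := Art M Set.univ

/-- Generators. -/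
def gn (i : B) : Ga M := gen M Set.univ i

/-- Standard parabolic subgroups. -/
def Pa (Z : Set B) : Subgroup (Ga M) := Par M Set.univ Z

/-- The set of the other generators. -/
def TT : Set B := {i | i ≠ s ∧ i ≠ t}

/-- `P` is generated by everything except `t`. -/
def PP (M : CoxeterMatrix B) (_s t : B) : Subgroup (Ga M) := Pa M {i | i ≠ t}

/-- `Q` is generated by everything except `s`. -/
def QQ (M : CoxeterMatrix B) (s _t : B) : Subgroup (Ga M) := Pa M {i | i ≠ s}

/-- `R` is generated by everything except `s` and `t`. -/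
def RR : Subgroup (Ga M) := Pa M (TT s t)

/-- The generators which commute with `s` and `t`. -/
def CC : Set B := perp M (TT s t) s ∩ perp M (TT s t) t

/-- The subgroup generated by `s` and `t`. -/
def FF : Subgroup (Ga M) := Subgroup.closure {gn M s, gn M t}

/-- The stabiliser of the basic subtree. -/
def K0 : Subgroup (Ga M) := FF M s t ⊔ Pa M (CC M s t)

/-- The homomorphism from the free group on two generators to `Ga M`. -/
def phi : FreeGroup Bool →* Ga M := FreeGroup.lift (fun b => if b = true then gn M s else gn M t)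

/-- The braid relator (nothing if `k = 0`). -/
def brel : Set (FreeGroup Bool) :=
  {r | k ≠ 0 ∧ r = altp (FreeGroup.of true) (FreeGroup.of false) k *
    (altp (FreeGroup.of false) (FreeGroup.of true) k)⁻¹}

/-- The normal closure of the relator in the free group, mapped to `Ga M`. -/
def NN : Subgroup (Ga M) := (Subgroup.normalClosure (brel k)).map (phi M s t)

/-- The vertices of the tree. -/
abbrev VV : Type := Vx (PP M s t) (QQ M s t) (RR M s t)

/-- The vertices `g P`, `g Q`, `g R`. -/
def vp (g : Ga M) : VV M s t := pv (PP M s t) (QQ M s t) (RR M s t) g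
/-- The vertices `g P`, `g Q`, `g R`. -/
def vq (g : Ga M) : VV M s t := qv (PP M s t) (QQ M s t) (RR M s t) g
/-- The vertices `g P`, `g Q`, `g R`. -/
def vr (g : Ga M) : VV M s t := rv (PP M s t) (QQ M s t) (RR M s t) g

/-- The properties of the metric given by `amal_tree`. -/
structure Met (d : VV M s t → VV M s t → ℕ) : Prop where
  tree : Tree d
  dinv : ∀ (g : Ga M) (x y : VV M s t), d (g • x) (g • y) = d x y
  adj : ∀ x y, EV (PP M s t) (QQ M s t) (RR M s t) x y ↔ d x y = 1
  len : ∀ (b : Bool) (l l' : List (Ga M)), Alt (PP M s t) (QQ M s t) (RR M s t) b (l ++ l') →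
    d (vr M s t 1) (vr M s t l.prod) = 2 * l.length ∧
      Btw d (vr M s t 1) (vr M s t l.prod) (vr M s t (l ++ l').prod)
  even : ∀ g g' : Ga M, Even (d (vr M s t g) (vr M s t g'))

/-- Good triples. -/
def GdV (u ρ w : VV M s t) : Prop :=
  ∃ (g : Ga M) (i j : ℤ), Odd i ∧ Odd j ∧ ρ = vr M s t g ∧
    ((u = vr M s t (g * gn M s ^ i) ∧ w = vr M s t (g * gn M t ^ j)) ∨
     (w = vr M s t (g * gn M s ^ i) ∧ u = vr M s t (g * gn M t ^ j)))

/-- The family of subtrees. -/
def YY (l : Ga M ⧸ K0 M s t) : Set (VV M s t) :=
  {x | ∃ g : Ga M, (g : Ga M ⧸ K0 M s t) = l ∧ (x = vp M s t g ∨ x = vq M s t g ∨ x = vr M s t g)}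

/-- The family of subgroups. -/
noncomputable def NL (l : Ga M ⧸ K0 M s t) : Subgroup (Ga M) :=
  (NN M s t k).map (MulAut.conj (Quotient.out l)).toMonoidHom

/-- The product of the blocks `s y t`. -/
def blk (ω : List B) : Ga M := (ω.map (fun y => gn M s * gn M y * gn M t)).prod

/-- The list `[s, y₁ t, s, y₂ t, ...]`. -/
def blkl : List B → List (Ga M)
  | [] => []
  | y :: ω => gn M s :: (gn M y * gn M t) :: blkl ω

/-- The product of the generators in `ω`. -/
def wd (ω : List B) : Ga M := (ω.map (gn M)).prod

/-- Words with the properties needed for the loxodromic element. -/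
structure Ruler (ω : List B) : Prop where
  ne : ω ≠ []
  mem : ∀ y ∈ ω, y ∈ TT s t
  alt : ∀ (α β : List B) (y z : B), ω ++ ω = α ++ y :: z :: β → y ∉ CC M s t ∨ z ∉ CC M s t
  triv : ∀ c ∈ Pa M (CC M s t),
    (∀ α β : List B, ω = α ++ β → (wd M α)⁻¹ * c * wd M α ∈ Pa M (CC M s t)) → c = 1

end application

end AHX
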