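import Pool.Agent.AHX.Cox3

set_option autoImplicit false

/-!
# AHX module ARTB: elementary facts about the Artin groups `Art M X`

All homomorphisms are defined with `PresentedGroup.toGroup`.  (For `M i j` with `i = j` the braid
relation is trivial; `M i j = M j i`.)

* `inc`: generator `i` goes to generator `i` if `i ∈ X`, to `1` otherwise.
* `range_inc`: the group `Art M X` is generated by its generators, those outside `X` are trivial.
* `len`: all generators of `Art M Set.univ` go to `Multiplicative.ofAdd 1`.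
-/

namespace AHX

variable {B : Type} {M : CoxeterMatrix B} {X Z Z' : Set B}

theorem gen_out {i : B} (hi : i ∉ X) : gen M X i = 1 := by
  show PresentedGroup.mk (artRels M X) (FreeGroup.of i) = 1
  exact PresentedGroup.one_of_mem (Or.inr ⟨i, hi, rfl⟩)

theorem gen_rel {i j : B} (hi : i ∈ X) (hj : j ∈ X) (h : M.M i j ≠ 0) :
    altp (gen M X i) (gen M X j) (M.M i j) = altp (gen M X j) (gen M X i) (M.M i j) := by
  have h1 : PresentedGroup.mk (artRels M X)
      (altp (FreeGroup.of i) (FreeGroup.of j) (M.M i j) *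
        (altp (FreeGroup.of j) (FreeGroup.of i) (M.M i j))⁻¹) = 1 :=
    PresentedGroup.one_of_mem (Or.inl ⟨i, hi, j, hj, h, rfl⟩)
  rw [map_mul, map_inv, mul_inv_eq_one, altp_hom, altp_hom] at h1
  exact h1

theorem gen_comm {i j : B} (hi : i ∈ X) (hj : j ∈ X) (h : M.M i j = 2) :
    gen M X i * gen M X j = gen M X j * gen M X i := by
  have h1 := gen_rel (M := M) hi hj (by rw [h]; exact two_ne_zero)
  rw [h] at h1
  simpa [altp] using h1

/-- universal property -/
theorem exists_lift {H : Type} [Group H] (f : B → H) (h1 : ∀ i, i ∉ X → f i = 1)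
    (h2 : ∀ i ∈ X, ∀ j ∈ X, M.M i j ≠ 0 →
      altp (f i) (f j) (M.M i j) = altp (f j) (f i) (M.M i j)) :
    ∃ φ : Art M X →* H, ∀ i, φ (gen M X i) = f i := by
  have h : ∀ r ∈ artRels M X, FreeGroup.lift f r = 1 := by
    rintro r (⟨i, hi, j, hj, hm, rfl⟩ | ⟨i, hi, rfl⟩)
    · rw [map_mul, map_inv, mul_inv_eq_one, altp_hom, altp_hom, FreeGroup.lift_apply_of,
        FreeGroup.lift_apply_of]
      exact h2 i hi j hj hm
    · rw [FreeGroup.lift_apply_of]
      exact h1 i hi
  exact ⟨PresentedGroup.toGroup h, fun i => PresentedGroup.toGroup.of h⟩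

theorem hom_ext {H : Type} [Group H] {φ ψ : Art M X →* H}
    (h : ∀ i ∈ X, φ (gen M X i) = ψ (gen M X i)) : φ = ψ := by
  apply PresentedGroup.ext
  intro i
  by_cases hi : i ∈ X
  · exact h i hi
  · have h1 : (PresentedGroup.of i : Art M X) = 1 := gen_out hi
    rw [h1, map_one, map_one]

theorem gen_top : Subgroup.closure (gen M X '' X) = ⊤ := by
  rw [eq_top_iff, ← PresentedGroup.closure_range_of (artRels M X), Subgroup.closure_le]
  rintro _ ⟨i, rfl⟩
  by_cases hi : i ∈ X
  · exact Subgroup.subset_closure ⟨i, hi, rfl⟩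
  · have h1 : (PresentedGroup.of i : Art M X) = 1 := gen_out hi
    rw [h1]
    exact one_mem _

/-- for `X ⊆ X'` there is a natural homomorphism with image `Par M X' X` -/
theorem exists_inc {X X' : Set B} (hX : X ⊆ X') :
    ∃ φ : Art M X →* Art M X', (∀ i ∈ X, φ (gen M X i) = gen M X' i) ∧
      φ.range = Par M X' X ∧ ∀ Z, Z ⊆ X → (Par M X Z).map φ = Par M X' Z := by
  classical
  obtain ⟨φ, hφ⟩ := exists_lift (M := M) (X := X) (fun i => if i ∈ X then gen M X' i else 1)
    (fun i hi => by simp [hi]) (fun i hi j hj hm => by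
      simp only [hi, hj, if_true]
      exact gen_rel (hX hi) (hX hj) hm)
  have h1 : ∀ i ∈ X, φ (gen M X i) = gen M X' i := by
    intro i hi
    rw [hφ, if_pos hi]
  have h2 : ∀ Z, Z ⊆ X → (Par M X Z).map φ = Par M X' Z := by
    intro Z hZ
    unfold Par
    rw [MonoidHom.map_closure]
    congr 1
    ext g
    constructor
    · rintro ⟨_, ⟨i, hi, rfl⟩, rfl⟩
      exact ⟨i, hi, (h1 i (hZ hi)).symm⟩
    · rintro ⟨i, hi, rfl⟩
      exact ⟨_, ⟨i, hi, rfl⟩, h1 i (hZ hi)⟩
  refine ⟨φ, h1, ?_, h2⟩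
  rw [← h2 X (le_refl X), MonoidHom.range_eq_map]
  unfold Par
  rw [gen_top]

theorem exists_len : ∃ φ : Art M Set.univ →* Multiplicative ℤ,
    ∀ i, φ (gen M Set.univ i) = Multiplicative.ofAdd 1 :=
  exists_lift (fun _ => Multiplicative.ofAdd 1) (fun i hi => absurd (Set.mem_univ i) hi)
    (fun _ _ _ _ _ => rfl)

theorem par_mono (h : Z ⊆ Z') : Par M X Z ≤ Par M X Z' :=
  Subgroup.closure_mono (Set.image_mono h)

theorem gen_mem_par {i : B} (h : i ∈ Z) : gen M X i ∈ Par M X Z :=
  Subgroup.subset_closure ⟨i, h, rfl⟩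

/-- elements of `Par (perp Z r)` commute with the generator `r` -/
theorem par_perp_comm {r : B} {c : Art M X} (hr : r ∈ X) (hZ : Z ⊆ X)
    (hc : c ∈ Par M X (perp M Z r)) : gen M X r * c = c * gen M X r := by
  refine Subgroup.closure_induction
    (p := fun c _ => gen M X r * c = c * gen M X r) ?_ ?_ ?_ ?_ hc
  · rintro _ ⟨x, ⟨hx, hm⟩, rfl⟩
    exact (gen_comm (hZ hx) hr hm).symm
  · simp
  · intro x y _ _ hx hy
    rw [← mul_assoc, hx, mul_assoc, hy, mul_assoc]
  · intro x _ hx
    have h1 : Commute (gen M X r) x := hx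
    exact h1.inv_right

end AHX
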