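import Pool.Agent.AHX.Cox4

set_option autoImplicit false

/-!
# AHX module COX5: Matsumoto's theorem (lifting form)

`two_descents`: let `i ≠ j` both be left descents of `w`.  Let `J = {i, j}`.  Apply `exists_rmin` and
`rmin_mul` to `w⁻¹`: `w = v u` with `v ∈ WP J`, `ℓ w = ℓ v + ℓ u`, and `ℓ (y u) = ℓ y + ℓ u` for all
`y ∈ WP J`.  So `ℓ (s i v) < ℓ v` and `ℓ (s j v) < ℓ v`.  A reduced word of `v` has letters in `J` and no
two equal neighbours, so it is alternating.  As `i` is a left descent, `v` has a reduced word
starting with `i` (`i :: ` a reduced word of `s i v`), which is `altl i j p`, `p = ℓ v ≥ 1`; in the same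
way `altl j i p` is a reduced word of `v`.  By `altl_eq`, `p = M i j` (in particular `M i j ≠ 0`).
Take for `γ` a reduced word of `u`.

`matsumoto`: induction on the length `n` of the words.  `ω = i :: α`, `ω' = j :: β`.  If `i = j`: the
products of `α` and `β` are equal, induction.  If `i ≠ j`: `i` and `j` are left descents of
`w = π ω`; `two_descents` gives `w = π (altl i j m ++ γ)`, `m = M i j ≠ 0`, reduced, and `i, j ∈ X`; the
letters of `γ` are in `X` by `wp_supp`.  Write `altl i j m = i :: altl j i (m-1)`.  By induction for the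
words `α` and `altl j i (m-1) ++ γ` (both are reduced words of `s i w`), the images of `ω` and of
`altl i j m ++ γ` are equal; by the hypothesis `hf` for `i, j` (`altp_map`), the images of
`altl i j m ++ γ` and `altl j i m ++ γ` are equal; by induction the images of `altl j i m ++ γ` and of
`ω'` are equal.
-/

namespace AHX

variable {B : Type} {W : Type} [Group W] {M : CoxeterMatrix B} (cs : CoxeterSystem M W)
  {X : Set B}

private theorem cox5_alt {i j : B} (ω : List B) (hω : ∀ k ∈ ω, k = i ∨ k = j)
    (hr : cs.IsReduced (i :: ω)) : ω = altl j i ω.length := by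
  induction ω generalizing i j with
  | nil => rfl
  | cons k ω ih =>
    rcases hω k (by simp) with hk | hk
    · exfalso
      subst hk
      have h1 : cs.wordProd (k :: k :: ω) = cs.wordProd ω := by
        rw [cs.wordProd_cons, cs.wordProd_cons, cs.simple_mul_simple_cancel_left]
      have h2 := cs.length_wordProd_le ω
      unfold CoxeterSystem.IsReduced at hr
      rw [h1, List.length_cons, List.length_cons] at hr
      omega
    · subst hk
      have h1 : cs.IsReduced (k :: ω) := by
        have := hr.drop 1
        simpa using this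
      have h2 := ih (i := k) (j := i) (fun l hl => (hω l (List.mem_cons_of_mem _ hl)).symm) h1
      rw [List.length_cons, altl, ← h2]

private theorem cox5_word {i j : B} {v : W} (hv : v ∈ WP cs {i, j})
    (hi : cs.length (cs.simple i * v) < cs.length v) :
    cs.IsReduced (altl i j (cs.length v)) ∧ cs.wordProd (altl i j (cs.length v)) = v := by
  have hs : cs.simple i ∈ WP cs {i, j} := Subgroup.subset_closure ⟨i, by simp, rfl⟩
  obtain ⟨β, hβ, hr, hw⟩ := wp_word cs ((WP cs {i, j}).mul_mem hs hv)
  have h1 : cs.wordProd (i :: β) = v := by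
    rw [cs.wordProd_cons, hw, cs.simple_mul_simple_cancel_left]
  have h2 : β.length = cs.length (cs.simple i * v) := by
    rw [← hw]
    exact hr.symm
  have h3 : cs.IsReduced (i :: β) := by
    have h4 := cs.length_wordProd_le (i :: β)
    unfold CoxeterSystem.IsReduced
    rw [h1, List.length_cons] at h4 ⊢
    omega
  have h4 := cox5_alt cs β (fun k hk => by simpa using hβ k hk) h3
  have h5 : cs.length v = β.length + 1 := by
    rw [← h1]
    exact h3
  have h6 : altl i j (cs.length v) = i :: β := by
    rw [h5, altl, ← h4]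
  rw [h6]
  exact ⟨h3, h1⟩

theorem two_descents {i j : B} (hij : i ≠ j) {w : W} (hi : cs.IsLeftDescent w i)
    (hj : cs.IsLeftDescent w j) :
    M.M i j ≠ 0 ∧ ∃ γ : List B, cs.IsReduced (altl i j (M.M i j) ++ γ) ∧
      cs.IsReduced (altl j i (M.M i j) ++ γ) ∧
      cs.wordProd (altl i j (M.M i j) ++ γ) = w ∧ cs.wordProd (altl j i (M.M i j) ++ γ) = w := by
  obtain ⟨u', v', hu', hv', hw'⟩ := exists_rmin cs {i, j} w⁻¹
  obtain ⟨u, rfl⟩ : ∃ u, u' = u⁻¹ := ⟨u'⁻¹, (inv_inv _).symm⟩
  obtain ⟨v, rfl⟩ : ∃ v, v' = v⁻¹ := ⟨v'⁻¹, (inv_inv _).symm⟩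
  have hv : v ∈ WP cs {i, j} := by
    have := (WP cs {i, j}).inv_mem hv'
    rwa [inv_inv] at this
  have hw : w = v * u := by
    have h1 := congrArg (fun z => z⁻¹) hw'
    simpa using h1
  have hL : ∀ y ∈ WP cs {i, j}, cs.length (y * u) = cs.length y + cs.length u := by
    intro y hy
    have h1 := rmin_mul cs hu' ((WP cs {i, j}).inv_mem hy)
    rw [← mul_inv_rev, cs.length_inv, cs.length_inv, cs.length_inv] at h1
    omega
  have hsi : cs.simple i ∈ WP cs {i, j} := Subgroup.subset_closure ⟨i, by simp, rfl⟩
  have hsj : cs.simple j ∈ WP cs {i, j} := Subgroup.subset_closure ⟨j, by simp, rfl⟩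
  have hvi : cs.length (cs.simple i * v) < cs.length v := by
    have h1 := hL _ ((WP cs {i, j}).mul_mem hsi hv)
    have h2 := hL _ hv
    unfold CoxeterSystem.IsLeftDescent at hi
    rw [hw, ← mul_assoc] at hi
    omega
  have hvj : cs.length (cs.simple j * v) < cs.length v := by
    have h1 := hL _ ((WP cs {i, j}).mul_mem hsj hv)
    have h2 := hL _ hv
    unfold CoxeterSystem.IsLeftDescent at hj
    rw [hw, ← mul_assoc] at hj
    omega
  obtain ⟨ri, pi⟩ := cox5_word cs hv hvi
  have hv2 : v ∈ WP cs {j, i} := by rwa [Set.pair_comm]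
  obtain ⟨rj, pj⟩ := cox5_word cs hv2 hvj
  have hp : cs.length v = M.M i j := altl_eq cs hij (by omega) ri (pi.trans pj.symm)
  rw [hp] at ri pi rj pj
  obtain ⟨γ, hγ, hγu⟩ := cs.exists_isReduced u
  have hlen : cs.length w = M.M i j + γ.length := by
    rw [hw, hL v hv, hp, ← hγ.eq, ← hγu]
  have key : ∀ a b : B, cs.wordProd (altl a b (M.M i j)) = v →
      cs.IsReduced (altl a b (M.M i j) ++ γ) ∧ cs.wordProd (altl a b (M.M i j) ++ γ) = w := by
    intro a b hab
    have h1 : cs.wordProd (altl a b (M.M i j) ++ γ) = w := by
      rw [cs.wordProd_append, hab, ← hγu, hw]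
    refine ⟨?_, h1⟩
    unfold CoxeterSystem.IsReduced
    rw [h1, hlen, List.length_append, altl_length]
  refine ⟨by omega, γ, (key i j pi).1, (key j i pj).1, (key i j pi).2, (key j i pj).2⟩

private theorem cox5_tail {i : B} {α : List B} (h : cs.IsReduced (i :: α)) :
    cs.IsReduced α := by
  have := h.drop 1
  simpa using this

private theorem cox5_desc {i : B} {α : List B} (h : cs.IsReduced (i :: α)) :
    cs.IsLeftDescent (cs.wordProd (i :: α)) i := by
  unfold CoxeterSystem.IsLeftDescent
  have h1 := cs.length_wordProd_le α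
  unfold CoxeterSystem.IsReduced at h
  rw [h, cs.wordProd_cons, cs.simple_mul_simple_cancel_left, List.length_cons]
  omega

theorem matsumoto {H : Type} [Monoid H] (f : B → H)
    (hf : ∀ i ∈ X, ∀ j ∈ X, M.M i j ≠ 0 →
      altp (f i) (f j) (M.M i j) = altp (f j) (f i) (M.M i j))
    {ω ω' : List B} (hω : cs.IsReduced ω) (hω' : cs.IsReduced ω') (hX : ∀ i ∈ ω, i ∈ X)
    (hX' : ∀ i ∈ ω', i ∈ X) (h : cs.wordProd ω = cs.wordProd ω') :
    (ω.map f).prod = (ω'.map f).prod := by
  obtain ⟨n, hn⟩ : ∃ n, ω.length = n := ⟨_, rfl⟩
  have hn' : ω'.length = n := by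
    unfold CoxeterSystem.IsReduced at hω hω'
    rw [← hω', ← h, hω, hn]
  induction n generalizing ω ω' with
  | zero =>
    rw [List.length_eq_zero_iff] at hn hn'
    rw [hn, hn']
  | succ n ih =>
    cases ω with
    | nil => simp at hn
    | cons i α =>
      cases ω' with
      | nil => simp at hn'
      | cons j β =>
        rw [List.length_cons] at hn hn'
        have hα := cox5_tail cs hω
        have hβ := cox5_tail cs hω'
        have hαX : ∀ k ∈ α, k ∈ X := fun k hk => hX k (List.mem_cons_of_mem _ hk)
        have hβX : ∀ k ∈ β, k ∈ X := fun k hk => hX' k (List.mem_cons_of_mem _ hk)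
        by_cases hij : i = j
        · subst hij
          have h1 : cs.wordProd α = cs.wordProd β := by
            rw [cs.wordProd_cons, cs.wordProd_cons] at h
            exact mul_left_cancel h
          rw [List.map_cons, List.map_cons, List.prod_cons, List.prod_cons,
            ih hα hβ hαX hβX h1 (by omega) (by omega)]
        · have hdj : cs.IsLeftDescent (cs.wordProd (i :: α)) j := by
            rw [h]
            exact cox5_desc cs hω'
          obtain ⟨hM, γ, r1, r2, p1, p2⟩ := two_descents cs hij (cox5_desc cs hω) hdj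
          obtain ⟨q, hq⟩ : ∃ q, M.M i j = q + 1 := ⟨M.M i j - 1, by omega⟩
          have hfm := hf i (hX i (by simp)) j (hX' j (by simp)) hM
          rw [hq] at r1 r2 p1 p2 hfm
          have hwX : cs.wordProd (i :: α) ∈ WP cs X := word_mem cs hX
          have s1 := wp_supp cs r1 (by rw [p1]; exact hwX)
          have s2 := wp_supp cs r2 (by rw [p2]; exact hwX)
          have e1 : altl i j (q + 1) ++ γ = i :: (altl j i q ++ γ) := rfl
          have e2 : altl j i (q + 1) ++ γ = j :: (altl i j q ++ γ) := rfl
          have l1 : (altl i j (q + 1) ++ γ).length = n + 1 := by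
            unfold CoxeterSystem.IsReduced at r1 hω
            rw [← r1, p1, hω, List.length_cons, hn]
          have l2 : (altl j i (q + 1) ++ γ).length = n + 1 := by
            unfold CoxeterSystem.IsReduced at r2 hω
            rw [← r2, p2, hω, List.length_cons, hn]
          have m1 : ((altl i j (q + 1) ++ γ).map f).prod =
              ((altl j i (q + 1) ++ γ).map f).prod := by
            rw [List.map_append, List.map_append, List.prod_append, List.prod_append,
              altp_map, altp_map, hfm]
          rw [e1] at r1 p1 s1 l1 m1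
          rw [e2] at r2 p2 s2 l2 m1
          rw [List.length_cons] at l1 l2
          have q1 : cs.wordProd α = cs.wordProd (altl j i q ++ γ) := by
            rw [cs.wordProd_cons, cs.wordProd_cons] at p1
            exact (mul_left_cancel p1).symm
          have q2 : cs.wordProd (altl i j q ++ γ) = cs.wordProd β := by
            rw [h, cs.wordProd_cons, cs.wordProd_cons] at p2
            exact mul_left_cancel p2
          have i1 := ih hα (cox5_tail cs r1) hαX
            (fun k hk => s1 k (List.mem_cons_of_mem _ hk)) q1 (by omega) (by omega)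
          have i2 := ih (cox5_tail cs r2) hβ
            (fun k hk => s2 k (List.mem_cons_of_mem _ hk)) hβX q2 (by omega) (by omega)
          rw [List.map_cons, List.map_cons, List.prod_cons, List.prod_cons] at m1
          rw [List.map_cons, List.map_cons, List.prod_cons, List.prod_cons, i1, m1, i2]

end AHX
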