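import Pool.Agent.AHX.ArtB
import Pool.Agent.AHX.Cox5

set_option autoImplicit false

/-!
# AHX module ARTCP: the action of Charney and Paris

`W = M.Group`, `cs = M.toCoxeterSystem`.  The Artin group `Art M Set.univ` acts on the set of pairs
`(u, h)`, `u ∈ W` minimal in `u W_X`, `h ∈ Art M X`: the generator `r` maps `(u, h)` to `(s r u, h)` if
`s r u` is minimal, and to `(u, gen x * h)` if `s r u = u s x` with `x ∈ X` (`deodhar`, `deodhar_excl`;
`x` is unique, `simple_inj`).

This is a permutation `P r` of the set `St M X`: the inverse maps `(u, h)` to `(s r u, h)` or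
`(u, (gen x)⁻¹ * h)`.

Braid relations.  For a word `ω = r₁ ... r_n` let `P ω = P r₁ ∘ ... ∘ P r_n`.  Claim: for all `ω` and
all `u` there are `u'` (minimal) and a word `ξ` with letters in `X` such that for all `h`
`P ω (u, h) = (u', (ξ.map gen).prod * h)`, `π ω * u = u' * π ξ`, and `cs.rightInvSeq ξ` is a sublist of
the list of all `u⁻¹ * t * u`, `t ∈ cs.rightInvSeq ω` (in order).  Induction on `ω`, for `i :: ω`:
`rightInvSeq (i :: ω) = ((π ω)⁻¹ * s i * π ω) :: rightInvSeq ω`.  If `s i u'` is minimal take `s i u'` and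
`ξ`.  If `s i u' = u' s x` take `u'` and `x :: ξ`, and
`u⁻¹ (π ω)⁻¹ s i (π ω) u = (π ξ)⁻¹ u'⁻¹ s i u' (π ξ) = (π ξ)⁻¹ s x (π ξ)`.
So if `ω` is reduced then `rightInvSeq ω` has no repetitions (`IsReduced.nodup_rightInvSeq`), so
neither has `rightInvSeq ξ`, and `ξ` is reduced (`reduced_of_nodup_right`).

Let `i ≠ j`, `m = M i j ≠ 0`, `ω = altl i j m`, `ω' = altl j i m`; both are reduced (`altl_reduced`) with
the same product (`altl_braid`).  We get `u', ξ` and `u'', ξ'` with `u' * π ξ = u'' * π ξ'`; by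
`rmin_unique` `u' = u''`, `π ξ = π ξ'`; by `matsumoto` (for `f = gen M X`, `gen_rel`)
`(ξ.map gen).prod = (ξ'.map gen).prod`.  So `P ω = P ω'`, which is the braid relation (`altp_map`), and
`exists_lift` with `X := Set.univ` gives the homomorphism.
-/

namespace AHX

variable {B : Type}

/-- The set on which the Artin group acts. -/
abbrev St (M : CoxeterMatrix B) (X : Set B) : Type :=
  {u : M.Group // RMin M.toCoxeterSystem X u} × Art M X

section cp

variable {M : CoxeterMatrix B} {X : Set B}

/-- The minimal elements. -/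
abbrev Um (M : CoxeterMatrix B) (X : Set B) : Type :=
  {u : M.Group // RMin M.toCoxeterSystem X u}

theorem cp_ex (r : B) (u : Um M X) (h : ¬ RMin M.toCoxeterSystem X
    (M.toCoxeterSystem.simple r * u)) :
    ∃ x, x ∈ X ∧ M.toCoxeterSystem.simple r * u = u * M.toCoxeterSystem.simple x := by
  rcases deodhar M.toCoxeterSystem u.2 r with h1 | ⟨x, hx, h1⟩
  · exact absurd h1 h
  · exact ⟨x, hx, h1⟩

open Classical in
/-- The action of a generator, `b` is `false` for the inverse. -/
noncomputable def cpT (b : Bool) (r : B) (p : St M X) : St M X :=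
  if h : RMin M.toCoxeterSystem X (M.toCoxeterSystem.simple r * p.1) then
    (⟨M.toCoxeterSystem.simple r * p.1, h⟩, p.2)
  else (p.1, (if b then gen M X (cp_ex r p.1 h).choose else
    (gen M X (cp_ex r p.1 h).choose)⁻¹) * p.2)

theorem cpT_one (b : Bool) {r : B} {u u' : Um M X} {h : Art M X}
    (hu : (u' : M.Group) = M.toCoxeterSystem.simple r * u) : cpT b r (u, h) = (u', h) := by
  have h1 : RMin M.toCoxeterSystem X (M.toCoxeterSystem.simple r * (u, h).1) := by
    rw [← hu]
    exact u'.2
  unfold cpT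
  rw [dif_pos h1]
  refine Prod.ext (Subtype.ext ?_) rfl
  exact hu.symm

theorem cpT_two (b : Bool) {r x : B} {u : Um M X} {h : Art M X} (hx : x ∈ X)
    (hu : M.toCoxeterSystem.simple r * u = u * M.toCoxeterSystem.simple x) :
    cpT b r (u, h) = (u, (if b then gen M X x else (gen M X x)⁻¹) * h) := by
  have h1 : ¬ RMin M.toCoxeterSystem X (M.toCoxeterSystem.simple r * (u, h).1) :=
    deodhar_excl M.toCoxeterSystem u.2 hx hu
  have h2 := (cp_ex r u h1).choose_spec
  have h3 : (cp_ex r u h1).choose = x := by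
    have h4 : (u : M.Group) * M.toCoxeterSystem.simple (cp_ex r u h1).choose =
        u * M.toCoxeterSystem.simple x := h2.2.symm.trans hu
    exact simple_inj M.toCoxeterSystem (mul_left_cancel h4)
  unfold cpT
  rw [dif_neg h1]
  simp only
  rw [h3]

theorem cpT_inv (b : Bool) (r : B) (p : St M X) : cpT (!b) r (cpT b r p) = p := by
  obtain ⟨u, h⟩ := p
  by_cases h1 : RMin M.toCoxeterSystem X (M.toCoxeterSystem.simple r * u)
  · rw [cpT_one b (u' := ⟨_, h1⟩) rfl, cpT_one (!b) (u' := u)]
    exact (M.toCoxeterSystem.simple_mul_simple_cancel_left r).symm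
  · obtain ⟨x, hx, h2⟩ := cp_ex r u h1
    rw [cpT_two b hx h2, cpT_two (!b) hx h2]
    cases b <;> simp

/-- The action of a generator. -/
noncomputable def cpP (r : B) : Equiv.Perm (St M X) where
  toFun := cpT true r
  invFun := cpT false r
  left_inv p := cpT_inv true r p
  right_inv p := cpT_inv false r p

theorem cpP_apply (r : B) (p : St M X) : cpP r p = cpT true r p := rfl

theorem ris_cons (i : B) (ω : List B) : M.toCoxeterSystem.rightInvSeq (i :: ω) =
    ((M.toCoxeterSystem.wordProd ω)⁻¹ * M.toCoxeterSystem.simple i *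
      M.toCoxeterSystem.wordProd ω) :: M.toCoxeterSystem.rightInvSeq ω := by
  rfl

theorem cp_word (ω : List B) (u : Um M X) : ∃ (u' : Um M X) (ξ : List B), (∀ x ∈ ξ, x ∈ X) ∧
    (∀ h : Art M X, (ω.map cpP).prod (u, h) = (u', (ξ.map (gen M X)).prod * h)) ∧
    M.toCoxeterSystem.wordProd ω * u = u' * M.toCoxeterSystem.wordProd ξ ∧
    (M.toCoxeterSystem.rightInvSeq ξ).Sublist
      ((M.toCoxeterSystem.rightInvSeq ω).map fun t => (u : M.Group)⁻¹ * t * u) := by
  induction ω with
  | nil => exact ⟨u, [], by simp, by simp, by simp, by simp⟩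
  | cons i ω ih =>
    obtain ⟨u', ξ, h1, h2, h3, h4⟩ := ih
    by_cases h5 : RMin M.toCoxeterSystem X (M.toCoxeterSystem.simple i * u')
    · refine ⟨⟨_, h5⟩, ξ, h1, fun h => ?_, ?_, ?_⟩
      · rw [List.map_cons, List.prod_cons, Equiv.Perm.mul_apply, h2, cpP_apply]
        exact cpT_one true rfl
      · rw [CoxeterSystem.wordProd_cons, mul_assoc, h3, mul_assoc]
      · rw [ris_cons, List.map_cons]
        exact h4.cons _
    · obtain ⟨x, hx, h6⟩ := cp_ex i u' h5
      refine ⟨u', x :: ξ, ?_, fun h => ?_, ?_, ?_⟩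
      · intro y hy
        rcases List.mem_cons.1 hy with rfl | hy
        · exact hx
        · exact h1 y hy
      · rw [List.map_cons, List.prod_cons, Equiv.Perm.mul_apply, h2, cpP_apply,
          cpT_two true hx h6, List.map_cons, List.prod_cons, mul_assoc]
        simp
      · rw [CoxeterSystem.wordProd_cons, CoxeterSystem.wordProd_cons, mul_assoc, h3,
          ← mul_assoc, h6, mul_assoc]
      · rw [ris_cons, ris_cons, List.map_cons]
        have h7 : (u : M.Group)⁻¹ * ((M.toCoxeterSystem.wordProd ω)⁻¹ *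
            M.toCoxeterSystem.simple i * M.toCoxeterSystem.wordProd ω) * u =
            (M.toCoxeterSystem.wordProd ξ)⁻¹ * M.toCoxeterSystem.simple x *
              M.toCoxeterSystem.wordProd ξ := by
          have h8 : (u : M.Group)⁻¹ * (M.toCoxeterSystem.wordProd ω)⁻¹ =
              (M.toCoxeterSystem.wordProd ξ)⁻¹ * (u' : M.Group)⁻¹ := by
            rw [← mul_inv_rev, ← mul_inv_rev, h3]
          calc _ = (u : M.Group)⁻¹ * (M.toCoxeterSystem.wordProd ω)⁻¹ *
              M.toCoxeterSystem.simple i * (M.toCoxeterSystem.wordProd ω * u) := by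
                simp only [mul_assoc]
            _ = (M.toCoxeterSystem.wordProd ξ)⁻¹ * ((u' : M.Group)⁻¹ *
              (M.toCoxeterSystem.simple i * u')) * M.toCoxeterSystem.wordProd ξ := by
                rw [h8, h3]
                simp only [mul_assoc]
            _ = _ := by rw [h6, inv_mul_cancel_left]
        rw [h7]
        exact h4.cons_cons _

theorem cp_braid (i j : B) :
    altp (cpP i : Equiv.Perm (St M X)) (cpP j) (M.M i j) =
      altp (cpP j) (cpP i) (M.M i j) := by
  by_cases hij : i = j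
  · rw [hij]
  have hsym : M.M i j = M.M j i := M.symmetric i j
  rw [← altp_map, ← altp_map]
  have hr : M.toCoxeterSystem.IsReduced (altl i j (M.M i j)) :=
    altl_reduced _ hij (Or.inr le_rfl)
  have hr' : M.toCoxeterSystem.IsReduced (altl j i (M.M i j)) :=
    altl_reduced _ (Ne.symm hij) (Or.inr hsym.le)
  have hred : ∀ {ω ξ : List B} {u : Um M X}, M.toCoxeterSystem.IsReduced ω →
      (M.toCoxeterSystem.rightInvSeq ξ).Sublist
        ((M.toCoxeterSystem.rightInvSeq ω).map fun t => (u : M.Group)⁻¹ * t * u) →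
      M.toCoxeterSystem.IsReduced ξ := by
    intro ω ξ u h1 h2
    refine reduced_of_nodup_right _ ξ (h2.nodup ?_)
    refine List.Nodup.map ?_ (h1.nodup_rightInvSeq)
    intro a b hab
    have h3 : (u : M.Group)⁻¹ * a * u = (u : M.Group)⁻¹ * b * u := hab
    exact mul_left_cancel (mul_right_cancel h3)
  refine Equiv.ext fun p => ?_
  obtain ⟨u, h⟩ := p
  obtain ⟨u', ξ, a1, a2, a3, a4⟩ := cp_word (altl i j (M.M i j)) u
  obtain ⟨u'', ξ', b1, b2, b3, b4⟩ := cp_word (altl j i (M.M i j)) u
  have h1 := altl_braid M.toCoxeterSystem i j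
  rw [h1, b3] at a3
  obtain ⟨h2, h3⟩ := rmin_unique M.toCoxeterSystem u''.2 u'.2 (word_mem _ b1) (word_mem _ a1) a3
  have h4 : (ξ.map (gen M X)).prod = (ξ'.map (gen M X)).prod :=
    matsumoto M.toCoxeterSystem (X := X) (gen M X) (fun i hi j hj hm => gen_rel hi hj hm)
      (hred hr a4) (hred hr' b4) a1 b1 h3.symm
  rw [a2, b2, h4, Subtype.ext h2]

end cp

theorem exists_cp (M : CoxeterMatrix B) (X : Set B) :
    ∃ ρ : Art M Set.univ →* Equiv.Perm (St M X),
      (∀ (r : B) (u u' : {u : M.Group // RMin M.toCoxeterSystem X u}) (h : Art M X),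
        (u' : M.Group) = M.toCoxeterSystem.simple r * u →
        ρ (gen M Set.univ r) (u, h) = (u', h)) ∧
      (∀ (r x : B) (u : {u : M.Group // RMin M.toCoxeterSystem X u}) (h : Art M X), x ∈ X →
        M.toCoxeterSystem.simple r * u = u * M.toCoxeterSystem.simple x →
        ρ (gen M Set.univ r) (u, h) = (u, gen M X x * h)) := by
  obtain ⟨ρ, hρ⟩ := exists_lift (M := M) (X := Set.univ)
    (fun r => (cpP r : Equiv.Perm (St M X))) (fun i hi => absurd (Set.mem_univ i) hi)
    (fun i _ j _ _ => cp_braid i j)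
  refine ⟨ρ, fun r u u' h hu => ?_, fun r x u h hx hu => ?_⟩
  · rw [hρ, cpP_apply]
    exact cpT_one true hu
  · rw [hρ, cpP_apply, cpT_two true hx hu]
    simp

end AHX
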