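import Pool.Agent.AHX.Elec

set_option autoImplicit false

/-!
# AHX module BEND: bending at a member of the family costs nothing

`bend`: if the projections of `a` and `b` to `Y l` are at measure at least `5`, then
`dX Y a (n • b) ≤ dX Y a b` for every `n ∈ N l`.

Proof.  Let `p`, `μ` be a geodesic chain from `a` to `b`, of length `k` (`geod_fun`).

Case 1: `μ i = l` for some `i < k`.  Then `p' j = p j` for `j ≤ i`, `p' j = n • p j` for `j > i` is a
chain of length `k` from `a` to `n • b`: `n • p (i+1) ∈ Y l` (`smulN`), for `j > i` use `n • μ j`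
(`memY`).

Case 2 (`bend_aux`): `μ i ≠ l` for all `i < k`.  Put `P i = pr d (Y l) (p i)`.  We show
`m (P 0) (P k) ≤ 4`.  If `P i = P (i+1)` for all `i < k`, then `P 0 = P k` and `m = 0` (`m_self`).
Otherwise let `i` be the smallest and `j` the largest index `< k` with `P i ≠ P (i+1)`; then
`P 0 = P i` and `P (j+1) = P k`.  As `p i, p (i+1) ∈ Y (μ i)` and `P i ≠ P (i+1)`, `pr_const` shows
that `Y l` and `Y (μ i)` have a common point `c`; in the same way `Y l` and `Y (μ j)` have a common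
point `c'`.  So `dX (p i) c ≤ 1`, `dX c c' ≤ 1`, `dX c' (p (j+1)) ≤ 1` (`dX_one`), and
`j + 1 - i = dX (p i) (p (j+1)) ≤ 3`.  Every step has `m (P t) (P (t+1)) = 0` (`pr_cross`), so by
`m_tri` at most twice: `m (P i) (P (j+1)) ≤ 4`.
-/

namespace AHX

variable {V Γ Λ : Type} [Group Γ] [MulAction Γ V] [MulAction Γ Λ]
  {d m : V → V → ℕ} {Y : Λ → Set V} {N : Λ → Subgroup Γ} {L : ℕ}
  {x y z u v a b : V} {l l' : Λ} {g n : Γ} {k k' : ℕ}

private theorem bend_first {P : ℕ → V} : ∀ {k : ℕ}, P 0 ≠ P k →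
    ∃ i, i < k ∧ P 0 = P i ∧ P i ≠ P (i + 1)
  | 0, h => absurd rfl h
  | k + 1, h => by
    by_cases h1 : P 0 = P k
    · exact ⟨k, Nat.lt_succ_self k, h1, by rw [← h1]; exact h⟩
    · obtain ⟨i, hi, h2, h3⟩ := bend_first h1
      exact ⟨i, Nat.lt_succ_of_lt hi, h2, h3⟩

private theorem bend_last {P : ℕ → V} : ∀ {k : ℕ}, P 0 ≠ P k →
    ∃ j, j < k ∧ P j ≠ P (j + 1) ∧ P (j + 1) = P k
  | 0, h => absurd rfl h
  | k + 1, h => by
    by_cases h1 : P k = P (k + 1)
    · obtain ⟨j, hj, h2, h3⟩ := bend_last (P := P) (k := k) (by rw [h1]; exact h)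
      exact ⟨j, Nat.lt_succ_of_lt hj, h2, by rw [h3, h1]⟩
    · exact ⟨k, Nat.lt_succ_self k, h1, rfl⟩

theorem bend_aux (F : Fam d m Y N L) (p : ℕ → V) (μ : ℕ → Λ) (k : ℕ) (l : Λ)
    (hp : ∀ i, i < k → p i ∈ Y (μ i) ∧ p (i + 1) ∈ Y (μ i))
    (hg : ∀ i j, i ≤ j → j ≤ k → dX Y (p i) (p j) = j - i) (hl : ∀ i, i < k → μ i ≠ l) :
    m (pr d (Y l) (p 0)) (pr d (Y l) (p k)) ≤ 4 := by
  have G := geoX F
  set P : ℕ → V := fun i => pr d (Y l) (p i) with hP
  have hstep : ∀ i, i < k → m (P i) (P (i + 1)) = 0 := fun i hi =>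
    F.pr_cross (fun h => hl i hi h.symm) (hp i hi).1 (hp i hi).2
  have hmeet : ∀ i, i < k → P i ≠ P (i + 1) → ∃ c, c ∈ Y l ∧ c ∈ Y (μ i) := by
    intro i hi hne
    by_contra hno
    push Not at hno
    exact hne (pr_const F.tree (F.conv l) (F.nonempty l) (F.conv (μ i)) hno (hp i hi).1
      (hp i hi).2)
  have hshort : ∀ a b, a ≤ b → b ≤ k → b - a ≤ 3 → m (P a) (P b) ≤ 4 := by
    intro a b hab hbk h3
    have h0 := F.m_self (P a)
    obtain ⟨t, rfl⟩ := Nat.exists_eq_add_of_le hab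
    have ht : t ≤ 3 := by omega
    interval_cases t
    · rw [Nat.add_zero]
      omega
    · have := hstep a (by omega)
      omega
    · have e1 := hstep a (by omega)
      have e2 := hstep (a + 1) (by omega)
      have e3 := F.m_tri (P a) (P (a + 1)) (P (a + 1 + 1))
      have e4 : a + 2 = a + 1 + 1 := rfl
      rw [e4]
      omega
    · have e1 := hstep a (by omega)
      have e2 := hstep (a + 1) (by omega)
      have e3 := hstep (a + 1 + 1) (by omega)
      have e4 := F.m_tri (P a) (P (a + 1)) (P (a + 1 + 1))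
      have e5 := F.m_tri (P a) (P (a + 1 + 1)) (P (a + 1 + 1 + 1))
      have e6 : a + 3 = a + 1 + 1 + 1 := rfl
      rw [e6]
      omega
  change m (P 0) (P k) ≤ 4
  by_cases h : P 0 = P k
  · rw [h, F.m_self]
    omega
  · obtain ⟨i, hi, hi0, hi1⟩ := bend_first h
    obtain ⟨j, hj, hj0, hj1⟩ := bend_last h
    obtain ⟨c, hc1, hc2⟩ := hmeet i hi hi1
    obtain ⟨c', hc1', hc2'⟩ := hmeet j hj hj0
    have d1 : dX Y (p i) c ≤ 1 := dX_one (hp i hi).1 hc2
    have d2 : dX Y c c' ≤ 1 := dX_one hc1 hc1'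
    have d3 : dX Y c' (p (j + 1)) ≤ 1 := dX_one hc2' (hp j hj).2
    have t1 := G.tri (p i) c (p (j + 1))
    have t2 := G.tri c c' (p (j + 1))
    rw [hi0, ← hj1]
    rcases Nat.le_total i (j + 1) with h1 | h1
    · have h2 := hg i (j + 1) h1 hj
      exact hshort i (j + 1) h1 hj (by omega)
    · have h2 := hg (j + 1) i h1 hi.le
      have h3 := G.symm (p i) (p (j + 1))
      rw [F.msymm]
      exact hshort (j + 1) i h1 hi.le (by omega)

theorem bend (F : Fam d m Y N L) (hn : n ∈ N l)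
    (h : 5 ≤ m (pr d (Y l) a) (pr d (Y l) b)) : dX Y a (n • b) ≤ dX Y a b := by
  obtain ⟨p, μ, h0, hk, hp, hg⟩ := geod_fun F a b
  by_cases hex : ∃ i, i < dX Y a b ∧ μ i = l
  · obtain ⟨i, hi, hil⟩ := hex
    have : Nonempty Λ := ⟨l⟩
    apply dX_le
    rw [chn_fun]
    refine ⟨fun j => if j ≤ i then p j else n • p j, fun j => if j ≤ i then μ j else n • μ j,
      ?_, ?_, fun j hj => ?_⟩
    · simp only [Nat.zero_le, if_true]
      exact h0
    · simp only [if_neg (Nat.not_le.2 hi)]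
      rw [hk]
    · rcases lt_trichotomy j i with h1 | h1 | h1
      · simp only [if_pos h1.le, if_pos (Nat.succ_le_of_lt h1)]
        exact hp j hj
      · subst h1
        simp only [le_refl, if_true, if_neg (Nat.not_le.2 (Nat.lt_succ_self j))]
        have h2 := hp j hj
        rw [hil] at h2 ⊢
        exact ⟨h2.1, F.smulN hn h2.2⟩
      · simp only [if_neg (Nat.not_le.2 h1), if_neg (Nat.not_le.2 (Nat.lt_succ_of_lt h1))]
        have h2 := hp j hj
        exact ⟨F.memY.2 h2.1, F.memY.2 h2.2⟩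
  · push Not at hex
    have h1 := bend_aux F p μ (dX Y a b) l hp hg hex
    rw [h0, hk] at h1
    omega

end AHX
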