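import Pool.Agent.AHX.Elec

set_option autoImplicit false

/-!
# AHX module SLIM: the electric metric is hyperbolic

* `near_geod`: let `p`, `μ` be a geodesic chain from `x` to `y` of length `k` (`geod_fun`) and let `z`
  be between `x` and `y` in the tree.  Induction with `Tree.split`: `z` is between `p i` and
  `p (i+1)` for some `i < k` (or `k = 0` and `x = z = y`).  Then `z ∈ Y (μ i)`; take `u = p i`.
* `near_le`: by `near_geod`, `dX x z ≤ dX x u + 1 ≤ dX x y + 1`.
* `near_tree`: let `q` be the median of `x, p, y` in the tree: `q` between `x` and `p`, `p` and `y`,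
  `x` and `y`.  `near_geod` gives `u` with `Btw (dX Y) x u p`, `dX u q ≤ 1`, and `v` with
  `Btw (dX Y) p v y`, `dX v q ≤ 1`.  Since `dX x u + dX u p + dX p v + dX v y = dX x y
  ≤ dX x u + dX u v + dX v y`, `dX u p + dX p v ≤ dX u v ≤ 2`, so `dX u p ≤ 1` or `dX p v ≤ 1` and
  `dX p q ≤ 2`.
* `slimX`: `near_tree` for `p` gives `z'` between `x` and `y`; `Tree.split`; `near_geod`.
-/

namespace AHX

variable {V Γ Λ : Type} [Group Γ] [MulAction Γ V] [MulAction Γ Λ]
  {d m : V → V → ℕ} {Y : Λ → Set V} {N : Λ → Subgroup Γ} {L : ℕ}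
  {x y z u v p : V} {l l' : Λ} {g n : Γ} {k k' : ℕ}

theorem near_geod (F : Fam d m Y N L) (h : Btw d x z y) :
    ∃ u, Btw (dX Y) x u y ∧ dX Y u z ≤ 1 := by
  obtain ⟨p, μ, h0, hk, hp, hg⟩ := geod_fun F x y
  have key : ∀ i, i ≤ dX Y x y → Btw d x z (p i) →
      ∃ j, j ≤ dX Y x y ∧ dX Y (p j) z ≤ 1 := by
    intro i
    induction i with
    | zero =>
      intro _ h1
      rw [h0] at h1
      unfold Btw at h1
      rw [F.tree.refl] at h1
      have h2 : x = z := F.tree.eq0 _ _ (by omega)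
      refine ⟨0, Nat.zero_le _, ?_⟩
      rw [h0, ← h2, (geoX F).refl]
      omega
    | succ i ih =>
      intro hi h1
      rcases F.tree.split h1 (p i) with h2 | h2
      · exact ih (by omega) h2
      · have h3 := hp i (by omega)
        exact ⟨i, by omega, dX_one h3.1 (F.conv (μ i) _ h3.1 _ h3.2 _ h2)⟩
  obtain ⟨j, hj, h1⟩ := key (dX Y x y) le_rfl (by rw [hk]; exact h)
  refine ⟨p j, ?_, h1⟩
  have h2 := hg 0 j (Nat.zero_le _) hj
  have h3 := hg j (dX Y x y) hj le_rfl
  rw [h0] at h2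
  rw [hk] at h3
  unfold Btw
  omega

theorem near_le (F : Fam d m Y N L) (h : Btw d x z y) : dX Y x z ≤ dX Y x y + 1 := by
  obtain ⟨u, h1, h2⟩ := near_geod F h
  have h3 := (geoX F).tri x u z
  unfold Btw at h1
  omega

theorem near_tree (F : Fam d m Y N L) (h : Btw (dX Y) x p y) :
    ∃ z, Btw d x z y ∧ dX Y p z ≤ 2 := by
  have G := geoX F
  obtain ⟨q, h1, h2, h3⟩ := F.tree.med x p y
  obtain ⟨u, hu1, hu2⟩ := near_geod F h1
  obtain ⟨v, hv1, hv2⟩ := near_geod F h2
  refine ⟨q, h3, ?_⟩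
  unfold Btw at h hu1 hv1
  have t1 := G.tri x u y
  have t2 := G.tri u v y
  have t3 := G.tri u q v
  have t4 := G.symm v q
  have t5 := G.tri p u q
  have t6 := G.symm p u
  have t7 := G.tri p v q
  omega

theorem slimX (F : Fam d m Y N L) : Burn.Slim (dX Y) 3 := by
  intro x y z p h
  have G := geoX F
  obtain ⟨z', h1, h2⟩ := near_tree F h
  rcases F.tree.split h1 z with h3 | h3
  · obtain ⟨u, h4, h5⟩ := near_geod F h3
    refine ⟨u, Or.inl h4, ?_⟩
    have t1 := G.tri p z' u
    have t2 := G.symm z' u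
    omega
  · obtain ⟨u, h4, h5⟩ := near_geod F h3
    refine ⟨u, Or.inr h4, ?_⟩
    have t1 := G.tri p z' u
    have t2 := G.symm z' u
    omega

end AHX
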