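import Pool.Agent.AHX.WindB

set_option autoImplicit false

/-!
# AHX module WINDD: the elements of the new group can be reduced

`S = Sg Y U A`.

* `wd_cover`: let `P g` be `g ∈ H ∨ ∃ l, Wd N H S l g`.  `P` is stable under left multiplication by
  `h ∈ H` (`Wd N H S l g` implies `Wd N H S (h • l) (h * g)`, induction,
  `h * (n * g) = (h * n * h⁻¹) * (h * g)`) and by `n ∈ N l`, `l ∈ S` (cases: `n = 1`; `g ∈ H`: `one`;
  `Wd l' g` with `l' ≠ l`: `step`; `Wd l g` with `g = n' * g'`: if `n * n' = 1` then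
  `n * g = g'`, otherwise `one` or `step` for `n * n'`).  The subgroup `H2` is the closure of the
  union of `H` and all `N l`, `l ∈ S`; every element is a finite product of elements of this union
  (for example `Subgroup.closure_induction_left`), and `P 1` holds.
* `wd_beh`: induction on `Wd`: for `h ∈ H`, `h • x₀ ∈ U ⊆ U1`.
* `wd_red`: induction on `Wd`.  `g = n * g'`: use `Red.step l n g`; `n⁻¹ * g = g'` is reduced to `1`
  by `W.red` or by induction; the measure: `a' = pr d (Y l) x₀` is in `U1 ∩ Y l` (`pr_u1`), so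
  `rot_far1` (for `h • x₀ ∈ U`) or `rot_far2` (with `wd_beh`) gives
  `L ≤ m (pr d (Y l) x₀) (pr d (Y l) (n • (g' • x₀))) + 10`.
-/

set_option linter.unusedSectionVars false

namespace AHX

variable {V Γ Λ : Type} [Group Γ] [MulAction Γ V] [MulAction Γ Λ]
  {d m : V → V → ℕ} {Y : Λ → Set V} {N : Λ → Subgroup Γ} {L : ℕ} {x₀ : V} {U : Set V}
  {H : Subgroup Γ} {A : Set Λ} {x y z a b a' : V} {l l' : Λ} {g n h : Γ}

private theorem wd_mem {S : Set Λ} (hg : Wd N H S l g) : l ∈ S := by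
  cases hg with
  | one h1 _ _ _ => exact h1
  | step h1 _ _ _ _ => exact h1

private theorem wd_smul (F : Fam d m Y N L) (W : WM d m Y N L x₀ U H A) (hh : h ∈ H)
    (hg : Wd N H (Sg Y U A) l g) : Wd N H (Sg Y U A) (h • l) (h * g) := by
  induction hg with
  | @one l n h' hl hn h1 hh' =>
    have e : h * (n * h') = (h * n * h⁻¹) * (h * h') := by group
    rw [e]
    refine Wd.one (sg_inv F W hh hl) (F.eqN h l n hn) (fun h2 => h1 ?_) (H.mul_mem hh hh')
    exact conj_eq_one_iff.1 h2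
  | @step l l' n g' hl hn h1 hne _ ih =>
    have e : h * (n * g') = (h * n * h⁻¹) * (h * g') := by group
    rw [e]
    refine Wd.step (sg_inv F W hh hl) (F.eqN h l n hn) (fun h2 => h1 ?_)
      (fun h2 => hne (MulAction.injective h h2)) ih
    exact conj_eq_one_iff.1 h2

/-- left multiplication by an element of `N l` -/
private theorem wd_mulN {S : Set Λ} (hl : l ∈ S) (hn : n ∈ N l) (hg : g ∈ H ∨ ∃ l, Wd N H S l g) :
    n * g ∈ H ∨ ∃ l, Wd N H S l (n * g) := by
  by_cases h1 : n = 1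
  · rw [h1, one_mul]
    exact hg
  rcases hg with hg | ⟨l', hg⟩
  · exact Or.inr ⟨l, Wd.one hl hn h1 hg⟩
  by_cases hne : l' = l
  · subst hne
    cases hg with
    | @one _ n' h' _ hn' _ hh' =>
      rw [← mul_assoc]
      by_cases h2 : n * n' = 1
      · rw [h2, one_mul]
        exact Or.inl hh'
      · exact Or.inr ⟨l', Wd.one hl ((N l').mul_mem hn hn') h2 hh'⟩
    | @step _ l'' n' g' _ hn' _ hne' hg' =>
      rw [← mul_assoc]
      by_cases h2 : n * n' = 1
      · rw [h2, one_mul]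
        exact Or.inr ⟨l'', hg'⟩
      · exact Or.inr ⟨l', Wd.step hl ((N l').mul_mem hn hn') h2 hne' hg'⟩
  · exact Or.inr ⟨l, Wd.step hl hn h1 hne hg⟩

theorem wd_cover (F : Fam d m Y N L) (W : WM d m Y N L x₀ U H A)
    (hg : g ∈ H2 N H (Sg Y U A)) : g ∈ H ∨ ∃ l, Wd N H (Sg Y U A) l g := by
  -- the subgroup of all elements which, together with their inverses, preserve the property
  let K : Subgroup Γ :=
    { carrier := {a | (∀ b, (b ∈ H ∨ ∃ l, Wd N H (Sg Y U A) l b) →
          (a * b ∈ H ∨ ∃ l, Wd N H (Sg Y U A) l (a * b))) ∧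
        ∀ b, (b ∈ H ∨ ∃ l, Wd N H (Sg Y U A) l b) →
          (a⁻¹ * b ∈ H ∨ ∃ l, Wd N H (Sg Y U A) l (a⁻¹ * b))}
      mul_mem' := by
        rintro a b ⟨ha1, ha2⟩ ⟨hb1, hb2⟩
        refine ⟨fun c hc => ?_, fun c hc => ?_⟩
        · rw [mul_assoc]
          exact ha1 _ (hb1 c hc)
        · rw [mul_inv_rev, mul_assoc]
          exact hb2 _ (ha2 c hc)
      one_mem' := by
        refine ⟨fun c hc => ?_, fun c hc => ?_⟩
        · rw [one_mul]
          exact hc
        · rw [inv_one, one_mul]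
          exact hc
      inv_mem' := by
        rintro a ⟨ha1, ha2⟩
        refine ⟨ha2, fun c hc => ?_⟩
        rw [inv_inv]
        exact ha1 c hc }
  have hHK : H ≤ K := by
    have h1 : ∀ a ∈ H, ∀ b, (b ∈ H ∨ ∃ l, Wd N H (Sg Y U A) l b) →
        (a * b ∈ H ∨ ∃ l, Wd N H (Sg Y U A) l (a * b)) := by
      rintro a ha b (hb | ⟨l, hb⟩)
      · exact Or.inl (H.mul_mem ha hb)
      · exact Or.inr ⟨a • l, wd_smul F W ha hb⟩
    exact fun a ha => ⟨h1 a ha, h1 a⁻¹ (H.inv_mem ha)⟩
  have hNK : (⨆ l ∈ Sg Y U A, N l) ≤ K := by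
    refine iSup₂_le fun l hl a ha => ?_
    exact ⟨fun b hb => wd_mulN hl ha hb, fun b hb => wd_mulN hl ((N l).inv_mem ha) hb⟩
  have hle : H2 N H (Sg Y U A) ≤ K := sup_le hHK hNK
  have h2 := (hle hg).1 1 (Or.inl H.one_mem)
  rwa [mul_one] at h2

theorem wd_beh (F : Fam d m Y N L) (W : WM d m Y N L x₀ U H A)
    (hg : Wd N H (Sg Y U A) l g) : Beh d Y N U (Sg Y U A) l (g • x₀) := by
  induction hg with
  | @one l n h' hl hn h1 hh' =>
    rw [mul_smul]
    exact Beh.rot hl hn h1 (sub_u1 F.tree (W.invU h' hh' x₀ W.base))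
  | @step l l' n g' hl hn h1 hne _ ih =>
    rw [mul_smul]
    exact Beh.step hl hn h1 hne ih

theorem wd_red (F : Fam d m Y N L) (hL : 35 ≤ L) (W : WM d m Y N L x₀ U H A)
    (hg : Wd N H (Sg Y U A) l g) : Red d m Y N (L - 10) x₀ g := by
  induction hg with
  | @one l n h' hl hn h1 hh' =>
    have h3 := rot_far1 F W hl hn h1 (sub_u1 F.tree (W.invU h' hh' x₀ W.base))
      (pr_u1 F W hl (sub_u1 F.tree W.base)) (F.prM l x₀)
    rw [← mul_smul] at h3
    refine Red.step l n (n * h') hn (by omega) ?_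
    rw [inv_mul_cancel_left]
    exact W.red h' hh'
  | @step l l' n g' hl hn h1 hne hg' ih =>
    have h3 := rot_far2 F hL W hl hn h1 (wd_beh F W hg') (Ne.symm hne)
      (pr_u1 F W hl (sub_u1 F.tree W.base)) (F.prM l x₀)
    rw [← mul_smul] at h3
    refine Red.step l n (n * g') hn (by omega) ?_
    rw [inv_mul_cancel_left]
    exact ih

theorem red2 (F : Fam d m Y N L) (hL : 35 ≤ L) (W : WM d m Y N L x₀ U H A)
    (hg : g ∈ H2 N H (Sg Y U A)) : Red d m Y N (L - 10) x₀ g := by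
  rcases wd_cover F W hg with h1 | ⟨l, h1⟩
  · exact W.red g h1
  · exact wd_red F hL W h1

end AHX
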