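import Pool.Agent.AHX.WindC
import Pool.Agent.AHX.WindD

set_option autoImplicit false

/-!
# AHX module WINDE: the windmill

* `wm_base`: `U = {x₀}`, `H = ⊥`, `A = ∅`.
* `wm_step`: `u2_conv`, `u2_inv`, `out2`, `red2`; `incl`: for `l' ∈ A` use `W.incl`, for `l' ∈ S` the
  definition of `H2`, then conjugate (`eqN`, in the form `memN`).
* `wm_seq`: iterate `wm_step` starting from `wm_base` (recursion on `n` on triples `(U, H, A)`):
  `U n ⊆ U (n+1)`, `H n ≤ H (n+1)`, `A n ⊆ A (n+1)`; if `x ∈ U n` and `d x y ≤ 1` then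
  `y ∈ U (n+1)`; if `Y l` meets `U n` then `l ∈ A (n+1)`.
* `red_all`: by `wm_seq` and `mid`, a point at distance `k` from `x₀` is in `U k`.  So for every `l`
  there is `n` with `N l ≤ H n`.  The union of the increasing sequence of subgroups `H n` is a
  subgroup which contains all `N l`; so every `g ∈ ⨆ l, N l` is in some `H n`, use `red` of the stage.
-/

namespace AHX

variable {V Γ Λ : Type} [Group Γ] [MulAction Γ V] [MulAction Γ Λ]
  {d m : V → V → ℕ} {Y : Λ → Set V} {N : Λ → Subgroup Γ} {L : ℕ} {x₀ : V} {U : Set V}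
  {H : Subgroup Γ} {A : Set Λ}

theorem wm_base (F : Fam d m Y N L) (x₀ : V) : WM d m Y N L x₀ {x₀} ⊥ ∅ where
  base := rfl
  conv := by
    rintro x rfl y rfl z hz
    unfold Btw at hz
    rw [F.tree.refl] at hz
    exact (F.tree.eq0 _ _ (by omega)).symm
  invU := by
    intro h hh x hx
    rw [Subgroup.mem_bot] at hh
    rw [hh, one_smul]
    exact hx
  invA := fun h _ l hl => absurd hl (Set.notMem_empty l)
  incl := fun l hl => absurd hl (Set.notMem_empty l)
  out := by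
    rintro l - x rfl y rfl - -
    rw [F.m_self]
    exact Nat.zero_le _
  red := by
    intro h hh
    rw [Subgroup.mem_bot] at hh
    rw [hh]
    exact Red.one

theorem wm_step (F : Fam d m Y N L) (hL : 35 ≤ L) (W : WM d m Y N L x₀ U H A) :
    WM d m Y N L x₀ (U2 d Y N U (Sg Y U A)) (H2 N H (Sg Y U A)) (A2 N H (Sg Y U A) A) where
  base := Or.inl (sub_u1 F.tree W.base)
  conv := u2_conv F W
  invU := fun h hh x hx => u2_inv F W hh hx
  invA := by
    rintro h hh l ⟨h', hh', l', hl', rfl⟩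
    exact ⟨h * h', (H2 N H (Sg Y U A)).mul_mem hh hh', l', hl', (mul_smul h h' l').symm⟩
  incl := by
    rintro l ⟨h, hh, l', hl', rfl⟩ n hn
    have h1 : h⁻¹ * n * h ∈ N l' := by
      have h2 : h * (h⁻¹ * n * h) * h⁻¹ ∈ N (h • l') := by
        rwa [show h * (h⁻¹ * n * h) * h⁻¹ = n by group]
      exact F.memN.1 h2
    have h3 : h⁻¹ * n * h ∈ H2 N H (Sg Y U A) := by
      rcases hl' with hl' | hl'
      · exact Subgroup.mem_sup_left (W.incl l' hl' h1)
      · exact windc_le hl' h1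
    have h4 := (H2 N H (Sg Y U A)).mul_mem ((H2 N H (Sg Y U A)).mul_mem hh h3)
      ((H2 N H (Sg Y U A)).inv_mem hh)
    rwa [show h * (h⁻¹ * n * h) * h⁻¹ = n by group] at h4
  out := fun l hl x hx y hy hxl hyl => out2 F hL W hl hx hy hxl hyl
  red := fun h hh => red2 F hL W hh

theorem wm_seq (F : Fam d m Y N L) (hL : 35 ≤ L) (x₀ : V) :
    ∃ (U : ℕ → Set V) (H : ℕ → Subgroup Γ) (A : ℕ → Set Λ),
      (∀ n, WM d m Y N L x₀ (U n) (H n) (A n)) ∧ (∀ n, H n ≤ H (n + 1)) ∧
      (∀ n x y, x ∈ U n → d x y ≤ 1 → y ∈ U (n + 1)) ∧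
      (∀ n l x, x ∈ U n → x ∈ Y l → l ∈ A (n + 1)) := by
  classical
  let St : Type := {t : Set V × Subgroup Γ × Set Λ // WM d m Y N L x₀ t.1 t.2.1 t.2.2}
  let nx : St → St := fun s =>
    ⟨(U2 d Y N s.1.1 (Sg Y s.1.1 s.1.2.2), H2 N s.1.2.1 (Sg Y s.1.1 s.1.2.2),
      A2 N s.1.2.1 (Sg Y s.1.1 s.1.2.2) s.1.2.2), wm_step F hL s.2⟩
  let sq : ℕ → St := fun n => Nat.rec ⟨({x₀}, ⊥, ∅), wm_base F x₀⟩ (fun _ s => nx s) n
  have hsq : ∀ n, sq (n + 1) = nx (sq n) := fun n => rfl
  refine ⟨fun n => (sq n).1.1, fun n => (sq n).1.2.1, fun n => (sq n).1.2.2,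
    fun n => (sq n).2, fun n => ?_, fun n x y hx hxy => ?_, fun n l x hx hxl => ?_⟩
  · simp only [hsq]
    exact le_sup_left
  · simp only [hsq]
    exact Or.inl ⟨x, hx, by rw [F.tree.symm]; exact hxy⟩
  · simp only [hsq]
    by_cases hl : l ∈ (sq n).1.2.2
    · exact ⟨1, Subgroup.one_mem _, l, Or.inl hl, (one_smul _ l).symm⟩
    · exact ⟨1, Subgroup.one_mem _, l, Or.inr ⟨hl, x, hx, hxl⟩, (one_smul _ l).symm⟩

/-- Greendlinger lemma: every element of the normal subgroup can be reduced, as seen from every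
base point. -/
theorem red_all (F : Fam d m Y N L) (hL : 35 ≤ L) (x₀ : V) {g : Γ} (hg : g ∈ ⨆ l, N l) :
    Red d m Y N (L - 10) x₀ g := by
  obtain ⟨U, H, A, hW, hH, hU, hA⟩ := wm_seq F hL x₀
  have hball : ∀ k x, d x₀ x ≤ k → x ∈ U k := by
    intro k
    induction k with
    | zero =>
      intro x hx
      have : x₀ = x := F.tree.eq0 _ _ (by omega)
      rw [← this]
      exact (hW 0).base
    | succ k ih =>
      intro x hx
      rcases Nat.lt_or_ge k (d x₀ x) with h1 | h1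
      · obtain ⟨z, hz1, hz2⟩ := F.tree.mid x₀ x k (by omega)
        unfold Btw at hz2
        exact hU k z x (ih z (by omega)) (by omega)
      · exact hU k x x (ih x h1) (by rw [F.tree.refl]; exact Nat.zero_le _)
  have hN : ∀ l, N l ≤ ⨆ n, H n := by
    intro l
    obtain ⟨x, hx⟩ := F.nonempty l
    have h1 := hA _ l x (hball (d x₀ x) x le_rfl) hx
    exact ((hW _).incl l h1).trans (le_iSup H _)
  have hg' : g ∈ ⨆ n, H n := (iSup_le hN) hg
  have hdir : Directed (· ≤ ·) H := (monotone_nat_of_le_succ hH).directed_le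
  obtain ⟨n, hn⟩ := (Subgroup.mem_iSup_of_directed hdir).1 hg'
  exact (hW n).red g hn

end AHX
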