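import Pool.Agent.AHX.Quo
import Pool.Agent.AHX.Bend
import Pool.Agent.AHX.SlimX
import Pool.Agent.AHX.WindE

set_option autoImplicit false

/-!
# AHX module LIFT: polygons of the quotient lift, the quotient is hyperbolic

`K = ⨆ l, N l`, normal in `Γ` (`Fam.normal`), `Tight x y` means `dX x y = ` quotient distance.

* `tight_bend`: `dQ ≤ dX x (n • y) ≤ dX x y = dQ` (`bend`, `mk_smul`).
* `lift4_aux`: induction on the derivation of `Red .. x g`, generalizing `y z w`.  If `g = 1`, done.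
  Otherwise we have `l`, `n ∈ N l` with `L - 10 ≤ m (pr x) (pr (g • x))` (`pr = pr d (Y l)`) and `m_tri`
  three times:
  `m (pr x) (pr (g • x)) ≤ m (pr x) (pr y) + m (pr y) (pr z) + m (pr z) (pr w) + m (pr w) (pr (g • x)) + 6`.
  As `L - 10 ≥ 25 > 4 * 4 + 6`, one of the four is `≥ 5`.  First: replace `y, z, w` by
  `n⁻¹ • y, n⁻¹ • z, n⁻¹ • w`; the pair `x, n⁻¹ • y` is tight by `tight_bend`, the others by
  `tight_smul` (`n⁻¹ ∈ K`), the last one is `n⁻¹ • w, n⁻¹ • g • x`.  Second: replace `z, w`; third: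
  replace `w`; fourth: nothing; in each case the last point becomes `(n⁻¹ * g) • x`.
* `lift4`: lift consecutively (`tight_lift`): `x`, `y`, `z`, `w`, and then `x'` over `a`;
  `x' = g • x` with `g ∈ K`; `red_all` and `lift4_aux`.
* `slimQ`: for `p` between `a` and `b`, apply `lift4` to `a, p, b, c` : points `x, w, y, z`.  Then
  `dX x y ≤ dX x w + dX w y = dQ a b ≤ dX x y`, so `w` is between `x` and `y` in `dX` and `x, y` is
  tight; `slimX` gives `q`, say between `x` and `z`; as `x, z` is tight (symmetry), the orbit of `q`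
  is between `a` and `c`.
-/

namespace AHX

variable {V Γ Λ : Type} [Group Γ] [MulAction Γ V] [MulAction Γ Λ]
  {d m : V → V → ℕ} {Y : Λ → Set V} {N : Λ → Subgroup Γ} {L : ℕ}
  {x y z w : V} {l l' : Λ} {g n : Γ}

theorem tight_symm (F : Fam d m Y N L) (h : Tight (dX Y) (⨆ l, N l) x y) :
    Tight (dX Y) (⨆ l, N l) y x := by
  unfold Tight at *
  rw [(geoX F).symm y x, (geoQ (dX_smul F) (geoX F)).symm, h]

theorem lift_mem (hn : n ∈ N l) : n ∈ ⨆ l, N l := Subgroup.mem_iSup_of_mem l hn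

theorem tight_bend (F : Fam d m Y N L) (hn : n ∈ N l) (hT : Tight (dX Y) (⨆ l, N l) x y)
    (h : 5 ≤ m (pr d (Y l) x) (pr d (Y l) y)) : Tight (dX Y) (⨆ l, N l) x (n • y) := by
  have h1 := bend F hn h
  have h2 := dQ_le (D := dX Y) (K := ⨆ l, N l) x (n • y)
  unfold Tight at *
  rw [mk_smul (lift_mem hn)] at h2 ⊢
  omega

theorem lift4_aux (F : Fam d m Y N L) (hL : 35 ≤ L) (hg : Red d m Y N (L - 10) x g)
    (h1 : Tight (dX Y) (⨆ l, N l) x y) (h2 : Tight (dX Y) (⨆ l, N l) y z)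
    (h3 : Tight (dX Y) (⨆ l, N l) z w) (h4 : Tight (dX Y) (⨆ l, N l) w (g • x)) :
    ∃ y' z' w', Orb.mk (⨆ l, N l) y' = Orb.mk (⨆ l, N l) y ∧
      Orb.mk (⨆ l, N l) z' = Orb.mk (⨆ l, N l) z ∧ Orb.mk (⨆ l, N l) w' = Orb.mk (⨆ l, N l) w ∧
      Tight (dX Y) (⨆ l, N l) x y' ∧ Tight (dX Y) (⨆ l, N l) y' z' ∧
      Tight (dX Y) (⨆ l, N l) z' w' ∧ Tight (dX Y) (⨆ l, N l) w' x := by
  induction hg generalizing y z w with
  | one =>
    rw [one_smul] at h4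
    exact ⟨y, z, w, rfl, rfl, rfl, h1, h2, h3, h4⟩
  | step l n g hn hR hred ih =>
    have t1 := F.m_tri (pr d (Y l) x) (pr d (Y l) y) (pr d (Y l) (g • x))
    have t2 := F.m_tri (pr d (Y l) y) (pr d (Y l) z) (pr d (Y l) (g • x))
    have t3 := F.m_tri (pr d (Y l) z) (pr d (Y l) w) (pr d (Y l) (g • x))
    have hn' : n⁻¹ ∈ N l := (N l).inv_mem hn
    have hK : n⁻¹ ∈ ⨆ l, N l := lift_mem hn'
    have ts : ∀ u v : V, Tight (dX Y) (⨆ l, N l) u v →
        Tight (dX Y) (⨆ l, N l) (n⁻¹ • u) (n⁻¹ • v) := fun u v h =>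
      (tight_smul (dX_smul F) hK).2 h
    have mks : ∀ u : V, Orb.mk (⨆ l, N l) (n⁻¹ • u) = Orb.mk (⨆ l, N l) u := fun u => mk_smul hK u
    have hcase : 5 ≤ m (pr d (Y l) x) (pr d (Y l) y) ∨ 5 ≤ m (pr d (Y l) y) (pr d (Y l) z) ∨
        5 ≤ m (pr d (Y l) z) (pr d (Y l) w) ∨ 5 ≤ m (pr d (Y l) w) (pr d (Y l) (g • x)) := by
      omega
    have e4 : (n⁻¹ * g) • x = n⁻¹ • (g • x) := mul_smul _ _ _
    rcases hcase with hc | hc | hc | hc
    · obtain ⟨y', z', w', e1, e2, e3, k1, k2, k3, k4⟩ :=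
        ih (tight_bend F hn' h1 hc) (ts _ _ h2) (ts _ _ h3) (by rw [e4]; exact ts _ _ h4)
      exact ⟨y', z', w', e1.trans (mks y), e2.trans (mks z), e3.trans (mks w), k1, k2, k3, k4⟩
    · obtain ⟨y', z', w', e1, e2, e3, k1, k2, k3, k4⟩ :=
        ih h1 (tight_bend F hn' h2 hc) (ts _ _ h3) (by rw [e4]; exact ts _ _ h4)
      exact ⟨y', z', w', e1, e2.trans (mks z), e3.trans (mks w), k1, k2, k3, k4⟩
    · obtain ⟨y', z', w', e1, e2, e3, k1, k2, k3, k4⟩ :=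
        ih h1 h2 (tight_bend F hn' h3 hc) (by rw [e4]; exact ts _ _ h4)
      exact ⟨y', z', w', e1, e2, e3.trans (mks w), k1, k2, k3, k4⟩
    · obtain ⟨y', z', w', e1, e2, e3, k1, k2, k3, k4⟩ :=
        ih h1 h2 h3 (by rw [e4]; exact tight_bend F hn' h4 hc)
      exact ⟨y', z', w', e1, e2, e3, k1, k2, k3, k4⟩

theorem lift4 (F : Fam d m Y N L) (hL : 35 ≤ L) (a b c e : Orb V (⨆ l, N l)) :
    ∃ x y z w, Orb.mk (⨆ l, N l) x = a ∧ Orb.mk (⨆ l, N l) y = b ∧ Orb.mk (⨆ l, N l) z = c ∧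
      Orb.mk (⨆ l, N l) w = e ∧ Tight (dX Y) (⨆ l, N l) x y ∧ Tight (dX Y) (⨆ l, N l) y z ∧
      Tight (dX Y) (⨆ l, N l) z w ∧ Tight (dX Y) (⨆ l, N l) w x := by
  obtain ⟨x, hx⟩ := mk_surj a
  obtain ⟨y, hy, h1⟩ := tight_lift (dX_smul F) x b
  obtain ⟨z, hz, h2⟩ := tight_lift (dX_smul F) y c
  obtain ⟨w, hw, h3⟩ := tight_lift (dX_smul F) z e
  obtain ⟨x', hx', h4⟩ := tight_lift (dX_smul F) w a
  obtain ⟨g, hg, rfl⟩ := mk_eq.1 (hx.trans hx'.symm)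
  obtain ⟨y', z', w', e1, e2, e3, k1, k2, k3, k4⟩ :=
    lift4_aux F hL (red_all F hL x hg) h1 h2 h3 h4
  exact ⟨x, y', z', w', hx, e1.trans hy, e2.trans hz, e3.trans hw, k1, k2, k3, k4⟩

theorem slimQ (F : Fam d m Y N L) (hL : 35 ≤ L) : Burn.Slim (dQ (dX Y) (⨆ l, N l)) 3 := by
  intro a b c p hp
  obtain ⟨x, w, y, z, rfl, rfl, rfl, rfl, h1, h2, h3, h4⟩ := lift4 F hL a p b c
  have hG := geoX F
  have hQ := geoQ (K := ⨆ l, N l) (dX_smul F) hG
  unfold Burn.Btw at hp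
  have t1 := hG.tri x w y
  have t2 := dQ_le (D := dX Y) (K := ⨆ l, N l) x y
  unfold Tight at h1 h2
  have hb : Burn.Btw (dX Y) x w y := by
    unfold Burn.Btw
    omega
  have hxy : Tight (dX Y) (⨆ l, N l) x y := by
    unfold Tight
    omega
  obtain ⟨q, hq, hq3⟩ := slimX F x y z w hb
  refine ⟨Orb.mk (⨆ l, N l) q, ?_, (dQ_le _ _).trans hq3⟩
  have key : ∀ u v : V, Tight (dX Y) (⨆ l, N l) u v → Burn.Btw (dX Y) u q v →
      Burn.Btw (dQ (dX Y) (⨆ l, N l)) (Orb.mk _ u) (Orb.mk _ q) (Orb.mk _ v) := by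
    intro u v huv huq
    unfold Burn.Btw at *
    unfold Tight at huv
    have a1 := dQ_le (D := dX Y) (K := ⨆ l, N l) u q
    have a2 := dQ_le (D := dX Y) (K := ⨆ l, N l) q v
    have a3 := hQ.tri (Orb.mk _ u) (Orb.mk _ q) (Orb.mk _ v)
    omega
  rcases hq with hq | hq
  · exact Or.inl (key x z (tight_symm F h4) hq)
  · exact Or.inr (key z y (tight_symm F h3) hq)

end AHX
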