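import Pool.Agent.AHX.AxUp
import Pool.Agent.AHX.Lift

set_option autoImplicit false

/-!
# AHX module AXDN: the element `f` in the quotient

`K = ⨆ l, N l`.

* `tight_aux`: induction on `Red .. a g` (`a = f ^ n • x₀`).  `one`: nothing.  `step l n' g`: with
  `pr = pr d (Y l)`: `L - 10 ≤ m (pr a) (pr (g • a)) ≤ m (pr a) (pr x₀) + m (pr x₀) (pr (g • a)) + 2`
  and `m (pr a) (pr x₀) ≤ 5` (`ax_pr`), so `m (pr x₀) (pr (g • a)) ≥ 18 ≥ 5`; `tight_bend` for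
  `n'⁻¹`; induction hypothesis.
* `tight_ax`: `tight_lift` gives `y` over the orbit of `a` with `x₀, y` tight, `y = g • a` with
  `g ∈ K`; `red_all` with base point `a`; `tight_aux`.
* `fin_aux`: induction on `Red .. (γ • y) h` (`y = f ^ n • x₀`), generalizing `u`.  `one`: take
  `u' = u`.  `step l n' h`: let `β₁ = m (pr (γ • x₀)) (pr (u • x₀))`,
  `β₂ = m (pr (u • y)) (pr (h • γ • y))`.  By `m_tri` (three times) and `ax_pr'` for `γ` and for `u`: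
  `L - 10 ≤ m (pr (γ • y)) (pr (h • γ • y)) ≤ 5 + β₁ + 5 + β₂ + 6`, so `β₁ ≥ 5` or `β₂ ≥ 5` (as
  `L ≥ 35`).  If `β₁ ≥ 5`: `bend` gives `dX (γ • x₀) (n'⁻¹ • u • x₀) ≤ r`, and
  `dX (n'⁻¹ • u • y) (n'⁻¹ • h • γ • y) ≤ r`: induction hypothesis for `n'⁻¹ * u`.  If `β₂ ≥ 5`:
  `bend` gives `dX (u • y) (n'⁻¹ • h • γ • y) ≤ r`: induction hypothesis for `u`.
* `fin_lift`: let `dQ (mk x₀) (mk (γ • x₀)) ≤ r`: by `dQ_lift` (first point `γ • x₀`, symmetry) there is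
  `u ∈ K` with `dX (γ • x₀) (u • x₀) ≤ r`.  In the same way there is `h ∈ K` with
  `dX (u • y) (h • γ • y) ≤ r` (as `mk (u • y) = mk y`).  `red_all` with base point `γ • y`, `fin_aux`
  gives `u'`; take `γ' = u'⁻¹ * γ`.
-/

namespace AHX

variable {V Γ Λ : Type} [Group Γ] [MulAction Γ V] [MulAction Γ Λ]
  {d m : V → V → ℕ} {Y : Λ → Set V} {N : Λ → Subgroup Γ} {L : ℕ} {f : Γ} {x₀ : V} {τ D : ℕ}
  {n r : ℕ} {γ u h g : Γ}

theorem tight_aux (F : Fam d m Y N L) (hL : 35 ≤ L) (A : Ax d m Y f x₀ τ D)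
    (hg : Red d m Y N (L - 10) (f ^ n • x₀) g)
    (hT : Tight (dX Y) (⨆ l, N l) x₀ (g • f ^ n • x₀)) :
    Tight (dX Y) (⨆ l, N l) x₀ (f ^ n • x₀) := by
  induction hg with
  | one => rwa [one_smul] at hT
  | step l n' g hn' hR _ ih =>
    apply ih
    rw [mul_smul]
    apply tight_bend F ((N l).inv_mem hn') hT
    have h1 := F.m_tri (pr d (Y l) (f ^ n • x₀)) (pr d (Y l) x₀) (pr d (Y l) (g • f ^ n • x₀))
    have h2 := ax_pr F A l n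
    have h3 := F.msymm (pr d (Y l) (f ^ n • x₀)) (pr d (Y l) x₀)
    omega

theorem tight_ax (F : Fam d m Y N L) (hL : 35 ≤ L) (A : Ax d m Y f x₀ τ D) (n : ℕ) :
    Tight (dX Y) (⨆ l, N l) x₀ (f ^ n • x₀) := by
  obtain ⟨y, h1, h2⟩ := tight_lift (K := ⨆ l, N l) (dX_smul F) x₀
    (Orb.mk (⨆ l, N l) (f ^ n • x₀))
  obtain ⟨g, hg, rfl⟩ := mk_eq.1 h1.symm
  exact tight_aux F hL A (red_all F hL _ hg) h2

theorem fin_aux (F : Fam d m Y N L) (hL : 35 ≤ L) (A : Ax d m Y f x₀ τ D)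
    (hh : Red d m Y N (L - 10) (γ • f ^ n • x₀) h) (hu : u ∈ ⨆ l, N l)
    (h1 : dX Y (γ • x₀) (u • x₀) ≤ r) (h2 : dX Y (u • f ^ n • x₀) (h • γ • f ^ n • x₀) ≤ r) :
    ∃ u' ∈ ⨆ l, N l, dX Y (γ • x₀) (u' • x₀) ≤ r ∧
      dX Y (u' • f ^ n • x₀) (γ • f ^ n • x₀) ≤ r := by
  induction hh generalizing u with
  | one =>
    rw [one_smul] at h2
    exact ⟨u, hu, h1, h2⟩
  | step l n' h hn' hR _ ih =>
    have hK : n'⁻¹ ∈ ⨆ l, N l := Subgroup.mem_iSup_of_mem l ((N l).inv_mem hn')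
    have t1 := F.m_tri (pr d (Y l) (γ • f ^ n • x₀)) (pr d (Y l) (γ • x₀))
      (pr d (Y l) (h • γ • f ^ n • x₀))
    have t2 := F.m_tri (pr d (Y l) (γ • x₀)) (pr d (Y l) (u • x₀))
      (pr d (Y l) (h • γ • f ^ n • x₀))
    have t3 := F.m_tri (pr d (Y l) (u • x₀)) (pr d (Y l) (u • f ^ n • x₀))
      (pr d (Y l) (h • γ • f ^ n • x₀))
    have t4 := ax_pr' F A l n γ
    have t5 := F.msymm (pr d (Y l) (γ • x₀)) (pr d (Y l) (γ • f ^ n • x₀))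
    have t6 := ax_pr' F A l n u
    rcases Nat.lt_or_ge (m (pr d (Y l) (γ • x₀)) (pr d (Y l) (u • x₀))) 5 with h3 | h3
    · have h4 : 5 ≤ m (pr d (Y l) (u • f ^ n • x₀)) (pr d (Y l) (h • γ • f ^ n • x₀)) := by
        omega
      have h5 := bend F ((N l).inv_mem hn') h4
      exact ih hu h1 (by
        rw [mul_smul]
        exact h5.trans h2)
    · have h5 := bend F ((N l).inv_mem hn') h3
      obtain ⟨u', h6, h7, h8⟩ := ih (u := n'⁻¹ * u) (Subgroup.mul_mem _ hK hu) (by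
        rw [mul_smul]
        exact h5.trans h1) (by
        rw [mul_smul, mul_smul, dX_smul F]
        exact h2)
      exact ⟨u', h6, h7, h8⟩

theorem fin_lift (F : Fam d m Y N L) (hL : 35 ≤ L) (A : Ax d m Y f x₀ τ D) (γ : Γ)
    (h1 : dQ (dX Y) (⨆ l, N l) (Orb.mk _ x₀) (Orb.mk _ (γ • x₀)) ≤ r)
    (h2 : dQ (dX Y) (⨆ l, N l) (Orb.mk _ (f ^ n • x₀)) (Orb.mk _ (γ • f ^ n • x₀)) ≤ r) :
    ∃ γ' : Γ, γ' * γ⁻¹ ∈ ⨆ l, N l ∧ dX Y x₀ (γ' • x₀) ≤ r ∧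
      dX Y (f ^ n • x₀) (γ' • f ^ n • x₀) ≤ r := by
  have hD := dX_smul F
  have G := geoX F
  have GQ := geoQ (K := ⨆ l, N l) hD G
  obtain ⟨y', h3, h4⟩ := dQ_lift (K := ⨆ l, N l) hD (γ • x₀) (Orb.mk (⨆ l, N l) x₀)
  obtain ⟨u, hu, rfl⟩ := mk_eq.1 h3.symm
  obtain ⟨z, h5, h6⟩ := dQ_lift (K := ⨆ l, N l) hD (u • f ^ n • x₀)
    (Orb.mk (⨆ l, N l) (γ • f ^ n • x₀))
  obtain ⟨h, hh, rfl⟩ := mk_eq.1 h5.symm
  have h7 : dX Y (γ • x₀) (u • x₀) ≤ r := by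
    rw [h4, GQ.symm]
    exact h1
  have h8 : dX Y (u • f ^ n • x₀) (h • γ • f ^ n • x₀) ≤ r := by
    rw [h6, mk_smul hu]
    exact h2
  obtain ⟨u', hu', h9, h10⟩ := fin_aux F hL A (red_all F hL _ hh) hu h7 h8
  refine ⟨u'⁻¹ * γ, ?_, ?_, ?_⟩
  · rw [mul_assoc, mul_inv_cancel, mul_one]
    exact Subgroup.inv_mem _ hu'
  · rw [← hD u', mul_smul, smul_inv_smul, G.symm]
    exact h9
  · rw [← hD u', mul_smul, smul_inv_smul]
    exact h10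

end AHX
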