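import Pool.Agent.AHX.Sl2
import Pool.Agent.AHX.ArtC

set_option autoImplicit false

/-!
# AHX module EVW: elements of `F` and `N` as alternating products

`M s t = 0`, `Γ = Ga M`.

* `exists_ev`: let `S` be the set of all `ev x y es`, `ev y x es` with nonzero exponents.  `1 ∈ S` and
  `S` is stable under left multiplication by `x ^ n`, `y ^ n` (`n ≠ 0`): for
  `x ^ n * ev x y (e :: es) = x ^ (n + e) * ev y x es`, and if `n + e = 0` this is `ev y x es`.  Use
  `Subgroup.closure_induction_left` or similar.
* `nn_ev`: `n = φ w`, `w` in the normal closure of the relator in the free group.  By `exists_ev` in the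
  free group (generated by `of true`, `of false`) `w = ev .. es`.  The homomorphism `FreeGroup Bool →*
  SL(2, ℝ)` with `true ↦ slA c`, `false ↦ slB c` kills the relator (`sl2_braid`, `altp_hom`), so kills `w`; if
  `es = []` then `w = 1` and `n = 1`; otherwise `sl2_free` gives `gp es + 4 > k` (a homomorphism maps
  `ev x y es` to `ev (φ x) (φ y) es`).  (`brel k` is empty if `k = 0`, then `w = 1`.)
* `alt_evl`: `gn s ^ e ∈ P` and, for `e ≠ 0`, `gn s ^ e ∉ R` (`gen_pow_mem`, as `s ∉ TT s t`); the same for
  `t`, `Q`.
-/

namespace AHX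

theorem evl_prod {H : Type} [Group H] (x y : H) (es : List ℤ) : (evl x y es).prod = ev x y es := by
  induction es generalizing x y with
  | nil => rfl
  | cons e es ih => rw [evl, ev, List.prod_cons, ih]

theorem evl_length {H : Type} [Group H] (x y : H) (es : List ℤ) :
    (evl x y es).length = es.length := by
  induction es generalizing x y with
  | nil => rfl
  | cons e es ih => rw [evl, List.length_cons, List.length_cons, ih]

theorem ev_hom {H K : Type} [Group H] [Group K] (φ : H →* K) (x y : H) (es : List ℤ) :
    φ (ev x y es) = ev (φ x) (φ y) es := by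
  induction es generalizing x y with
  | nil => exact map_one φ
  | cons e es ih => rw [ev, ev, map_mul, map_zpow, ih]

/-- the alternating products -/
def EvS {H : Type} [Group H] (x y g : H) : Prop :=
  ∃ es : List ℤ, (∀ e ∈ es, e ≠ 0) ∧ (g = ev x y es ∨ g = ev y x es)

theorem evs_symm {H : Type} [Group H] {x y g : H} (h : EvS x y g) : EvS y x g := by
  obtain ⟨es, h0, h | h⟩ := h
  · exact ⟨es, h0, Or.inr h⟩
  · exact ⟨es, h0, Or.inl h⟩

theorem evs_mul {H : Type} [Group H] {x y g : H} (h : EvS x y g) (n : ℤ) :
    EvS x y (x ^ n * g) := by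
  by_cases hn : n = 0
  · rw [hn, zpow_zero, one_mul]
    exact h
  obtain ⟨es, h0, h | h⟩ := h
  · rcases es with _ | ⟨e, es⟩
    · refine ⟨[n], ?_, Or.inl ?_⟩
      · intro a ha
        rw [List.mem_singleton] at ha
        rw [ha]
        exact hn
      · rw [h]
        rfl
    · have h0' : ∀ a ∈ es, a ≠ 0 := fun a ha => h0 a (List.mem_cons_of_mem _ ha)
      by_cases hs : n + e = 0
      · refine ⟨es, h0', Or.inr ?_⟩
        rw [h, ev, ← mul_assoc, ← zpow_add, hs, zpow_zero, one_mul]
      · refine ⟨(n + e) :: es, ?_, Or.inl ?_⟩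
        · intro a ha
          rw [List.mem_cons] at ha
          rcases ha with rfl | ha
          · exact hs
          · exact h0' a ha
        · rw [h, ev, ev, ← mul_assoc, ← zpow_add]
  · refine ⟨n :: es, ?_, Or.inl ?_⟩
    · intro a ha
      rw [List.mem_cons] at ha
      rcases ha with rfl | ha
      · exact hn
      · exact h0 a ha
    · rw [h, ev]

theorem exists_ev {H : Type} [Group H] {x y g : H} (hg : g ∈ Subgroup.closure {x, y}) :
    ∃ es : List ℤ, (∀ e ∈ es, e ≠ 0) ∧ (g = ev x y es ∨ g = ev y x es) := by
  have h : EvS x y g := by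
    induction hg using Subgroup.closure_induction_left with
    | one => exact ⟨[], by simp, Or.inl rfl⟩
    | mul_left a ha g hg ih =>
      rcases ha with rfl | ha
      · have := evs_mul ih 1
        rw [zpow_one] at this
        exact this
      · rw [Set.mem_singleton_iff] at ha
        subst ha
        have := evs_mul (evs_symm ih) 1
        rw [zpow_one] at this
        exact evs_symm this
    | inv_mul_cancel a ha g hg ih =>
      rcases ha with rfl | ha
      · have := evs_mul ih (-1)
        rw [zpow_neg_one] at this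
        exact this
      · rw [Set.mem_singleton_iff] at ha
        subst ha
        have := evs_mul (evs_symm ih) (-1)
        rw [zpow_neg_one] at this
        exact evs_symm this
  exact h

variable {B : Type} {M : CoxeterMatrix B} {s t : B} {k : ℕ}

theorem ff_range (s t : B) : (phi M s t).range = FF M s t := by
  unfold phi FF
  rw [FreeGroup.range_lift_eq_closure]
  congr 1
  ext x
  simp only [Set.mem_range, Bool.exists_bool, Bool.false_eq_true, if_false, if_true,
    Set.mem_insert_iff, Set.mem_singleton_iff]
  constructor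
  · rintro (h | h)
    · exact Or.inr h.symm
    · exact Or.inl h.symm
  · rintro (h | h)
    · exact Or.inr h.symm
    · exact Or.inl h.symm

theorem mem_closure_two (w : FreeGroup Bool) :
    w ∈ Subgroup.closure {FreeGroup.of true, FreeGroup.of false} := by
  have h : w ∈ Subgroup.closure (Set.range (FreeGroup.of : Bool → FreeGroup Bool)) := by
    rw [FreeGroup.closure_range_of]
    trivial
  have h2 : (Set.range (FreeGroup.of : Bool → FreeGroup Bool)) =
      {FreeGroup.of true, FreeGroup.of false} := by
    ext x
    simp only [Set.mem_range, Bool.exists_bool, Set.mem_insert_iff, Set.mem_singleton_iff]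
    constructor
    · rintro (h | h)
      · exact Or.inr h.symm
      · exact Or.inl h.symm
    · rintro (h | h)
      · exact Or.inr h.symm
      · exact Or.inl h.symm
  rw [← h2]
  exact h

/-- the representation of the free group -/
noncomputable def slRep (k : ℕ) : FreeGroup Bool →* Matrix.SpecialLinearGroup (Fin 2) ℝ :=
  FreeGroup.lift (fun b => if b = true then slA (2 * Real.cos (Real.pi / k))
    else slB (2 * Real.cos (Real.pi / k)))

theorem slRep_true (k : ℕ) : slRep k (FreeGroup.of true) = slA (2 * Real.cos (Real.pi / k)) := by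
  unfold slRep
  rw [FreeGroup.lift_apply_of]
  rfl

theorem slRep_false (k : ℕ) : slRep k (FreeGroup.of false) = slB (2 * Real.cos (Real.pi / k)) := by
  unfold slRep
  rw [FreeGroup.lift_apply_of]
  rfl

theorem slRep_ker (hk : k = 0 ∨ 4 ≤ k) {w : FreeGroup Bool}
    (hw : w ∈ Subgroup.normalClosure (brel k)) : slRep k w = 1 := by
  have hle : Subgroup.normalClosure (brel k) ≤ (slRep k).ker := by
    apply Subgroup.normalClosure_le_normal
    rintro r ⟨hk0, rfl⟩
    have h2 : 2 ≤ k := by omega
    show slRep k _ = 1
    rw [map_mul, map_inv, altp_hom, altp_hom, slRep_true, slRep_false, sl2_braid h2,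
      mul_inv_cancel]
  exact hle hw

theorem phi_true (M : CoxeterMatrix B) (s t : B) : phi M s t (FreeGroup.of true) = gn M s := by
  unfold phi
  rw [FreeGroup.lift_apply_of]
  rfl

theorem phi_false (M : CoxeterMatrix B) (s t : B) : phi M s t (FreeGroup.of false) = gn M t := by
  unfold phi
  rw [FreeGroup.lift_apply_of]
  rfl

theorem nn_ne (hk : k = 0 ∨ 4 ≤ k) {n : Ga M} (hn : n ∈ NN M s t k) (h1 : n ≠ 1) : k ≠ 0 := by
  rintro rfl
  obtain ⟨w, hw, rfl⟩ := hn
  have h0 : brel 0 = ∅ := by
    ext r
    simp [brel]
  rw [h0] at hw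
  have hw' : w ∈ Subgroup.normalClosure (∅ : Set (FreeGroup Bool)) := hw
  have hle : Subgroup.normalClosure (∅ : Set (FreeGroup Bool)) ≤ ⊥ :=
    Subgroup.normalClosure_le_normal (Set.empty_subset _)
  have := hle hw'
  rw [Subgroup.mem_bot] at this
  rw [this] at h1
  exact h1 (map_one _)

theorem nn_ev (hk : k = 0 ∨ 4 ≤ k) {n : Ga M} (hn : n ∈ NN M s t k) (h1 : n ≠ 1) :
    ∃ es : List ℤ, es ≠ [] ∧ (∀ e ∈ es, e ≠ 0) ∧ k ≤ gp es + 3 ∧
      (n = ev (gn M s) (gn M t) es ∨ n = ev (gn M t) (gn M s) es) := by
  have hk0 := nn_ne hk hn h1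
  have hk4 : 4 ≤ k := by omega
  obtain ⟨w, hw, rfl⟩ := hn
  obtain ⟨es, h0, hes⟩ := exists_ev (mem_closure_two w)
  have hne : es ≠ [] := by
    rintro rfl
    have : w = 1 := by
      rcases hes with h | h <;> exact h
    rw [this] at h1
    exact h1 (map_one _)
  refine ⟨es, hne, h0, ?_, ?_⟩
  · by_contra hcon
    have hfree := sl2_free hk4 hne h0 (by omega)
    have hker := slRep_ker hk hw
    rcases hes with rfl | rfl
    · rw [ev_hom, slRep_true, slRep_false] at hker
      exact hfree.1 hker
    · rw [ev_hom, slRep_true, slRep_false] at hker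
      exact hfree.2 hker
  · rcases hes with rfl | rfl
    · left
      show phi M s t _ = _
      rw [ev_hom, phi_true, phi_false]
    · right
      show phi M s t _ = _
      rw [ev_hom, phi_true, phi_false]

theorem alt_evl (hst : s ≠ t) {es : List ℤ} (h0 : ∀ e ∈ es, e ≠ 0) :
    Alt (PP M s t) (QQ M s t) (RR M s t) true (evl (gn M s) (gn M t) es) ∧
      Alt (PP M s t) (QQ M s t) (RR M s t) false (evl (gn M t) (gn M s) es) := by
  induction es with
  | nil => exact ⟨trivial, trivial⟩
  | cons e es ih =>
    have ih' := ih fun a ha => h0 a (List.mem_cons_of_mem _ ha)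
    have he := h0 e (List.mem_cons_self ..)
    exact ⟨⟨Subgroup.zpow_mem _ (gen_mem_par hst) _,
      fun h => he (gen_pow_mem (fun h => h.1 rfl) h), ih'.2⟩,
      ⟨Subgroup.zpow_mem _ (gen_mem_par hst.symm) _,
      fun h => he (gen_pow_mem (fun h => h.2 rfl) h), ih'.1⟩⟩

end AHX
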