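import Pool.Agent.AHX.AmalR
import Pool.Agent.AHX.Evw

set_option autoImplicit false

/-!
# AHX module K0A: the group `K0` and the groups `NL`

`F` is generated by `s` and `t`, `C = Pa (CC)`, `K0 = F ⊔ C`; the generators in `CC` commute with `s` and
`t`, so `F` and `C` commute elementwise (`gen_comm`).

* `k0_eq`: `K0` is generated by the generators in `{s, t} ∪ CC`.
* `k0_split`: from `Subgroup.mem_sup` (elements of `F` and `C` commute; e.g. `Subgroup.sup_eq_closure_mul` or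
  show that the set of products is a subgroup).
* `k0_inter_r`: by `par_inter` `K0 ∩ R` is generated by the generators in `({s, t} ∪ CC) ∩ TT = CC`.
* `k0_inter_p`: by `par_inter` `K0 ∩ P` is generated by the generators in
  `({s, t} ∪ CC) ∩ {i | i ≠ t} = {s} ∪ CC`, and `s` commutes with `C`, so its elements are of the form
  `s ^ a * c` (closure induction).  The same for `Q` and `t`.
* `nn_norm`: `NN ≤ F` (range of `phi`); `c ∈ C` commutes with `NN`; for `f ∈ F`, `f = phi w` (`ff_range`), and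
  the normal closure is normal.
* `nl_mem`: `Quotient.out l = g * κ` with `κ ∈ K0` (`QuotientGroup.eq`), and `nn_norm`.
* `nl_fix`, `nl_conj` immediately from `nl_mem`: `(g * n * g⁻¹) • ↑g = ↑(g * n) = ↑g` as `n ∈ K0`.
* `gd_lab`: let `l = ↑h`.  `vr g ∈ YY l` gives `κ ∈ K0` with `vr g = vr (h κ)`; replace `h` by `h κ`
  (`↑(h κ) = ↑h`): `g = h r` with `r ∈ R`.  `vr (g s ^ i) ∈ YY l`: `vr (g s ^ i) = vr (h κ')`,
  `κ' ∈ K0`; so `r s ^ i = κ' r'` with `r' ∈ R`, so `κ' = r s ^ i r'⁻¹ ∈ K0 ∩ P`, `κ' = s ^ a c`, and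
  `s ^ (-a) r s ^ i = c r' ∈ R`.  `a ≠ 0` (otherwise `s ^ i ∈ R`, `gen_pow_mem`).  `star` (for
  `X = TT s t`, `r := s`) gives `r ∈ Pa (perp TT s)` as `i` is odd.  In the same way
  `r ∈ Pa (perp TT t)`.  By `par_inter` `r ∈ Pa CC ≤ K0`, so `↑g = ↑(h r) = ↑h`.
-/

namespace AHX

variable {B : Type} {M : CoxeterMatrix B} {s t : B} {k : ℕ}

theorem cc_sub (M : CoxeterMatrix B) (s t : B) : CC M s t ⊆ TT s t := fun _ h => h.1.1

theorem s_comm {c : Ga M} (hc : c ∈ Pa M (CC M s t)) : gn M s * c = c * gn M s :=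
  par_perp_comm (Z := TT s t) (Set.mem_univ _) (Set.subset_univ _)
    (par_mono (fun _ h => h.1) hc)

theorem t_comm {c : Ga M} (hc : c ∈ Pa M (CC M s t)) : gn M t * c = c * gn M t :=
  par_perp_comm (Z := TT s t) (Set.mem_univ _) (Set.subset_univ _)
    (par_mono (fun _ h => h.2) hc)

theorem ff_comm {f c : Ga M} (hf : f ∈ FF M s t) (hc : c ∈ Pa M (CC M s t)) : f * c = c * f := by
  have h : FF M s t ≤ Subgroup.centralizer {c} := by
    unfold FF
    rw [Subgroup.closure_le]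
    intro x hx
    rw [SetLike.mem_coe, Subgroup.mem_centralizer_singleton_iff]
    rcases hx with rfl | hx
    · exact s_comm hc
    · rw [Set.mem_singleton_iff] at hx
      subst hx
      exact t_comm hc
  have := h hf
  rw [Subgroup.mem_centralizer_singleton_iff] at this
  exact this

theorem k0_eq (M : CoxeterMatrix B) (s t : B) : K0 M s t = Pa M ({s, t} ∪ CC M s t) := by
  unfold K0 FF Pa Par
  rw [Set.image_union, Subgroup.closure_union, Set.image_pair]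
  rfl

/-- products of elements of two commuting subgroups -/
def prodSub {H : Type} [Group H] (K L : Subgroup H) (h : ∀ k ∈ K, ∀ l ∈ L, k * l = l * k) :
    Subgroup H where
  carrier := {x | ∃ k ∈ K, ∃ l ∈ L, x = k * l}
  one_mem' := ⟨1, K.one_mem, 1, L.one_mem, (mul_one 1).symm⟩
  mul_mem' := by
    rintro _ _ ⟨k, hk, l, hl, rfl⟩ ⟨k', hk', l', hl', rfl⟩
    refine ⟨k * k', K.mul_mem hk hk', l * l', L.mul_mem hl hl', ?_⟩
    rw [mul_assoc, ← mul_assoc l, ← h k' hk' l hl]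
    simp only [mul_assoc]
  inv_mem' := by
    rintro _ ⟨k, hk, l, hl, rfl⟩
    refine ⟨k⁻¹, K.inv_mem hk, l⁻¹, L.inv_mem hl, ?_⟩
    rw [mul_inv_rev, h _ (K.inv_mem hk) _ (L.inv_mem hl)]

theorem k0_split {κ : Ga M} (h : κ ∈ K0 M s t) :
    ∃ f ∈ FF M s t, ∃ c ∈ Pa M (CC M s t), κ = f * c := by
  have hle : K0 M s t ≤ prodSub (FF M s t) (Pa M (CC M s t)) fun k hk l hl => ff_comm hk hl := by
    unfold K0
    rw [sup_le_iff]
    constructor
    · intro x hx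
      exact ⟨x, hx, 1, Subgroup.one_mem _, (mul_one x).symm⟩
    · intro x hx
      exact ⟨1, Subgroup.one_mem _, x, hx, (one_mul x).symm⟩
  exact hle h

theorem k0_inter_r {κ : Ga M} (h : κ ∈ K0 M s t) (h' : κ ∈ RR M s t) :
    κ ∈ Pa M (CC M s t) := by
  rw [k0_eq] at h
  refine par_mono ?_ (par_inter h h')
  rintro x ⟨(rfl | rfl) | hx, hx'⟩
  · exact absurd rfl hx'.1
  · exact absurd rfl hx'.2
  · exact hx

theorem par_union_split {r : B} {κ : Ga M} (hr : ∀ c ∈ Pa M (CC M s t), gn M r * c = c * gn M r)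
    (h : κ ∈ Pa M ({r} ∪ CC M s t)) : ∃ a : ℤ, ∃ c ∈ Pa M (CC M s t), κ = gn M r ^ a * c := by
  have hc : ∀ k ∈ Subgroup.zpowers (gn M r), ∀ l ∈ Pa M (CC M s t), k * l = l * k := by
    intro k hk l hl
    obtain ⟨a, rfl⟩ := Subgroup.mem_zpowers_iff.1 hk
    exact (Commute.zpow_left (hr l hl) a).eq
  have hle : Pa M ({r} ∪ CC M s t) ≤ prodSub (Subgroup.zpowers (gn M r)) (Pa M (CC M s t)) hc := by
    unfold Pa Par
    rw [Subgroup.closure_le]
    rintro _ ⟨x, hx | hx, rfl⟩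
    · rw [Set.mem_singleton_iff] at hx
      subst hx
      exact ⟨gn M x, Subgroup.mem_zpowers _, 1, Subgroup.one_mem _, (mul_one _).symm⟩
    · exact ⟨1, Subgroup.one_mem _, _, Subgroup.subset_closure ⟨x, hx, rfl⟩, (one_mul _).symm⟩
  obtain ⟨k, hk, l, hl, hkl⟩ := hle h
  obtain ⟨a, rfl⟩ := Subgroup.mem_zpowers_iff.1 hk
  exact ⟨a, l, hl, hkl⟩

theorem k0_inter_p (hst : s ≠ t) {κ : Ga M} (h : κ ∈ K0 M s t) (h' : κ ∈ PP M s t) :
    ∃ a : ℤ, ∃ c ∈ Pa M (CC M s t), κ = gn M s ^ a * c := by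
  rw [k0_eq] at h
  refine par_union_split (fun c hc => s_comm hc) (par_mono ?_ (par_inter h h'))
  rintro x ⟨(rfl | rfl) | hx, hx'⟩
  · exact Or.inl rfl
  · exact absurd rfl hx'
  · exact Or.inr hx

theorem k0_inter_q (hst : s ≠ t) {κ : Ga M} (h : κ ∈ K0 M s t) (h' : κ ∈ QQ M s t) :
    ∃ a : ℤ, ∃ c ∈ Pa M (CC M s t), κ = gn M t ^ a * c := by
  rw [k0_eq] at h
  refine par_union_split (fun c hc => t_comm hc) (par_mono ?_ (par_inter h h'))
  rintro x ⟨(rfl | rfl) | hx, hx'⟩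
  · exact absurd rfl hx'
  · exact Or.inl rfl
  · exact Or.inr hx

theorem nn_le (M : CoxeterMatrix B) (s t : B) (k : ℕ) : NN M s t k ≤ FF M s t := by
  rw [← ff_range]
  unfold NN
  exact Subgroup.map_le_range ..

theorem nn_norm {κ n : Ga M} (h : κ ∈ K0 M s t) (hn : n ∈ NN M s t k) :
    κ * n * κ⁻¹ ∈ NN M s t k := by
  obtain ⟨f, hf, c, hc, rfl⟩ := k0_split h
  have h1 := ff_comm (nn_le M s t k hn) hc
  have h2 : f * c * n * (f * c)⁻¹ = f * n * f⁻¹ := by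
    rw [mul_inv_rev, mul_assoc f c n, ← h1]
    group
  rw [h2]
  rw [← ff_range] at hf
  obtain ⟨w, rfl⟩ := hf
  obtain ⟨v, hv, rfl⟩ := hn
  refine ⟨w * v * w⁻¹, Subgroup.normalClosure_normal.conj_mem v hv w, ?_⟩
  simp only [map_mul, map_inv]

theorem nl_mem {x g : Ga M} {l : Ga M ⧸ K0 M s t} (hg : (g : Ga M ⧸ K0 M s t) = l) :
    x ∈ NL M s t k l ↔ ∃ n ∈ NN M s t k, x = g * n * g⁻¹ := by
  have hout : ((Quotient.out l : Ga M) : Ga M ⧸ K0 M s t) = l := QuotientGroup.out_eq' l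
  have hκ : g⁻¹ * (Quotient.out l : Ga M) ∈ K0 M s t := by
    rw [← QuotientGroup.eq, hg, hout]
  unfold NL
  generalize (Quotient.out l : Ga M) = o at hκ
  constructor
  · rintro ⟨n, hn, rfl⟩
    refine ⟨g⁻¹ * o * n * (g⁻¹ * o)⁻¹, nn_norm hκ hn, ?_⟩
    show o * n * o⁻¹ = _
    group
  · rintro ⟨n, hn, rfl⟩
    refine ⟨(g⁻¹ * o)⁻¹ * n * (g⁻¹ * o)⁻¹⁻¹, nn_norm (inv_mem hκ) hn, ?_⟩
    show o * ((g⁻¹ * o)⁻¹ * n * (g⁻¹ * o)⁻¹⁻¹) * o⁻¹ = _
    group

theorem nl_fix {l : Ga M ⧸ K0 M s t} {n : Ga M} (hn : n ∈ NL M s t k l) : n • l = l := by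
  obtain ⟨g, rfl⟩ := QuotientGroup.mk_surjective l
  obtain ⟨n₀, hn₀, rfl⟩ := (nl_mem rfl).1 hn
  show ((g * n₀ * g⁻¹ * g : Ga M) : Ga M ⧸ K0 M s t) = g
  rw [eq_comm, QuotientGroup.eq]
  have : g⁻¹ * (g * n₀ * g⁻¹ * g) = n₀ := by group
  rw [this]
  exact (le_sup_left : FF M s t ≤ K0 M s t) (nn_le M s t k hn₀)

theorem nl_conj (g : Ga M) {l : Ga M ⧸ K0 M s t} {n : Ga M} (hn : n ∈ NL M s t k l) :
    g * n * g⁻¹ ∈ NL M s t k (g • l) := by
  obtain ⟨a, rfl⟩ := QuotientGroup.mk_surjective l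
  obtain ⟨n₀, hn₀, rfl⟩ := (nl_mem rfl).1 hn
  refine (nl_mem (g := g * a) (l := g • ((a : Ga M) : Ga M ⧸ K0 M s t)) rfl).2 ⟨n₀, hn₀, ?_⟩
  group

theorem vr_eq0 {g h : Ga M} : vr M s t g = vr M s t h ↔ g⁻¹ * h ∈ RR M s t := by
  unfold vr rv
  rw [Sum.inr.injEq, Sum.inr.injEq, QuotientGroup.eq]

theorem vr_yy {g : Ga M} {l : Ga M ⧸ K0 M s t} (h : vr M s t g ∈ YY M s t l) :
    ∃ a : Ga M, (a : Ga M ⧸ K0 M s t) = l ∧ vr M s t g = vr M s t a := by
  obtain ⟨a, ha, h | h | h⟩ := h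
  · unfold vr vp rv pv at h
    cases h
  · unfold vr vq rv qv at h
    cases h
  · exact ⟨a, ha, h⟩

theorem gd_lab (hst : s ≠ t) {g : Ga M} {i j : ℤ} (hi : Odd i) (hj : Odd j)
    {l : Ga M ⧸ K0 M s t} (hρ : vr M s t g ∈ YY M s t l)
    (hu : vr M s t (g * gn M s ^ i) ∈ YY M s t l)
    (hw : vr M s t (g * gn M t ^ j) ∈ YY M s t l) : l = (g : Ga M ⧸ K0 M s t) := by
  obtain ⟨h, rfl, hρ'⟩ := vr_yy hρ
  rw [vr_eq0] at hρ'
  -- `g = h * r`
  obtain ⟨r, hr⟩ : ∃ r, r = h⁻¹ * g := ⟨_, rfl⟩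
  have hg : g = h * r := by rw [hr]; group
  have hrR : r ∈ RR M s t := by
    have := inv_mem hρ'
    rw [mul_inv_rev, inv_inv, ← hr] at this
    exact this
  have hi0 : i ≠ 0 := by
    rintro rfl
    exact absurd hi (by decide)
  have hj0 : j ≠ 0 := by
    rintro rfl
    exact absurd hj (by decide)
  have hs : r ∈ Pa M (perp M (TT s t) s) := by
    obtain ⟨h', hh', hu⟩ := vr_yy hu
    rw [vr_eq0] at hu
    rw [eq_comm, QuotientGroup.eq] at hh'
    -- `κ = h⁻¹ * h'`, `κ = r * s ^ i * r'`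
    have hκ : h⁻¹ * h' = r * gn M s ^ i * ((g * gn M s ^ i)⁻¹ * h') := by
      rw [hg]
      group
    have hκP : h⁻¹ * h' ∈ PP M s t := by
      rw [hκ]
      exact mul_mem (mul_mem (rr_le_pp M s t hrR)
        (Subgroup.zpow_mem _ (gen_mem_par hst) _)) (rr_le_pp M s t hu)
    obtain ⟨a, c, hc, hac⟩ := k0_inter_p hst hh' hκP
    have hcR : c ∈ RR M s t := par_mono (cc_sub M s t) hc
    have hmem : gn M s ^ (-a) * r * gn M s ^ i ∈ RR M s t := by
      have e : gn M s ^ (-a) * r * gn M s ^ i = c * ((g * gn M s ^ i)⁻¹ * h')⁻¹ := by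
        have : c = gn M s ^ (-a) * (h⁻¹ * h') := by
          rw [hac, zpow_neg, inv_mul_cancel_left]
        rw [this, hκ, zpow_neg]
        group
      rw [e]
      exact mul_mem hcR (inv_mem hu)
    have ha0 : a ≠ 0 := by
      rintro rfl
      rw [neg_zero, zpow_zero, one_mul, (RR M s t).mul_mem_cancel_left hrR] at hmem
      exact hi0 (gen_pow_mem (fun h => h.1 rfl) hmem)
    exact (star (M := M) (X := TT s t) (r := s) (fun h => h.1 rfl) hrR hi0 ha0 hmem).2.2 hi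
  have ht : r ∈ Pa M (perp M (TT s t) t) := by
    obtain ⟨h', hh', hu⟩ := vr_yy hw
    rw [vr_eq0] at hu
    rw [eq_comm, QuotientGroup.eq] at hh'
    have hκ : h⁻¹ * h' = r * gn M t ^ j * ((g * gn M t ^ j)⁻¹ * h') := by
      rw [hg]
      group
    have hκP : h⁻¹ * h' ∈ QQ M s t := by
      rw [hκ]
      exact mul_mem (mul_mem (rr_le_qq M s t hrR)
        (Subgroup.zpow_mem _ (gen_mem_par hst.symm) _)) (rr_le_qq M s t hu)
    obtain ⟨a, c, hc, hac⟩ := k0_inter_q hst hh' hκP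
    have hcR : c ∈ RR M s t := par_mono (cc_sub M s t) hc
    have hmem : gn M t ^ (-a) * r * gn M t ^ j ∈ RR M s t := by
      have e : gn M t ^ (-a) * r * gn M t ^ j = c * ((g * gn M t ^ j)⁻¹ * h')⁻¹ := by
        have : c = gn M t ^ (-a) * (h⁻¹ * h') := by
          rw [hac, zpow_neg, inv_mul_cancel_left]
        rw [this, hκ, zpow_neg]
        group
      rw [e]
      exact mul_mem hcR (inv_mem hu)
    have ha0 : a ≠ 0 := by
      rintro rfl
      rw [neg_zero, zpow_zero, one_mul, (RR M s t).mul_mem_cancel_left hrR] at hmem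
      exact hj0 (gen_pow_mem (fun h => h.2 rfl) hmem)
    exact (star (M := M) (X := TT s t) (r := t) (fun h => h.2 rfl) hrR hj0 ha0 hmem).2.2 hj
  have hrC : r ∈ Pa M (CC M s t) := par_inter hs ht
  rw [QuotientGroup.eq, ← hr]
  exact (le_sup_right : Pa M (CC M s t) ≤ K0 M s t) hrC

end AHX
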