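import Pool.Agent.AHX.MetV
import Pool.Agent.AHX.K0A

set_option autoImplicit false

/-!
# AHX module FAMV: the family of subtrees

* `yy_smul`: by definition (`g • ↑a = ↑(g * a)`).
* `yy_eq`: for `↑g = l` a point of `YY l` is `vp (g κ)`, `vq (g κ)` or `vr (g κ)` with `κ ∈ K0`.
* `seg_f`: for `f ∈ F` every point between `vr 1` and `vr f` is in `YY ↑1`.  Closure induction on the right
  (`Subgroup.closure_induction_right` or via `exists_ev` and induction on the list from the end): let it be true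
  for `f`, and `f' = f * s ^ (± 1)`.  By `Tree.split` a point between `vr 1` and `vr f'` is between `vr 1` and
  `vr f` or between `vr f` and `vr f'`; in the second case it is between `vr f` and `vp f` or between
  `vp f = vp f'` and `vr f'` (`split` again), so it is one of these three points (`vr_vp`, `Tree.eq0`).
* `yy_conv`: let `x, y ∈ YY l`, `l = ↑g`; `x` is at distance `≤ 1` from `vr (g κ)`, `y` from `vr (g κ')`.
  Split twice: a point between `x` and `y` is between `x` and `vr (g κ)`, so equal to one of them, or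
  between `vr (g κ')` and `y`, or between `vr (g κ)` and `vr (g κ')`.  In the last case translate by
  `(g κ)⁻¹`: the point is between `vr 1` and `vr (κ⁻¹ κ')`, `κ⁻¹ κ' = f c` (`k0_split`), and
  `vr (f c) = vr f`.
* `yy_ov`: if `m x y ≥ 1` there is a good triple `u, ρ, w` between `x` and `y` (`mc_pos`), so
  `u, ρ, w` are in `YY l` and in `YY l'` by `yy_conv` (`d x u + 4 + d w y = d x y` and the triangle
  inequality give `Btw`), and `gd_lab` gives `l = ↑g = l'`.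
* `yy_big`: `n = g n₀ g⁻¹`, `n₀ ∈ NN`, `n₀ ≠ 1` (`nl_mem` for a representative `g` of `l` such that `y` is
  `vr g`, `vp g` or `vq g`).  By `nn_ev`, `gp_le` `m (vr 1) (vr n₀) ≥ k - 3`.  `y = vr g`: `m y (n y) =
  m (vr 1) (vr n₀)`.  `y = vp g`: `m (vp 1) (vp n₀) + 4 ≥ m (vr 1) (vr n₀)` by `m_adj` (twice, with
  `mc_symm`).
* `famV`: all fields.
-/

namespace AHX

variable {B : Type} {M : CoxeterMatrix B} {s t : B} {k : ℕ} {d : VV M s t → VV M s t → ℕ}

theorem yy_smul (g : Ga M) {l : Ga M ⧸ K0 M s t} {x : VV M s t} (h : x ∈ YY M s t l) :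
    g • x ∈ YY M s t (g • l) := by
  obtain ⟨a, rfl, h⟩ := h
  refine ⟨g * a, rfl, ?_⟩
  rcases h with rfl | rfl | rfl
  · exact Or.inl rfl
  · exact Or.inr (Or.inl rfl)
  · exact Or.inr (Or.inr rfl)

theorem yy_eq {g : Ga M} {l : Ga M ⧸ K0 M s t} (hg : (g : Ga M ⧸ K0 M s t) = l)
    {x : VV M s t} (h : x ∈ YY M s t l) :
    ∃ κ ∈ K0 M s t, x = vp M s t (g * κ) ∨ x = vq M s t (g * κ) ∨ x = vr M s t (g * κ) := by
  obtain ⟨a, ha, h⟩ := h
  refine ⟨g⁻¹ * a, ?_, ?_⟩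
  · rw [← QuotientGroup.eq, hg, ha]
  · rw [mul_inv_cancel_left]
    exact h

theorem seg_le_one (T : Tree d) {x y z : VV M s t} (h : d x y ≤ 1) (hz : Btw d x z y) :
    z = x ∨ z = y := by
  have hz' : d x z + d z y = d x y := hz
  by_cases h0 : d x z = 0
  · exact Or.inl (T.eq0 _ _ h0).symm
  · exact Or.inr (T.eq0 _ _ (by omega))

theorem mk_k0 {f : Ga M} (hf : f ∈ K0 M s t) :
    (f : Ga M ⧸ K0 M s t) = ((1 : Ga M) : Ga M ⧸ K0 M s t) := by
  rw [eq_comm, QuotientGroup.eq, inv_one, one_mul]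
  exact hf

theorem step_f (hd : Met M s t d) {f f' : Ga M} (hf : f ∈ K0 M s t) (hf' : f' ∈ K0 M s t)
    (h : vp M s t f = vp M s t f' ∨ vq M s t f = vq M s t f') {z : VV M s t}
    (hz : Btw d (vr M s t f) z (vr M s t f')) :
    z ∈ YY M s t ((1 : Ga M) : Ga M ⧸ K0 M s t) := by
  have T := hd.tree
  have v1 := vr_vp hd f
  have v2 := vr_vp hd f'
  have m1 : vr M s t f ∈ YY M s t ((1 : Ga M) : Ga M ⧸ K0 M s t) :=
    ⟨f, mk_k0 hf, Or.inr (Or.inr rfl)⟩
  have m2 : vr M s t f' ∈ YY M s t ((1 : Ga M) : Ga M ⧸ K0 M s t) :=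
    ⟨f', mk_k0 hf', Or.inr (Or.inr rfl)⟩
  rcases h with h | h
  · rcases Tree.split T hz (vp M s t f) with h1 | h1
    · rcases seg_le_one T (le_of_eq v1.1) h1 with h2 | h2
      · rw [h2]
        exact m1
      · rw [h2]
        exact ⟨f, mk_k0 hf, Or.inl rfl⟩
    · rw [h] at h1
      rcases seg_le_one T (by rw [T.symm]; exact le_of_eq v2.1) h1 with h2 | h2
      · rw [h2]
        exact ⟨f', mk_k0 hf', Or.inl rfl⟩
      · rw [h2]
        exact m2
  · rcases Tree.split T hz (vq M s t f) with h1 | h1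
    · rcases seg_le_one T (le_of_eq v1.2) h1 with h2 | h2
      · rw [h2]
        exact m1
      · rw [h2]
        exact ⟨f, mk_k0 hf, Or.inr (Or.inl rfl)⟩
    · rw [h] at h1
      rcases seg_le_one T (by rw [T.symm]; exact le_of_eq v2.2) h1 with h2 | h2
      · rw [h2]
        exact ⟨f', mk_k0 hf', Or.inr (Or.inl rfl)⟩
      · rw [h2]
        exact m2

theorem ff_le_k0 : FF M s t ≤ K0 M s t := le_sup_left

theorem seg_f_aux (hst : s ≠ t) (hd : Met M s t d) {f : Ga M} (hf : f ∈ FF M s t) :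
    ∀ z, Btw d (vr M s t 1) z (vr M s t f) →
      z ∈ YY M s t ((1 : Ga M) : Ga M ⧸ K0 M s t) := by
  have T := hd.tree
  have key : ∀ f f' : Ga M, f ∈ FF M s t → f' ∈ FF M s t →
      (f⁻¹ * f' ∈ PP M s t ∨ f⁻¹ * f' ∈ QQ M s t) →
      (∀ z, Btw d (vr M s t 1) z (vr M s t f) →
        z ∈ YY M s t ((1 : Ga M) : Ga M ⧸ K0 M s t)) →
      ∀ z, Btw d (vr M s t 1) z (vr M s t f') →
        z ∈ YY M s t ((1 : Ga M) : Ga M ⧸ K0 M s t) := by
    intro f f' hf hf' h ih z hz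
    rcases Tree.split T hz (vr M s t f) with h1 | h1
    · exact ih z h1
    · refine step_f hd (ff_le_k0 hf) (ff_le_k0 hf') ?_ h1
      rcases h with h | h
      · exact Or.inl (vp_eq.2 h)
      · exact Or.inr (vq_eq.2 h)
  induction hf using Subgroup.closure_induction_right with
  | one =>
    intro z hz
    have h1 := seg_le_one T (by rw [T.refl]; exact Nat.zero_le _) hz
    refine ⟨1, rfl, Or.inr (Or.inr ?_)⟩
    tauto
  | mul_right x hx y hy ih =>
    refine key x (x * y) hx (mul_mem hx (Subgroup.subset_closure hy)) ?_ ih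
    rw [inv_mul_cancel_left]
    rcases hy with rfl | hy
    · exact Or.inl (gen_mem_par hst)
    · rw [Set.mem_singleton_iff] at hy
      subst hy
      exact Or.inr (gen_mem_par hst.symm)
  | mul_inv_cancel x hx y hy ih =>
    refine key x (x * y⁻¹) hx (mul_mem hx (inv_mem (Subgroup.subset_closure hy))) ?_ ih
    rw [inv_mul_cancel_left]
    rcases hy with rfl | hy
    · exact Or.inl (inv_mem (gen_mem_par hst))
    · rw [Set.mem_singleton_iff] at hy
      subst hy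
      exact Or.inr (inv_mem (gen_mem_par hst.symm))

theorem seg_f (hst : s ≠ t) (hd : Met M s t d) {f : Ga M} (hf : f ∈ FF M s t) {z : VV M s t}
    (hz : Btw d (vr M s t 1) z (vr M s t f)) :
    z ∈ YY M s t ((1 : Ga M) : Ga M ⧸ K0 M s t) := seg_f_aux hst hd hf z hz

theorem btw_smul (hd : Met M s t d) (g : Ga M) {x z y : VV M s t} (h : Btw d x z y) :
    Btw d (g • x) (g • z) (g • y) := by
  unfold Btw at h ⊢
  rw [hd.dinv, hd.dinv, hd.dinv]
  exact h

theorem near_vr (hd : Met M s t d) {g : Ga M} {x : VV M s t}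
    (h : x ∈ YY M s t (g : Ga M ⧸ K0 M s t)) :
    ∃ κ ∈ K0 M s t, d x (vr M s t (g * κ)) ≤ 1 := by
  have T := hd.tree
  obtain ⟨κ, hκ, h⟩ := yy_eq rfl h
  refine ⟨κ, hκ, ?_⟩
  have v := vr_vp hd (g * κ)
  rcases h with rfl | rfl | rfl
  · rw [T.symm, v.1]
  · rw [T.symm, v.2]
  · rw [T.refl]
    exact Nat.zero_le _

theorem mk_mul_k0 (g : Ga M) {κ : Ga M} (hκ : κ ∈ K0 M s t) :
    ((g * κ : Ga M) : Ga M ⧸ K0 M s t) = (g : Ga M ⧸ K0 M s t) := by
  rw [eq_comm, QuotientGroup.eq, inv_mul_cancel_left]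
  exact hκ

theorem yy_conv (hst : s ≠ t) (hd : Met M s t d) (l : Ga M ⧸ K0 M s t) :
    Conv d (YY M s t l) := by
  have T := hd.tree
  obtain ⟨g, rfl⟩ := QuotientGroup.mk_surjective l
  intro x hx y hy z hz
  obtain ⟨κ, hκ, h1⟩ := near_vr hd hx
  obtain ⟨κ', hκ', h2⟩ := near_vr hd hy
  have m1 : vr M s t (g * κ) ∈ YY M s t (g : Ga M ⧸ K0 M s t) :=
    ⟨g * κ, mk_mul_k0 g hκ, Or.inr (Or.inr rfl)⟩
  have m2 : vr M s t (g * κ') ∈ YY M s t (g : Ga M ⧸ K0 M s t) :=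
    ⟨g * κ', mk_mul_k0 g hκ', Or.inr (Or.inr rfl)⟩
  rcases Tree.split T hz (vr M s t (g * κ)) with h3 | h3
  · rcases seg_le_one T h1 h3 with h | h
    · rw [h]
      exact hx
    · rw [h]
      exact m1
  rcases Tree.split T h3 (vr M s t (g * κ')) with h4 | h4
  · have h5 := btw_smul hd (g * κ)⁻¹ h4
    rw [smul_vr, smul_vr, inv_mul_cancel] at h5
    have he : (g * κ)⁻¹ * (g * κ') = κ⁻¹ * κ' := by group
    rw [he] at h5
    obtain ⟨f, hf, c, hc, hfc⟩ := k0_split (mul_mem (inv_mem hκ) hκ')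
    have h6 : vr M s t (κ⁻¹ * κ') = vr M s t f := by
      rw [vr_eq, hfc]
      have : (f * c)⁻¹ * f = c⁻¹ := by group
      rw [this]
      exact inv_mem (par_mono (cc_sub M s t) hc)
    rw [h6] at h5
    have h7 := yy_smul (g * κ) (seg_f hst hd hf h5)
    rw [smul_inv_smul] at h7
    have h8 : (g * κ) • ((1 : Ga M) : Ga M ⧸ K0 M s t) = (g : Ga M ⧸ K0 M s t) := by
      rw [← mk_mul_k0 g hκ]
      show ((g * κ * 1 : Ga M) : Ga M ⧸ K0 M s t) = _
      rw [mul_one]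
    rw [h8] at h7
    exact h7
  · rcases seg_le_one T (by rw [T.symm]; exact h2) h4 with h | h
    · rw [h]
      exact m2
    · rw [h]
      exact hy

theorem gd_lab' (hst : s ≠ t) {u ρ w : VV M s t} (h : GdV M s t u ρ w) :
    ∃ l₀ : Ga M ⧸ K0 M s t, ∀ l, u ∈ YY M s t l → ρ ∈ YY M s t l → w ∈ YY M s t l → l = l₀ := by
  obtain ⟨g, i, j, hi, hj, rfl, ⟨rfl, rfl⟩ | ⟨rfl, rfl⟩⟩ := h
  · exact ⟨g, fun l h1 h2 h3 => gd_lab hst hi hj h2 h1 h3⟩
  · exact ⟨g, fun l h1 h2 h3 => gd_lab hst hi hj h2 h3 h1⟩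

theorem gs_mem_btw (hst : s ≠ t) (hd : Met M s t d) {x y u ρ w : VV M s t}
    (h : GdV M s t u ρ w) (he : d x u + 4 + d w y = d x y) :
    Btw d x u y ∧ Btw d x ρ y ∧ Btw d x w y := by
  have T := hd.tree
  obtain ⟨h1, h2, h3⟩ := (gdS hst hd).dist u ρ w h
  have t1 := T.tri x u y
  have t2 := T.tri u w y
  have t3 := T.tri x u ρ
  have t4 := T.tri ρ w y
  have t5 := T.tri x ρ y
  have t6 := T.tri x u w
  have t7 := T.tri x w y
  unfold Btw
  omega

theorem yy_ov (hst : s ≠ t) (hd : Met M s t d) {l l' : Ga M ⧸ K0 M s t} (hl : l ≠ l')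
    {x y : VV M s t} (hx : x ∈ YY M s t l) (hx' : x ∈ YY M s t l') (hy : y ∈ YY M s t l)
    (hy' : y ∈ YY M s t l') : mc d (GdV M s t) x y = 0 := by
  by_contra hcon
  obtain ⟨ρ, u, w, hg, he⟩ := mc_pos (d := d) (Gd := GdV M s t) (x := x) (y := y) (by omega)
  obtain ⟨b1, b2, b3⟩ := gs_mem_btw hst hd hg he
  obtain ⟨l₀, hl₀⟩ := gd_lab' hst hg
  have c1 := yy_conv hst hd l
  have c2 := yy_conv hst hd l'
  apply hl
  rw [hl₀ l (c1 x hx y hy _ b1) (c1 x hx y hy _ b2) (c1 x hx y hy _ b3),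
    hl₀ l' (c2 x hx' y hy' _ b1) (c2 x hx' y hy' _ b2) (c2 x hx' y hy' _ b3)]

theorem big_vr (hst : s ≠ t) (hd : Met M s t d) (hk : k = 0 ∨ 42 ≤ k) {n : Ga M}
    (hn : n ∈ NN M s t k) (h1 : n ≠ 1) :
    39 ≤ mc d (GdV M s t) (vr M s t 1) (vr M s t n) := by
  have hk0 : k = 0 ∨ 4 ≤ k := by omega
  obtain ⟨es, -, h0, hgp, h⟩ := nn_ev hk0 hn h1
  have hk1 := nn_ne hk0 hn h1
  have hle := gp_le hst hd h0
  rcases h with rfl | rfl
  · have := hle.1
    omega
  · have := hle.2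
    omega

theorem m_adj2 (hst : s ≠ t) (hd : Met M s t d) {x x' y y' : VV M s t} (h : d x x' ≤ 1)
    (h' : d y y' ≤ 1) :
    mc d (GdV M s t) x y ≤ mc d (GdV M s t) x' y' + 4 := by
  have h1 := m_adj hst hd h y
  have h2 := m_adj hst hd h' x'
  have e1 := mc_symm hd.tree (gdS hst hd) y x'
  have e2 := mc_symm hd.tree (gdS hst hd) y' x'
  omega

theorem yy_big (hst : s ≠ t) (hd : Met M s t d) (hk : k = 0 ∨ 42 ≤ k)
    {l : Ga M ⧸ K0 M s t} {n : Ga M} (hn : n ∈ NL M s t k l) (h1 : n ≠ 1) {y : VV M s t}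
    (hy : y ∈ YY M s t l) : 35 ≤ mc d (GdV M s t) y (n • y) := by
  obtain ⟨g, hg, hy⟩ := hy
  obtain ⟨n₀, hn₀, rfl⟩ := (nl_mem hg).1 hn
  have hn1 : n₀ ≠ 1 := by
    rintro rfl
    apply h1
    group
  have hb := big_vr hst hd hk hn₀ hn1
  have hb' : 39 ≤ mc d (GdV M s t) (vr M s t g) (vr M s t (g * n₀)) := by
    rw [← m_inv hd g, smul_vr, smul_vr, mul_one] at hb
    exact hb
  have he : g * n₀ * g⁻¹ * g = g * n₀ := by group
  have v1 := vr_vp hd g
  have v2 := vr_vp hd (g * n₀)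
  rcases hy with rfl | rfl | rfl
  · rw [smul_vp, he]
    have := m_adj2 hst hd (le_of_eq v1.1) (le_of_eq v2.1)
    omega
  · rw [smul_vq, he]
    have := m_adj2 hst hd (le_of_eq v1.2) (le_of_eq v2.2)
    omega
  · rw [smul_vr, he]
    omega

theorem famV (hst : s ≠ t) (hd : Met M s t d) (hk : k = 0 ∨ 42 ≤ k) :
    Fam d (mc d (GdV M s t)) (YY M s t) (NL M s t k) 35 where
  tree := hd.tree
  dinv := hd.dinv
  minv := m_inv hd
  msymm := mc_symm hd.tree (gdS hst hd)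
  mmono := fun x z y h => mc_mono hd.tree (gdS hst hd) h
  madd := fun x z y h => mc_add hd.tree (gdS hst hd) h
  msmall := fun x y h => mc_small hd.tree (gdS hst hd) (by omega)
  conv := yy_conv hst hd
  nonempty := by
    intro l
    obtain ⟨g, rfl⟩ := QuotientGroup.mk_surjective l
    exact ⟨vr M s t g, g, rfl, Or.inr (Or.inr rfl)⟩
  cover := by
    intro x y h
    obtain ⟨g, h1, h2⟩ := adj_cases hd h
    exact ⟨g, ⟨g, rfl, h1⟩, ⟨g, rfl, h2⟩⟩
  eqY := fun g l x h => yy_smul g h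
  fixN := fun l n h => nl_fix h
  eqN := fun g l n h => nl_conj g h
  ov := fun l l' x y hl hx hx' hy hy' => yy_ov hst hd hl hx hx' hy hy'
  big := fun l n hn h1 y hy => yy_big hst hd hk hn h1 hy

end AHX
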