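import Pool.Agent.AHX.AxW
import Pool.Agent.AHX.FamV

set_option autoImplicit false

/-!
# AHX module AXSM: the members of the family have a small common part with the axis

`f = blk ω`, `ω` with `Ruler`; `Ω = (List.replicate n ω).flatten`, `f ^ n = blk Ω` (`blk_pow`).

* `rep_alt`: two consecutive letters of `Ω` are consecutive letters of `ω ++ ω`; by `Ruler.alt` one of them is not
  in `CC`.
* `seg_lt`: let `x, y` be between `vr 1` and `vr (blk Ω)`, in `YY l`, `p = d (vr 1) x`,
  `q = d (vr 1) y`.  There is no `i` with `p ≤ 4 i + 2` and `4 i + 14 ≤ q`: otherwise (as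
  `q ≤ 4 * Ω.length` by `ax_even`, `i + 4 ≤ Ω.length`) `Ω = α ++ y₀ :: y₁ :: y₂ :: y₃ :: β` with `α.length = i`;
  by `ax_odd` the vertices `vr (blk α * s)` and `vr (blk (α ++ [y₀, y₁, y₂]) * s)` are between `vr 1` and
  `vr (blk Ω)` at distances `4 i + 2`, `4 i + 14`, so they are between `x` and `y` (points of an interval are
  ordered by their distance from the first point: `Tree.mid`, `Tree.uniq` and `Btw.trans`, or `Tree.four`), so
  in `YY l`; `ovl` contradicts `rep_alt`.
* `ax_small`: let `p ≤ q`.  If `q ≥ p + 15` take `i` minimal with `p ≤ 4 i + 2`; then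
  `4 i + 2 ≤ p + 3` (or `i = 0` and `p ≤ 2`), so `4 i + 14 ≤ p + 15 ≤ q`.  So `d x y = q - p ≤ 14`.
  If `m x y ≥ 6` take `u, w'` from `mc_large` (`k = 5`): they are of the form `vr g` (definition of `GdV`),
  between `x` and `y` so in `YY l`, at distance `≥ 14`; their distances `p'`, `q'` from `vr 1` are even
  (`Met.even`), say `p' ≤ q'`, so `q' ≥ p' + 14`; with `i` minimal such that `p' ≤ 4 i + 2` we have
  `4 i + 2 ≤ p' + 2` (`p'` even), so `4 i + 14 ≤ q'`, contradiction.
-/

namespace AHX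

variable {B : Type} {M : CoxeterMatrix B} {s t : B} {d : VV M s t → VV M s t → ℕ}

theorem rep_alt {ω : List B} (hω : Ruler M s t ω) (n : ℕ) {α β : List B} {y z : B}
    (h : (List.replicate n ω).flatten = α ++ y :: z :: β) : y ∉ CC M s t ∨ z ∉ CC M s t := by
  induction n generalizing α with
  | zero => simp at h
  | succ n ih =>
    rw [List.replicate_succ, List.flatten_cons] at h
    rcases List.append_eq_append_iff.1 h with ⟨as, h1, h2⟩ | ⟨bs, h1, h2⟩
    · exact ih h2
    · rcases bs with _ | ⟨b, _ | ⟨b', bs⟩⟩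
      · rw [List.nil_append] at h2
        exact ih (α := []) h2.symm
      · rw [List.singleton_append, List.cons.injEq] at h2
        obtain ⟨rfl, h2⟩ := h2
        rcases n with _ | n
        · simp at h2
        rw [List.replicate_succ, List.flatten_cons] at h2
        have hne := hω.ne
        obtain ⟨a, ω', hω'⟩ : ∃ a ω', ω = a :: ω' := by
          rcases ω with _ | ⟨a, ω'⟩
          · exact absurd rfl hne
          · exact ⟨a, ω', rfl⟩
        have hz : z = a := by
          rw [hω', List.cons_append, List.cons.injEq] at h2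
          exact h2.1
        subst hz
        have h4 : ω ++ ω = α ++ y :: z :: ω' := by
          have : ω ++ ω = (α ++ [y]) ++ z :: ω' := by rw [← h1, ← hω']
          simpa using this
        exact hω.alt α ω' y z h4
      · simp only [List.cons_append, List.cons.injEq] at h2
        obtain ⟨rfl, rfl, h2⟩ := h2
        exact hω.alt α (bs ++ ω) y z (by
          have : ω ++ ω = (α ++ y :: z :: bs) ++ ω := by rw [← h1]
          simpa using this)

/-- points of an interval are ordered -/
theorem seg_ord (T : Tree d) {o e u v : VV M s t} (hu : Btw d o u e) (hv : Btw d o v e)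
    (h : d o u ≤ d o v) : Btw d o u v := by
  obtain ⟨z, hz1, hz2⟩ := T.mid o v _ h
  have h1 := (Btw.trans T hv hz2).1
  have : z = u := Tree.uniq T h1 hu hz1
  rw [← this]
  exact hz2

theorem seg_btw (T : Tree d) {o e u v w : VV M s t} (hu : Btw d o u e) (hv : Btw d o v e)
    (hw : Btw d o w e) (h : d o u ≤ d o v) (h' : d o v ≤ d o w) : Btw d u v w := by
  have h1 := seg_ord T hu hv h
  have h2 := seg_ord T hv hw h'
  have h3 := seg_ord T hu hw (h.trans h')
  unfold Btw at h1 h2 h3 ⊢
  omega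

theorem seg_lt (hst : s ≠ t) (hd : Met M s t d) {ω : List B} (hω : Ruler M s t ω) (n : ℕ)
    {l : Ga M ⧸ K0 M s t} {x y : VV M s t} (hx : x ∈ YY M s t l) (hy : y ∈ YY M s t l)
    (hx' : Btw d (vr M s t 1) x (vr M s t (blk M s t ω ^ n)))
    (hy' : Btw d (vr M s t 1) y (vr M s t (blk M s t ω ^ n))) (i : ℕ)
    (h1 : d (vr M s t 1) x ≤ 4 * i + 2) (h2 : 4 * i + 14 ≤ d (vr M s t 1) y) : False := by
  have hmem : ∀ y ∈ (List.replicate n ω).flatten, y ∈ TT s t := by
    intro y hy
    rw [List.mem_flatten] at hy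
    obtain ⟨l, hl, hy⟩ := hy
    rw [List.mem_replicate] at hl
    rw [hl.2] at hy
    exact hω.mem y hy
  have hrep := fun (α β : List B) (y z : B) => rep_alt hω n (α := α) (β := β) (y := y) (z := z)
  rw [← blk_pow] at hx' hy'
  generalize (List.replicate n ω).flatten = Ω at hmem hrep hx' hy'
  have hlen : d (vr M s t 1) (vr M s t (blk M s t Ω)) = 4 * Ω.length :=
    (ax_even (α := Ω) (β := []) hst hd (by rw [List.append_nil]; exact hmem)).1
  have hq : d (vr M s t 1) y ≤ 4 * Ω.length := by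
    unfold Btw at hy'
    omega
  have hl4 : i + 4 ≤ Ω.length := by omega
  obtain ⟨α, β, y₀, y₁, y₂, y₃, hΩ, hα⟩ : ∃ (α β : List B) (y₀ y₁ y₂ y₃ : B),
      Ω = α ++ y₀ :: y₁ :: y₂ :: y₃ :: β ∧ α.length = i := by
    have hd' : (Ω.drop i).length = Ω.length - i := List.length_drop ..
    rcases hdr : Ω.drop i with _ | ⟨y₀, _ | ⟨y₁, _ | ⟨y₂, _ | ⟨y₃, β⟩⟩⟩⟩
    · rw [hdr] at hd'
      simp only [List.length_nil] at hd'
      omega
    · rw [hdr] at hd'
      simp only [List.length_cons, List.length_nil] at hd'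
      omega
    · rw [hdr] at hd'
      simp only [List.length_cons, List.length_nil] at hd'
      omega
    · rw [hdr] at hd'
      simp only [List.length_cons, List.length_nil] at hd'
      omega
    · refine ⟨Ω.take i, β, y₀, y₁, y₂, y₃, ?_, ?_⟩
      · rw [← hdr, List.take_append_drop]
      · rw [List.length_take]
        omega
  have ha := ax_odd (α := α) (β := y₁ :: y₂ :: y₃ :: β) (y := y₀) hst hd (by
    rw [← hΩ]; exact hmem)
  have hΩ' : Ω = (α ++ [y₀, y₁, y₂]) ++ y₃ :: β := by rw [hΩ]; simp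
  have hb := ax_odd (α := α ++ [y₀, y₁, y₂]) (β := β) (y := y₃) hst hd (by
    rw [← hΩ']; exact hmem)
  rw [← hΩ] at ha
  rw [← hΩ'] at hb
  have hbl : (α ++ [y₀, y₁, y₂]).length = i + 3 := by
    rw [List.length_append, hα]
    rfl
  rw [hbl] at hb
  rw [hα] at ha
  have k1 := seg_btw hd.tree hx' ha.2 hy' (by omega) (by omega)
  have k2 := seg_btw hd.tree hx' hb.2 hy' (by omega) (by omega)
  have hconv := yy_conv hst hd l
  have m1 := hconv x hx y hy _ k1
  have m2 := hconv x hx y hy _ k2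
  have hT : ∀ z ∈ [y₀, y₁, y₂, y₃], z ∈ TT s t := by
    intro z hz
    apply hmem
    rw [hΩ]
    simp only [List.mem_cons, List.not_mem_nil, or_false] at hz
    simp only [List.mem_append, List.mem_cons]
    tauto
  have h5 := ovl hst hd hconv (hT y₀ (by simp)) (hT y₁ (by simp)) (hT y₂ (by simp)) m1 m2
  have h6 := hrep (α ++ [y₀]) (y₃ :: β) y₁ y₂ (by rw [hΩ]; simp)
  tauto

theorem ax_small_aux (hst : s ≠ t) (hd : Met M s t d) {ω : List B} (hω : Ruler M s t ω) (n : ℕ)
    {l : Ga M ⧸ K0 M s t} {x y : VV M s t} (hx : x ∈ YY M s t l) (hy : y ∈ YY M s t l)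
    (hx' : Btw d (vr M s t 1) x (vr M s t (blk M s t ω ^ n)))
    (hy' : Btw d (vr M s t 1) y (vr M s t (blk M s t ω ^ n)))
    (h1 : Even (d (vr M s t 1) x)) (h2 : Even (d (vr M s t 1) y)) (h : 14 ≤ d x y) : False := by
  have T := hd.tree
  have main : ∀ x y : VV M s t, x ∈ YY M s t l → y ∈ YY M s t l →
      Btw d (vr M s t 1) x (vr M s t (blk M s t ω ^ n)) →
      Btw d (vr M s t 1) y (vr M s t (blk M s t ω ^ n)) →
      Even (d (vr M s t 1) x) → 14 ≤ d x y → d (vr M s t 1) x ≤ d (vr M s t 1) y → False := by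
    intro x y hx hy hx' hy' h1 h hle
    have h3 := seg_ord T hx' hy' hle
    unfold Btw at h3
    refine seg_lt hst hd hω n hx hy hx' hy' (d (vr M s t 1) x / 4) ?_ ?_
    · obtain ⟨a, ha⟩ := h1
      omega
    · omega
  rcases le_total (d (vr M s t 1) x) (d (vr M s t 1) y) with hle | hle
  · exact main x y hx hy hx' hy' h1 h hle
  · exact main y x hy hx hy' hx' h2 (by rw [T.symm]; exact h) hle

theorem gd_vr {u ρ w : VV M s t} (h : GdV M s t u ρ w) :
    (∃ g : Ga M, u = vr M s t g) ∧ ∃ g : Ga M, w = vr M s t g := by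
  obtain ⟨g, i, j, -, -, -, h | h⟩ := h
  · exact ⟨⟨_, h.1⟩, ⟨_, h.2⟩⟩
  · exact ⟨⟨_, h.2⟩, ⟨_, h.1⟩⟩

theorem ax_small (hst : s ≠ t) (hd : Met M s t d) {ω : List B} (hω : Ruler M s t ω) (n : ℕ)
    {l : Ga M ⧸ K0 M s t} {x y : VV M s t} (hx : x ∈ YY M s t l) (hy : y ∈ YY M s t l)
    (hx' : Btw d (vr M s t 1) x (vr M s t (blk M s t ω ^ n)))
    (hy' : Btw d (vr M s t 1) y (vr M s t (blk M s t ω ^ n))) :
    mc d (GdV M s t) x y ≤ 5 ∧ d x y ≤ 16 := by
  have T := hd.tree
  constructor
  · by_contra hcon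
    obtain ⟨u, ρ, w, u', ρ', w', hg, hg', hu, hw, -, hlen⟩ :=
      mc_large (k := 5) (x := x) (y := y) T (gdS hst hd) (by omega)
    have hconv := yy_conv hst hd l
    have hseg := conv_seg T (vr M s t 1) (vr M s t (blk M s t ω ^ n))
    have mu := hconv x hx y hy _ hu
    have mw := hconv x hx y hy _ hw
    have su := hseg x hx' y hy' _ hu
    have sw := hseg x hx' y hy' _ hw
    obtain ⟨⟨a, ha⟩, -⟩ := gd_vr hg
    obtain ⟨-, ⟨b, hb⟩⟩ := gd_vr hg'
    refine ax_small_aux hst hd hω n mu mw su sw ?_ ?_ (by omega)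
    · rw [ha]
      exact hd.even 1 a
    · rw [hb]
      exact hd.even 1 b
  · by_contra hcon
    have main : ∀ x y : VV M s t, x ∈ YY M s t l → y ∈ YY M s t l →
        Btw d (vr M s t 1) x (vr M s t (blk M s t ω ^ n)) →
        Btw d (vr M s t 1) y (vr M s t (blk M s t ω ^ n)) →
        15 ≤ d x y → d (vr M s t 1) x ≤ d (vr M s t 1) y → False := by
      intro x y hx hy hx' hy' h hle
      have h3 := seg_ord T hx' hy' hle
      unfold Btw at h3
      refine seg_lt hst hd hω n hx hy hx' hy' ((d (vr M s t 1) x + 1) / 4) ?_ ?_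
      · omega
      · omega
    rcases le_total (d (vr M s t 1) x) (d (vr M s t 1) y) with hle | hle
    · exact main x y hx hy hx' hy' (by omega) hle
    · exact main y x hy hx hy' hx' (by rw [T.symm]; omega) hle

end AHX
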