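import Pool.Agent.AHX.AxW
import Pool.Agent.AHX.FamV

set_option autoImplicit false

/-!
# AHX module AXST: the stabiliser of a long segment of the axis

`g` fixes `vr 1` and `vr (blk Ω)`, so it fixes every point between them (`Met.dinv`, `Tree.uniq`).

* `fix_pt`.
* `c_even`: let `Ω = α ++ y :: β`, `β ≠ []`, `α ≠ []` (so that there is something on both sides).
  Put `h = blk α`, `c = h⁻¹ * g * h ∈ R`.  The vertices `vr (h * t⁻¹)` (it is the vertex before `vr h`: `α = α' ++ [y']`,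
  `h * t⁻¹ = blk α' * s * y'`, `y' ∈ R`), `vr h`, `vr (h * s)` are fixed by `g`, so `t c t⁻¹ ∈ R`,
  `c ∈ R`, `s⁻¹ c s ∈ R`.  By `star_one` (for `r = s` and `X = TT`) `c ∈ Pa (perp TT s)` and
  `s⁻¹ c s = c`; for `r = t` and the element `c' = t c t⁻¹ ∈ R` with `t⁻¹ c' t = c ∈ R`:
  `c' ∈ Pa (perp TT t)` and `c = c'`.  So `c ∈ Pa CC` by `par_inter`.
* `c_step`: the next even vertex: `blk (α ++ [y]) = h * s * y * t`.  `vr (h * s * y * t)` is fixed, so
  `t⁻¹ (y⁻¹ s⁻¹ c s y) t ∈ R`; and `s⁻¹ c s = c` (`c_even`), `y⁻¹ c y ∈ R`, so by `star_one`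
  `t⁻¹ (y⁻¹ c y) t = y⁻¹ c y`; so the new element `(blk (α ++ [y]))⁻¹ * g * blk (α ++ [y])` is
  `y⁻¹ * c * y`.
* `ax_stab`: `Ω = ω ++ ω ++ ω`.  By induction (`c_step`), for every prefix `α` of `ω` the element of
  `ω ++ α` is `(wd α)⁻¹ * c * wd α` with `c = (blk ω)⁻¹ * g * blk ω`, and it is in `Pa CC` by `c_even`.
  So `c = 1` by `Ruler.triv`, and `g = 1`.
* `axV`: `len`: `ax_even` for `α = (List.replicate n ω).flatten`, `β = []`; `pos`: `ω ≠ []`; `small`:
  `ax_small`; `stab`: `ax_stab` with `n₀ = 3`.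
-/

namespace AHX

variable {B : Type} {M : CoxeterMatrix B} {s t : B} {d : VV M s t → VV M s t → ℕ}

theorem fix_pt (hd : Met M s t d) {g : Ga M} {x y z : VV M s t} (hx : g • x = x)
    (hy : g • y = y) (hz : Btw d x z y) : g • z = z := by
  have h1 : d x (g • z) = d x z := by
    conv_lhs => rw [← hx]
    rw [hd.dinv]
  have h2 : d (g • z) y = d z y := by
    conv_lhs => rw [← hy]
    rw [hd.dinv]
  have h3 : Btw d x (g • z) y := by
    unfold Btw at hz ⊢
    rw [h1, h2]
    exact hz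
  exact Tree.uniq hd.tree h3 hz h1

theorem conj_of_fix {g h : Ga M} (hg : g • vr M s t h = vr M s t h) :
    h⁻¹ * g * h ∈ RR M s t := by
  rw [smul_vr, vr_eq] at hg
  have := inv_mem hg
  rw [mul_inv_rev, inv_inv, ← mul_assoc] at this
  exact this

theorem fix_vr (hst : s ≠ t) (hd : Met M s t d) {g : Ga M} {α β : List B}
    (hΩ : ∀ z ∈ α ++ β, z ∈ TT s t) (h1 : g • vr M s t 1 = vr M s t 1)
    (h2 : g • vr M s t (blk M s t (α ++ β)) = vr M s t (blk M s t (α ++ β))) :
    (blk M s t α)⁻¹ * g * blk M s t α ∈ RR M s t :=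
  conj_of_fix (fix_pt hd h1 h2 (ax_even hst hd hΩ).2)

theorem fix_vs (hst : s ≠ t) (hd : Met M s t d) {g : Ga M} {α β : List B} {y : B}
    (hΩ : ∀ z ∈ α ++ y :: β, z ∈ TT s t) (h1 : g • vr M s t 1 = vr M s t 1)
    (h2 : g • vr M s t (blk M s t (α ++ y :: β)) = vr M s t (blk M s t (α ++ y :: β))) :
    (gn M s)⁻¹ * ((blk M s t α)⁻¹ * g * blk M s t α) * gn M s ∈ RR M s t := by
  have h := conj_of_fix (fix_pt hd h1 h2 (ax_odd hst hd hΩ).2)
  rw [mul_inv_rev] at h
  have he : (gn M s)⁻¹ * ((blk M s t α)⁻¹ * g * blk M s t α) * gn M s =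
      (gn M s)⁻¹ * (blk M s t α)⁻¹ * g * (blk M s t α * gn M s) := by group
  rw [he]
  exact h

theorem c_even (hst : s ≠ t) (hd : Met M s t d) {g : Ga M} {α β : List B} {y : B}
    (hΩ : ∀ z ∈ α ++ y :: β, z ∈ TT s t) (hα : α ≠ []) (h1 : g • vr M s t 1 = vr M s t 1)
    (h2 : g • vr M s t (blk M s t (α ++ y :: β)) = vr M s t (blk M s t (α ++ y :: β))) :
    (blk M s t α)⁻¹ * g * blk M s t α ∈ Pa M (CC M s t) := by
  have hc := fix_vr hst hd hΩ h1 h2
  have hs := fix_vs hst hd hΩ h1 h2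
  obtain ⟨α', y', rfl⟩ : ∃ α' y', α = α' ++ [y'] := by
    rcases List.eq_nil_or_concat α with h | ⟨α', y', h⟩
    · exact absurd h hα
    · exact ⟨α', y', by simpa using h⟩
  have hΩ' : ∀ z ∈ α' ++ y' :: (y :: β), z ∈ TT s t := by
    intro z hz
    apply hΩ
    simpa using hz
  have he : α' ++ [y'] ++ y :: β = α' ++ y' :: (y :: β) := by simp
  have ht := fix_vs hst hd hΩ' h1 (by rw [← he]; exact h2)
  have hy' : y' ∈ TT s t := hΩ' y' (by simp)
  have hb : blk M s t (α' ++ [y']) = blk M s t α' * gn M s * gn M y' * gn M t := by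
    rw [blk_append]
    simp only [blk, List.map_cons, List.map_nil, List.prod_cons, List.prod_nil]
    group
  rw [hb] at hc hs ⊢
  generalize hc0 : (blk M s t α' * gn M s * gn M y' * gn M t)⁻¹ * g *
    (blk M s t α' * gn M s * gn M y' * gn M t) = c at hc hs ⊢
  have ht' : gn M t * c * (gn M t)⁻¹ ∈ RR M s t := by
    have e1 : gn M t * c * (gn M t)⁻¹ = (gn M y')⁻¹ *
        ((gn M s)⁻¹ * ((blk M s t α')⁻¹ * g * blk M s t α') * gn M s) * gn M y' := by
      rw [← hc0]
      group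
    rw [e1]
    exact mul_mem (mul_mem (inv_mem (y_mem_r hy')) ht) (y_mem_r hy')
  have r1 := star_one (M := M) (X := TT s t) (r := s) (c := c) (fun h => h.1 rfl) hc hs
  have r2 := star_one (M := M) (X := TT s t) (r := t) (c := gn M t * c * (gn M t)⁻¹)
    (fun h => h.2 rfl) ht' (by
      have e2 : (gen M Set.univ t)⁻¹ * (gn M t * c * (gn M t)⁻¹) * gen M Set.univ t = c := by
        unfold gn
        group
      rw [e2]
      exact hc)
  have e3 : (gen M Set.univ t)⁻¹ * (gn M t * c * (gn M t)⁻¹) * gen M Set.univ t = c := by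
    unfold gn
    group
  rw [e3] at r2
  rw [← r2.2] at r2
  exact par_inter r1.1 r2.1

theorem c_step (hst : s ≠ t) (hd : Met M s t d) {g : Ga M} {α β : List B} {y : B}
    (hΩ : ∀ z ∈ α ++ y :: β, z ∈ TT s t) (hα : α ≠ []) (h1 : g • vr M s t 1 = vr M s t 1)
    (h2 : g • vr M s t (blk M s t (α ++ y :: β)) = vr M s t (blk M s t (α ++ y :: β))) :
    (blk M s t (α ++ [y]))⁻¹ * g * blk M s t (α ++ [y]) =
      (gn M y)⁻¹ * ((blk M s t α)⁻¹ * g * blk M s t α) * gn M y := by
  have hc := fix_vr hst hd hΩ h1 h2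
  have hs := fix_vs hst hd hΩ h1 h2
  have hy : y ∈ TT s t := hΩ y (by simp)
  have he : α ++ [y] ++ β = α ++ y :: β := by simp
  have hn := fix_vr (α := α ++ [y]) (β := β) (g := g) hst hd (by rw [he]; exact hΩ) h1
    (by rw [he]; exact h2)
  have hb : blk M s t (α ++ [y]) = blk M s t α * gn M s * gn M y * gn M t := by
    rw [blk_append]
    simp only [blk, List.map_cons, List.map_nil, List.prod_cons, List.prod_nil]
    group
  rw [hb] at hn ⊢
  generalize hc0 : (blk M s t α)⁻¹ * g * blk M s t α = c at hc hs ⊢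
  have r1 := star_one (M := M) (X := TT s t) (r := s) (c := c) (fun h => h.1 rfl) hc hs
  have e1 : (blk M s t α * gn M s * gn M y * gn M t)⁻¹ * g *
      (blk M s t α * gn M s * gn M y * gn M t) =
      (gn M t)⁻¹ * ((gn M y)⁻¹ * c * gn M y) * gn M t := by
    have e2 : (blk M s t α * gn M s * gn M y * gn M t)⁻¹ * g *
      (blk M s t α * gn M s * gn M y * gn M t) =
      (gn M t)⁻¹ * ((gn M y)⁻¹ * ((gn M s)⁻¹ * c * gn M s) * gn M y) * gn M t := by
      rw [← hc0]
      group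
    have e3 : (gn M s)⁻¹ * c * gn M s = c := r1.2
    rw [e2, e3]
  rw [e1] at hn ⊢
  have hc' : (gn M y)⁻¹ * c * gn M y ∈ RR M s t :=
    mul_mem (mul_mem (inv_mem (y_mem_r hy)) hc) (y_mem_r hy)
  exact (star_one (M := M) (X := TT s t) (r := t) (fun h => h.2 rfl) hc' hn).2

theorem ax_stab (hst : s ≠ t) (hd : Met M s t d) {ω : List B} (hω : Ruler M s t ω) {g : Ga M}
    (h1 : g • vr M s t 1 = vr M s t 1)
    (h2 : g • vr M s t (blk M s t ω ^ 3) = vr M s t (blk M s t ω ^ 3)) : g = 1 := by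
  have hb3 : blk M s t ω ^ 3 = blk M s t (ω ++ (ω ++ ω)) := by
    rw [blk_append, blk_append, pow_succ, pow_two, mul_assoc]
  rw [hb3] at h2
  have hmem : ∀ z ∈ ω ++ (ω ++ ω), z ∈ TT s t := by
    intro z hz
    rw [List.mem_append, List.mem_append] at hz
    rcases hz with h | h | h <;> exact hω.mem z h
  -- the elements at the prefixes
  have key : ∀ α β : List B, ω = α ++ β →
      (blk M s t (ω ++ α))⁻¹ * g * blk M s t (ω ++ α) =
        (wd M α)⁻¹ * ((blk M s t ω)⁻¹ * g * blk M s t ω) * wd M α := by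
    intro α
    induction α using List.reverseRecOn with
    | nil =>
      intro β _
      rw [List.append_nil]
      simp only [wd, List.map_nil, List.prod_nil]
      group
    | append_singleton α y ih =>
      intro β hβ
      have hβ' : ω = α ++ (y :: β) := by rw [hβ]; simp
      have e1 := ih (y :: β) hβ'
      have he : ω ++ (ω ++ ω) = (ω ++ α) ++ y :: (β ++ ω) := by
        conv_lhs => rw [hβ']
        rw [hβ']
        simp
      have e2 := c_step (α := ω ++ α) (β := β ++ ω) (y := y) (g := g) hst hd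
        (by rw [← he]; exact hmem) (by simp [hω.ne]) h1 (by rw [← he]; exact h2)
      have he' : ω ++ (α ++ [y]) = (ω ++ α) ++ [y] := by simp
      rw [he', e2, e1]
      have hw : wd M (α ++ [y]) = wd M α * gn M y := by
        simp [wd]
      rw [hw]
      group
  have hmemC : ∀ α β : List B, ω = α ++ β →
      (wd M α)⁻¹ * ((blk M s t ω)⁻¹ * g * blk M s t ω) * wd M α ∈ Pa M (CC M s t) := by
    intro α β hαβ
    rw [← key α β hαβ]
    rcases hω' : ω with _ | ⟨y, ω'⟩
    · exact absurd hω' hω.ne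
    rw [← hω']
    obtain ⟨y', γ, hγ⟩ : ∃ y' γ, β ++ ω = y' :: γ := by
      rcases hβω : β ++ ω with _ | ⟨y', γ⟩
      · rw [List.append_eq_nil_iff] at hβω
        exact absurd hβω.2 hω.ne
      · exact ⟨y', γ, rfl⟩
    have he : ω ++ (ω ++ ω) = (ω ++ α) ++ y' :: γ := by
      rw [← hγ, List.append_assoc, ← List.append_assoc α, ← hαβ]
    exact c_even (α := ω ++ α) (β := γ) (y := y') (g := g) hst hd
      (by rw [← he]; exact hmem) (by simp [hω.ne]) h1 (by rw [← he]; exact h2)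
  have hC := hmemC [] ω rfl
  simp only [wd, List.map_nil, List.prod_nil] at hC
  have hC' : (blk M s t ω)⁻¹ * g * blk M s t ω ∈ Pa M (CC M s t) := by
    have e : (1 : Ga M)⁻¹ * ((blk M s t ω)⁻¹ * g * blk M s t ω) * 1 =
      (blk M s t ω)⁻¹ * g * blk M s t ω := by group
    rw [e] at hC
    exact hC
  have h3 := hω.triv _ hC' hmemC
  have h4 : g = blk M s t ω * ((blk M s t ω)⁻¹ * g * blk M s t ω) * (blk M s t ω)⁻¹ := by group
  rw [h4, h3]
  group

end AHX
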