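import Pool.Agent.AHX.SlimX

set_option autoImplicit false

/-!
# AHX module AXUP: the element `f` in the tree with the electric metric

`A : Ax d m Y f x₀ τ D`.

* `ax_pr`: for `n : ℕ`: if the measure is positive, both projections are between `x₀` and `f ^ n x₀`
  (`pr_pos`), so `A.small` applies.
* `ax_len`: `d x₀ (f ^ n • x₀) ≤ D * dX Y x₀ (f ^ n • x₀)`: let `p`, `μ` be a geodesic chain
  (`geod_fun`) from `x₀` to `y = f ^ n • x₀`, let `I = {z | Btw d x₀ z y}` (`conv_seg`) and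
  `q i = pr d I (p i)`.  Then `d (q i) (q (i+1)) ≤ D`: if `q i ≠ q (i+1)`, then both are between
  `p i` and `p (i+1)` (`pr_ne`), so in `Y (μ i)`, and in `I`, so `A.small` applies.  Sum up;
  `q 0 = x₀`, `q k = y` (`pr_self`).
* `ax_far`: `n * τ ≤ D * dX`, so `D ≥ 1` and `dX ≥ r + 2` for `n ≥ D * (r + 2)`.
* `ax_fin`: put `a = D * (r + 2)`, `N₀ = 2 * a + n₀` (with `n₀` from `A.stab`) and `y = f ^ N₀ • x₀`.
  Let `z₁ = f ^ a • x₀`, `z₂ = f ^ (a + n₀) • x₀`, both between `x₀` and `y` (`A.len`), with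
  `dX x₀ zᵢ ≥ r + 2` and `dX zᵢ y ≥ r + 2` (`ax_far`, invariance).  Let `g` be in the set.  Then
  `zᵢ` is between `g • x₀` and `g • y`: by `Tree.split` at `g • x₀` and at `g • y`, otherwise `zᵢ` is
  between `x₀` and `g • x₀`, and `dX x₀ zᵢ ≤ dX x₀ (g • x₀) + 1 ≤ r + 1` (`near_le`), or between
  `g • y` and `y`, the same.  So `g⁻¹ • z₁`, `g⁻¹ • z₂` are in the finite set `{z | Btw d x₀ z y}`
  (`finite_seg`).  The map `g ↦ (g⁻¹ • z₁, g⁻¹ • z₂)` is injective: if `g`, `g'` have the same image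
  then `g' * g⁻¹` fixes `z₁` and `z₂`, so `f⁻ᵃ * (g' * g⁻¹) * fᵃ` fixes `x₀` and `f ^ n₀ • x₀`, so it
  is `1`.
-/

namespace AHX

variable {V Γ Λ : Type} [Group Γ] [MulAction Γ V] [MulAction Γ Λ]
  {d m : V → V → ℕ} {Y : Λ → Set V} {N : Λ → Subgroup Γ} {L : ℕ} {f : Γ} {x₀ : V} {τ D : ℕ}

theorem ax_pr (F : Fam d m Y N L) (A : Ax d m Y f x₀ τ D) (l : Λ) (n : ℕ) :
    m (pr d (Y l) x₀) (pr d (Y l) (f ^ n • x₀)) ≤ 5 := by
  by_cases h : 1 ≤ m (pr d (Y l) x₀) (pr d (Y l) (f ^ n • x₀))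
  · obtain ⟨h1, h2⟩ := F.pr_pos h
    exact (A.small l n _ _ (F.prM l _) (F.prM l _) h1 h2).1
  · omega

theorem ax_pr' (F : Fam d m Y N L) (A : Ax d m Y f x₀ τ D) (l : Λ) (n : ℕ) (g : Γ) :
    m (pr d (Y l) (g • x₀)) (pr d (Y l) (g • f ^ n • x₀)) ≤ 5 := by
  have h1 := F.m_pr g (g⁻¹ • l) x₀ (f ^ n • x₀)
  rw [smul_inv_smul] at h1
  rw [h1]
  exact ax_pr F A _ n

theorem ax_len (F : Fam d m Y N L) (A : Ax d m Y f x₀ τ D) (n : ℕ) :
    n * τ ≤ D * dX Y x₀ (f ^ n • x₀) := by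
  rw [← A.len n]
  obtain ⟨p, μ, h0, h1, h2, -⟩ := geod_fun F x₀ (f ^ n • x₀)
  set y := f ^ n • x₀ with hy
  set k := dX Y x₀ y with hk
  have hI : Conv d {z | Btw d x₀ z y} := conv_seg F.tree x₀ y
  have hx0 : x₀ ∈ {z | Btw d x₀ z y} := Btw.left F.tree
  have hy0 : y ∈ {z | Btw d x₀ z y} := Btw.right F.tree
  have hne : ({z | Btw d x₀ z y} : Set V).Nonempty := ⟨x₀, hx0⟩
  have hmem : ∀ x, Btw d x₀ (pr d {z | Btw d x₀ z y} x) y := fun x => pr_mem F.tree hI hne x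
  have hstep : ∀ i, i < k →
      d (pr d {z | Btw d x₀ z y} (p i)) (pr d {z | Btw d x₀ z y} (p (i + 1))) ≤ D := by
    intro i hi
    by_cases he : pr d {z | Btw d x₀ z y} (p i) = pr d {z | Btw d x₀ z y} (p (i + 1))
    · rw [he, F.tree.refl]
      exact Nat.zero_le _
    · obtain ⟨h3, h4, -⟩ := pr_ne F.tree hI hne he
      have h5 := F.conv (μ i) _ (h2 i hi).1 _ (h2 i hi).2 _ h3
      have h6 := F.conv (μ i) _ (h2 i hi).1 _ (h2 i hi).2 _ h4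
      exact (A.small (μ i) n _ _ h5 h6 (hmem _) (hmem _)).2
  have hsum : ∀ i, i ≤ k →
      d (pr d {z | Btw d x₀ z y} (p 0)) (pr d {z | Btw d x₀ z y} (p i)) ≤ D * i := by
    intro i
    induction i with
    | zero => intro _; rw [F.tree.refl]; exact Nat.zero_le _
    | succ i ih =>
      intro hi
      have h3 := ih (by omega)
      have h4 := hstep i (by omega)
      have h5 := F.tree.tri (pr d {z | Btw d x₀ z y} (p 0)) (pr d {z | Btw d x₀ z y} (p i))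
        (pr d {z | Btw d x₀ z y} (p (i + 1)))
      rw [Nat.mul_succ]
      omega
  have h6 := hsum k le_rfl
  rw [h0, h1, pr_self F.tree hx0, pr_self F.tree hy0] at h6
  exact h6

theorem ax_far (F : Fam d m Y N L) (A : Ax d m Y f x₀ τ D) {r n : ℕ} (h : D * (r + 2) ≤ n)
    (hn : 1 ≤ n) : r + 2 ≤ dX Y x₀ (f ^ n • x₀) := by
  by_contra hcon
  have h1 : dX Y x₀ (f ^ n • x₀) ≤ r + 1 := by omega
  have h2 := ax_len F A n
  have h3 : n * 1 ≤ n * τ := Nat.mul_le_mul_left n A.pos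
  have h4 : D * dX Y x₀ (f ^ n • x₀) ≤ D * (r + 1) := Nat.mul_le_mul_left D h1
  have h5 : D * (r + 2) = D * (r + 1) + D := by ring
  have h6 : D = 0 := by omega
  rw [h6, Nat.zero_mul] at h2
  omega

theorem ax_keep (F : Fam d m Y N L) {r : ℕ} {x y z : V} {g : Γ} (h : Btw d x z y)
    (h1 : r + 2 ≤ dX Y x z) (h2 : r + 2 ≤ dX Y z y) (h3 : dX Y x (g • x) ≤ r)
    (h4 : dX Y y (g • y) ≤ r) : Btw d x (g⁻¹ • z) y := by
  have h5 : Btw d (g • x) z y := by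
    rcases F.tree.split h (g • x) with h5 | h5
    · have h6 := near_le F h5
      omega
    · exact h5
  have h6 : Btw d (g • x) z (g • y) := by
    rcases F.tree.split h5 (g • y) with h6 | h6
    · exact h6
    · have h7 := near_le F (Btw.symm F.tree h6)
      have h8 := (geoX F).symm y z
      omega
  unfold Btw at h6 ⊢
  have e1 : d x (g⁻¹ • z) = d (g • x) z := by
    rw [← F.dinv g, smul_inv_smul]
  have e2 : d (g⁻¹ • z) y = d z (g • y) := by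
    rw [← F.dinv g, smul_inv_smul]
  rw [e1, e2, h6, F.dinv]

theorem ax_fin (F : Fam d m Y N L) (A : Ax d m Y f x₀ τ D) (r : ℕ) :
    ∃ n : ℕ, 1 ≤ n ∧ {g : Γ | dX Y x₀ (g • x₀) ≤ r ∧
      dX Y (f ^ n • x₀) (g • f ^ n • x₀) ≤ r}.Finite := by
  obtain ⟨n₀, hn₀⟩ := A.stab
  obtain ⟨a, ha⟩ : ∃ a, a = D * (r + 2) + 1 := ⟨_, rfl⟩
  have hpow : ∀ i j : ℕ, f ^ (i + j) • x₀ = f ^ i • f ^ j • x₀ := by
    intro i j
    rw [pow_add, mul_smul]
  have hd : ∀ i j : ℕ, d (f ^ i • x₀) (f ^ (i + j) • x₀) = j * τ := by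
    intro i j
    rw [hpow, F.dinv, A.len]
  have hX : ∀ i j : ℕ, dX Y (f ^ i • x₀) (f ^ (i + j) • x₀) = dX Y x₀ (f ^ j • x₀) := by
    intro i j
    rw [hpow, dX_smul F]
  have hsum : a + (a + n₀) = 2 * a + n₀ := by omega
  have hsum' : a + n₀ + a = 2 * a + n₀ := by omega
  refine ⟨2 * a + n₀, by omega, ?_⟩
  have hb1 : Btw d x₀ (f ^ a • x₀) (f ^ (2 * a + n₀) • x₀) := by
    unfold Btw
    have h1 := hd a (a + n₀)
    rw [hsum] at h1
    rw [h1, A.len, A.len]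
    ring
  have hb2 : Btw d x₀ (f ^ (a + n₀) • x₀) (f ^ (2 * a + n₀) • x₀) := by
    unfold Btw
    have h1 := hd (a + n₀) a
    rw [hsum'] at h1
    rw [h1, A.len, A.len]
    ring
  have f1 : r + 2 ≤ dX Y x₀ (f ^ a • x₀) := ax_far F A (by omega) (by omega)
  have f2 : r + 2 ≤ dX Y x₀ (f ^ (a + n₀) • x₀) := ax_far F A (by omega) (by omega)
  have f3 : r + 2 ≤ dX Y (f ^ a • x₀) (f ^ (2 * a + n₀) • x₀) := by
    have h1 := hX a (a + n₀)
    rw [hsum] at h1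
    rw [h1]
    exact f2
  have f4 : r + 2 ≤ dX Y (f ^ (a + n₀) • x₀) (f ^ (2 * a + n₀) • x₀) := by
    have h1 := hX (a + n₀) a
    rw [hsum'] at h1
    rw [h1]
    exact f1
  set y := f ^ (2 * a + n₀) • x₀ with hy
  have hI : ({z | Btw d x₀ z y} : Set V).Finite := finite_seg F.tree x₀ y
  refine Set.Finite.of_injOn (f := fun g : Γ => (g⁻¹ • f ^ a • x₀, g⁻¹ • f ^ (a + n₀) • x₀))
    (t := {z | Btw d x₀ z y} ×ˢ {z | Btw d x₀ z y}) ?_ ?_ (hI.prod hI)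
  · rintro g ⟨hg1, hg2⟩
    exact ⟨ax_keep F hb1 f1 f3 hg1 hg2, ax_keep F hb2 f2 f4 hg1 hg2⟩
  · intro g hg g' hg' he
    have he1 : g⁻¹ • f ^ a • x₀ = g'⁻¹ • f ^ a • x₀ := congrArg Prod.fst he
    have he2 : g⁻¹ • f ^ (a + n₀) • x₀ = g'⁻¹ • f ^ (a + n₀) • x₀ := congrArg Prod.snd he
    have k1 : ((f ^ a)⁻¹ * (g' * g⁻¹) * f ^ a) • x₀ = x₀ := by
      rw [mul_smul, mul_smul, mul_smul, he1, smul_inv_smul, inv_smul_smul]
    have k2 : ((f ^ a)⁻¹ * (g' * g⁻¹) * f ^ a) • f ^ n₀ • x₀ = f ^ n₀ • x₀ := by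
      rw [mul_smul, mul_smul, mul_smul, ← hpow a n₀, he2, smul_inv_smul, hpow, inv_smul_smul]
    have k3 := hn₀ _ k1 k2
    have k4 : g' * g⁻¹ = 1 := by
      have k5 : f ^ a * ((f ^ a)⁻¹ * (g' * g⁻¹) * f ^ a) * (f ^ a)⁻¹ = g' * g⁻¹ := by group
      rw [← k5, k3, mul_one, mul_inv_cancel]
    exact (mul_inv_eq_one.1 k4).symm

end AHX
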