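import Pool.Agent.AHX.AxSm
import Pool.Agent.AHX.AxSt

set_option autoImplicit false

/-!
# AHX module AXV: the axis
-/

namespace AHX

variable {B : Type} {M : CoxeterMatrix B} {s t : B} {d : VV M s t → VV M s t → ℕ}

theorem axV (hst : s ≠ t) (hd : Met M s t d) {ω : List B} (hω : Ruler M s t ω) :
    Ax d (mc d (GdV M s t)) (YY M s t) (blk M s t ω) (vr M s t 1) (4 * ω.length) 16 := by
  have hpos : 1 ≤ ω.length := by
    have := hω.ne
    rcases ω with _ | ⟨a, l⟩
    · exact absurd rfl this
    · simp
  constructor
  · omega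
  · intro n
    have hmem : ∀ y ∈ (List.replicate n ω).flatten ++ [], y ∈ TT s t := by
      intro y hy
      rw [List.append_nil, List.mem_flatten] at hy
      obtain ⟨l, hl, hy⟩ := hy
      rw [List.mem_replicate] at hl
      rw [hl.2] at hy
      exact hω.mem y hy
    have h := (ax_even hst hd hmem).1
    rw [blk_pow] at h
    rw [smul_vr, mul_one, h, List.length_flatten, List.map_replicate, List.sum_replicate,
      smul_eq_mul]
    ring
  · intro l n x y hx hy hx' hy'
    rw [smul_vr, mul_one] at hx' hy'
    exact ax_small hst hd hω n hx hy hx' hy'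
  · refine ⟨3, fun g h1 h2 => ?_⟩
    rw [smul_vr _ (1 : Ga M), mul_one] at h2
    exact ax_stab hst hd hω h1 h2

end AHX
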