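import Pool.Agent.AHX.MetV
import Pool.Agent.AHX.K0A

set_option autoImplicit false

/-!
# AHX module AXW: words along the axis

`Ω` is a word with letters in `TT`, `blk Ω = s y₁ t s y₂ t ...`, `blkl Ω = [s, y₁ t, s, y₂ t, ...]`.

* `alt_blkl`: `s ∈ P \ R`, `y t ∈ Q \ R` (`y ∈ R ≤ Q`; if `y t ∈ R` then `t ∈ R`, `gen_mem_iff`).
* `ax_even`, `ax_odd`: `Met.len` for the decomposition `blkl Ω = blkl α ++ blkl β`, respectively
  `blkl Ω = (blkl α ++ [s]) ++ (y t) :: blkl β`; the length of `blkl α` is `2 * α.length`.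
* `ax_pt`: a point `x = vr g` between `vr 1` and `vr (blk Ω)` is at even distance `2 j` from `vr 1`
  (`Met.even`); if `j = 2 i` then `x = vr (blk α)` with `α` the first `i` letters, by `Tree.uniq` and
  `ax_even`, if `j = 2 i + 1` then `x = vr (blk α * s)` by `ax_odd`.
* `ovl`: translate by `(blk α * s)⁻¹` and use `Met.len` for the list
  `[y₀ t, s, y₁ t, s, y₂ t, s]` (first member in `Q`): all the vertices `vr (h 1), ..., vr (h 7)` with
  `h 1 = blk α * s`, `h 2 = h 1 * y₀ * t = blk (α ++ [y₀])`, `h 3 = h 2 * s`, `h 4 = blk (α ++ [y₀, y₁])`,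
  `h 5 = h 4 * s`, `h 6 = blk (α ++ [y₀, y₁, y₂])`, `h 7 = h 6 * s` are between `vr (h 1)` and `vr (h 7)`, so they
  are in the convex set `YY l`.  As `vr (h 1) = vr (h 2 * t⁻¹)` (`y₀ ∈ R`) etc., `gd_lab` for `g = h 2`,
  `i = 1`, `j = -1` gives `l = ↑(h 2)`, and in the same way `l = ↑(h 4)`, `l = ↑(h 6)`.  So
  `s * y₁ * t = (h 2)⁻¹ * h 4 ∈ K0`, `y₁ ∈ K0 ∩ R`, `y₁ ∈ CC` by `k0_inter_r` and `gen_mem_iff`;
  the same for `y₂`.
-/

namespace AHX

variable {B : Type} {M : CoxeterMatrix B} {s t : B} {d : VV M s t → VV M s t → ℕ}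

theorem blk_append (Ω Ω' : List B) : blk M s t (Ω ++ Ω') = blk M s t Ω * blk M s t Ω' := by
  unfold blk
  rw [List.map_append, List.prod_append]

theorem blkl_append (Ω Ω' : List B) : blkl M s t (Ω ++ Ω') = blkl M s t Ω ++ blkl M s t Ω' := by
  induction Ω with
  | nil => rfl
  | cons y Ω ih =>
    simp only [List.cons_append, blkl]
    rw [ih]

theorem blkl_prod (Ω : List B) : (blkl M s t Ω).prod = blk M s t Ω := by
  induction Ω with
  | nil => rfl
  | cons y Ω ih =>
    simp only [blkl, List.prod_cons]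
    rw [ih]
    unfold blk
    rw [List.map_cons, List.prod_cons]
    group

theorem blkl_length (Ω : List B) : (blkl M s t Ω).length = 2 * Ω.length := by
  induction Ω with
  | nil => rfl
  | cons y Ω ih =>
    simp only [blkl, List.length_cons]
    rw [ih]
    ring

theorem blk_pow (Ω : List B) (n : ℕ) :
    blk M s t (List.replicate n Ω).flatten = blk M s t Ω ^ n := by
  induction n with
  | zero => simp [blk]
  | succ n ih =>
    rw [List.replicate_succ, List.flatten_cons, blk_append, ih, pow_succ']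

theorem s_mem_p (hst : s ≠ t) : gn M s ∈ PP M s t := gen_mem_par hst

theorem s_not_r : gn M s ∉ RR M s t := fun h => (gen_mem_iff.1 h).1 rfl

theorem t_mem_q (hst : s ≠ t) : gn M t ∈ QQ M s t := gen_mem_par hst.symm

theorem t_not_r : gn M t ∉ RR M s t := fun h => (gen_mem_iff.1 h).2 rfl

theorem y_mem_r {y : B} (hy : y ∈ TT s t) : gn M y ∈ RR M s t := gen_mem_par hy

theorem yt_mem_q (hst : s ≠ t) {y : B} (hy : y ∈ TT s t) : gn M y * gn M t ∈ QQ M s t :=
  mul_mem (rr_le_qq M s t (y_mem_r hy)) (t_mem_q hst)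

theorem yt_not_r {y : B} (hy : y ∈ TT s t) : gn M y * gn M t ∉ RR M s t := by
  intro h
  exact t_not_r (((RR M s t).mul_mem_cancel_left (y_mem_r hy)).1 h)

theorem alt_blkl (hst : s ≠ t) {Ω : List B} (hΩ : ∀ y ∈ Ω, y ∈ TT s t) :
    Alt (PP M s t) (QQ M s t) (RR M s t) true (blkl M s t Ω) := by
  induction Ω with
  | nil => exact trivial
  | cons y Ω ih =>
    have hy := hΩ y (List.mem_cons_self ..)
    exact ⟨s_mem_p hst, s_not_r, yt_mem_q hst hy, yt_not_r hy,
      ih fun z hz => hΩ z (List.mem_cons_of_mem _ hz)⟩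

theorem ax_even (hst : s ≠ t) (hd : Met M s t d) {α β : List B}
    (hΩ : ∀ y ∈ α ++ β, y ∈ TT s t) :
    d (vr M s t 1) (vr M s t (blk M s t α)) = 4 * α.length ∧
      Btw d (vr M s t 1) (vr M s t (blk M s t α)) (vr M s t (blk M s t (α ++ β))) := by
  have h := alt_blkl (M := M) hst hΩ
  rw [blkl_append] at h
  have h' := hd.len true _ _ h
  rw [blkl_prod, blkl_length, ← blkl_append, blkl_prod] at h'
  refine ⟨?_, h'.2⟩
  rw [h'.1]
  ring

theorem ax_odd (hst : s ≠ t) (hd : Met M s t d) {α β : List B} {y : B}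
    (hΩ : ∀ z ∈ α ++ y :: β, z ∈ TT s t) :
    d (vr M s t 1) (vr M s t (blk M s t α * gn M s)) = 4 * α.length + 2 ∧
      Btw d (vr M s t 1) (vr M s t (blk M s t α * gn M s))
        (vr M s t (blk M s t (α ++ y :: β))) := by
  have h := alt_blkl (M := M) hst hΩ
  have he : blkl M s t (α ++ y :: β) =
      (blkl M s t α ++ [gn M s]) ++ (gn M y * gn M t) :: blkl M s t β := by
    rw [blkl_append]
    simp [blkl]
  have hp : (blkl M s t α ++ [gn M s]).prod = blk M s t α * gn M s := by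
    rw [List.prod_append, blkl_prod, List.prod_singleton]
  have hl : (blkl M s t α ++ [gn M s]).length = 2 * α.length + 1 := by
    rw [List.length_append, blkl_length, List.length_singleton]
  have hq : ((blkl M s t α ++ [gn M s]) ++ (gn M y * gn M t) :: blkl M s t β).prod =
      blk M s t (α ++ y :: β) := by
    rw [← he, blkl_prod]
  rw [he] at h
  have h' := hd.len true _ _ h
  rw [hp, hl, hq] at h'
  refine ⟨?_, h'.2⟩
  rw [h'.1]
  ring

/-- a vertex between two vertices of a member of the family -/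
theorem btw_trans_vr (hd : Met M s t d) {h : Ga M} {l : List (Ga M)} {l' : List (Ga M)}
    {b : Bool} (ha : Alt (PP M s t) (QQ M s t) (RR M s t) b (l ++ l')) :
    Btw d (vr M s t h) (vr M s t (h * l.prod)) (vr M s t (h * (l ++ l').prod)) := by
  have h1 := (hd.len b l l' ha).2
  unfold Btw at h1 ⊢
  rw [← hd.dinv h, ← hd.dinv h (vr M s t l.prod), ← hd.dinv h (vr M s t 1) (vr M s t (l ++ l').prod),
    smul_vr, smul_vr, smul_vr, mul_one] at h1
  exact h1

theorem lab_cc {h : Ga M} {y : B} (hy : y ∈ TT s t)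
    (hl : ((h * (gn M s * gn M y * gn M t) : Ga M) : Ga M ⧸ K0 M s t) = (h : Ga M ⧸ K0 M s t)) :
    y ∈ CC M s t := by
  rw [eq_comm, QuotientGroup.eq, inv_mul_cancel_left] at hl
  have hs : gn M s ∈ K0 M s t := by
    refine (le_sup_left : FF M s t ≤ K0 M s t) (Subgroup.subset_closure ?_)
    simp
  have ht : gn M t ∈ K0 M s t := by
    refine (le_sup_left : FF M s t ≤ K0 M s t) (Subgroup.subset_closure ?_)
    simp
  have h1 : gn M y ∈ K0 M s t := by
    rw [(K0 M s t).mul_mem_cancel_right ht, (K0 M s t).mul_mem_cancel_left hs] at hl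
    exact hl
  have h2 := k0_inter_r h1 (y_mem_r hy)
  exact gen_mem_iff.1 h2

theorem ovl (hst : s ≠ t) (hd : Met M s t d) {l : Ga M ⧸ K0 M s t}
    (hl : Conv d (YY M s t l)) {α : List B} {y₀ y₁ y₂ : B} (h0 : y₀ ∈ TT s t)
    (h1 : y₁ ∈ TT s t) (h2 : y₂ ∈ TT s t)
    (hx : vr M s t (blk M s t α * gn M s) ∈ YY M s t l)
    (hy : vr M s t (blk M s t (α ++ [y₀, y₁, y₂]) * gn M s) ∈ YY M s t l) :
    y₁ ∈ CC M s t ∧ y₂ ∈ CC M s t := by
  have hs := s_mem_p (M := M) hst
  have hs' := s_not_r (M := M) (s := s) (t := t)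
  have m0 := yt_mem_q (M := M) hst h0
  have m1 := yt_mem_q (M := M) hst h1
  have m2 := yt_mem_q (M := M) hst h2
  have n0 := yt_not_r (M := M) h0
  have n1 := yt_not_r (M := M) h1
  have n2 := yt_not_r (M := M) h2
  have hend : blk M s t (α ++ [y₀, y₁, y₂]) * gn M s = (blk M s t α * gn M s) *
      ([gn M y₀ * gn M t, gn M s, gn M y₁ * gn M t, gn M s, gn M y₂ * gn M t, gn M s] :
        List (Ga M)).prod := by
    rw [blk_append]
    simp only [blk, List.map_cons, List.map_nil, List.prod_cons, List.prod_nil]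
    group
  rw [hend] at hy
  generalize blk M s t α * gn M s = h at hx hy
  -- the good triple at `g * a`
  have key : ∀ (g : Ga M) (y : B), y ∈ TT s t → vr M s t g ∈ YY M s t l →
      vr M s t (g * (gn M y * gn M t)) ∈ YY M s t l →
      vr M s t (g * (gn M y * gn M t) * gn M s) ∈ YY M s t l →
      l = ((g * (gn M y * gn M t) : Ga M) : Ga M ⧸ K0 M s t) := by
    intro g y hy hg1 hg2 hg3
    refine gd_lab hst (i := 1) (j := -1) odd_one (by decide) hg2 ?_ ?_
    · rw [zpow_one]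
      exact hg3
    · have : vr M s t (g * (gn M y * gn M t) * gn M t ^ (-1 : ℤ)) = vr M s t g := by
        rw [vr_eq, zpow_neg_one]
        have : (g * (gn M y * gn M t) * (gn M t)⁻¹)⁻¹ * g = (gn M y)⁻¹ := by group
        rw [this]
        exact inv_mem (y_mem_r hy)
      rw [this]
      exact hg1
  have lab : ∀ (h : Ga M) (y : B), y ∈ TT s t →
      l = ((h * gn M s * (gn M y * gn M t) : Ga M) : Ga M ⧸ K0 M s t) →
      l = (h : Ga M ⧸ K0 M s t) → y ∈ CC M s t := by
    intro h y hy e1 e2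
    refine lab_cc (h := h) hy ?_
    rw [← e2, e1]
    congr 1
    group
  have ha0 : ∃ a0, a0 = gn M y₀ * gn M t := ⟨_, rfl⟩
  have ha1 : ∃ a1, a1 = gn M y₁ * gn M t := ⟨_, rfl⟩
  have ha2 : ∃ a2, a2 = gn M y₂ * gn M t := ⟨_, rfl⟩
  obtain ⟨a0, ha0⟩ := ha0
  obtain ⟨a1, ha1⟩ := ha1
  obtain ⟨a2, ha2⟩ := ha2
  have key0 := fun g => key g y₀ h0
  have key1 := fun g => key g y₁ h1
  have key2 := fun g => key g y₂ h2
  have lab1 := fun g => lab g y₁ h1
  have lab2 := fun g => lab g y₂ h2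
  rw [← ha0] at m0 n0 key0 hy
  rw [← ha1] at m1 n1 key1 hy lab1
  rw [← ha2] at m2 n2 key2 hy lab2
  have hσ : ∃ σ, σ = gn M s := ⟨_, rfl⟩
  obtain ⟨σ, hσ⟩ := hσ
  rw [← hσ] at hs hs' key0 key1 key2 hy lab1 lab2
  have halt : Alt (PP M s t) (QQ M s t) (RR M s t) false [a0, σ, a1, σ, a2, σ] :=
    ⟨m0, n0, hs, hs', m1, n1, hs, hs', m2, n2, hs, hs', trivial⟩
  have hin : ∀ l1 l2 : List (Ga M), l1 ++ l2 = [a0, σ, a1, σ, a2, σ] →
      vr M s t (h * l1.prod) ∈ YY M s t l := by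
    intro l1 l2 he
    have h3 := btw_trans_vr hd (h := h) (l := l1) (l' := l2) (b := false) (by rw [he]; exact halt)
    rw [he] at h3
    exact hl _ hx _ hy _ h3
  have e1 := hin [a0] [σ, a1, σ, a2, σ] rfl
  have e2 := hin [a0, σ] [a1, σ, a2, σ] rfl
  have e3 := hin [a0, σ, a1] [σ, a2, σ] rfl
  have e4 := hin [a0, σ, a1, σ] [a2, σ] rfl
  have e5 := hin [a0, σ, a1, σ, a2] [σ] rfl
  have e6 := hin [a0, σ, a1, σ, a2, σ] [] rfl
  simp only [List.prod_cons, List.prod_nil, mul_one, ← mul_assoc] at e1 e2 e3 e4 e5 e6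
  have k1 := key0 h hx e1 e2
  have k2 := key1 (h * a0 * σ) e2 e3 e4
  have k3 := key2 (h * a0 * σ * a1 * σ) e4 e5 e6
  exact ⟨lab1 _ k2 k1, lab2 _ k3 k2⟩

end AHX
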