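import Pool.Agent.AHX.CoxDefs

set_option autoImplicit false

/-!
# AHX module COX1: the order of `s i * s j` is `M i j`

Geometric representation (Tits).  `V = B →₀ ℝ`, bilinear form with
`b (e i) (e j) = - cos (π / M i j)` (`-1` if `M i j = 0`), so `b (e i) (e i) = 1`;
`σ i v = v - 2 b (e i) v • e i`.  To see that `i ↦ σ i` extends to the Coxeter group (`cs.lift`) one has
to show `(σ i σ j) ^ M i j = 1`; for `i = j` this is `σ i ^ 2 = 1`.  For `i ≠ j`, `m = M i j ≠ 0` use
`Module.reflection_mul_reflection_pow_apply` (`Mathlib.LinearAlgebra.Reflection`, Chebyshev `S`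
polynomials, `t = 4 cos² (π/m) - 2 = 2 cos (2π/m)`, and `S n (2 cos α) = sin ((n+1) α) / sin α`), or
directly: put `θ = π/m`, `c = cos θ`; by induction on `k`, for every `v` with
`x = b (e i) v`, `y = b (e j) v`,
`(σ i σ j) ^ k v = v + p k • e i + q k • e j`, where `p k`, `q k` are combinations of `x`, `y` with
coefficients in `sin (2 k θ)/ sin θ` etc.  Another way: on the plane spanned by `e i`, `e j` the map
`σ i σ j` is a rotation by `2θ` (matrix with trace `4 c ^ 2 - 2` and determinant `1`), so its `m`-th
power is the identity there; and `v ↦ (σ i σ j) v - v` has values in the plane, so for all `v`,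
`(σ i σ j) ^ m v = v + (1 + A + ... + A ^ (m-1)) w`, `w` in the plane, `A` the rotation, and
`1 + A + ... + A ^ (m-1) = 0` as `A ≠ 1` is a rotation of order `m` (`(1 - A)` is invertible).

The order is not smaller: on `e i`, `e j` the element `(σ i σ j) ^ k` acts as a rotation by `2 k θ`,
which is not the identity for `0 < k < m`.  If `M i j = 0`:
`(σ i σ j) ^ k (e i) = e i + 2 k • (e i + e j)` (up to sign), so the order is infinite.
-/

namespace AHX

open Polynomial.Chebyshev

variable {B : Type} {W : Type} [Group W] {M : CoxeterMatrix B} (cs : CoxeterSystem M W)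

/-- The coefficients of the geometric representation. -/
noncomputable def gk (M : CoxeterMatrix B) (i j : B) : ℝ :=
  if M.M i j = 0 then -2 else -2 * Real.cos (Real.pi / M.M i j)

theorem gk_self (M : CoxeterMatrix B) (i : B) : gk M i i = 2 := by
  simp [gk]

theorem gk_symm (M : CoxeterMatrix B) (i j : B) : gk M i j = gk M j i := by
  have : M.M i j = M.M j i := by
    have := congrFun (congrFun M.isSymm i) j
    rw [Matrix.transpose_apply] at this
    exact this.symm
  rw [gk, gk, this]

/-- The linear forms of the geometric representation. -/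
noncomputable def gf (M : CoxeterMatrix B) (i : B) : Module.Dual ℝ (B →₀ ℝ) :=
  Finsupp.linearCombination ℝ (gk M i)

theorem gf_single (M : CoxeterMatrix B) (i j : B) : gf M i (Finsupp.single j 1) = gk M i j := by
  simp [gf]

theorem gf_self (M : CoxeterMatrix B) (i : B) : gf M i (Finsupp.single i 1) = 2 := by
  rw [gf_single, gk_self]

/-- The reflections of the geometric representation. -/
noncomputable def gs (M : CoxeterMatrix B) (i : B) : (B →₀ ℝ) ≃ₗ[ℝ] (B →₀ ℝ) :=
  Module.reflection (gf_self M i)

theorem S_sum_zero (m : ℕ) (hm : 3 ≤ m) (t : ℝ) (ht : t = 2 * Real.cos (2 * Real.pi / m)) :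
    ((S ℝ ((m - 2) / 2)).eval t * ((S ℝ ((m - 1) / 2)).eval t + (S ℝ ((m - 3) / 2)).eval t)) = 0 ∧
    ((S ℝ ((m - 1) / 2)).eval t * ((S ℝ (m / 2)).eval t + (S ℝ ((m - 2) / 2)).eval t)) = 0 := by
  have hm0 : (0 : ℝ) < m := by
    have : 0 < m := by omega
    exact_mod_cast this
  have hm3 : (3 : ℝ) ≤ m := by exact_mod_cast hm
  have hsin : 0 < Real.sin (2 * Real.pi / m) := by
    apply Real.sin_pos_of_pos_of_lt_pi (by positivity)
    rw [div_lt_iff₀ hm0]
    nlinarith [Real.pi_pos]
  have hS : ∀ n : ℤ, (S ℝ n).eval t * Real.sin (2 * Real.pi / m) =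
      Real.sin ((n + 1) * (2 * Real.pi / m)) := by
    intro n
    rw [ht]
    exact S_two_mul_real_cos _ _
  rcases Nat.even_or_odd' m with ⟨p, hp | hp⟩
  · have h1 : ((m : ℤ) - 2) / 2 = p - 1 := by omega
    have h2 : ((m : ℤ) - 1) / 2 = p - 1 := by omega
    have h3 : (S ℝ ((p : ℤ) - 1)).eval t = 0 := by
      have h4 := hS (p - 1)
      have h5 : (((p : ℤ) - 1 : ℤ) + 1 : ℝ) * (2 * Real.pi / m) = Real.pi := by
        rw [hp]
        push_cast
        have : (p : ℝ) ≠ 0 := by
          have : p ≠ 0 := by omega
          exact_mod_cast this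
        field_simp
        ring
      rw [h5, Real.sin_pi] at h4
      exact (mul_eq_zero.1 h4).resolve_right hsin.ne'
    rw [h1, h2, h3, zero_mul, zero_mul]
    exact ⟨rfl, rfl⟩
  · have h1 : ((m : ℤ) - 2) / 2 = p - 1 := by omega
    have h2 : ((m : ℤ) - 1) / 2 = p := by omega
    have h3 : ((m : ℤ) - 3) / 2 = p - 1 := by omega
    have h4 : (m : ℤ) / 2 = p := by omega
    have h5 : (S ℝ (p : ℤ)).eval t + (S ℝ ((p : ℤ) - 1)).eval t = 0 := by
      have h6 := hS p
      have h7 := hS (p - 1)
      have h8 : ((S ℝ (p : ℤ)).eval t + (S ℝ ((p : ℤ) - 1)).eval t) *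
          Real.sin (2 * Real.pi / m) = 0 := by
        rw [add_mul, h6, h7]
        have h9 : (((p : ℤ) : ℝ) + 1) * (2 * Real.pi / m) = Real.pi + Real.pi / m := by
          rw [hp]
          push_cast
          have : (2 * (p : ℝ) + 1) ≠ 0 := by positivity
          field_simp
          ring
        have h10 : (((p : ℤ) - 1 : ℤ) + 1 : ℝ) * (2 * Real.pi / m) = Real.pi - Real.pi / m := by
          rw [hp]
          push_cast
          have : (2 * (p : ℝ) + 1) ≠ 0 := by positivity
          field_simp
          ring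
        rw [h9, h10, Real.sin_pi_sub, add_comm Real.pi, Real.sin_add_pi]
        ring
      exact (mul_eq_zero.1 h8).resolve_right hsin.ne'
    rw [h1, h2, h3, h4, h5, mul_zero, mul_zero]
    exact ⟨rfl, rfl⟩

theorem gk_t (M : CoxeterMatrix B) (i j : B) (h : M.M i j ≠ 0) :
    gk M i j * gk M j i - 2 = 2 * Real.cos (2 * Real.pi / M.M i j) := by
  rw [← gk_symm M i j, gk, if_neg h, mul_div_assoc, Real.cos_two_mul]
  ring

theorem gs_liftable (M : CoxeterMatrix B) : M.IsLiftable (gs M) := by
  intro i j
  by_cases h0 : M.M i j = 0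
  · rw [h0, pow_zero]
  by_cases hij : i = j
  · subst hij
    rw [M.diagonal, pow_one]
    ext1 v
    exact Module.involutive_reflection (gf_self M i) v
  have h1 := M.off_diagonal i j hij
  have h2 : M.M i j = 2 ∨ 3 ≤ M.M i j := by omega
  apply LinearEquiv.ext
  intro z
  rw [gs, gs, Module.reflection_mul_reflection_pow_apply (gf_self M i) (gf_self M j) (M.M i j) z]
  rw [gf_single, gf_single]
  rcases h2 with h2 | h2
  · have hk : gk M i j = 0 := by
      rw [gk, if_neg h0, h2]
      simp
    have hk2 : gk M j i = 0 := by rw [← gk_symm, hk]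
    rw [hk, hk2, h2]
    norm_num
    have e1 : S ℝ (-1 / 2 : ℤ) = 0 := by
      have : (-1 / 2 : ℤ) = -1 := by norm_num
      rw [this, S_neg_one]
    module
  · have h3 := gk_t M i j h0
    obtain ⟨h4, h5⟩ := S_sum_zero (M.M i j) h2 _ h3
    rw [h4, h5]
    simp

theorem order_st (i j : B) : orderOf (cs.simple i * cs.simple j) = M.M i j := by
  have hdvd : orderOf (cs.simple i * cs.simple j) ∣ M.M i j :=
    orderOf_dvd_of_pow_eq_one (cs.simple_mul_simple_pow i j)
  by_cases hij : i = j
  · subst hij
    rw [M.diagonal] at hdvd ⊢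
    exact Nat.dvd_one.1 hdvd
  -- the image in the geometric representation
  have hrep : ∀ k : ℕ, (cs.simple i * cs.simple j) ^ k = 1 →
      ((gs M i * gs M j) ^ k) (Finsupp.single i 1) = Finsupp.single i 1 := by
    intro k hk
    have h1 := congrArg (cs.lift ⟨gs M, gs_liftable M⟩) hk
    rw [map_pow, map_mul, cs.lift_apply_simple, cs.lift_apply_simple, map_one] at h1
    rw [h1]
    rfl
  have hco : ∀ k : ℕ, (cs.simple i * cs.simple j) ^ k = 1 →
      (S ℝ k).eval (gk M i j * gk M j i - 2) + (S ℝ (k - 1)).eval (gk M i j * gk M j i - 2) = 1 ∧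
      (S ℝ (k - 1)).eval (gk M i j * gk M j i - 2) * -gk M j i = 0 := by
    intro k hk
    have h1 := hrep k hk
    rw [gs, gs, Module.reflection_mul_reflection_pow_apply_self (gf_self M i) (gf_self M j) k,
      gf_single, gf_single] at h1
    have h2 := DFunLike.congr_fun h1 i
    have h3 := DFunLike.congr_fun h1 j
    simp only [Finsupp.add_apply, Finsupp.smul_apply, Finsupp.single_eq_same, smul_eq_mul,
      Finsupp.single_eq_of_ne hij, Finsupp.single_eq_of_ne (Ne.symm hij), mul_one, mul_zero,
      add_zero, zero_add] at h2 h3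
    exact ⟨h2, h3⟩
  have hpow := pow_orderOf_eq_one (cs.simple i * cs.simple j)
  obtain ⟨hc1, hc2⟩ := hco _ hpow
  by_cases h0 : M.M i j = 0
  · have hk : gk M i j = -2 := by rw [gk, if_pos h0]
    have hk2 : gk M j i = -2 := by rw [← gk_symm, hk]
    rw [hk, hk2] at hc2
    have e : (-2 : ℝ) * -2 - 2 = 2 := by norm_num
    rw [e, S_eval_two] at hc2
    push_cast at hc2
    have h3 : ((orderOf (cs.simple i * cs.simple j) : ℕ) : ℝ) = 0 := by linarith
    rw [h0]
    exact_mod_cast h3
  · have hm1 := M.off_diagonal i j hij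
    have hkpos : 0 < orderOf (cs.simple i * cs.simple j) :=
      Nat.pos_of_dvd_of_pos hdvd (Nat.pos_of_ne_zero h0)
    have hkle := Nat.le_of_dvd (Nat.pos_of_ne_zero h0) hdvd
    by_contra hne
    have hlt : orderOf (cs.simple i * cs.simple j) < M.M i j := lt_of_le_of_ne hkle hne
    set k := orderOf (cs.simple i * cs.simple j) with hk
    have h2 : M.M i j = 2 ∨ 3 ≤ M.M i j := by omega
    rcases h2 with h2 | h2
    · have hk0 : gk M i j = 0 := by
        rw [gk, if_neg h0, h2]
        simp
      have hk1 : k = 1 := by omega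
      rw [hk0, hk1] at hc1
      norm_num at hc1
    · have hm0 : (0 : ℝ) < M.M i j := by
        have : 0 < M.M i j := by omega
        exact_mod_cast this
      have hm3 : (3 : ℝ) ≤ M.M i j := by exact_mod_cast h2
      have hsin : 0 < Real.sin (2 * Real.pi / M.M i j) := by
        apply Real.sin_pos_of_pos_of_lt_pi (by positivity)
        rw [div_lt_iff₀ hm0]
        nlinarith [Real.pi_pos]
      have hgk : gk M j i ≠ 0 := by
        rw [← gk_symm, gk, if_neg h0]
        have : 0 < Real.cos (Real.pi / M.M i j) := by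
          apply Real.cos_pos_of_mem_Ioo
          constructor
          · have : 0 < Real.pi / M.M i j := by positivity
            linarith [Real.pi_pos]
          · rw [div_lt_div_iff₀ hm0 two_pos]
            nlinarith [Real.pi_pos]
        intro h
        linarith
      have hS1 := (mul_eq_zero.1 hc2).resolve_right (neg_ne_zero.2 hgk)
      rw [hS1, add_zero] at hc1
      rw [gk_t M i j h0] at hc1 hS1
      have e1 := S_two_mul_real_cos (2 * Real.pi / M.M i j) ((k : ℤ) - 1)
      have e2 := S_two_mul_real_cos (2 * Real.pi / M.M i j) (k : ℤ)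
      rw [hS1, zero_mul] at e1
      rw [hc1, one_mul] at e2
      push_cast at e1 e2
      rw [sub_add_cancel] at e1
      rw [add_mul, one_mul, Real.sin_add, ← e1, zero_mul, zero_add] at e2
      have e3 : Real.cos ((k : ℝ) * (2 * Real.pi / M.M i j)) = 1 := by
        have : (Real.cos ((k : ℝ) * (2 * Real.pi / M.M i j)) - 1) *
            Real.sin (2 * Real.pi / M.M i j) = 0 := by
          rw [sub_mul, ← e2]
          ring
        have := (mul_eq_zero.1 this).resolve_right hsin.ne'
        linarith
      obtain ⟨n, hn⟩ := (Real.cos_eq_one_iff _).1 e3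
      have e4 : (n : ℝ) * M.M i j = k := by
        field_simp at hn
        have hpi := Real.pi_pos
        nlinarith
      have e5 : n * (M.M i j : ℤ) = k := by exact_mod_cast e4
      have hn0 : 0 < n := by
        by_contra hn0
        have : n * (M.M i j : ℤ) ≤ 0 := mul_nonpos_of_nonpos_of_nonneg (by omega) (by omega)
        omega
      have : (M.M i j : ℤ) ≤ n * (M.M i j : ℤ) := by nlinarith
      omega

end AHX
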