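import Pool.Agent.AHX.CoxDefs

set_option autoImplicit false

/-!
# AHX module COX2: the strong exchange property

Mathlib has the inversion sequences `cs.leftInvSeq`, `cs.rightInvSeq` but not this property.

For a word `ω` and a reflection `t` let `n ω t` be the number of `k` with `(lis ω)[k] = t`, modulo 2.

(1) `n ω t` depends only on `π ω`.  Let `X` be the set of reflections.  For `i : B` let `η i` be the
permutation `(t, ε) ↦ (s i * t * s i, ε + [t = s i])` of `X × ZMod 2`.  For a word
`ω = i :: ω'` (or for the inverse order, whichever is convenient): the product of the `η` of the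
letters maps `(t, ε)` to `(π ω⁻¹ t π ω, ε + n ω t)` (if the first letter acts first): because
`lis (i :: ω') = s i :: (conj by s i of lis ω')`.  The family `η` satisfies the Coxeter relations:
`(η i η j) ^ M i j = 1`: the word `(i j) ^ M` has product `1`, and its left inversion sequence
(`getElem_leftInvSeq_alternatingWord`: the `k`-th entry is `π (alternatingWord j i (2 k + 1))`, which
only depends on `k` modulo `M`, by `simple_mul_simple_pow`) contains every reflection an even number
of times.  So `cs.lift` gives a homomorphism to the permutations (to the opposite group or with the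
words reversed), and `n ω t` is determined by `π ω`.

(2) Let `N w t` be this number.  If `N w t = 1` then `t` occurs in `lis ω` for every word `ω` of `w`,
so (take `ω` reduced) `ℓ (t w) < ℓ w` (`isLeftInversion_of_mem_leftInvSeq`).  If `N w t = 0`, then
`N (t w) t = N w t + 1 = 1` (by (1): `η` of `t` maps `(t, ε)` to `(t, ε + 1)`: for
`t = u s u⁻¹` conjugate `η s`), so `ℓ (t t w) < ℓ (t w)`.  Hence `N w t = 1` iff `ℓ (t w) < ℓ w`.

* `strong_exchange`: `N (π ω) t = 1`, so `t` occurs in `lis ω`.
* `exchange`: `strong_exchange` for `t = s i`, and `getD_leftInvSeq_mul_wordProd`.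
* `reduced_of_nodup`: if `lis ω` has no repetitions, all its members `t` have `n ω t = 1`; for a
  reduced word `ω'` of the same element, all of them occur in `lis ω'`, so `ω.length ≤ ω'.length`.
* `deletion`: if `ω` is not reduced, two entries `j < k` of `lis ω` are equal, and
  `π ω = π ((ω.eraseIdx k).eraseIdx j)`.
The statements on the right follow by reversing words (`leftInvSeq_reverse`, `wordProd_reverse`,
`length_inv`).
-/

namespace AHX

variable {B : Type} {W : Type} [Group W] {M : CoxeterMatrix B} (cs : CoxeterSystem M W)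

open Classical in
/-- the number of occurrences of `t` in the left inversion sequence, modulo two -/
noncomputable def cox2n (ω : List B) (t : W) : ZMod 2 := ((cs.leftInvSeq ω).count t : ZMod 2)

open Classical in
theorem cox2n_cons (i : B) (ω : List B) (t : W) :
    cox2n cs (i :: ω) t = (if t = cs.simple i then 1 else 0) +
      cox2n cs ω (cs.simple i * t * cs.simple i) := by
  have h1 : t = MulAut.conj (cs.simple i) (cs.simple i * t * cs.simple i) := by
    simp [MulAut.conj_apply, mul_assoc]
  have h2 : (List.map (MulAut.conj (cs.simple i)) (cs.leftInvSeq ω)).count t =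
      (cs.leftInvSeq ω).count (cs.simple i * t * cs.simple i) := by
    conv_lhs => rw [h1]
    exact List.count_map_of_injective _ _ (MulAut.conj (cs.simple i)).injective _
  unfold cox2n
  rw [CoxeterSystem.leftInvSeq, List.count_cons, h2]
  push_cast
  rw [add_comm]
  congr 1
  by_cases h : t = cs.simple i
  · simp [h]
  · rw [if_neg h, if_neg]
    simpa using fun h' : cs.simple i = t => h h'.symm

open Classical in
/-- the permutation attached to a generator -/
noncomputable def cox2f (i : B) (x : W × ZMod 2) : W × ZMod 2 :=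
  (cs.simple i * x.1 * cs.simple i, x.2 + if x.1 = cs.simple i then 1 else 0)

theorem cox2f_invol (i : B) (x : W × ZMod 2) : cox2f cs i (cox2f cs i x) = x := by
  classical
  obtain ⟨t, ε⟩ := x
  unfold cox2f
  have h1 : cs.simple i * (cs.simple i * t * cs.simple i) * cs.simple i = t := by
    simp [mul_assoc]
  have h2 : (cs.simple i * t * cs.simple i = cs.simple i) ↔ t = cs.simple i := by
    constructor
    · intro h
      rw [h] at h1
      rw [← h1]
      simp
    · intro h
      rw [h]
      simp
  simp only [h1, h2]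
  congr 1
  split_ifs
  · rw [add_assoc, show (1 : ZMod 2) + 1 = 0 by decide, add_zero]
  · rw [add_zero, add_zero]

/-- the permutation attached to a generator -/
noncomputable def cox2e (i : B) : Equiv.Perm (W × ZMod 2) where
  toFun := cox2f cs i
  invFun := cox2f cs i
  left_inv := cox2f_invol cs i
  right_inv := cox2f_invol cs i

theorem cox2e_inv (i : B) : (cox2e cs i)⁻¹ = cox2e cs i := rfl

theorem cox2_word (ω : List B) (t : W) (ε : ZMod 2) :
    ((ω.map (cox2e cs)).prod)⁻¹ (t, ε) =
      ((cs.wordProd ω)⁻¹ * t * cs.wordProd ω, ε + cox2n cs ω t) := by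
  classical
  induction ω generalizing t ε with
  | nil => simp [cox2n]
  | cons i ω ih =>
    rw [List.map_cons, List.prod_cons, mul_inv_rev, Equiv.Perm.mul_apply, cox2e_inv]
    have h1 : cox2e cs i (t, ε) = (cs.simple i * t * cs.simple i,
      ε + if t = cs.simple i then 1 else 0) := rfl
    rw [h1, ih, cox2n_cons, cs.wordProd_cons, mul_inv_rev, cs.inv_simple]
    simp only [mul_assoc, add_assoc]

/-- the word `i j i j ...` with `2 p` letters -/
def cox2w (i j : B) : ℕ → List B
  | 0 => []
  | p + 1 => i :: j :: cox2w i j p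

theorem cox2w_map {H : Type} [Monoid H] (f : B → H) (i j : B) (p : ℕ) :
    ((cox2w i j p).map f).prod = (f i * f j) ^ p := by
  induction p with
  | zero => simp [cox2w]
  | succ p ih => rw [cox2w, List.map_cons, List.map_cons, List.prod_cons, List.prod_cons, ih,
      pow_succ', mul_assoc]

open Classical in
theorem cox2_sum (i j : B) (p : ℕ) (t : W) :
    cox2n cs (cox2w i j p) t = ∑ m ∈ Finset.range (2 * p),
      if t = (cs.simple i * cs.simple j) ^ m * cs.simple i then (1 : ZMod 2) else 0 := by
  classical
  induction p generalizing t with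
  | zero => simp [cox2w, cox2n]
  | succ p ih =>
    rw [cox2w, cox2n_cons, cox2n_cons, ih, show 2 * (p + 1) = (2 * p + 1) + 1 by ring,
      Finset.sum_range_succ', Finset.sum_range_succ']
    set a := cs.simple i with ha
    set b := cs.simple j with hb
    have haa : a * a = 1 := cs.simple_mul_simple_self i
    have hbb : b * b = 1 := cs.simple_mul_simple_self j
    have haa' : ∀ x : W, a * (a * x) = x := fun x => by rw [← mul_assoc, haa, one_mul]
    have hbb' : ∀ x : W, b * (b * x) = x := fun x => by rw [← mul_assoc, hbb, one_mul]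
    have e1 : (a * t * a = b) ↔ (t = (a * b) ^ (0 + 1) * a) := by
      rw [zero_add, pow_one]
      constructor
      · intro h
        rw [← h]
        simp only [mul_assoc, haa, haa', mul_one]
      · intro h
        rw [h]
        simp only [mul_assoc, haa, haa', mul_one]
    have e0 : (t = a) ↔ (t = (a * b) ^ 0 * a) := by rw [pow_zero, one_mul]
    have e2 : ∀ m : ℕ, (b * (a * t * a) * b = (a * b) ^ m * a) ↔
        (t = (a * b) ^ (m + 1 + 1) * a) := by
      intro m
      have k1 : (a * b) ^ (m + 1 + 1) * a = (a * b) * ((a * b) ^ m * a) * (b * a) := by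
        rw [pow_succ (a * b) (m + 1), pow_succ' (a * b) m]
        simp only [mul_assoc]
      constructor
      · intro h
        rw [k1, ← h]
        simp only [mul_assoc, haa, haa', hbb, hbb', mul_one]
      · intro h
        rw [h, k1]
        simp only [mul_assoc, haa, haa', hbb, hbb', mul_one]
    simp only [e1, e2]
    have e3 : (if t = a then (1 : ZMod 2) else 0) = if t = (a * b) ^ 0 * a then 1 else 0 :=
      if_congr e0 rfl rfl
    rw [e3]
    ring

theorem cox2_even (i j : B) (t : W) : cox2n cs (cox2w i j (M.M i j)) t = 0 := by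
  classical
  rw [cox2_sum, two_mul, Finset.sum_range_add]
  have h1 : ∀ m : ℕ, (cs.simple i * cs.simple j) ^ (M.M i j + m) =
      (cs.simple i * cs.simple j) ^ m := by
    intro m
    rw [pow_add, show (cs.simple i * cs.simple j) ^ M.M i j = 1 from
      cs.simple_mul_simple_pow i j, one_mul]
  simp only [h1]
  generalize (∑ m ∈ Finset.range (M.M i j),
      if t = (cs.simple i * cs.simple j) ^ m * cs.simple i then (1 : ZMod 2) else 0) = x
  revert x
  decide

theorem cox2_liftable : M.IsLiftable (cox2e cs) := by
  intro i j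
  have h0 : cs.wordProd (cox2w i j (M.M i j)) = 1 := by
    have h1 : cs.wordProd (cox2w i j (M.M i j)) =
        ((cox2w i j (M.M i j)).map cs.simple).prod := rfl
    rw [h1, cox2w_map]
    exact cs.simple_mul_simple_pow i j
  have h2 : ((cox2e cs i * cox2e cs j) ^ M.M i j)⁻¹ = 1 := by
    rw [← cox2w_map (cox2e cs)]
    ext1 x
    obtain ⟨t, ε⟩ := x
    rw [cox2_word, h0, cox2_even]
    simp
  exact inv_eq_one.1 h2

/-- the homomorphism to the permutations -/
noncomputable def cox2phi : W →* Equiv.Perm (W × ZMod 2) := cs.lift ⟨cox2e cs, cox2_liftable cs⟩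

theorem cox2phi_word (ω : List B) : cox2phi cs (cs.wordProd ω) = (ω.map (cox2e cs)).prod := by
  have h1 : ∀ i, cox2phi cs (cs.simple i) = cox2e cs i := fun i =>
    cs.lift_apply_simple (cox2_liftable cs) i
  induction ω with
  | nil => simp
  | cons i ω ih => rw [cs.wordProd_cons, map_mul, h1, ih, List.map_cons, List.prod_cons]

/-- the parity, as a function of the group element -/
noncomputable def cox2N (w t : W) : ZMod 2 := ((cox2phi cs w)⁻¹ (t, 0)).2

theorem cox2N_word (ω : List B) (t : W) : cox2N cs (cs.wordProd ω) t = cox2n cs ω t := by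
  unfold cox2N
  rw [cox2phi_word, cox2_word, zero_add]

theorem cox2phi_apply (w t : W) (ε : ZMod 2) :
    (cox2phi cs w)⁻¹ (t, ε) = (w⁻¹ * t * w, ε + cox2N cs w t) := by
  obtain ⟨ω, rfl⟩ := cs.wordProd_surjective w
  rw [cox2N_word, cox2phi_word, cox2_word]

theorem cox2N_mul (u v t : W) :
    cox2N cs (u * v) t = cox2N cs u t + cox2N cs v (u⁻¹ * t * u) := by
  have h1 : ((cox2phi cs (u * v))⁻¹ (t, 0)).2 =
      ((cox2phi cs v)⁻¹ ((cox2phi cs u)⁻¹ (t, 0))).2 := by
    rw [map_mul, mul_inv_rev, Equiv.Perm.mul_apply]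
  rw [cox2phi_apply cs u, cox2phi_apply cs v, cox2phi_apply cs (u * v)] at h1
  simpa using h1

theorem cox2N_one (t : W) : cox2N cs 1 t = 0 := by
  have := cox2N_word cs [] t
  rw [cs.wordProd_nil] at this
  rw [this]
  simp [cox2n]

theorem cox2N_simple (i : B) : cox2N cs (cs.simple i) (cs.simple i) = 1 := by
  have := cox2N_word cs [i] (cs.simple i)
  rw [cs.wordProd_singleton] at this
  rw [this]
  simp [cox2n]

theorem cox2N_self {t : W} (ht : cs.IsReflection t) : cox2N cs t t = 1 := by
  obtain ⟨u, i, rfl⟩ := ht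
  set a := cs.simple i with ha
  have haa : a * a = 1 := cs.simple_mul_simple_self i
  have hs1 : cox2N cs a a = 1 := cox2N_simple cs i
  have h1 := cox2N_mul cs u u⁻¹ (u * a * u⁻¹)
  have e1 : u⁻¹ * (u * a * u⁻¹) * u = a := by group
  rw [mul_inv_cancel, cox2N_one, e1] at h1
  have h3 := cox2N_mul cs u a (u * a * u⁻¹)
  rw [e1, hs1] at h3
  have h2 := cox2N_mul cs (u * a) u⁻¹ (u * a * u⁻¹)
  have e2 : (u * a)⁻¹ * (u * a * u⁻¹) * (u * a) = a := by group
  rw [e2, h3, add_right_comm, ← h1, zero_add] at h2
  exact h2

theorem cox2N_mem {ω : List B} {t : W} (h : cox2N cs (cs.wordProd ω) t = 1) :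
    t ∈ cs.leftInvSeq ω := by
  classical
  rw [cox2N_word] at h
  by_contra hcon
  unfold cox2n at h
  rw [List.count_eq_zero_of_not_mem (by convert hcon)] at h
  simp at h

theorem cox2N_lt {w t : W} (h : cox2N cs w t = 1) : cs.length (t * w) < cs.length w := by
  obtain ⟨ω, hω, rfl⟩ := cs.exists_isReduced w
  exact (cs.isLeftInversion_of_mem_leftInvSeq hω (cox2N_mem cs h)).2

theorem cox2N_of_lt {w t : W} (ht : cs.IsReflection t)
    (h : cs.length (t * w) < cs.length w) : cox2N cs w t = 1 := by
  have h2 : ∀ x : ZMod 2, x = 0 ∨ x = 1 := by decide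
  rcases h2 (cox2N cs w t) with h0 | h0
  · exfalso
    have h3 := cox2N_mul cs t w t
    have e1 : t⁻¹ * t * t = t := by group
    rw [e1, h0, cox2N_self cs ht, add_zero] at h3
    have h4 := cox2N_lt cs h3
    rw [← mul_assoc, ht.mul_self, one_mul] at h4
    omega
  · exact h0

theorem strong_exchange (ω : List B) (t : W) (ht : cs.IsReflection t)
    (h : cs.length (t * cs.wordProd ω) < cs.length (cs.wordProd ω)) :
    t ∈ cs.leftInvSeq ω :=
  cox2N_mem cs (cox2N_of_lt cs ht h)

theorem cox2_erase {ω : List B} {t : W} (h : t ∈ cs.leftInvSeq ω) :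
    ∃ k, k < ω.length ∧ t * cs.wordProd ω = cs.wordProd (ω.eraseIdx k) := by
  obtain ⟨k, hk, rfl⟩ := List.mem_iff_getElem.1 h
  rw [← List.getD_eq_getElem _ 1 hk, cs.getD_leftInvSeq_mul_wordProd]
  rw [cs.length_leftInvSeq] at hk
  exact ⟨k, hk, rfl⟩

theorem exchange (ω : List B) (i : B)
    (h : cs.length (cs.simple i * cs.wordProd ω) < cs.length (cs.wordProd ω)) :
    ∃ k, k < ω.length ∧ cs.simple i * cs.wordProd ω = cs.wordProd (ω.eraseIdx k) :=
  cox2_erase cs (strong_exchange cs ω _ (cs.isReflection_simple i) h)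

theorem exchange_right (ω : List B) (i : B)
    (h : cs.length (cs.wordProd ω * cs.simple i) < cs.length (cs.wordProd ω)) :
    ∃ k, k < ω.length ∧ cs.wordProd ω * cs.simple i = cs.wordProd (ω.eraseIdx k) := by
  have e1 : cs.wordProd ω * cs.simple i =
      (cs.wordProd ω * cs.simple i * (cs.wordProd ω)⁻¹) * cs.wordProd ω := by group
  rw [e1] at h ⊢
  exact cox2_erase cs (strong_exchange cs ω _ ⟨cs.wordProd ω, i, rfl⟩ h)

theorem reduced_of_nodup (ω : List B) (h : (cs.leftInvSeq ω).Nodup) : cs.IsReduced ω := by
  classical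
  obtain ⟨ω', hω', he⟩ := cs.exists_isReduced (cs.wordProd ω)
  have hsub : cs.leftInvSeq ω ⊆ cs.leftInvSeq ω' := by
    intro t ht
    apply cox2N_mem cs
    rw [← he, cox2N_word]
    unfold cox2n
    have h1 := List.count_eq_one_of_mem h ht
    convert congrArg (Nat.cast : ℕ → ZMod 2) h1
    simp
  have h2 := (h.subperm hsub).length_le
  rw [cs.length_leftInvSeq, cs.length_leftInvSeq] at h2
  have h3 := cs.length_wordProd_le ω
  have h4 : cs.length (cs.wordProd ω') = ω'.length := hω'
  rw [← he] at h4
  show cs.length (cs.wordProd ω) = ω.length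
  omega

theorem reduced_of_nodup_right (ω : List B) (h : (cs.rightInvSeq ω).Nodup) :
    cs.IsReduced ω := by
  rw [← cs.isReduced_reverse_iff]
  apply reduced_of_nodup
  rw [cs.leftInvSeq_reverse, List.nodup_reverse]
  exact h

theorem deletion (ω : List B) (h : ¬ cs.IsReduced ω) :
    ∃ ω' : List B, ω'.Sublist ω ∧ ω'.length + 2 = ω.length ∧
      cs.wordProd ω' = cs.wordProd ω := by
  have h1 : ¬ (cs.leftInvSeq ω).Nodup := fun h' => h (reduced_of_nodup cs ω h')
  rw [List.nodup_iff_getElem?_ne_getElem?] at h1
  push Not at h1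
  obtain ⟨j, k, hjk, hk, he⟩ := h1
  have hk' : k < ω.length := by rwa [cs.length_leftInvSeq] at hk
  refine ⟨(ω.eraseIdx k).eraseIdx j, (List.eraseIdx_sublist _ _).trans (List.eraseIdx_sublist _ _),
    ?_, ?_⟩
  · rw [List.length_eraseIdx_of_lt, List.length_eraseIdx_of_lt hk']
    · omega
    · rw [List.length_eraseIdx_of_lt hk']; omega
  · have e1 : (cs.leftInvSeq ω).getD j 1 = (cs.leftInvSeq ω).getD k 1 := by
      rw [List.getD_eq_getElem?_getD, List.getD_eq_getElem?_getD, he]
    have e2 : (cs.leftInvSeq (ω.eraseIdx k)).getD j 1 = (cs.leftInvSeq ω).getD j 1 := by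
      rw [cs.getD_leftInvSeq, cs.getD_leftInvSeq, List.take_eraseIdx_eq_take_of_le _ _ _ hjk.le,
        List.getElem?_eraseIdx_of_lt hjk]
    have e3 := cs.getD_leftInvSeq_mul_wordProd (ω.eraseIdx k) j
    rw [← e3, ← cs.getD_leftInvSeq_mul_wordProd ω k, e2, e1, ← mul_assoc,
      cs.getD_leftInvSeq_mul_self, one_mul]

theorem exists_reduced_sublist (ω : List B) :
    ∃ ω' : List B, ω'.Sublist ω ∧ cs.IsReduced ω' ∧ cs.wordProd ω' = cs.wordProd ω := by
  induction hn : ω.length using Nat.strong_induction_on generalizing ω with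
  | _ n ih =>
    by_cases h : cs.IsReduced ω
    · exact ⟨ω, List.Sublist.refl _, h, rfl⟩
    · obtain ⟨ω', h1, h2, h3⟩ := deletion cs ω h
      obtain ⟨ω'', k1, k2, k3⟩ := ih ω'.length (by omega) ω' rfl
      exact ⟨ω'', k1.trans h1, k2, k3.trans h3⟩

end AHX
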