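import Pool.Agent.AHX.Cox1
import Pool.Agent.AHX.Cox2

set_option autoImplicit false
set_option linter.unusedVariables false

/-!
# AHX module COX3: alternating words

* `altl_reverse` etc.: elementary.
* `altl_nodup`: the entries of `lis (altl i j p)` are `(s i s j) ^ k s i`, `k < p`; two of them are equal
  iff `(s i s j) ^ (k - k') = 1`; by `order_st` this is impossible for `0 < k - k' < M i j` (or
  `M i j = 0`).
* `altl_reduced`: `reduced_of_nodup`.
* `simple_inj`: if `s i = s j` then `s i s j = 1` has order `1`, so `M i j = 1`, and `i = j`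
  (`M.off_diagonal`).
* `sts_length`: `[r, x, r] = altl r x 3`, `M r x ≥ 3` or `= 0`.
* `altl_le`: a reduced alternating word has length at most `M i j` if `M i j ≠ 0`:
  `not_isReduced_alternatingWord`, or `π (altl i j (M + 1)) = π (altl j i (M - 1))`-like shortening.
* `altp_map`: `altp` is the product of the mapped word.
-/

namespace AHX

variable {B : Type} {W : Type} [Group W] {M : CoxeterMatrix B} (cs : CoxeterSystem M W)

theorem altl_length (i j : B) (n : ℕ) : (altl i j n).length = n := by
  induction n generalizing i j with
  | zero => rfl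
  | succ n ih => rw [altl, List.length_cons, ih]

theorem altl_mem {i j k : B} {n : ℕ} (h : k ∈ altl i j n) : k = i ∨ k = j := by
  induction n generalizing i j with
  | zero => simp [altl] at h
  | succ n ih =>
    rw [altl, List.mem_cons] at h
    rcases h with h | h
    · exact Or.inl h
    · exact (ih h).symm

theorem altp_map {H : Type} [Monoid H] (f : B → H) (i j : B) (n : ℕ) :
    ((altl i j n).map f).prod = altp (f i) (f j) n := by
  induction n generalizing i j with
  | zero => rfl
  | succ n ih => rw [altl, altp, List.map_cons, List.prod_cons, ih]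

theorem altp_hom {H K : Type} [Monoid H] [Monoid K] (φ : H →* K) (a b : H) (n : ℕ) :
    φ (altp a b n) = altp (φ a) (φ b) n := by
  induction n generalizing a b with
  | zero => exact map_one φ
  | succ n ih => rw [altp, altp, map_mul, ih]

private theorem cox3_conj (i j : B) (k : ℕ) :
    cs.simple i * (cs.simple j * cs.simple i) ^ k * cs.simple j =
        (cs.simple i * cs.simple j) ^ (k + 1) := by
  induction k with
  | zero => simp
  | succ k ih =>
    rw [pow_succ _ (k + 1), ← ih, pow_succ]
    group

private theorem cox3_quot (i j : B) (n : ℕ) :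
    cs.wordProd (altl i j n) * (cs.wordProd (altl j i n))⁻¹ =
      (cs.simple i * cs.simple j) ^ n := by
  induction n generalizing i j with
  | zero => simp [altl]
  | succ n ih =>
    rw [altl, altl, cs.wordProd_cons, cs.wordProd_cons, mul_inv_rev, cs.inv_simple]
    have h1 : cs.simple i * cs.wordProd (altl j i n) *
        ((cs.wordProd (altl i j n))⁻¹ * cs.simple j) =
        cs.simple i * (cs.simple j * cs.simple i) ^ n * cs.simple j := by
      rw [← ih j i]
      group
    rw [h1]
    exact cox3_conj cs i j n

/-- the braid relation in the Coxeter group -/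
theorem altl_braid (i j : B) :
    cs.wordProd (altl i j (M.M i j)) = cs.wordProd (altl j i (M.M i j)) := by
  have h1 := cox3_quot cs i j (M.M i j)
  rw [cs.simple_mul_simple_pow i j] at h1
  exact mul_inv_eq_one.1 h1

private theorem cox3_lis (i j : B) (n : ℕ) :
    cs.leftInvSeq (altl i j n) =
      (List.range n).map fun k => (cs.simple i * cs.simple j) ^ k * cs.simple i := by
  induction n generalizing i j with
  | zero => rfl
  | succ n ih =>
    rw [altl, CoxeterSystem.leftInvSeq, ih, List.range_succ_eq_map, List.map_cons, List.map_map,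
      List.map_map]
    congr 1
    · simp
    · apply List.map_congr_left
      intro k _
      show cs.simple i * ((cs.simple j * cs.simple i) ^ k * cs.simple j) * (cs.simple i)⁻¹ =
        (cs.simple i * cs.simple j) ^ (k + 1) * cs.simple i
      rw [cs.inv_simple]
      congr 1
      rw [← mul_assoc]
      exact cox3_conj cs i j k

theorem altl_reduced {i j : B} (hij : i ≠ j) {p : ℕ} (h : M.M i j = 0 ∨ p ≤ M.M i j) :
    cs.IsReduced (altl i j p) := by
  apply reduced_of_nodup
  rw [cox3_lis]
  refine List.Nodup.map_on ?_ List.nodup_range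
  intro k hk k' hk' he
  rw [List.mem_range] at hk hk'
  have h1 : (cs.simple i * cs.simple j) ^ k = (cs.simple i * cs.simple j) ^ k' :=
    mul_right_cancel he
  have h2 := order_st cs i j
  rcases h with h | h
  · rw [h, orderOf_eq_zero_iff] at h2
    exact (injective_pow_iff_not_isOfFinOrder.2 h2) h1
  · refine pow_injOn_Iio_orderOf ?_ ?_ h1
    · rw [Set.mem_Iio, h2]
      omega
    · rw [Set.mem_Iio, h2]
      omega

private theorem cox3_take (i j : B) (n m : ℕ) (h : m ≤ n) : (altl i j n).take m = altl i j m := by
  induction m generalizing i j n with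
  | zero => rfl
  | succ m ih =>
    cases n with
    | zero => omega
    | succ n =>
      rw [altl, altl, List.take_succ_cons, ih j i n (by omega)]

theorem altl_le {i j : B} {p : ℕ} (h : cs.IsReduced (altl i j p)) (h0 : M.M i j ≠ 0) :
    p ≤ M.M i j := by
  by_contra hcon
  obtain ⟨q, hq⟩ : ∃ q, M.M i j = q + 1 := ⟨M.M i j - 1, by omega⟩
  have h1 := h.take (q + 2)
  rw [cox3_take i j p (q + 2) (by omega)] at h1
  have h2 := altl_braid cs i j
  rw [hq] at h2
  have h3 : cs.wordProd (altl i j (q + 2)) = cs.wordProd (altl j i q) := by
    have e1 : altl i j (q + 2) = i :: altl j i (q + 1) := rfl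
    have e2 : altl i j (q + 1) = i :: altl j i q := rfl
    rw [e1, cs.wordProd_cons, ← h2, e2, cs.wordProd_cons, cs.simple_mul_simple_cancel_left]
  unfold CoxeterSystem.IsReduced at h1
  have h4 := cs.length_wordProd_le (altl j i q)
  rw [h3, altl_length] at h1
  rw [altl_length] at h4
  omega

/-- if the two alternating words of length `p ≥ 1` are reduced and have the same product, then
`p = M i j` -/
theorem altl_eq {i j : B} (hij : i ≠ j) {p : ℕ} (hp : 1 ≤ p) (h : cs.IsReduced (altl i j p))
    (he : cs.wordProd (altl i j p) = cs.wordProd (altl j i p)) : p = M.M i j := by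
  have h1 := cox3_quot cs i j p
  rw [he, mul_inv_cancel] at h1
  have h2 := orderOf_dvd_of_pow_eq_one h1.symm
  rw [order_st] at h2
  have h0 : M.M i j ≠ 0 := by
    intro h0
    rw [h0, zero_dvd_iff] at h2
    omega
  exact le_antisymm (altl_le cs h h0) (Nat.le_of_dvd hp h2)

theorem simple_inj {i j : B} (h : cs.simple i = cs.simple j) : i = j := by
  by_contra hne
  have h1 := order_st cs i j
  rw [h, cs.simple_mul_simple_self, orderOf_one] at h1
  exact M.off_diagonal i j hne h1.symm

theorem simple_comm {i j : B} (h : M.M i j = 2) :
    cs.simple i * cs.simple j = cs.simple j * cs.simple i := by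
  have h1 := altl_braid cs i j
  rw [h] at h1
  simpa [altl, cs.wordProd_cons] using h1

theorem sts_reduced {r x : B} (hrx : r ≠ x) (h : M.M r x ≠ 2) : cs.IsReduced [r, x, r] := by
  have h1 : M.M r x ≠ 1 := M.off_diagonal r x hrx
  exact altl_reduced cs hrx (p := 3) (by omega)

theorem two_reduced {r x : B} (hrx : r ≠ x) : cs.IsReduced [r, x] := by
  have h1 : M.M r x ≠ 1 := M.off_diagonal r x hrx
  exact altl_reduced cs hrx (p := 2) (by omega)

end AHX
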