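import Pool.Agent.AHX.Cox3

set_option autoImplicit false

/-!
# AHX module COX4: parabolic subgroups and minimal representatives

* `wp_word`: every element of `WP X` is the product of a word with letters in `X` (closure induction),
  and by `exists_reduced_sublist` of a reduced one.
* `wp_supp`: induction on `ω`.  `ω = i :: ω₁`: let `ω'` be a reduced word of `w` with letters in `X`
  (`wp_word`).  `ℓ (s i w) < ℓ w`, so by `strong_exchange` `s i ∈ lis ω'`, whose members are of the form
  `u s x u⁻¹` with `x ∈ X` and `u ∈ WP X`; so `s i ∈ WP X`; a reduced word of `s i` with letters in `X`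
  has length `1` (`length_simple`), so `s i = s x` with `x ∈ X`, `i = x` (`simple_inj`).  Then
  `s i w = π ω₁ ∈ WP X` and `ω₁` is reduced.
* `simple_mem`: `wp_supp` for `[i]`.
* `rmin_mul`: let `u₀` be an element of minimal length in `u W_X`.  Claim:
  `ℓ (u₀ v) = ℓ u₀ + ℓ v` for all `v ∈ WP X`.  Let `α` be a reduced word of `u₀` and `β` a reduced word of
  `v` with letters in `X`.  If `α ++ β` is not reduced there is a prefix `β₁ ++ [x]` of `β` such that
  `α ++ β₁` is reduced and `α ++ β₁ ++ [x]` is not.  `exchange_right` for `α ++ β₁` and `x`: if a letter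
  of `β₁` is erased, then `π β₁ s x = π (β₁ erased)`, so `β₁ ++ [x]` is not reduced, contradiction (`β` is
  reduced).  If a letter of `α` is erased, `u₀ π β₁ s x = u₀' π β₁` with `ℓ u₀' < ℓ u₀` and
  `u₀' = u₀ (π β₁ s x (π β₁)⁻¹) ∈ u₀ W_X`, contradiction to the minimality.  Now `u = u₀ v₀`; if `v₀ ≠ 1`
  let `x ∈ X` be the last letter of a reduced word of `v₀`:
  `ℓ (u s x) = ℓ u₀ + ℓ (v₀ s x) < ℓ u₀ + ℓ v₀ = ℓ u`, contradiction to `RMin`.  So `u = u₀`.
* `exists_rmin`: element of minimal length in `w W_X`.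
* `rmin_unique`: `u' = u z` with `z = v v'⁻¹ ∈ WP X`, `ℓ u' = ℓ u + ℓ z`, and `u = u' z⁻¹`,
  `ℓ u = ℓ u' + ℓ z`; so `ℓ z = 0`.
* `deodhar`: suppose `s r u` is not in `RMin`: there is `x ∈ X` with `ℓ (s r u s x) < ℓ (s r u)`
  (lengths of `w` and `w s` are different).  `ℓ (u s x) = ℓ u + 1`.  If `ℓ (s r u) < ℓ u` then
  `ℓ (s r u s x) ≤ ℓ u - 2`, but `≥ ℓ (u s x) - 1 = ℓ u`, contradiction.  So `ℓ (s r u) = ℓ u + 1` and
  `ℓ (s r u s x) = ℓ u`.  With a reduced word `α` of `u`, `α ++ [x]` is a word of `u s x` and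
  `ℓ (s r (u s x)) = ℓ u < ℓ (u s x)`; `exchange`: if a letter of `α` is erased,
  `s r u s x = u' s x`, `s r u = u'` with `ℓ u' < ℓ u`, contradiction; so `x` is erased:
  `s r u s x = u`, i.e. `s r u = u s x`.
* `conj_perp`: if `M x r ≠ 2` then `[r, x, r]` is reduced (`sts_reduced`), and `wp_supp` gives `r ∈ X`.
-/

namespace AHX

variable {B : Type} {W : Type} [Group W] {M : CoxeterMatrix B} (cs : CoxeterSystem M W)
  {X Z : Set B}

theorem word_mem {ω : List B} (h : ∀ i ∈ ω, i ∈ X) : cs.wordProd ω ∈ WP cs X := by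
  induction ω with
  | nil =>
    rw [cs.wordProd_nil]
    exact (WP cs X).one_mem
  | cons i ω ih =>
    rw [cs.wordProd_cons]
    refine (WP cs X).mul_mem (Subgroup.subset_closure ⟨i, h i (by simp), rfl⟩) (ih ?_)
    exact fun j hj => h j (by simp [hj])

theorem wp_word {w : W} (h : w ∈ WP cs X) :
    ∃ ω : List B, (∀ i ∈ ω, i ∈ X) ∧ cs.IsReduced ω ∧ cs.wordProd ω = w := by
  have h1 : ∃ ω : List B, (∀ i ∈ ω, i ∈ X) ∧ cs.wordProd ω = w := by
    unfold WP at h
    induction h using Subgroup.closure_induction with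
    | mem w hw =>
      obtain ⟨x, hx, rfl⟩ := hw
      exact ⟨[x], by simpa using hx, by simp⟩
    | one => exact ⟨[], by simp, by simp⟩
    | mul a b _ _ ha hb =>
      obtain ⟨ω, h1, h2⟩ := ha
      obtain ⟨ω', h3, h4⟩ := hb
      refine ⟨ω ++ ω', fun i hi => ?_, by rw [cs.wordProd_append, h2, h4]⟩
      rcases List.mem_append.1 hi with hi | hi
      · exact h1 i hi
      · exact h3 i hi
    | inv a _ ha =>
      obtain ⟨ω, h1, h2⟩ := ha
      exact ⟨ω.reverse, fun i hi => h1 i (List.mem_reverse.1 hi), by rw [cs.wordProd_reverse, h2]⟩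
  obtain ⟨ω, h2, h3⟩ := h1
  obtain ⟨ω', h4, h5, h6⟩ := exists_reduced_sublist cs ω
  exact ⟨ω', fun i hi => h2 i (h4.subset hi), h5, h6.trans h3⟩

theorem simple_mem {i : B} : cs.simple i ∈ WP cs X ↔ i ∈ X := by
  constructor
  · intro h
    obtain ⟨ω, h1, h2, h3⟩ := wp_word cs h
    have h4 : ω.length = 1 := by
      rw [← h2.eq, h3, cs.length_simple]
    obtain ⟨x, rfl⟩ := List.length_eq_one_iff.1 h4
    rw [cs.wordProd_singleton] at h3
    rw [← simple_inj cs h3]
    exact h1 x (by simp)
  · exact fun h => Subgroup.subset_closure ⟨i, h, rfl⟩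

theorem wp_supp {ω : List B} (hr : cs.IsReduced ω) (h : cs.wordProd ω ∈ WP cs X) :
    ∀ i ∈ ω, i ∈ X := by
  induction ω with
  | nil => simp
  | cons i ω ih =>
    obtain ⟨ω', h1, h2, h3⟩ := wp_word cs h
    have h4 : cs.length (cs.simple i * cs.wordProd ω') < cs.length (cs.wordProd ω') := by
      rw [h3, hr.eq, cs.wordProd_cons, cs.simple_mul_simple_cancel_left]
      exact lt_of_le_of_lt (cs.length_wordProd_le ω) (by simp)
    obtain ⟨k, hk, h5⟩ := exchange cs ω' i h4
    have h6 : cs.simple i ∈ WP cs X := by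
      have h7 : cs.simple i = cs.wordProd (ω'.eraseIdx k) * (cs.wordProd ω')⁻¹ := by
        rw [← h5, mul_inv_cancel_right]
      rw [h7]
      exact (WP cs X).mul_mem (word_mem cs fun j hj => h1 j (List.mem_of_mem_eraseIdx hj))
        ((WP cs X).inv_mem (word_mem cs h1))
    have h7 : cs.wordProd ω ∈ WP cs X := by
      rw [cs.wordProd_cons] at h
      exact ((WP cs X).mul_mem_cancel_left h6).1 h
    have h8 : cs.IsReduced ω := by
      have := hr.drop 1
      simpa using this
    intro j hj
    rcases List.mem_cons.1 hj with rfl | hj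
    · exact (simple_mem cs).1 h6
    · exact ih h8 h7 j hj

theorem rmin_one : RMin cs X (1 : W) := by
  intro x _
  rw [one_mul, cs.length_one, cs.length_simple]
  exact one_pos

theorem rmin_simple {r : B} (hr : r ∉ X) : RMin cs X (cs.simple r) := by
  intro x hx
  have hrx : r ≠ x := fun h => hr (h ▸ hx)
  have h1 := (two_reduced cs hrx).eq
  rw [cs.wordProd_cons, cs.wordProd_singleton] at h1
  rw [h1, cs.length_simple]
  simp

/-- elements of minimal length in the coset -/
theorem cmin_mul {u₀ : W} (hm : ∀ v ∈ WP cs X, cs.length u₀ ≤ cs.length (u₀ * v)) :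
    ∀ β : List B, (∀ i ∈ β, i ∈ X) → cs.IsReduced β →
      cs.length (u₀ * cs.wordProd β) = cs.length u₀ + β.length := by
  intro β
  induction β using List.reverseRecOn with
  | nil => intro _ _; simp
  | append_singleton β x ih =>
    intro hX hr
    have hX' : ∀ i ∈ β, i ∈ X := fun i hi => hX i (by simp [hi])
    have hr' : cs.IsReduced β := by
      have := hr.take β.length
      simpa using this
    have h1 := ih hX' hr'
    obtain ⟨α, hα, hu⟩ := cs.exists_isReduced u₀
    rw [cs.wordProd_append, cs.wordProd_singleton, ← mul_assoc, List.length_append,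
      List.length_singleton, ← Nat.add_assoc, ← h1]
    rcases cs.length_mul_simple (u₀ * cs.wordProd β) x with h2 | h2
    · exact h2
    exfalso
    have h3 : cs.wordProd (α ++ β) = u₀ * cs.wordProd β := by
      rw [cs.wordProd_append, ← hu]
    obtain ⟨k, hk, h4⟩ := exchange_right cs (α ++ β) x (by rw [h3]; omega)
    rw [h3] at h4
    rcases Nat.lt_or_ge k α.length with h5 | h5
    · rw [List.eraseIdx_append_of_lt_length h5, cs.wordProd_append] at h4
      have h6 : cs.wordProd (α.eraseIdx k) =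
          u₀ * (cs.wordProd β * cs.simple x * (cs.wordProd β)⁻¹) := by
        rw [← mul_assoc, ← mul_assoc, h4, mul_inv_cancel_right]
      have h7 := hm _ ((WP cs X).mul_mem ((WP cs X).mul_mem (word_mem cs hX')
        ((simple_mem cs).2 (hX x (by simp)))) ((WP cs X).inv_mem (word_mem cs hX')))
      rw [← h6] at h7
      have h8 := cs.length_wordProd_le (α.eraseIdx k)
      have h9 : cs.length u₀ = α.length := by rw [hu, hα.eq]
      rw [List.length_eraseIdx_of_lt h5] at h8
      omega
    · rw [List.eraseIdx_append_of_length_le h5, cs.wordProd_append, ← hu, mul_assoc] at h4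
      have h6 := mul_left_cancel h4
      have h7 := hr.eq
      rw [cs.wordProd_append, cs.wordProd_singleton, h6] at h7
      have h8 := cs.length_wordProd_le (β.eraseIdx (k - α.length))
      rw [List.length_append] at hk
      rw [List.length_eraseIdx_of_lt (by omega)] at h8
      rw [List.length_append, List.length_singleton] at h7
      omega

theorem cmin_mul' {u₀ v : W} (hm : ∀ v ∈ WP cs X, cs.length u₀ ≤ cs.length (u₀ * v))
    (hv : v ∈ WP cs X) : cs.length (u₀ * v) = cs.length u₀ + cs.length v := by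
  obtain ⟨β, h1, h2, rfl⟩ := wp_word cs hv
  rw [cmin_mul cs hm β h1 h2, h2.eq]

theorem exists_cmin (X : Set B) (w : W) :
    ∃ u v : W, (∀ v ∈ WP cs X, cs.length u ≤ cs.length (u * v)) ∧ v ∈ WP cs X ∧ w = u * v := by
  classical
  have hex : ∃ k, ∃ v ∈ WP cs X, cs.length (w * v) = k := ⟨_, 1, (WP cs X).one_mem, rfl⟩
  obtain ⟨v, hv, hk⟩ := Nat.find_spec hex
  refine ⟨w * v, v⁻¹, fun v' hv' => ?_, (WP cs X).inv_mem hv, by rw [mul_inv_cancel_right]⟩
  rw [hk]
  exact Nat.find_min' hex ⟨v * v', (WP cs X).mul_mem hv hv', by rw [mul_assoc]⟩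

theorem rmin_cmin {u : W} (hu : RMin cs X u) :
    ∀ v ∈ WP cs X, cs.length u ≤ cs.length (u * v) := by
  obtain ⟨u₀, v₀, hm, hv₀, he⟩ := exists_cmin cs X u
  obtain ⟨β, h1, h2, h3⟩ := wp_word cs hv₀
  rcases List.eq_nil_or_concat β with hβ | ⟨β', x, hβ⟩
  · subst hβ
    rw [cs.wordProd_nil] at h3
    rw [← h3, mul_one] at he
    rw [he]
    exact hm
  · exfalso
    subst hβ
    have h1' : ∀ i ∈ β', i ∈ X := fun i hi => h1 i (by simp [hi])
    have h2' : cs.IsReduced β' := by
      have := h2.take β'.length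
      simpa using this
    have hx : x ∈ X := h1 x (by simp)
    have h4 := hu x hx
    have h5 : u * cs.simple x = u₀ * cs.wordProd β' := by
      rw [he, ← h3, List.concat_eq_append, cs.wordProd_append, cs.wordProd_singleton, mul_assoc,
        cs.simple_mul_simple_cancel_right]
    have h6 := cmin_mul cs hm β' h1' h2'
    have h7 := cmin_mul cs hm _ h1 h2
    rw [h5, h6, he, ← h3, h7] at h4
    simp at h4

theorem rmin_mul {u v : W} (hu : RMin cs X u) (hv : v ∈ WP cs X) :
    cs.length (u * v) = cs.length u + cs.length v :=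
  cmin_mul' cs (rmin_cmin cs hu) hv

theorem exists_rmin (X : Set B) (w : W) :
    ∃ u v : W, RMin cs X u ∧ v ∈ WP cs X ∧ w = u * v := by
  obtain ⟨u, v, hm, hv, he⟩ := exists_cmin cs X w
  refine ⟨u, v, fun x hx => ?_, hv, he⟩
  have h1 := hm (cs.simple x) ((simple_mem cs).2 hx)
  have h2 := cs.length_mul_simple_ne u x
  omega

theorem rmin_unique {u u' v v' : W} (hu : RMin cs X u) (hu' : RMin cs X u')
    (hv : v ∈ WP cs X) (hv' : v' ∈ WP cs X) (h : u * v = u' * v') : u = u' ∧ v = v' := by
  have hz : v * v'⁻¹ ∈ WP cs X := (WP cs X).mul_mem hv ((WP cs X).inv_mem hv')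
  have h1 : u' = u * (v * v'⁻¹) := by
    rw [← mul_assoc, h, mul_inv_cancel_right]
  have h2 : u = u' * (v * v'⁻¹)⁻¹ := by
    rw [h1, mul_inv_cancel_right]
  have h3 := rmin_mul cs hu hz
  have h4 := rmin_mul cs hu' ((WP cs X).inv_mem hz)
  rw [← h1] at h3
  rw [← h2, cs.length_inv] at h4
  have h5 : v * v'⁻¹ = 1 := cs.length_eq_zero_iff.1 (by omega)
  rw [h5, mul_one] at h1
  exact ⟨h1.symm, mul_inv_eq_one.1 h5⟩

theorem deodhar {u : W} (hu : RMin cs X u) (r : B) :
    RMin cs X (cs.simple r * u) ∨ ∃ x ∈ X, cs.simple r * u = u * cs.simple x := by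
  by_cases h : RMin cs X (cs.simple r * u)
  · exact Or.inl h
  refine Or.inr ?_
  unfold RMin at h
  push Not at h
  obtain ⟨x, hx, h1⟩ := h
  refine ⟨x, hx, ?_⟩
  have h2 := hu x hx
  have h3 := cs.length_mul_simple u x
  have h4 := cs.length_simple_mul u r
  have h5 := cs.length_simple_mul (u * cs.simple x) r
  have h6 := cs.length_mul_simple (cs.simple r * u) x
  rw [mul_assoc] at h6 h1
  obtain ⟨α, hα, hua⟩ := cs.exists_isReduced u
  have hw : cs.wordProd (α ++ [x]) = u * cs.simple x := by
    rw [cs.wordProd_append, cs.wordProd_singleton, ← hua]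
  have hl : cs.length u = α.length := by rw [hua, hα.eq]
  obtain ⟨k, hk, h7⟩ := exchange cs (α ++ [x]) r (by rw [hw]; omega)
  rw [hw] at h7
  rcases Nat.lt_or_ge k α.length with h8 | h8
  · exfalso
    rw [List.eraseIdx_append_of_lt_length h8, cs.wordProd_append, cs.wordProd_singleton,
      ← mul_assoc] at h7
    have h9 := mul_right_cancel h7
    have h10 := cs.length_wordProd_le (α.eraseIdx k)
    rw [List.length_eraseIdx_of_lt h8, ← h9] at h10
    omega
  · have hk' : k = α.length := by
      rw [List.length_append, List.length_singleton] at hk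
      omega
    rw [List.eraseIdx_append_of_length_le h8, hk', Nat.sub_self, List.eraseIdx_cons_zero,
      List.append_nil, ← hua] at h7
    have h9 : cs.simple r * u = cs.simple r * (u * cs.simple x) * cs.simple x := by
      rw [mul_assoc, cs.simple_mul_simple_cancel_right]
    rw [h9, h7]

/-- the two cases of `deodhar` exclude each other -/
theorem deodhar_excl {u : W} (hu : RMin cs X u) {r x : B} (hx : x ∈ X)
    (h : cs.simple r * u = u * cs.simple x) : ¬ RMin cs X (cs.simple r * u) := by
  intro h1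
  have h2 := h1 x hx
  have h3 := hu x hx
  rw [h, cs.simple_mul_simple_cancel_right] at h2
  omega

theorem conj_perp {r x : B} (hr : r ∉ X) (hx : x ∈ X)
    (h : cs.simple r * cs.simple x * cs.simple r ∈ WP cs X) : M.M x r = 2 := by
  by_contra hne
  have hrx : r ≠ x := fun h => hr (h ▸ hx)
  have h1 : M.M r x ≠ 2 := by
    intro h2
    exact hne ((M.symmetric x r).trans h2)
  have h2 := sts_reduced cs hrx h1
  refine hr (wp_supp cs h2 ?_ r (by simp))
  rw [cs.wordProd_cons, cs.wordProd_cons, cs.wordProd_singleton, ← mul_assoc]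
  exact h

end AHX
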