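import Pool.Agent.AHX.FamB
import Pool.Agent.Burn.Hyp

set_option autoImplicit false

/-!
# AHX module ELEC: the electric metric

`dX Y x y` is the smallest `k` with `Chn Y k x y` (chains of length `k` in which consecutive points
are in a common member of the family).

* `chn_fun`: chains as functions.
* `dX_spec`: chains exist: induction on `d x y` with `mid` and `cover` (`Nat.sInf_mem`).
* `geo`: `Burn.Geo` is: `refl`, `symm`, `tri`, and distances can be split.
* `chn_geod`: if the chain `p` has length `k = dX Y (p 0) (p k)` then it is geodesic.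
-/

namespace AHX

variable {V Γ Λ : Type} [Group Γ] [MulAction Γ V] [MulAction Γ Λ]
  {d m : V → V → ℕ} {Y : Λ → Set V} {N : Λ → Subgroup Γ} {L : ℕ}
  {x y z u v : V} {l l' : Λ} {g n : Γ} {k k' : ℕ}

theorem chn_append (h : Chn Y k x y) (h' : Chn Y k' y z) : Chn Y (k + k') x z := by
  induction h with
  | nil x => rw [Nat.zero_add]; exact h'
  | cons l h1 h2 _ ih =>
    rename_i k0 x0 y0 z0 _
    have h3 := Chn.cons l h1 h2 (ih h')
    rwa [show k0 + k' + 1 = k0 + 1 + k' by omega] at h3

theorem chn_symm (h : Chn Y k x y) : Chn Y k y x := by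
  induction h with
  | nil x => exact Chn.nil x
  | cons l h1 h2 _ ih => exact chn_append ih (Chn.cons l h2 h1 (Chn.nil _))

/-- chains as functions (if there are no members of the family, only the trivial chains exist) -/
theorem chn_fun [Nonempty Λ] : Chn Y k x y ↔ ∃ (p : ℕ → V) (μ : ℕ → Λ), p 0 = x ∧ p k = y ∧
    ∀ i, i < k → p i ∈ Y (μ i) ∧ p (i + 1) ∈ Y (μ i) := by
  constructor
  · intro h
    induction h with
    | nil x =>
      exact ⟨fun _ => x, fun _ => Classical.arbitrary Λ, rfl, rfl, fun i hi => by omega⟩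
    | cons l h1 h2 _ ih =>
      rename_i k0 x0 y0 z0 _
      obtain ⟨p, μ, hp0, hpk, hp⟩ := ih
      refine ⟨fun i => if i = 0 then x0 else p (i - 1), fun i => if i = 0 then l else μ (i - 1),
        by simp, by simpa using hpk, fun i hi => ?_⟩
      rcases Nat.eq_zero_or_pos i with h0 | h0
      · subst h0
        simp only [if_true, Nat.zero_add, one_ne_zero, if_false, Nat.sub_self]
        exact ⟨h1, by rw [hp0]; exact h2⟩
      · have h3 := hp (i - 1) (by omega)
        rw [show i - 1 + 1 = i by omega] at h3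
        have h4 : i ≠ 0 := by omega
        have h5 : i + 1 ≠ 0 := by omega
        simp only [if_neg h4, if_neg h5, Nat.add_sub_cancel]
        exact h3
  · rintro ⟨p, μ, hp0, hpk, hp⟩
    subst hp0 hpk
    induction k with
    | zero => exact Chn.nil _
    | succ k ih =>
      have h1 := ih (fun i hi => hp i (by omega))
      exact chn_append h1 (Chn.cons (μ k) (hp k (by omega)).1 (hp k (by omega)).2 (Chn.nil _))

theorem chn_smul (F : Fam d m Y N L) (g : Γ) (h : Chn Y k x y) : Chn Y k (g • x) (g • y) := by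
  induction h with
  | nil x => exact Chn.nil _
  | cons l h1 h2 _ ih => exact Chn.cons (g • l) (F.eqY g l _ h1) (F.eqY g l _ h2) ih

theorem dX_le (h : Chn Y k x y) : dX Y x y ≤ k := Nat.sInf_le h

theorem chn_ex (F : Fam d m Y N L) : ∀ (n : ℕ) (x y : V), d x y = n → ∃ k, Chn Y k x y := by
  intro n
  induction n with
  | zero =>
    intro x y h
    obtain ⟨l, h1, h2⟩ := F.cover x y (by omega)
    exact ⟨1, Chn.cons l h1 h2 (Chn.nil _)⟩
  | succ n ih =>
    intro x y h
    obtain ⟨w, h1, h2⟩ := F.tree.mid x y n (by omega)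
    unfold Btw at h2
    obtain ⟨k, hk⟩ := ih x w h1
    obtain ⟨l, h3, h4⟩ := F.cover w y (by omega)
    exact ⟨k + 1, chn_append hk (Chn.cons l h3 h4 (Chn.nil _))⟩

theorem dX_spec (F : Fam d m Y N L) (x y : V) : Chn Y (dX Y x y) x y := by
  obtain ⟨k, hk⟩ := chn_ex F (d x y) x y rfl
  exact Nat.sInf_mem (s := {k | Chn Y k x y}) ⟨k, hk⟩

theorem dX_one (hx : x ∈ Y l) (hy : y ∈ Y l) : dX Y x y ≤ 1 :=
  dX_le (Chn.cons l hx hy (Chn.nil _))

theorem dX_smul (F : Fam d m Y N L) (g : Γ) (x y : V) : dX Y (g • x) (g • y) = dX Y x y := by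
  refine le_antisymm (dX_le (chn_smul F g (dX_spec F x y))) ?_
  have h := chn_smul F g⁻¹ (dX_spec F (g • x) (g • y))
  rw [inv_smul_smul, inv_smul_smul] at h
  exact dX_le h

theorem chn_zero (h : Chn Y k x y) (hk : k = 0) : x = y := by
  cases h with
  | nil => rfl
  | cons => omega

theorem dX_eq0 (F : Fam d m Y N L) (h : dX Y x y = 0) : x = y :=
  chn_zero (dX_spec F x y) h

/-- chains can be cut -/
theorem chn_split {t : ℕ} : ∀ {s : ℕ} {x y : V}, Chn Y (s + t) x y →
    ∃ w, Chn Y s x w ∧ Chn Y t w y := by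
  intro s
  induction s with
  | zero =>
    intro x y h
    rw [Nat.zero_add] at h
    exact ⟨x, Chn.nil x, h⟩
  | succ s ih =>
    intro x y h
    rw [show s + 1 + t = s + t + 1 by omega] at h
    cases h with
    | cons l h1 h2 h3 =>
      obtain ⟨w, h4, h5⟩ := ih h3
      exact ⟨w, Chn.cons l h1 h2 h4, h5⟩

theorem geoX (F : Fam d m Y N L) : Burn.Geo (dX Y) where
  refl x := Nat.le_zero.1 (dX_le (Chn.nil x))
  symm x y := le_antisymm (dX_le (chn_symm (dX_spec F y x))) (dX_le (chn_symm (dX_spec F x y)))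
  tri x y z := dX_le (chn_append (dX_spec F x y) (dX_spec F y z))
  mid x y s t h := by
    have h1 := dX_spec F x y
    rw [h] at h1
    obtain ⟨w, h2, h3⟩ := chn_split h1
    refine ⟨w, ?_, ?_⟩
    · have h4 := dX_le h2
      have h5 := dX_le h3
      have h6 := dX_le (chn_append (dX_spec F x w) (dX_spec F w y))
      omega
    · have h4 := dX_le h2
      have h5 := dX_le h3
      have h6 := dX_le (chn_append (dX_spec F x w) (dX_spec F w y))
      omega

/-- geodesic chains as functions -/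
theorem geod_fun (F : Fam d m Y N L) (x y : V) : ∃ (p : ℕ → V) (μ : ℕ → Λ), p 0 = x ∧
    p (dX Y x y) = y ∧ (∀ i, i < dX Y x y → p i ∈ Y (μ i) ∧ p (i + 1) ∈ Y (μ i)) ∧
    ∀ i j, i ≤ j → j ≤ dX Y x y → dX Y (p i) (p j) = j - i := by
  obtain ⟨l, -, -⟩ := F.cover x x (by rw [F.tree.refl]; omega)
  have : Nonempty Λ := ⟨l⟩
  obtain ⟨p, μ, h0, h1, h2⟩ := chn_fun.1 (dX_spec F x y)
  refine ⟨p, μ, h0, h1, h2, ?_⟩
  have h3 : ∀ i, i < dX Y x y → dX Y (p i) (p (i + 1)) ≤ 1 :=
    fun i hi => dX_one (h2 i hi).1 (h2 i hi).2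
  have h4 : dX Y (p 0) (p (dX Y x y)) = dX Y x y := by rw [h0, h1]
  exact Burn.isPath_of_steps (geoX F) h3 h4.ge

end AHX
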