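import Pool.Agent.AHX.TreeB

set_option autoImplicit false

/-!
# AHX module FAMB: first consequences of the axioms of a family

* `m_tri`: let `q` be the median of `x, y, z` (`q` between `x` and `z`):
  `m x z ≤ m x q + m q z + 2 ≤ m x y + m y z + 2` (`madd`, `mmono`, `msymm`).
* `pr_smul`: `g • pr d (Y l) x` is the gate of `g • x` in `Y (g • l)` (`pr_eq`); for `y ∈ Y (g • l)`
  write `y = g • (g⁻¹ • y)` with `g⁻¹ • y ∈ Y l` (`eqY` for `g⁻¹`).
* `pr_cross`: if `Y l` and `Y l'` are disjoint, the projection is constant (`pr_const`), otherwise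
  both projections are in `Y l ∩ Y l'` (`pr_inter`), use `ov`.
-/

namespace AHX

variable {V Γ Λ : Type} [Group Γ] [MulAction Γ V] [MulAction Γ Λ]
  {d m : V → V → ℕ} {Y : Λ → Set V} {N : Λ → Subgroup Γ} {L : ℕ}
  {x y z u v : V} {l l' : Λ} {g n : Γ}

theorem Fam.m_self (F : Fam d m Y N L) (x : V) : m x x = 0 :=
  F.msmall x x (by rw [F.tree.refl]; omega)

theorem Fam.mmono' (F : Fam d m Y N L) (h : Btw d x z y) : m z y ≤ m x y := by
  have h1 := F.mmono y z x (Btw.symm F.tree h)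
  rwa [F.msymm y z, F.msymm y x] at h1

theorem Fam.m_tri (F : Fam d m Y N L) (x y z : V) : m x z ≤ m x y + m y z + 2 := by
  obtain ⟨q, h1, h2, h3⟩ := F.tree.med x y z
  have h4 := F.madd x q z h3
  have h5 := F.mmono x q y h1
  have h6 := F.mmono' h2
  omega

theorem Fam.memY (F : Fam d m Y N L) : g • x ∈ Y (g • l) ↔ x ∈ Y l := by
  constructor
  · intro h
    have h1 := F.eqY g⁻¹ (g • l) (g • x) h
    rwa [inv_smul_smul, inv_smul_smul] at h1
  · exact F.eqY g l x

theorem Fam.memN (F : Fam d m Y N L) : g * n * g⁻¹ ∈ N (g • l) ↔ n ∈ N l := by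
  constructor
  · intro h
    have h1 := F.eqN g⁻¹ (g • l) (g * n * g⁻¹) h
    rw [inv_smul_smul] at h1
    have h2 : g⁻¹ * (g * n * g⁻¹) * g⁻¹⁻¹ = n := by group
    rwa [h2] at h1
  · exact F.eqN g l n

theorem Fam.smulN (F : Fam d m Y N L) (hn : n ∈ N l) (hy : y ∈ Y l) : n • y ∈ Y l := by
  have h1 := F.eqY n l y hy
  rwa [F.fixN l n hn] at h1

theorem Fam.prG (F : Fam d m Y N L) (l : Λ) (x : V) : Gate d (Y l) x (pr d (Y l) x) :=
  pr_gate F.tree (F.conv l) (F.nonempty l) x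

theorem Fam.prM (F : Fam d m Y N L) (l : Λ) (x : V) : pr d (Y l) x ∈ Y l := (F.prG l x).1

theorem Fam.pr_smul (F : Fam d m Y N L) (g : Γ) (l : Λ) (x : V) :
    pr d (Y (g • l)) (g • x) = g • pr d (Y l) x := by
  refine pr_eq F.tree ⟨F.memY.2 (F.prM l x), fun y hy => ?_⟩
  have h1 : g⁻¹ • y ∈ Y l := by
    rw [← F.memY (g := g), smul_inv_smul]
    exact hy
  have h2 := (F.prG l x).2 _ h1
  unfold Btw at h2 ⊢
  have h3 : d (pr d (Y l) x) (g⁻¹ • y) = d (g • pr d (Y l) x) y := by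
    rw [← F.dinv g, smul_inv_smul]
  have h4 : d x (g⁻¹ • y) = d (g • x) y := by
    rw [← F.dinv g, smul_inv_smul]
  rw [F.dinv, ← h3, ← h4]
  exact h2

theorem Fam.pr_smulN (F : Fam d m Y N L) (hn : n ∈ N l) (x : V) :
    pr d (Y l) (n • x) = n • pr d (Y l) x := by
  have h1 := F.pr_smul n l x
  rwa [F.fixN l n hn] at h1

/-- the measure of projections is invariant -/
theorem Fam.m_pr (F : Fam d m Y N L) (g : Γ) (l : Λ) (x y : V) :
    m (pr d (Y (g • l)) (g • x)) (pr d (Y (g • l)) (g • y)) =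
      m (pr d (Y l) x) (pr d (Y l) y) := by
  rw [F.pr_smul, F.pr_smul, F.minv]

theorem Fam.pr_cross (F : Fam d m Y N L) (h : l ≠ l') (hx : x ∈ Y l') (hy : y ∈ Y l') :
    m (pr d (Y l) x) (pr d (Y l) y) = 0 := by
  by_cases hne : (Y l ∩ Y l').Nonempty
  · exact F.ov l l' _ _ h (F.prM l x) (pr_inter F.tree (F.conv l) (F.conv l') hne hx)
      (F.prM l y) (pr_inter F.tree (F.conv l) (F.conv l') hne hy)
  · have h1 : pr d (Y l) x = pr d (Y l) y :=
      pr_const F.tree (F.conv l) (F.nonempty l) (F.conv l')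
        (fun c hc hc' => hne ⟨c, hc, hc'⟩) hx hy
    rw [h1, F.m_self]

/-- if the measure of the projections is positive, the geodesic passes through the projections -/
theorem Fam.pr_pos (F : Fam d m Y N L) (h : 1 ≤ m (pr d (Y l) x) (pr d (Y l) y)) :
    Btw d x (pr d (Y l) x) y ∧ Btw d x (pr d (Y l) y) y := by
  have hne : pr d (Y l) x ≠ pr d (Y l) y := by
    intro he
    rw [he, F.m_self] at h
    omega
  have h1 := pr_ne F.tree (F.conv l) (F.nonempty l) hne
  exact ⟨h1.1, h1.2.1⟩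

theorem Fam.normal (F : Fam d m Y N L) : (⨆ l, N l).Normal := by
  refine ⟨fun n hn g => ?_⟩
  refine Subgroup.iSup_induction N (C := fun n => g * n * g⁻¹ ∈ ⨆ l, N l) hn ?_ ?_ ?_
  · intro l n hn
    exact Subgroup.mem_iSup_of_mem (g • l) (F.memN.2 hn)
  · have : g * 1 * g⁻¹ = 1 := by group
    rw [this]
    exact Subgroup.one_mem _
  · intro a b ha hb
    have : g * (a * b) * g⁻¹ = (g * a * g⁻¹) * (g * b * g⁻¹) := by group
    rw [this]
    exact Subgroup.mul_mem _ ha hb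

end AHX
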