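import Pool.Agent.AHX.AppDefs
import Pool.Agent.AHX.ArtC

set_option autoImplicit false

/-!
# AHX module RULV: words with trivial stabiliser

Let `CC = CC M s t`.

* `exists_y`: there is `y₁ ∈ TT` with `y₁ ∉ CC`: otherwise no member of `TT` (not empty) is adjacent to
  `s` or `t` in the Coxeter graph (`M i j = 2` iff not adjacent), contradiction to connectedness.
* `exists_adj`: let `Z ⊆ CC` be not empty.  The graph is connected and `s ∉ Z`, so there are `y ∉ Z` and
  `z ∈ Z` with `M y z ≠ 2`; `z ∈ CC` commutes with `s` and `t`, so `y ≠ s, t`.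
* `exists_ruler`: say that a word is `good` if its length is odd and its 1st, 3rd, 5th, ... letters are
  not in `CC` (best as an inductive predicate), and all letters are in `TT`.  If `ω`, `ω'` are good then
  `ω ++ [y] ++ ω'` is good, and in `ω ++ ω` one of two consecutive letters is not in `CC`.  Put
  `K ω = {c ∈ Pa CC | (wd α)⁻¹ * c * wd α ∈ Pa CC for all prefixes α of ω}`.  By strong induction on the
  number of elements of `Z`: if there are a good word `ω` and `Z ⊆ CC` with
  (*) for all `c ∈ K ω`: `c ∈ Pa Z` and `(wd ω)⁻¹ * c * wd ω = c`,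
  then there is a good word with `K ω = 1`.  If `Z = ∅` then `Pa Z = 1`, done.  Otherwise take `y`, `z` from
  `exists_adj` and `ω' = ω ++ [y] ++ ω`, `Z' = perp Z y`, which does not contain `z`.  For `c ∈ K ω'`:
  `c ∈ K ω` so `c ∈ Pa Z` and `(wd ω)⁻¹ c (wd ω) = c`; the prefix `ω ++ [y]` gives `y⁻¹ c y ∈ Pa CC`, the
  prefixes `ω ++ [y] ++ α` give `y⁻¹ c y ∈ K ω`, so `y⁻¹ c y ∈ Pa Z`.  By `star_one` (`X = Z`, `r = y`)
  `c ∈ Pa Z'` and `y⁻¹ c y = c`; so `(wd ω')⁻¹ c (wd ω') = c`.  The start: `ω = [y₁]`, `Z = perp CC y₁`,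
  (*) holds by `star_one` (`X = CC`, `r = y₁`).
-/

namespace AHX

variable {B : Type} {M : CoxeterMatrix B} {s t : B}

theorem exists_y [Fintype B] (hst : s ≠ t)
    (hc : (SimpleGraph.fromRel (fun i j : B => M.M i j ≠ 2)).Connected)
    (h3 : 3 ≤ Fintype.card B) : ∃ y ∈ TT s t, y ∉ CC M s t := by
  classical
  by_contra hcon
  push Not at hcon
  obtain ⟨y, hy⟩ : ∃ y, y ∈ TT s t := by
    have h1 : ({s, t} : Finset B).card < Fintype.card B :=
      lt_of_le_of_lt (Finset.card_le_two) (by omega)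
    obtain ⟨y, hy⟩ := Finset.exists_mem_notMem_of_card_lt_card
      (s := ({s, t} : Finset B)) (t := Finset.univ) (by rwa [Finset.card_univ])
    refine ⟨y, ?_⟩
    have h2 := hy.2
    simp only [Finset.mem_insert, Finset.mem_singleton, not_or] at h2
    exact h2
  obtain ⟨p⟩ := hc.preconnected s y
  obtain ⟨d, -, hd1, hd2⟩ := p.exists_boundary_dart {s, t} (by simp) (by
    intro h
    rcases h with h | h
    · exact hy.1 h
    · exact hy.2 h)
  have hT : d.snd ∈ TT s t := ⟨fun h => hd2 (Or.inl h), fun h => hd2 (Or.inr h)⟩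
  obtain ⟨⟨-, c1⟩, ⟨-, c2⟩⟩ := hcon _ hT
  have had := d.adj
  rw [SimpleGraph.fromRel_adj] at had
  have e : M.M d.snd d.fst = 2 := by
    rcases hd1 with h | h
    · rw [h]; exact c1
    · rw [h]; exact c2
  rcases had.2 with h | h
  · exact h (by rw [M.symmetric]; exact e)
  · exact h e

theorem exists_adj (hc : (SimpleGraph.fromRel (fun i j : B => M.M i j ≠ 2)).Connected)
    {Z : Set B} (hZ : Z ⊆ CC M s t) (hne : Z.Nonempty) :
    ∃ y ∈ TT s t, y ∉ Z ∧ ∃ z ∈ Z, M.M z y ≠ 2 := by
  obtain ⟨z, hz⟩ := hne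
  have hs : s ∉ Z := fun h => (hZ h).1.1.1 rfl
  obtain ⟨p⟩ := hc.preconnected z s
  obtain ⟨d, -, hd1, hd2⟩ := p.exists_boundary_dart Z hz hs
  obtain ⟨⟨-, c1⟩, ⟨-, c2⟩⟩ := hZ hd1
  have had := d.adj
  rw [SimpleGraph.fromRel_adj] at had
  have h2 : M.M d.fst d.snd ≠ 2 := by
    rcases had.2 with h | h
    · exact h
    · intro h'
      exact h (by rw [M.symmetric]; exact h')
  refine ⟨d.snd, ⟨?_, ?_⟩, hd2, d.fst, hd1, h2⟩
  · intro h
    rw [h] at h2
    exact h2 c1
  · intro h
    rw [h] at h2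
    exact h2 c2

/-- good words -/
private inductive Good (M : CoxeterMatrix B) (s t : B) : List B → Prop
  | one {y : B} (hy : y ∈ TT s t) (hy' : y ∉ CC M s t) : Good M s t [y]
  | cons {y u : B} {ω : List B} (hy : y ∈ TT s t) (hy' : y ∉ CC M s t) (hu : u ∈ TT s t)
      (h : Good M s t ω) : Good M s t (y :: u :: ω)

private theorem good_ne {ω : List B} (h : Good M s t ω) : ω ≠ [] := by
  cases h <;> simp

private theorem good_mem {ω : List B} (h : Good M s t ω) : ∀ y ∈ ω, y ∈ TT s t := by
  induction h with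
  | one hy hy' =>
    intro y h
    rw [List.mem_singleton] at h
    rw [h]
    exact hy
  | cons hy hy' hu h ih =>
    intro y hm
    rcases List.mem_cons.1 hm with h | h
    · rw [h]; exact hy
    · rcases List.mem_cons.1 h with h | h
      · rw [h]; exact hu
      · exact ih y h

private theorem good_head {ω : List B} (h : Good M s t ω) : ∀ y ∈ ω.head?, y ∉ CC M s t := by
  cases h with
  | one hy hy' =>
    intro y h
    simp only [List.head?_cons, Option.mem_def, Option.some.injEq] at h
    rw [← h]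
    exact hy'
  | cons hy hy' hu h =>
    intro y h
    simp only [List.head?_cons, Option.mem_def, Option.some.injEq] at h
    rw [← h]
    exact hy'

private theorem good_chain {ω : List B} (h : Good M s t ω) :
    ω.IsChain (fun y z => y ∉ CC M s t ∨ z ∉ CC M s t) := by
  induction h with
  | one hy hy' => simp
  | cons hy hy' hu h ih =>
    rw [List.isChain_cons_cons]
    refine ⟨Or.inl hy', ?_⟩
    rw [List.isChain_cons]
    exact ⟨fun y hm => Or.inr (good_head h y hm), ih⟩

private theorem good_append {ω ω' : List B} {u : B} (h : Good M s t ω) (h' : Good M s t ω')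
    (hu : u ∈ TT s t) : Good M s t (ω ++ u :: ω') := by
  induction h with
  | one hy hy' => exact Good.cons hy hy' hu h'
  | cons hy hy' hu' h ih => exact Good.cons hy hy' hu' ih

private theorem pa_empty {c : Ga M} (h : c ∈ Pa M (∅ : Set B)) : c = 1 := by
  unfold Pa Par at h
  rw [Set.image_empty, Subgroup.closure_empty, Subgroup.mem_bot] at h
  exact h

/-- the stabiliser of the prefixes -/
private def KK (M : CoxeterMatrix B) (s t : B) (ω : List B) (c : Ga M) : Prop :=
  ∀ α β : List B, ω = α ++ β → (wd M α)⁻¹ * c * wd M α ∈ Pa M (CC M s t)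

private theorem wd_append (α β : List B) : wd M (α ++ β) = wd M α * wd M β := by
  unfold wd
  rw [List.map_append, List.prod_append]

private theorem wd_cons (y : B) (β : List B) : wd M (y :: β) = gn M y * wd M β := by
  unfold wd
  rw [List.map_cons, List.prod_cons]

private theorem main_ind [Fintype B]
    (hc : (SimpleGraph.fromRel (fun i j : B => M.M i j ≠ 2)).Connected) (n : ℕ) :
    ∀ Z : Set B, Z.ncard = n → Z ⊆ CC M s t → ∀ ω : List B, Good M s t ω →
      (∀ c, KK M s t ω c → c ∈ Pa M Z ∧ (wd M ω)⁻¹ * c * wd M ω = c) →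
      ∃ ω' : List B, Good M s t ω' ∧ ∀ c, KK M s t ω' c → c = 1 := by
  induction n using Nat.strong_induction_on with
  | _ n ih =>
  intro Z hn hZ ω hω hK
  rcases Z.eq_empty_or_nonempty with hZ0 | hne
  · subst hZ0
    exact ⟨ω, hω, fun c hc' => pa_empty (hK c hc').1⟩
  obtain ⟨y, hyT, hyZ, z, hz, hzy⟩ := exists_adj hc hZ hne
  have hsub : perp M Z y ⊂ Z := by
    refine ⟨fun x hx => hx.1, fun h => hzy (h hz).2⟩
  refine ih _ ?_ (perp M Z y) rfl (hsub.1.trans hZ) (ω ++ y :: ω) (good_append hω hω hyT) ?_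
  · rw [← hn]
    exact Set.ncard_lt_ncard hsub (Set.toFinite Z)
  · intro c hK'
    have k1 : KK M s t ω c := by
      intro α β e
      exact hK' α (β ++ y :: ω) (by rw [e]; simp)
    obtain ⟨a1, a2⟩ := hK c k1
    have k2 : KK M s t ω ((gn M y)⁻¹ * c * gn M y) := by
      intro α β e
      have h := hK' (ω ++ y :: α) β (by rw [List.append_assoc, List.cons_append, ← e])
      rw [wd_append, wd_cons] at h
      have e2 : (wd M ω * (gn M y * wd M α))⁻¹ * c * (wd M ω * (gn M y * wd M α)) =
          (wd M α)⁻¹ * ((gn M y)⁻¹ * ((wd M ω)⁻¹ * c * wd M ω) * gn M y) * wd M α := by group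
      rw [e2, a2] at h
      exact h
    obtain ⟨b1, b2⟩ := hK _ k2
    obtain ⟨c1, c2⟩ := star_one (X := Z) (r := y) hyZ a1 b1
    refine ⟨c1, ?_⟩
    have c2' : (gn M y)⁻¹ * c * gn M y = c := c2
    rw [wd_append, wd_cons]
    have e2 : (wd M ω * (gn M y * wd M ω))⁻¹ * c * (wd M ω * (gn M y * wd M ω)) =
        (wd M ω)⁻¹ * ((gn M y)⁻¹ * ((wd M ω)⁻¹ * c * wd M ω) * gn M y) * wd M ω := by group
    rw [e2, a2, c2', a2]

theorem exists_ruler [Fintype B] (hst : s ≠ t)
    (hc : (SimpleGraph.fromRel (fun i j : B => M.M i j ≠ 2)).Connected)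
    (h3 : 3 ≤ Fintype.card B) : ∃ ω : List B, Ruler M s t ω := by
  obtain ⟨y, hyT, hyC⟩ := exists_y hst hc h3
  obtain ⟨ω, hω, hK⟩ := main_ind (s := s) (t := t) hc _ (perp M (CC M s t) y) rfl (fun x hx => hx.1)
    [y] (Good.one hyT hyC) (by
      intro c hK
      have h1 := hK [] [y] rfl
      have h2 := hK [y] [] (by simp)
      have e1 : wd M ([] : List B) = 1 := by simp [wd]
      have e2 : wd M [y] = gn M y := by simp [wd]
      rw [e1, inv_one, one_mul, mul_one] at h1
      rw [e2] at h2 ⊢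
      exact star_one (X := CC M s t) (r := y) hyC h1 h2)
  refine ⟨ω, good_ne hω, good_mem hω, ?_, fun c _ h => hK c h⟩
  intro α β y z e
  have h1 : (ω ++ ω).IsChain (fun y z => y ∉ CC M s t ∨ z ∉ CC M s t) := by
    rw [List.isChain_append]
    exact ⟨good_chain hω, good_chain hω, fun _ _ z hz => Or.inr (good_head hω z hz)⟩
  rw [e, List.isChain_append] at h1
  have h2 := h1.2.1
  rw [List.isChain_cons_cons] at h2
  exact h2.1

end AHX
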