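import Pool.Agent.AHX.Minf
import Pool.Agent.AHX.AxV
import Pool.Agent.AHX.RulV
import Pool.Agent.AHX.Abs

set_option autoImplicit false

/-!
# AHX: the main theorem
-/

namespace AHX

theorem fix_vp {B : Type} (M : CoxeterMatrix B) {s t : B} (hst : s ≠ t) :
    gn M s • vp M s t 1 = vp M s t 1 := by
  rw [smul_vp, vp_eq]
  rw [mul_one, mul_one]
  exact (PP M s t).inv_mem (gen_mem_par hst)

theorem main_aux {Γ A G : Type} [Group Γ] [Group A] [Group G] {π : Γ →* A} {e : A →* G}
    (hπ : Function.Surjective π) (he : Function.Bijective e) {K : Subgroup Γ} (hK : π.ker = K) :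
    Function.Surjective (e.comp π) ∧ (e.comp π).ker = K := by
  refine ⟨he.2.comp hπ, ?_⟩
  rw [← hK]
  ext x
  rw [MonoidHom.mem_ker, MonoidHom.mem_ker, MonoidHom.comp_apply]
  constructor
  · intro h
    exact he.1 (h.trans (map_one e).symm)
  · intro h
    rw [h, map_one]

theorem main_art (B : Type) [Fintype B] (M : CoxeterMatrix B)
    (hconn : (SimpleGraph.fromRel (fun i j : B => M.M i j ≠ 2)).Connected)
    (hcard : 3 ≤ Fintype.card B) {s t : B} (hst : s ≠ t)
    (hk : M.M s t = 0 ∨ 42 ≤ M.M s t)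
    (G : Type) [Group G]
    (e' : Art M Set.univ →* G) (he' : Function.Bijective e') :
    WPDHyp G := by
  have h2 : M.M s t ≠ 2 := by omega
  have h0 : (Minf M hst).M s t = 0 := minf_st hst
  obtain ⟨d, hd⟩ := exists_met hst h0
  obtain ⟨ω, hω⟩ := exists_ruler hst (minf_conn hst h2 hconn) hcard
  obtain ⟨π, hπ, hsurj⟩ := exists_proj (M := M) hst
  have hker := ker_proj hst hπ
  have F := famV (k := M.M s t) hst hd hk
  have A := axV hst hd hω
  have H := main_aux hsurj he' hker
  have hs := fix_vp (Minf M hst) hst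
  have hpow : ∀ n : ℤ, (e'.comp π) (gn (Minf M hst) s) ^ n = 1 → n = 0 := by
    intro n hn
    have h1 : (e'.comp π) (gn (Minf M hst) s) = e' (gen M Set.univ s) := by
      rw [MonoidHom.comp_apply, hπ]
    rw [h1, ← map_zpow] at hn
    exact gen_pow_one (he'.1 (hn.trans (map_one e').symm))
  exact abs F (le_refl 35) A (e'.comp π) H.1 H.2 (gn (Minf M hst) s) ⟨_, hs⟩ hpow

theorem main (B : Type) [Fintype B] (M : CoxeterMatrix B)
    (hconn : (SimpleGraph.fromRel (fun i j : B => M.M i j ≠ 2)).Connected)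
    (hcard : 3 ≤ Fintype.card B)
    (hlarge : ∃ i j : B, i ≠ j ∧ (M.M i j = 0 ∨ 42 ≤ M.M i j))
    (G : Type) [Group G]
    (e : G ≃* PresentedGroup {r : FreeGroup B | ∃ i j : B, M.M i j ≠ 0 ∧
        r = ((List.range (M.M i j)).map
              (fun k => if Even k then FreeGroup.of i else FreeGroup.of j)).prod *
            (((List.range (M.M i j)).map
              (fun k => if Even k then FreeGroup.of j else FreeGroup.of i)).prod)⁻¹}) :
    WPDHyp G := by
  obtain ⟨s, t, hst, hk⟩ := hlarge
  rw [← rels_eq M] at e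
  exact main_art B M hconn hcard hst hk G e.symm.toMonoidHom e.symm.bijective

end AHX
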