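import Pool.Agent.AHX.Defs

set_option autoImplicit false

/-!
# AHX module TREE: elementary facts about trees

`d` has values in `ℕ`, so every statement reduces to instances of `tri`, `symm`, `four` and `omega`.

* `Tree.uniq`: `four x y z z'` gives `d x y + d z z' ≤ d x z + d y z'` (or the same with `z, z'`
  exchanged) and the right side is `d x y`.
* `Tree.split`: `four x y z w`.
* `gate_exists`: take `a ∈ A` with `d x a` minimal (`ℕ` is well ordered); for `y ∈ A` let `q` be the
  median of `x, y, a` (`med`): `q` lies between `y` and `a`, so `q ∈ A`, and between `x` and `a`, so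
  `d x q ≤ d x a`; minimality gives `d q a = 0`, `q = a`, and `q` lies between `x` and `y`.
* `pr_inter`: for `c ∈ A ∩ B` the gate of `b` lies between `b` and `c`, both in `B`.
* `pr_ne`: put `a = pr x`, `b = pr y`: `d x b = d x a + d a b`, `d y a = d y b + d a b`, and
  `four x b y a`: `d x b + d y a ≤ d x y + d b a` or `≤ d x a + d b y`; the second is impossible as
  `d a b > 0`.
* `pr_pass`: let `q = pr d B z`. For `a ∈ A`, `pr d B a ≠ q`, so `pr_ne` for `B` gives
  `d z a = d z q + d q a`. With `a₀ = pr d A q` this gives `d z a = d z a₀ + d a₀ a`, so `a₀` is the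
  gate of `z` in `A`.
* `pr_const`: otherwise `pr_ne` shows that `pr d A b`, which is in `A`, lies between `b` and `b'`.
* `helly`: take `c ∈ A ∩ B`; `pr d U c` is in `A` and in `B` by `pr_inter`.
-/

namespace AHX

variable {V : Type} {d : V → V → ℕ} {A B U : Set V} {x y z w u v a b : V}

theorem Btw.symm (T : Tree d) (h : Btw d x z y) : Btw d y z x := by
  unfold Btw at h ⊢
  have h1 := T.symm x z
  have h2 := T.symm z y
  have h3 := T.symm x y
  omega

theorem Btw.left (T : Tree d) : Btw d x x y := by
  unfold Btw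
  rw [T.refl, zero_add]

theorem Btw.right (T : Tree d) : Btw d x y y := by
  unfold Btw
  rw [T.refl, add_zero]

/-- if `u` is between `x` and `y`, and `v` between `x` and `u`, then `v` is between `x` and `y` and
`u` is between `v` and `y`. -/
theorem Btw.trans (T : Tree d) (h : Btw d x u y) (h' : Btw d x v u) :
    Btw d x v y ∧ Btw d v u y := by
  unfold Btw at h h' ⊢
  have h1 := T.tri v u y
  have h2 := T.tri x v y
  omega

/-- if `u` is between `x` and `y`, and `v` between `u` and `y`, then `v` is between `x` and `y` and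
`u` is between `x` and `v`. -/
theorem Btw.trans' (T : Tree d) (h : Btw d x u y) (h' : Btw d u v y) :
    Btw d x v y ∧ Btw d x u v := by
  unfold Btw at h h' ⊢
  have h1 := T.tri x u v
  have h2 := T.tri x v y
  omega

theorem Tree.uniq (T : Tree d) (h : Btw d x z y) (h' : Btw d x w y) (he : d x z = d x w) :
    z = w := by
  unfold Btw at h h'
  refine T.eq0 _ _ ?_
  have h1 := T.four x y z w
  have h2 := T.symm y w
  have h3 := T.symm y z
  omega

theorem Tree.split (T : Tree d) (h : Btw d x z y) (w : V) : Btw d x z w ∨ Btw d w z y := by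
  unfold Btw at h ⊢
  have h1 := T.four x y z w
  have h2 := T.symm y w
  have h3 := T.symm y z
  have h4 := T.symm w z
  have h5 := T.tri x z w
  have h6 := T.tri w z y
  omega

/-- the interval between `x` and `y` is convex -/
theorem conv_seg (T : Tree d) (x y : V) : Conv d {z | Btw d x z y} := by
  intro a ha b hb c hc
  have ha' : d x a + d a y = d x y := ha
  have hb' : d x b + d b y = d x y := hb
  show d x c + d c y = d x y
  unfold Btw at hc
  have h1 := T.four x y a b
  have s1 := T.symm y b
  have s2 := T.symm y a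
  have s3 := T.symm a b
  have s4 := T.symm a c
  have s5 := T.symm c b
  have t1 := T.tri x b c
  have t2 := T.tri x a c
  have t3 := T.tri c a y
  have t4 := T.tri c b y
  have t5 := T.tri x c y
  omega

/-- the interval between `x` and `y` is finite -/
theorem finite_seg (T : Tree d) (x y : V) : {z | Btw d x z y}.Finite := by
  refine Set.Finite.of_injOn (f := fun z => d x z) (t := Set.Iic (d x y)) ?_ ?_
    (Set.finite_Iic _)
  · intro z hz
    have h : d x z + d z y = d x y := hz
    show d x z ≤ d x y
    omega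
  · intro z hz w hw hzw
    exact T.uniq hz hw hzw

theorem gate_exists (T : Tree d) (hA : Conv d A) (hne : A.Nonempty) (x : V) :
    ∃ a, Gate d A x a := by
  classical
  have hex : ∃ k, ∃ a ∈ A, d x a = k := by
    obtain ⟨a, ha⟩ := hne
    exact ⟨d x a, a, ha, rfl⟩
  obtain ⟨a, ha, hak⟩ := Nat.find_spec hex
  have hmin : ∀ b ∈ A, d x a ≤ d x b := by
    intro b hb
    rw [hak]
    exact Nat.find_min' hex ⟨b, hb, rfl⟩
  refine ⟨a, ha, fun y hy => ?_⟩
  obtain ⟨q, h1, h2, h3⟩ := T.med x y a
  have hq : q ∈ A := hA y hy a ha q h2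
  have h4 := hmin q hq
  have h5 : q = a := by
    refine T.eq0 _ _ ?_
    unfold Btw at h3
    omega
  rw [← h5]
  exact h1

theorem gate_unique (T : Tree d) (h : Gate d A x a) (h' : Gate d A x b) : a = b := by
  have h1 := h.2 b h'.1
  have h2 := h'.2 a h.1
  unfold Btw at h1 h2
  refine T.eq0 _ _ ?_
  omega

theorem pr_gate (T : Tree d) (hA : Conv d A) (hne : A.Nonempty) (x : V) :
    Gate d A x (pr d A x) := by
  have h := gate_exists T hA hne x
  unfold pr
  rw [dif_pos h]
  exact h.choose_spec

theorem pr_mem (T : Tree d) (hA : Conv d A) (hne : A.Nonempty) (x : V) : pr d A x ∈ A :=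
  (pr_gate T hA hne x).1

theorem pr_eq (T : Tree d) (h : Gate d A x a) : pr d A x = a := by
  have hex : ∃ a, Gate d A x a := ⟨a, h⟩
  unfold pr
  rw [dif_pos hex]
  exact gate_unique T hex.choose_spec h

theorem pr_self (T : Tree d) (h : x ∈ A) : pr d A x = x :=
  pr_eq T ⟨h, fun _ _ => Btw.left T⟩

/-- the projection is a nearest point -/
theorem pr_le (T : Tree d) (hA : Conv d A) (h : a ∈ A) : d x (pr d A x) ≤ d x a := by
  have h1 := (pr_gate T hA ⟨a, h⟩ x).2 a h
  unfold Btw at h1
  omega

/-- the projection to `A` of a point of a convex set which meets `A` is in this set -/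
theorem pr_inter (T : Tree d) (hA : Conv d A) (hB : Conv d B) (hc : (A ∩ B).Nonempty)
    (hb : b ∈ B) : pr d A b ∈ B := by
  obtain ⟨c, hcA, hcB⟩ := hc
  exact hB b hb c hcB _ ((pr_gate T hA ⟨c, hcA⟩ b).2 c hcA)

/-- if the projections are different then the geodesic passes through them -/
theorem pr_ne (T : Tree d) (hA : Conv d A) (hne : A.Nonempty) (h : pr d A x ≠ pr d A y) :
    Btw d x (pr d A x) y ∧ Btw d x (pr d A y) y ∧
      d x y = d x (pr d A x) + d (pr d A x) (pr d A y) + d (pr d A y) y := by
  have hx := pr_gate T hA hne x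
  have hy := pr_gate T hA hne y
  set a := pr d A x with ha
  set b := pr d A y with hb
  have h1 := hx.2 b hy.1
  have h2 := hy.2 a hx.1
  unfold Btw at h1 h2 ⊢
  have h0 : d a b ≠ 0 := fun h0 => h (T.eq0 _ _ h0)
  have h3 := T.four x b y a
  have s1 := T.symm a b
  have s2 := T.symm y b
  have s3 := T.symm y a
  have t1 := T.tri x a y
  have t2 := T.tri x b y
  have t3 := T.tri a b y
  omega

theorem pr_pass (T : Tree d) (hA : Conv d A) (hneA : A.Nonempty) (hB : Conv d B)
    (hneB : B.Nonempty) (h : ∀ a ∈ A, pr d B a ≠ pr d B z) :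
    pr d A z = pr d A (pr d B z) := by
  set q := pr d B z with hq
  have hkey : ∀ a ∈ A, d z q + d q a = d z a := fun a ha =>
    (pr_ne T hB hneB (x := z) (y := a) (fun he => h a ha he.symm)).1
  have hg := pr_gate T hA hneA q
  refine pr_eq T ⟨hg.1, fun a ha => ?_⟩
  have h1 := hkey a ha
  have h2 := hkey _ hg.1
  have h3 := hg.2 a ha
  unfold Btw at h3 ⊢
  omega

/-- the projection of a convex set to a disjoint convex set is a point -/
theorem pr_const (T : Tree d) (hA : Conv d A) (hneA : A.Nonempty) (hB : Conv d B)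
    (h : ∀ c ∈ A, c ∉ B) (hx : x ∈ B) (hy : y ∈ B) : pr d A x = pr d A y := by
  by_contra hne
  have h1 := (pr_ne T hA hneA hne).1
  exact h _ (pr_mem T hA hneA x) (hB x hx y hy _ h1)

theorem helly (T : Tree d) (hA : Conv d A) (hB : Conv d B) (hU : Conv d U)
    (h1 : (A ∩ B).Nonempty) (h2 : (A ∩ U).Nonempty) (h3 : (B ∩ U).Nonempty) :
    ∃ c, c ∈ A ∧ c ∈ B ∧ c ∈ U := by
  obtain ⟨c, hcA, hcB⟩ := h1
  refine ⟨pr d U c, ?_, ?_, ?_⟩
  · exact pr_inter T hU hA (by rwa [Set.inter_comm]) hcA
  · exact pr_inter T hU hB (by rwa [Set.inter_comm]) hcB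
  · exact pr_mem T hU (by obtain ⟨e, _, he⟩ := h2; exact ⟨e, he⟩) c

end AHX
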