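import Pool.Agent.AHX.AmDefs
import Pool.Agent.AHX.TreeB

set_option autoImplicit false

/-!
# AHX module MCNT: the number of good triples in an interval

For `ρ ∈ GS d Gd x y` with `u, w`: `d x u + 4 + d w y = d x y`, so `x, u, ρ, w, y` are on a geodesic in
this order (`tri`, `dist`).

* `mc_mono`: `GS x z ⊆ GS x y`: `d w y ≤ d w z + d z y`.
* `mc_add`: let `ρ ∈ GS x y` with `u, w`.  If `d x w ≤ d x z` then `ρ ∈ GS x z`, if `d x z ≤ d x u` then
  `ρ ∈ GS z y`.  Otherwise `d x u < d x z < d x u + 4`, so `ρ` is between `x` and `y` with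
  `d x ρ ∈ {d x z - 1, d x z, d x z + 1}` (points of an interval are determined by their distance to
  `x`: `Tree.uniq`; and for two points `a, b` of the interval with `d x a ≤ d x b`,
  `d a b = d x b - d x a`).  By `par` the numbers `d x ρ` for these `ρ` have the same parity, so there
  are at most two of them.
* `mc_small`: `GS` is empty as `4 ≤ d x y` is necessary.
* `mc_large`: if there are `k + 1` middle points, their positions `d x ρ` are different numbers of the
  same parity, so there are two of them, `ρ` and `ρ'`, with `d x ρ + 2 * k ≤ d x ρ'`; take `u` for `ρ`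
  and `w'` for `ρ'`.
-/

namespace AHX

variable {V : Type} {d : V → V → ℕ} {Gd : V → V → V → Prop} {x y z : V}

private theorem mc_data (T : Tree d) (G : GdS d Gd) {u ρ w : V} (h : Gd u ρ w)
    (e : d x u + 4 + d w y = d x y) :
    d x ρ = d x u + 2 ∧ d ρ y = d w y + 2 ∧ d u y = d w y + 4 ∧ d x w = d x u + 4 := by
  obtain ⟨h1, h2, h3⟩ := G.dist u ρ w h
  have t1 := T.tri x ρ y
  have t2 := T.tri x u ρ
  have t3 := T.tri ρ w y
  have t4 := T.tri x u y
  have t5 := T.tri u w y
  have t6 := T.tri x w y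
  have t7 := T.tri x u w
  omega

private theorem mc_ord (T : Tree d) {a b : V} (ha : Btw d x a y) (hb : Btw d x b y)
    (h : d x a ≤ d x b) : d x a + d a b = d x b := by
  have h1 := T.split ha b
  have h2 := T.symm a b
  unfold Btw at ha hb h1
  omega

theorem gs_between (T : Tree d) (G : GdS d Gd) {ρ : V} (h : ρ ∈ GS d Gd x y) :
    Btw d x ρ y := by
  obtain ⟨u, w, h1, h2⟩ := h
  have := mc_data T G h1 h2
  unfold Btw
  omega

theorem gs_finite (T : Tree d) (G : GdS d Gd) (x y : V) : (GS d Gd x y).Finite :=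
  (finite_seg T x y).subset fun _ h => gs_between T G h

theorem mc_symm (T : Tree d) (G : GdS d Gd) (x y : V) : mc d Gd x y = mc d Gd y x := by
  have key : ∀ x y, GS d Gd x y ⊆ GS d Gd y x := by
    rintro x y ρ ⟨u, w, h1, h2⟩
    refine ⟨w, u, G.symm _ _ _ h1, ?_⟩
    have s1 := T.symm x u
    have s2 := T.symm w y
    have s3 := T.symm x y
    omega
  unfold mc
  rw [(key x y).antisymm (key y x)]

theorem mc_mono (T : Tree d) (G : GdS d Gd) (h : Btw d x z y) : mc d Gd x z ≤ mc d Gd x y := by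
  refine Set.ncard_le_ncard ?_ (gs_finite T G x y)
  rintro ρ ⟨u, w, h1, h2⟩
  refine ⟨u, w, h1, ?_⟩
  unfold Btw at h
  obtain ⟨a1, a2, a3⟩ := G.dist u ρ w h1
  have t1 := T.tri w z y
  have t2 := T.tri x u y
  have t3 := T.tri u w y
  omega

theorem mc_add (T : Tree d) (G : GdS d Gd) (h : Btw d x z y) :
    mc d Gd x y ≤ mc d Gd x z + mc d Gd z y + 2 := by
  have hsub : GS d Gd x y ⊆ (GS d Gd x z ∪ GS d Gd z y) ∪
      {ρ | ρ ∈ GS d Gd x y ∧ d x z ≤ d x ρ + 1 ∧ d x ρ ≤ d x z + 1} := by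
    intro ρ hρ
    have hρ' := hρ
    obtain ⟨u, w, h1, h2⟩ := hρ
    obtain ⟨a1, a2, a3, a4⟩ := mc_data T G h1 h2
    have hw : Btw d x w y := by unfold Btw; omega
    have hu : Btw d x u y := by unfold Btw; omega
    by_cases c1 : d x w ≤ d x z
    · left; left
      have := mc_ord T hw h c1
      exact ⟨u, w, h1, by omega⟩
    · by_cases c2 : d x z ≤ d x u
      · left; right
        have := mc_ord T h hu c2
        refine ⟨u, w, h1, ?_⟩
        unfold Btw at h
        omega
      · right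
        exact ⟨hρ', by omega, by omega⟩
  have hM : {ρ | ρ ∈ GS d Gd x y ∧ d x z ≤ d x ρ + 1 ∧ d x ρ ≤ d x z + 1}.ncard ≤ 2 := by
    classical
    have hb : (Set.univ : Set Bool).ncard = 2 := by
      rw [Set.ncard_univ, Nat.card_eq_fintype_card, Fintype.card_bool]
    rw [← hb]
    refine Set.ncard_le_ncard_of_injOn (fun ρ => decide (d x z < d x ρ)) (fun _ _ => trivial) ?_
      Set.finite_univ
    rintro ρ ⟨p1, p2, p3⟩ ρ' ⟨q1, q2, q3⟩ he
    have he' : (d x z < d x ρ) ↔ (d x z < d x ρ') := by simpa using he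
    have b1 := gs_between T G p1
    have b2 := gs_between T G q1
    refine T.uniq b1 b2 ?_
    obtain ⟨u, w, r1, _⟩ := p1
    obtain ⟨u', w', r2, _⟩ := q1
    have hp := G.par _ _ _ _ _ _ r1 r2
    obtain ⟨m, hm⟩ := hp
    have o1 := mc_ord T b1 b2
    have o2 := mc_ord T b2 b1
    have s1 := T.symm ρ ρ'
    rcases le_total (d x ρ) (d x ρ') with c | c
    · have := o1 c
      omega
    · have := o2 c
      omega
  have hfin : ((GS d Gd x z ∪ GS d Gd z y) ∪
      {ρ | ρ ∈ GS d Gd x y ∧ d x z ≤ d x ρ + 1 ∧ d x ρ ≤ d x z + 1}).Finite :=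
    ((gs_finite T G x z).union (gs_finite T G z y)).union
      ((gs_finite T G x y).subset fun _ h => h.1)
  have h1 := Set.ncard_le_ncard hsub hfin
  have h2 := Set.ncard_union_le (GS d Gd x z ∪ GS d Gd z y)
    {ρ | ρ ∈ GS d Gd x y ∧ d x z ≤ d x ρ + 1 ∧ d x ρ ≤ d x z + 1}
  have h3 := Set.ncard_union_le (GS d Gd x z) (GS d Gd z y)
  unfold mc
  omega

theorem mc_small (T : Tree d) (G : GdS d Gd) (h : d x y ≤ 3) : mc d Gd x y = 0 := by
  have : GS d Gd x y = ∅ := by
    rw [Set.eq_empty_iff_forall_notMem]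
    rintro ρ ⟨u, w, _, h2⟩
    omega
  unfold mc
  rw [this, Set.ncard_empty]

theorem mc_inv {Γ : Type} [Group Γ] [MulAction Γ V]
    (hd : ∀ (g : Γ) x y, d (g • x) (g • y) = d x y)
    (hG : ∀ (g : Γ) u ρ w, Gd u ρ w → Gd (g • u) (g • ρ) (g • w)) (g : Γ) (x y : V) :
    mc d Gd (g • x) (g • y) = mc d Gd x y := by
  have key : ∀ (g : Γ) (x y ρ : V), ρ ∈ GS d Gd x y → g • ρ ∈ GS d Gd (g • x) (g • y) := by
    rintro g x y ρ ⟨u, w, h1, h2⟩
    refine ⟨g • u, g • w, hG g _ _ _ h1, ?_⟩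
    rw [hd, hd, hd, h2]
  have e : GS d Gd (g • x) (g • y) = (fun v : V => g • v) '' GS d Gd x y := by
    ext ρ
    constructor
    · intro h
      have h1 := key g⁻¹ _ _ _ h
      rw [inv_smul_smul, inv_smul_smul] at h1
      exact ⟨g⁻¹ • ρ, h1, smul_inv_smul g ρ⟩
    · rintro ⟨ρ, h, rfl⟩
      exact key g _ _ _ h
  unfold mc
  rw [e, Set.ncard_image_of_injective _ (MulAction.injective g)]

theorem mc_pos (h : 1 ≤ mc d Gd x y) : ∃ ρ, ρ ∈ GS d Gd x y := by
  unfold mc at h
  exact Set.nonempty_of_ncard_ne_zero (by omega)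

theorem mc_lower (T : Tree d) (G : GdS d Gd) {ι : Type} (s : Finset ι) (ρ : ι → V)
    (hi : ∀ i ∈ s, ∀ j ∈ s, ρ i = ρ j → i = j) (h : ∀ i ∈ s, ρ i ∈ GS d Gd x y) :
    s.card ≤ mc d Gd x y := by
  classical
  have h1 : (s.image ρ).card = s.card :=
    Finset.card_image_of_injOn fun i hi' j hj e => hi i hi' j hj e
  rw [← h1, ← Set.ncard_coe_finset]
  refine Set.ncard_le_ncard ?_ (gs_finite T G x y)
  intro v hv
  rw [Finset.mem_coe, Finset.mem_image] at hv
  obtain ⟨i, hi', rfl⟩ := hv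
  exact h i hi'

theorem mc_large (T : Tree d) (G : GdS d Gd) {k : ℕ} (h : k + 1 ≤ mc d Gd x y) :
    ∃ u ρ w u' ρ' w', Gd u ρ w ∧ Gd u' ρ' w' ∧ Btw d x u y ∧ Btw d x w' y ∧
      d u w' = d x w' - d x u ∧ 2 * k + 4 ≤ d u w' := by
  classical
  have hfin := gs_finite T G x y
  have hc : mc d Gd x y = hfin.toFinset.card := Set.ncard_eq_toFinset_card _ hfin
  have hne : hfin.toFinset.Nonempty := by
    rw [← Finset.card_pos]
    omega
  obtain ⟨ρ, hρ, hmin⟩ := Finset.exists_min_image hfin.toFinset (d x) hne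
  obtain ⟨ρ', hρ', hmax⟩ := Finset.exists_max_image hfin.toFinset (d x) hne
  have hle : hfin.toFinset.card ≤ (Finset.range ((d x ρ' - d x ρ) / 2 + 1)).card := by
    refine Finset.card_le_card_of_injOn (fun v => (d x v - d x ρ) / 2) ?_ ?_
    · intro v hv
      have h1 := hmax v hv
      rw [Finset.mem_coe, Finset.mem_range]
      have : (d x v - d x ρ) / 2 ≤ (d x ρ' - d x ρ) / 2 := Nat.div_le_div_right (by omega)
      show (d x v - d x ρ) / 2 < (d x ρ' - d x ρ) / 2 + 1
      omega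
    · intro v hv v' hv' he
      have he' : (d x v - d x ρ) / 2 = (d x v' - d x ρ) / 2 := he
      have m1 := hmin v hv
      have m2 := hmin v' hv'
      rw [Finset.mem_coe, Set.Finite.mem_toFinset] at hv hv'
      have b1 := gs_between T G hv
      have b2 := gs_between T G hv'
      refine T.uniq b1 b2 ?_
      obtain ⟨u, w, r1, _⟩ := hv
      obtain ⟨u', w', r2, _⟩ := hv'
      obtain ⟨m, hm⟩ := G.par _ _ _ _ _ _ r1 r2
      have s1 := T.symm v v'
      rcases le_total (d x v) (d x v') with c | c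
      · have := mc_ord T b1 b2 c
        omega
      · have := mc_ord T b2 b1 c
        omega
  rw [Finset.card_range] at hle
  rw [Set.Finite.mem_toFinset] at hρ hρ'
  have hmm := hmin ρ' (by rwa [Set.Finite.mem_toFinset])
  obtain ⟨u, w, r1, r2⟩ := hρ
  obtain ⟨u', w', r1', r2'⟩ := hρ'
  obtain ⟨a1, a2, a3, a4⟩ := mc_data T G r1 r2
  obtain ⟨b1, b2, b3, b4⟩ := mc_data T G r1' r2'
  have hu : Btw d x u y := by unfold Btw; omega
  have hw' : Btw d x w' y := by unfold Btw; omega
  have := mc_ord T hu hw' (by omega)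
  exact ⟨u, ρ, w, u', ρ', w', r1, r1', hu, hw', by omega, by omega⟩

end AHX
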