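import Pool.Agent.AHX.AmalR
import Pool.Agent.AHX.Mc
import Pool.Agent.AHX.Evw

set_option autoImplicit false

/-!
# AHX module METV: the measure on the tree

`d` is the metric, `m = mc d (GdV M s t)` counts good triples.

* `smul_vp` etc.: by definition of the action on cosets (the action on `Sum` is componentwise).
* `vr_eq`: `(g : Γ ⧸ R) = g'` iff `g⁻¹ * g' ∈ R` (`QuotientGroup.eq`).
* `vtx_cases`: `rcases` on `Sum` and `QuotientGroup.induction_on`.
* `vr_vp`: `adj` and the definition of `EV`.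
* `gdS`, field `dist`: `u = vr (g * s ^ i)`, `ρ = vr g`, `w = vr (g * t ^ j)`, `i`, `j` odd, so not `0`:
  by `dinv` `d u ρ = d (vr 1) (vr (s ^ (-i)))` and `d ρ w = d (vr 1) (vr (t ^ j))`, equal to `2` by `len` for
  lists with one member, `d u w = d (vr 1) (vr (s ^ (-i) * t ^ j)) = 4` by `len` for a list with two
  members (use `alt_evl` or `gen_pow_mem`).
* `m_adj`: `q` from `tree.med x x' y` is between `x` and `x'`, so it is `x` or `x'`; so `x` is between
  `x'` and `y` (then `mc_mono`), or `x'` is between `x` and `y` (then `mc_add` and `mc_small`).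
* `gp_le`: `x = gn s`, `y = gn t` or `x = gn t`, `y = gn s`; let `g i` be the product of the first `i` members of
  `evl x y es`, `r` the length of `es`.  By `len` `d (vr 1) (vr (g i)) = 2 * i` and `vr (g i)` is between
  `vr 1` and `vr (g r)`.  If the members number `i` and `i + 1` of `es` are odd (`1 ≤ i < r`), then
  `vr (g (i-1)), vr (g i), vr (g (i+1))` is a good triple (`g (i-1) = g i * (x ^ e)⁻¹`, or with `y`), and
  `d (vr 1) (vr (g (i-1))) + 4 + d (vr (g (i+1))) (vr (g r)) = 2 (i-1) + 4 + (2 r - 2 (i+1)) = 2 r`.  So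
  `vr (g i) ∈ GS`, and these vertices are different for different `i`.  Use `mc_lower` for the finset of
  these `i`; its cardinality is `gp es`.
-/

namespace AHX

variable {B : Type} {M : CoxeterMatrix B} {s t : B} {d : VV M s t → VV M s t → ℕ}

theorem smul_vp (g h : Ga M) : g • vp M s t h = vp M s t (g * h) := rfl

theorem smul_vq (g h : Ga M) : g • vq M s t h = vq M s t (g * h) := rfl

theorem smul_vr (g h : Ga M) : g • vr M s t h = vr M s t (g * h) := rfl

theorem vp_eq {g h : Ga M} : vp M s t g = vp M s t h ↔ g⁻¹ * h ∈ PP M s t := by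
  unfold vp pv
  rw [Sum.inl.injEq, QuotientGroup.eq]

theorem vq_eq {g h : Ga M} : vq M s t g = vq M s t h ↔ g⁻¹ * h ∈ QQ M s t := by
  unfold vq qv
  rw [Sum.inr.injEq, Sum.inl.injEq, QuotientGroup.eq]

theorem vr_eq {g h : Ga M} : vr M s t g = vr M s t h ↔ g⁻¹ * h ∈ RR M s t := by
  unfold vr rv
  rw [Sum.inr.injEq, Sum.inr.injEq, QuotientGroup.eq]

theorem vtx_cases (x : VV M s t) : ∃ g : Ga M, x = vp M s t g ∨ x = vq M s t g ∨ x = vr M s t g := by
  rcases x with x | x | x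
  · obtain ⟨g, rfl⟩ := QuotientGroup.mk_surjective x
    exact ⟨g, Or.inl rfl⟩
  · obtain ⟨g, rfl⟩ := QuotientGroup.mk_surjective x
    exact ⟨g, Or.inr (Or.inl rfl)⟩
  · obtain ⟨g, rfl⟩ := QuotientGroup.mk_surjective x
    exact ⟨g, Or.inr (Or.inr rfl)⟩

theorem vtx_ne (g h : Ga M) : vp M s t g ≠ vq M s t h ∧ vp M s t g ≠ vr M s t h ∧
    vq M s t g ≠ vr M s t h := by
  refine ⟨?_, ?_, ?_⟩
  · intro h
    unfold vp vq pv qv at h
    cases h
  · intro h
    unfold vp vr pv rv at h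
    cases h
  · intro h
    unfold vq vr qv rv at h
    cases h

theorem vr_vp (hd : Met M s t d) (g : Ga M) : d (vr M s t g) (vp M s t g) = 1 ∧
    d (vr M s t g) (vq M s t g) = 1 :=
  ⟨(hd.adj _ _).1 ⟨g, Or.inl ⟨rfl, Or.inl rfl⟩⟩, (hd.adj _ _).1 ⟨g, Or.inl ⟨rfl, Or.inr rfl⟩⟩⟩

/-- two vertices at distance at most one -/
theorem adj_cases (hd : Met M s t d) {x y : VV M s t} (h : d x y ≤ 1) :
    ∃ g : Ga M, (x = vp M s t g ∨ x = vq M s t g ∨ x = vr M s t g) ∧
      (y = vp M s t g ∨ y = vq M s t g ∨ y = vr M s t g) := by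
  rcases Nat.eq_zero_or_pos (d x y) with h0 | h0
  · obtain ⟨g, hg⟩ := vtx_cases x
    exact ⟨g, hg, hd.tree.eq0 x y h0 ▸ hg⟩
  · obtain ⟨g, ⟨h1, h2 | h2⟩ | ⟨h1, h2 | h2⟩⟩ := (hd.adj x y).2 (by omega)
    · exact ⟨g, Or.inr (Or.inr h1), Or.inl h2⟩
    · exact ⟨g, Or.inr (Or.inr h1), Or.inr (Or.inl h2)⟩
    · exact ⟨g, Or.inl h2, Or.inr (Or.inr h1)⟩
    · exact ⟨g, Or.inr (Or.inl h2), Or.inr (Or.inr h1)⟩

theorem gd_smul (g : Ga M) (u ρ w : VV M s t) (h : GdV M s t u ρ w) :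
    GdV M s t (g • u) (g • ρ) (g • w) := by
  obtain ⟨a, i, j, hi, hj, rfl, ⟨rfl, rfl⟩ | ⟨rfl, rfl⟩⟩ := h
  · refine ⟨g * a, i, j, hi, hj, rfl, Or.inl ⟨?_, ?_⟩⟩ <;> rw [smul_vr, mul_assoc]
  · refine ⟨g * a, i, j, hi, hj, rfl, Or.inr ⟨?_, ?_⟩⟩ <;> rw [smul_vr, mul_assoc]

theorem gs_mem_p (hst : s ≠ t) (i : ℤ) : gn M s ^ i ∈ PP M s t :=
  Subgroup.zpow_mem _ (gen_mem_par hst) _

theorem gt_mem_q (hst : s ≠ t) (i : ℤ) : gn M t ^ i ∈ QQ M s t :=
  Subgroup.zpow_mem _ (gen_mem_par hst.symm) _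

theorem gs_not_r {i : ℤ} (hi : i ≠ 0) : gn M s ^ i ∉ RR M s t :=
  fun h => hi (gen_pow_mem (fun h => h.1 rfl) h)

theorem gt_not_r {i : ℤ} (hi : i ≠ 0) : gn M t ^ i ∉ RR M s t :=
  fun h => hi (gen_pow_mem (fun h => h.2 rfl) h)

theorem odd_ne {i : ℤ} (hi : Odd i) : i ≠ 0 := by
  rintro rfl
  exact absurd hi (by decide)

theorem d_trans (hd : Met M s t d) (g a b : Ga M) :
    d (vr M s t (g * a)) (vr M s t (g * b)) = d (vr M s t a) (vr M s t b) := by
  rw [← smul_vr, ← smul_vr, hd.dinv]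

theorem d_one (hd : Met M s t d) (g a : Ga M) :
    d (vr M s t g) (vr M s t (g * a)) = d (vr M s t 1) (vr M s t a) := by
  have := d_trans hd g 1 a
  rw [mul_one] at this
  exact this

theorem gdist (hst : s ≠ t) (hd : Met M s t d) (g : Ga M) {i j : ℤ} (hi : Odd i) (hj : Odd j) :
    d (vr M s t (g * gn M s ^ i)) (vr M s t g) = 2 ∧
      d (vr M s t g) (vr M s t (g * gn M t ^ j)) = 2 ∧
      d (vr M s t (g * gn M s ^ i)) (vr M s t (g * gn M t ^ j)) = 4 := by
  have hi' : -i ≠ 0 := neg_ne_zero.2 (odd_ne hi)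
  have a1 : Alt (PP M s t) (QQ M s t) (RR M s t) true ([gn M s ^ i] ++ []) :=
    ⟨gs_mem_p hst i, gs_not_r (odd_ne hi), trivial⟩
  have a2 : Alt (PP M s t) (QQ M s t) (RR M s t) false ([gn M t ^ j] ++ []) :=
    ⟨gt_mem_q hst j, gt_not_r (odd_ne hj), trivial⟩
  have a3 : Alt (PP M s t) (QQ M s t) (RR M s t) true ([gn M s ^ (-i), gn M t ^ j] ++ []) :=
    ⟨gs_mem_p hst (-i), gs_not_r hi', gt_mem_q hst j, gt_not_r (odd_ne hj), trivial⟩
  have l1 := (hd.len _ _ _ a1).1
  have l2 := (hd.len _ _ _ a2).1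
  have l3 := (hd.len _ _ _ a3).1
  simp only [List.prod_cons, List.prod_nil, mul_one, List.length_cons, List.length_nil] at l1 l2 l3
  refine ⟨?_, ?_, ?_⟩
  · rw [hd.tree.symm, d_one hd, l1]
  · rw [d_one hd, l2]
  · have e : g * gn M t ^ j = g * gn M s ^ i * (gn M s ^ (-i) * gn M t ^ j) := by
      rw [zpow_neg]
      group
    rw [e, d_one hd, l3]

theorem gdS (hst : s ≠ t) (hd : Met M s t d) : GdS d (GdV M s t) := by
  constructor
  · rintro u ρ w ⟨g, i, j, hi, hj, rfl, ⟨rfl, rfl⟩ | ⟨rfl, rfl⟩⟩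
    · exact gdist hst hd g hi hj
    · obtain ⟨h1, h2, h3⟩ := gdist hst hd g hi hj
      rw [hd.tree.symm _ (vr M s t g), hd.tree.symm (vr M s t g) (vr M s t (g * gn M s ^ i)),
        hd.tree.symm (vr M s t (g * gn M t ^ j)) (vr M s t (g * gn M s ^ i))]
      exact ⟨h2, h1, h3⟩
  · rintro u ρ w ⟨g, i, j, hi, hj, rfl, ⟨rfl, rfl⟩ | ⟨rfl, rfl⟩⟩
    · exact ⟨g, i, j, hi, hj, rfl, Or.inr ⟨rfl, rfl⟩⟩
    · exact ⟨g, i, j, hi, hj, rfl, Or.inl ⟨rfl, rfl⟩⟩
  · rintro u ρ w u' ρ' w' ⟨g, i, j, hi, hj, rfl, -⟩ ⟨g', i', j', hi', hj', rfl, -⟩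
    exact hd.even g g'

theorem m_inv (hd : Met M s t d) (g : Ga M) (x y : VV M s t) :
    mc d (GdV M s t) (g • x) (g • y) = mc d (GdV M s t) x y :=
  mc_inv hd.dinv gd_smul g x y

theorem m_adj (hst : s ≠ t) (hd : Met M s t d) {x x' : VV M s t} (h : d x x' ≤ 1)
    (y : VV M s t) : mc d (GdV M s t) x y ≤ mc d (GdV M s t) x' y + 2 := by
  have T := hd.tree
  have G := gdS hst hd
  obtain ⟨q, h1, h2, h3⟩ := T.med x x' y
  have h1' : d x q + d q x' = d x x' := h1
  have hq : q = x ∨ q = x' := by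
    by_cases hq : d x q = 0
    · exact Or.inl (T.eq0 _ _ hq).symm
    · exact Or.inr (T.eq0 _ _ (by omega))
  rcases hq with rfl | rfl
  · have h4 := mc_mono T G (Btw.symm T h2)
    have e1 := mc_symm T G y q
    have e2 := mc_symm T G y x'
    have h5 : mc d (GdV M s t) q y ≤ mc d (GdV M s t) x' y := by
      have := mc_mono T G (Btw.symm T h2)
      rw [← mc_symm T G y q, ← mc_symm T G y x']
      exact this
    omega
  · have h4 := mc_add T G h3
    have h5 := mc_small T G (x := x) (y := q) (by omega)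
    omega

theorem gs_sub (hd : Met M s t d) (hst : s ≠ t) {x z y : VV M s t} (h : Btw d x z y) :
    GS d (GdV M s t) z y ⊆ GS d (GdV M s t) x y := by
  rintro ρ ⟨u, w, hg, he⟩
  refine ⟨u, w, hg, ?_⟩
  have T := hd.tree
  have h1 := T.tri x z u
  have h2 := ((gdS hst hd).dist u ρ w hg).2.2
  have h3 := T.tri x u y
  have h4 := T.tri u w y
  unfold Btw at h
  omega

theorem gs_self (hd : Met M s t d) (hst : s ≠ t) (z y : VV M s t) :
    z ∉ GS d (GdV M s t) z y := by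
  rintro ⟨u, w, hg, he⟩
  have T := hd.tree
  have h1 := (gdS hst hd).dist u z w hg
  have h2 := T.symm z u
  have h3 := T.tri z w y
  omega

theorem mc_cons (hst : s ≠ t) (hd : Met M s t d) {x z y : VV M s t} (h : Btw d x z y)
    (hz : z ∈ GS d (GdV M s t) x y) :
    1 + mc d (GdV M s t) z y ≤ mc d (GdV M s t) x y := by
  unfold mc
  have hf := gs_finite hd.tree (gdS hst hd) z y
  rw [add_comm, ← Set.ncard_insert_of_notMem (gs_self hd hst z y) hf]
  refine Set.ncard_le_ncard ?_ (gs_finite hd.tree (gdS hst hd) x y)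
  intro a ha
  rcases ha with rfl | ha
  · exact hz
  · exact gs_sub hd hst h ha

theorem gp_aux (hst : s ≠ t) (hd : Met M s t d) (es : List ℤ) : ∀ (x y : Ga M) (b : Bool),
    ((x = gn M s ∧ y = gn M t ∧ b = true) ∨ (x = gn M t ∧ y = gn M s ∧ b = false)) →
    (∀ e ∈ es, e ≠ 0) → gp es ≤ mc d (GdV M s t) (vr M s t 1) (vr M s t (ev x y es)) := by
  induction es with
  | nil =>
    intro x y b _ _
    exact Nat.zero_le _
  | cons e es ih =>
    rcases es with _ | ⟨e', es⟩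
    · intro x y b _ _
      exact Nat.zero_le _
    intro x y b hxy h0
    have hyx : (y = gn M s ∧ x = gn M t ∧ (!b) = true) ∨
        (y = gn M t ∧ x = gn M s ∧ (!b) = false) := by
      rcases hxy with ⟨h1, h2, h3⟩ | ⟨h1, h2, h3⟩
      · right
        rw [h3]
        exact ⟨h2, h1, rfl⟩
      · left
        rw [h3]
        exact ⟨h2, h1, rfl⟩
    have ih' := ih y x (!b) hyx fun a ha => h0 a (List.mem_cons_of_mem _ ha)
    have halt : Alt (PP M s t) (QQ M s t) (RR M s t) b (evl x y (e :: e' :: es)) := by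
      rcases hxy with ⟨h1, h2, h3⟩ | ⟨h1, h2, h3⟩
      · rw [h1, h2, h3]
        exact (alt_evl hst h0).1
      · rw [h1, h2, h3]
        exact (alt_evl hst h0).2
    have l1 := hd.len b [x ^ e] (evl y x (e' :: es)) halt
    have l2 := hd.len b [x ^ e, y ^ e'] (evl x y es) halt
    have hp1 : ([x ^ e] ++ evl y x (e' :: es)).prod = ev x y (e :: e' :: es) := by
      rw [← evl_prod]
      rfl
    have hp2 : ([x ^ e, y ^ e'] ++ evl x y es).prod = ev x y (e :: e' :: es) := by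
      rw [← evl_prod]
      rfl
    rw [hp1] at l1
    rw [hp2] at l2
    simp only [List.prod_cons, List.prod_nil, mul_one, List.length_cons, List.length_nil] at l1 l2
    have hm : mc d (GdV M s t) (vr M s t (x ^ e)) (vr M s t (ev x y (e :: e' :: es))) =
        mc d (GdV M s t) (vr M s t 1) (vr M s t (ev y x (e' :: es))) := by
      rw [← m_inv hd (x ^ e) (vr M s t 1), smul_vr, smul_vr, mul_one]
      rfl
    by_cases hodd : Odd e ∧ Odd e'
    · have hgp : gp (e :: e' :: es) = 1 + gp (e' :: es) := by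
        simp only [gp]
        rw [if_pos hodd]
      rw [hgp]
      have hz : vr M s t (x ^ e) ∈
          GS d (GdV M s t) (vr M s t 1) (vr M s t (ev x y (e :: e' :: es))) := by
        refine ⟨vr M s t 1, vr M s t (x ^ e * y ^ e'), ?_, ?_⟩
        · rcases hxy with ⟨h1, h2, h3⟩ | ⟨h1, h2, h3⟩
          · refine ⟨x ^ e, -e, e', hodd.1.neg, hodd.2, rfl, Or.inl ⟨?_, ?_⟩⟩
            · rw [h1, ← zpow_add, add_neg_cancel, zpow_zero]
            · rw [h2]
          · refine ⟨x ^ e, e', -e, hodd.2, hodd.1.neg, rfl, Or.inr ⟨?_, ?_⟩⟩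
            · rw [h2]
            · rw [h1, ← zpow_add, add_neg_cancel, zpow_zero]
        · have h5 := l2.2
          have h6 := l2.1
          have h7 := hd.tree.refl (vr M s t 1)
          unfold Btw at h5
          omega
      have := mc_cons hst hd l1.2 hz
      rw [hm] at this
      omega
    · have hgp : gp (e :: e' :: es) = gp (e' :: es) := by
        simp only [gp]
        rw [if_neg hodd, zero_add]
      rw [hgp]
      refine ih'.trans ?_
      rw [← hm]
      exact Set.ncard_le_ncard (gs_sub hd hst l1.2) (gs_finite hd.tree (gdS hst hd) _ _)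

theorem gp_le (hst : s ≠ t) (hd : Met M s t d) {es : List ℤ} (h0 : ∀ e ∈ es, e ≠ 0) :
    gp es ≤ mc d (GdV M s t) (vr M s t 1) (vr M s t (ev (gn M s) (gn M t) es)) ∧
      gp es ≤ mc d (GdV M s t) (vr M s t 1) (vr M s t (ev (gn M t) (gn M s) es)) :=
  ⟨gp_aux hst hd es _ _ true (Or.inl ⟨rfl, rfl, rfl⟩) h0,
    gp_aux hst hd es _ _ false (Or.inr ⟨rfl, rfl, rfl⟩) h0⟩

end AHX
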