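import Pool.Agent.AHX.AppDefs
import Pool.Agent.AHX.K0A

set_option autoImplicit false

/-!
# AHX module MINF: the Artin group as a quotient

`Minf M hst` is the Coxeter matrix `M` with the entry `s, t` replaced by infinity (`0`).

* `exists_proj`: `exists_lift`; every relation of `Minf M hst` is a relation of `M` (`gen_rel`); surjective by
  `gen_top`.
* `ker_proj`, `≥`: an element of `NL l` is `g n g⁻¹`, `n = phi w`, `w` in the normal closure of the relator
  (`nl_mem`); `π ∘ phi` kills the relator (`altp_hom`, `gen_rel`), so `π n = 1`.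
  `≤`: let `K = ⨆ l, NL l`, a normal subgroup (`nl_conj`).  By `exists_lift` for `M` there is
  `ψ : Art M univ →* Γ ⧸ K` with `ψ (gen i)` the class of `gn i`: a relation of `M` for `{i, j} ≠ {s, t}` is a
  relation of `Minf M hst`; the relation for `i = s`, `j = t` (if `M s t ≠ 0`): the relator
  `phi (...)` is in `NN = NL ↑1` (`nl_mem` for `g = 1`), so its class is trivial; for `i = t`, `j = s` by symmetry
  (`M t s = M s t`).  `ψ ∘ π` is the quotient homomorphism (`hom_ext`), so the kernel of `π` is contained in `K`.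
* `altp_range`: induction on `n`, for all `a`, `b` (`List.range_succ_eq_map`).
-/

namespace AHX

variable {B : Type}

open Classical in
/-- The Coxeter matrix with the entry `s, t` replaced by infinity. -/
noncomputable def Minf (M : CoxeterMatrix B) {s t : B} (hst : s ≠ t) : CoxeterMatrix B where
  M := Matrix.of fun i j => if (i = s ∧ j = t) ∨ (i = t ∧ j = s) then 0 else M.M i j
  isSymm := by
    ext i j
    simp only [Matrix.transpose_apply, Matrix.of_apply]
    rw [M.symmetric j i]
    congr 1
    simp only [eq_iff_iff]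
    tauto
  diagonal i := by
    simp only [Matrix.of_apply]
    rw [if_neg]
    · exact M.diagonal i
    · rintro (⟨h1, h2⟩ | ⟨h1, h2⟩)
      · exact hst (h1 ▸ h2)
      · exact hst (h2 ▸ h1)
  off_diagonal i j hij := by
    simp only [Matrix.of_apply]
    split_ifs
    · simp
    · exact M.off_diagonal i j hij

variable {M : CoxeterMatrix B} {s t : B}

theorem minf_st (hst : s ≠ t) : (Minf M hst).M s t = 0 := by
  simp [Minf]

theorem minf_ne (hst : s ≠ t) {i j : B} (h : ¬ ((i = s ∧ j = t) ∨ (i = t ∧ j = s))) :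
    (Minf M hst).M i j = M.M i j := by
  simp only [Minf, Matrix.of_apply]
  rw [if_neg h]

private theorem minf_ts (hst : s ≠ t) : (Minf M hst).M t s = 0 := by
  simp [Minf]

theorem minf_conn (hst : s ≠ t) (h2 : M.M s t ≠ 2)
    (hc : (SimpleGraph.fromRel (fun i j : B => M.M i j ≠ 2)).Connected) :
    (SimpleGraph.fromRel (fun i j : B => (Minf M hst).M i j ≠ 2)).Connected := by
  have h0 : ∀ i j : B, M.M i j ≠ 2 → (Minf M hst).M i j ≠ 2 := by
    intro i j hij
    by_cases h : (i = s ∧ j = t) ∨ (i = t ∧ j = s)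
    · rcases h with ⟨rfl, rfl⟩ | ⟨rfl, rfl⟩
      · rw [minf_st]
        exact two_ne_zero.symm
      · rw [minf_ts]
        exact two_ne_zero.symm
    · rw [minf_ne hst h]
      exact hij
  refine hc.mono ?_
  intro a b hab
  rw [SimpleGraph.fromRel_adj] at hab ⊢
  exact ⟨hab.1, hab.2.imp (h0 a b) (h0 b a)⟩

theorem exists_proj (hst : s ≠ t) : ∃ π : Ga (Minf M hst) →* Art M Set.univ,
    (∀ i, π (gn (Minf M hst) i) = gen M Set.univ i) ∧ Function.Surjective π := by
  obtain ⟨π, hπ⟩ := exists_lift (M := Minf M hst) (X := Set.univ) (fun i => gen M Set.univ i)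
    (fun i hi => absurd (Set.mem_univ i) hi) (by
      intro i _ j _ hm
      have h : ¬ ((i = s ∧ j = t) ∨ (i = t ∧ j = s)) := by
        rintro (⟨rfl, rfl⟩ | ⟨rfl, rfl⟩)
        · exact hm (minf_st hst)
        · exact hm (minf_ts hst)
      rw [minf_ne hst h] at hm ⊢
      exact gen_rel (Set.mem_univ i) (Set.mem_univ j) hm)
  refine ⟨π, hπ, ?_⟩
  rw [← MonoidHom.range_eq_top, eq_top_iff, ← gen_top (M := M) (X := Set.univ),
    Subgroup.closure_le]
  rintro _ ⟨i, _, rfl⟩
  exact ⟨_, hπ i⟩

private theorem phi_rel (M' : CoxeterMatrix B) (s t : B) {H : Type} [Group H] (π : Ga M' →* H)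
    (k : ℕ) : π (phi M' s t (altp (FreeGroup.of true) (FreeGroup.of false) k *
      (altp (FreeGroup.of false) (FreeGroup.of true) k)⁻¹)) =
      altp (π (gn M' s)) (π (gn M' t)) k * (altp (π (gn M' t)) (π (gn M' s)) k)⁻¹ := by
  rw [map_mul, map_mul, map_inv, map_inv, altp_hom, altp_hom, altp_hom, altp_hom]
  have h1 : phi M' s t (FreeGroup.of true) = gn M' s := by
    unfold phi
    rw [FreeGroup.lift_apply_of]
    simp
  have h2 : phi M' s t (FreeGroup.of false) = gn M' t := by
    unfold phi
    rw [FreeGroup.lift_apply_of]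
    simp
  rw [h1, h2]

theorem ker_proj (hst : s ≠ t) {π : Ga (Minf M hst) →* Art M Set.univ}
    (hπ : ∀ i, π (gn (Minf M hst) i) = gen M Set.univ i) :
    π.ker = ⨆ l, NL (Minf M hst) s t (M.M s t) l := by
  apply le_antisymm
  · set K := ⨆ l, NL (Minf M hst) s t (M.M s t) l with hK
    have hle : ∀ l, NL (Minf M hst) s t (M.M s t) l ≤ K := fun l => le_iSup _ l
    have hN : K.Normal := by
      refine ⟨fun n hn g => ?_⟩
      have h1 : K.map (MulAut.conj g).toMonoidHom ≤ K := by
        conv_lhs => rw [hK]
        rw [Subgroup.map_iSup, iSup_le_iff]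
        intro l
        rintro _ ⟨x, hx, rfl⟩
        exact hle (g • l) (nl_conj g hx)
      exact h1 ⟨n, hn, rfl⟩
    have hrel : altp (QuotientGroup.mk' K (gn (Minf M hst) s)) (QuotientGroup.mk' K
        (gn (Minf M hst) t)) (M.M s t) = altp (QuotientGroup.mk' K (gn (Minf M hst) t))
          (QuotientGroup.mk' K (gn (Minf M hst) s)) (M.M s t) := by
      by_cases hk : M.M s t = 0
      · rw [hk]
        rfl
      · rw [← mul_inv_eq_one, ← phi_rel]
        show (QuotientGroup.mk _ : Ga (Minf M hst) ⧸ K) = 1
        rw [QuotientGroup.eq_one_iff]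
        refine hle ((1 : Ga (Minf M hst)) : Ga (Minf M hst) ⧸ K0 (Minf M hst) s t) ?_
        rw [nl_mem rfl]
        refine ⟨_, ⟨_, Subgroup.subset_normalClosure ⟨hk, rfl⟩, rfl⟩, by group⟩
    obtain ⟨ψ, hψ⟩ := exists_lift (M := M) (X := Set.univ)
      (fun i => QuotientGroup.mk' K (gn (Minf M hst) i))
      (fun i hi => absurd (Set.mem_univ i) hi) (by
        intro i _ j _ hm
        by_cases h : (i = s ∧ j = t) ∨ (i = t ∧ j = s)
        · rcases h with ⟨rfl, rfl⟩ | ⟨rfl, rfl⟩
          · exact hrel
          · rw [M.symmetric]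
            exact hrel.symm
        · rw [← altp_hom, ← altp_hom]
          congr 1
          have h1 := minf_ne (M := M) hst h
          rw [← h1] at hm ⊢
          exact gen_rel (Set.mem_univ i) (Set.mem_univ j) hm)
    have hcomp : ψ.comp π = QuotientGroup.mk' K := by
      apply hom_ext
      intro i _
      rw [MonoidHom.comp_apply]
      have h1 : π (gen (Minf M hst) Set.univ i) = gen M Set.univ i := hπ i
      rw [h1, hψ]
      rfl
    intro x hx
    have h1 : ψ.comp π x = 1 := by
      rw [MonoidHom.comp_apply, MonoidHom.mem_ker.1 hx, map_one]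
    rw [hcomp] at h1
    exact (QuotientGroup.eq_one_iff x).1 h1
  · rw [iSup_le_iff]
    intro l x hx
    obtain ⟨g, rfl⟩ := QuotientGroup.mk_surjective l
    obtain ⟨n, ⟨w, hw, rfl⟩, rfl⟩ := (nl_mem rfl).1 hx
    have h1 : Subgroup.normalClosure (brel (M.M s t)) ≤
        (π.comp (phi (Minf M hst) s t)).ker := by
      apply Subgroup.normalClosure_le_normal
      rintro r ⟨hk, rfl⟩
      show π (phi (Minf M hst) s t _) = 1
      rw [phi_rel, hπ, hπ, gen_rel (Set.mem_univ s) (Set.mem_univ t) hk, mul_inv_cancel]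
    have h2 : π (phi (Minf M hst) s t w) = 1 := h1 hw
    rw [MonoidHom.mem_ker, map_mul, map_mul, map_inv, h2]
    simp

theorem altp_range {H : Type} [Monoid H] (a b : H) (n : ℕ) :
    altp a b n = ((List.range n).map (fun k => if Even k then a else b)).prod := by
  induction n generalizing a b with
  | zero => rfl
  | succ n ih =>
    rw [List.range_succ_eq_map, List.map_cons, List.prod_cons, List.map_map]
    show a * altp b a n = _
    rw [ih]
    congr 1
    congr 1
    apply List.map_congr_left
    intro k _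
    simp only [Function.comp_apply, Nat.succ_eq_add_one, Nat.even_add_one]
    by_cases h : Even k <;> simp [h]

/-- the two ways to write the relations -/
theorem rels_eq (M : CoxeterMatrix B) : artRels M Set.univ =
    {r : FreeGroup B | ∃ i j : B, M.M i j ≠ 0 ∧
      r = ((List.range (M.M i j)).map
            (fun k => if Even k then FreeGroup.of i else FreeGroup.of j)).prod *
          (((List.range (M.M i j)).map
            (fun k => if Even k then FreeGroup.of j else FreeGroup.of i)).prod)⁻¹} := by
  ext r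
  constructor
  · rintro (⟨i, _, j, _, hm, rfl⟩ | ⟨i, hi, _⟩)
    · exact ⟨i, j, hm, by rw [altp_range, altp_range]⟩
    · exact absurd (Set.mem_univ i) hi
  · rintro ⟨i, j, hm, rfl⟩
    exact Or.inl ⟨i, Set.mem_univ i, j, Set.mem_univ j, hm, by rw [altp_range, altp_range]⟩

end AHX
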