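import Pool.Agent.AHX.Elec

set_option autoImplicit false

/-!
# AHX module QUO: the quotient metric

`D` is an integer metric on `V` invariant under `Γ`, `K` a subgroup.

* `dQ_lift`: by definition (`Nat.sInf_mem`) there are lifts `x', y'` with `D x' y' = dQ ..`; `x = k • x'`
  with `k ∈ K` (`mk_eq`), take `y = k • y'`.
* `geoQ`: lift consecutively.  `mid`: lift the pair, split upstairs, both parts are `≤` and the sum is
  the quotient distance (`tri`).
-/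

namespace AHX

variable {V Γ : Type} [Group Γ] [MulAction Γ V] {D : V → V → ℕ} {K : Subgroup Γ} {x y : V}

theorem mk_surj (a : Orb V K) : ∃ x, Orb.mk K x = a :=
  Quotient.exists_rep a

theorem mk_eq : Orb.mk K x = Orb.mk K y ↔ ∃ k ∈ K, y = k • x :=
  ⟨fun h => Quotient.exact h, fun h => Quotient.sound (s := orbRel V K) h⟩

theorem mk_smul {k : Γ} (hk : k ∈ K) (x : V) : Orb.mk K (k • x) = Orb.mk K x :=
  mk_eq.2 ⟨k⁻¹, K.inv_mem hk, (inv_smul_smul k x).symm⟩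

theorem dQ_le (x y : V) : dQ D K (Orb.mk K x) (Orb.mk K y) ≤ D x y :=
  Nat.sInf_le ⟨x, y, rfl, rfl, rfl⟩

private theorem dQ_real (D : V → V → ℕ) (a b : Orb V K) :
    ∃ x y : V, Orb.mk K x = a ∧ Orb.mk K y = b ∧ D x y = dQ D K a b := by
  obtain ⟨x, rfl⟩ := mk_surj a
  obtain ⟨y, rfl⟩ := mk_surj b
  exact Nat.sInf_mem (s := {k | ∃ x' y' : V, Orb.mk K x' = Orb.mk K x ∧
    Orb.mk K y' = Orb.mk K y ∧ D x' y' = k}) ⟨D x y, x, y, rfl, rfl, rfl⟩

theorem dQ_lift (hD : ∀ (g : Γ) x y, D (g • x) (g • y) = D x y) (x : V) (b : Orb V K) :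
    ∃ y, Orb.mk K y = b ∧ D x y = dQ D K (Orb.mk K x) b := by
  obtain ⟨x', y', h1, h2, h3⟩ := dQ_real D (Orb.mk K x) b
  obtain ⟨k, hk, rfl⟩ := mk_eq.1 h1
  exact ⟨k • y', by rw [mk_smul hk, h2], by rw [hD, h3]⟩

theorem geoQ (hD : ∀ (g : Γ) x y, D (g • x) (g • y) = D x y) (hg : Burn.Geo D) :
    Burn.Geo (dQ D K) := by
  have hs : ∀ a b : Orb V K, dQ D K a b ≤ dQ D K b a := by
    intro a b
    obtain ⟨x, y, rfl, rfl, h3⟩ := dQ_real D b a
    rw [← h3, hg.symm x y]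
    exact dQ_le y x
  have ht : ∀ a b c : Orb V K, dQ D K a c ≤ dQ D K a b + dQ D K b c := by
    intro a b c
    obtain ⟨x, rfl⟩ := mk_surj a
    obtain ⟨y, rfl, h1⟩ := dQ_lift hD x b
    obtain ⟨z, rfl, h2⟩ := dQ_lift hD y c
    have h3 := dQ_le (D := D) (K := K) x z
    have h4 := hg.tri x y z
    omega
  refine ⟨?_, fun a b => le_antisymm (hs a b) (hs b a), ht, ?_⟩
  · intro a
    obtain ⟨x, rfl⟩ := mk_surj a
    have h1 := dQ_le (D := D) (K := K) x x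
    rw [hg.refl] at h1
    exact Nat.le_zero.1 h1
  · intro a b s t h
    obtain ⟨x, rfl⟩ := mk_surj a
    obtain ⟨y, rfl, h1⟩ := dQ_lift hD x b
    obtain ⟨w, h2, h3⟩ := hg.mid x y s t (by rw [h1, h])
    have h4 := dQ_le (D := D) (K := K) x w
    have h5 := dQ_le (D := D) (K := K) w y
    have h6 := ht (Orb.mk K x) (Orb.mk K w) (Orb.mk K y)
    exact ⟨Orb.mk K w, by omega, by omega⟩

theorem dQ_eq0 (hD : ∀ (g : Γ) x y, D (g • x) (g • y) = D x y) (hg : Burn.Geo D)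
    (h0 : ∀ x y, D x y = 0 → x = y) {a b : Orb V K} (h : dQ D K a b = 0) : a = b := by
  obtain ⟨x, rfl⟩ := mk_surj a
  obtain ⟨y, rfl, h1⟩ := dQ_lift hD x b
  rw [h] at h1
  rw [h0 x y h1]

theorem tight_smul (hD : ∀ (g : Γ) x y, D (g • x) (g • y) = D x y) {k : Γ} (hk : k ∈ K) :
    Tight D K (k • x) (k • y) ↔ Tight D K x y := by
  unfold Tight
  rw [hD, mk_smul hk, mk_smul hk]

/-- there is a tight pair over every pair of orbits, with given first point -/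
theorem tight_lift (hD : ∀ (g : Γ) x y, D (g • x) (g • y) = D x y) (x : V) (b : Orb V K) :
    ∃ y, Orb.mk K y = b ∧ Tight D K x y := by
  obtain ⟨y, rfl, h1⟩ := dQ_lift hD x b
  exact ⟨y, rfl, h1⟩

end AHX
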