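import Pool.Agent.AHX.AppDefs

set_option autoImplicit false

/-!
# AHX module SL2: a representation of the dihedral Artin group

`c = 2 cos (π / k)`, `A = [1, c; 0, 1]`, `B = [1, 0; -c, 1]` in `SL(2, ℝ)`, `θ = π / k`,
`S n = sin (n θ) / sin θ`, so `S 0 = 0`, `S 1 = 1`, `S 2 = c`, `S (n+1) = c * S n - S (n-1)`.

* `sl2_braid`: by induction (period 4 in the signs) the alternating products have entries `± S`:
  `A = [S1, S2; S0, S1]`, `A B = [-S3, S2; -S2, S1]`, `A B A = [-S3, -S4; -S2, -S3]`,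
  `A B A B = [S5, -S4; S4, -S3]`, `A B A B A = [S5, S6; S4, S5]`, ...;
  `B = [S1, S0; -S2, S1]`, `B A = [S1, S2; -S2, -S3]`, `B A B = [-S3, S2; S4, -S3]`, ....
  For `n = k`: `S k = 0`, `S (k-1) = 1`, `S (k+1) = -1`.  Another way: `A B` satisfies
  `X ^ 2 = (2 - c ^ 2) X - 1`, trace `- 2 cos (2 θ)`, so `(A B) ^ n` is known
  (`k` even: `(A B) ^ (k/2)` is scalar, so equal to `(B A) ^ (k/2) = A⁻¹ (A B) ^ (k/2) A`;
  `k = 2 n + 1` odd: one has to check `(A B) ^ n A = B (A B) ^ n`).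
* `sl2_free`: `φ j = sin ((j+1) θ) / sin (j θ)`, `1 ≤ j ≤ k - 2`; `φ 1 = c`, `φ (j+1) = c - 1 / φ j`,
  `φ` is decreasing and positive for `j ≤ k - 2`; `1 / φ j ≤ c` for `j ≤ k - 2` (as
  `φ (j+1) ≥ 0`), and `φ j + 1 / φ j ≤ 2 c`.
  Let `es = [e₁, ..., e_r]` be a list of nonzero integers and let the last letter (the one which acts
  first on vectors) be `B`; let it act on `(1, 0)`.  Every letter changes one coordinate:
  `B ^ e`: `y ↦ y - e c x`, `A ^ e`: `x ↦ x + e c y`.  Let `r` be the quotient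
  `|changed coordinate| / |other coordinate|` after a step.  First step: `r = |e| c ≥ c = φ 1`.  Next
  steps: `r' ≥ |e| c - 1 / r`.  Let `G` be the number of pairs of consecutive odd exponents among
  those used so far, `G ≤ k - 4`.  Claim: both coordinates are nonzero, `r ≥ φ (G + 2)`, and `r ≥ c` if
  the last used exponent `e` is even.  Step with exponent `e`:
   - `e` even: `r' ≥ 2 c - 1 / r ≥ 2 c - 1 / φ (G+2) ≥ c`;
   - `e` odd, previous exponent even (`r ≥ c`): `r' ≥ c - 1 / c = φ 2 ≥ φ (G+2)`;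
   - `e` odd, previous exponent odd: `G' = G + 1`, `r' ≥ c - 1 / φ (G+2) = φ (G+3) = φ (G'+2)`.
  (For a list with one member only the first step is needed.)  So at the end the second coordinate is
  nonzero and the product is not `1`.  If the last letter is `A`, let it act on `(0, 1)`.
* `exists_ev`: every element of the free group is an alternating product with nonzero exponents:
  induction (`FreeGroup.induction_on` or closure induction): multiply on the left by
  `of true ^ (± 1)`, `of false ^ (± 1)`.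
-/

namespace AHX

/-- `A` -/
noncomputable def slA (c : ℝ) : Matrix.SpecialLinearGroup (Fin 2) ℝ :=
  ⟨!![1, c; 0, 1], by simp [Matrix.det_fin_two]⟩

/-- `B` -/
noncomputable def slB (c : ℝ) : Matrix.SpecialLinearGroup (Fin 2) ℝ :=
  ⟨!![1, 0; -c, 1], by simp [Matrix.det_fin_two]⟩

private lemma mulA {c : ℝ} {X : Matrix.SpecialLinearGroup (Fin 2) ℝ} {a b d e : ℝ}
    (h : X.1 = !![a, b; d, e]) : (slA c * X).1 = !![a + c * d, b + c * e; d, e] := by
  have h1 : (slA c * X).1 = !![1, c; 0, 1] * X.1 := rfl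
  rw [h1, h, Matrix.mul_fin_two]
  congr 1
  simp

private lemma mulB {c : ℝ} {X : Matrix.SpecialLinearGroup (Fin 2) ℝ} {a b d e : ℝ}
    (h : X.1 = !![a, b; d, e]) : (slB c * X).1 = !![a, b; d - c * a, e - c * b] := by
  have h1 : (slB c * X).1 = !![1, 0; -c, 1] * X.1 := rfl
  rw [h1, h, Matrix.mul_fin_two]
  have e1 : -c * a + 1 * d = d - c * a := by ring
  have e2 : -c * b + 1 * e = e - c * b := by ring
  rw [e1, e2]
  simp

private lemma mat_congr {a b d e a' b' d' e' : ℝ} (h1 : a = a') (h2 : b = b') (h3 : d = d')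
    (h4 : e = e') : (!![a, b; d, e] : Matrix (Fin 2) (Fin 2) ℝ) = !![a', b'; d', e'] := by
  rw [h1, h2, h3, h4]

private lemma form_step (c : ℝ) (S : ℕ → ℝ) (hr : ∀ n, S (n + 2) = c * S (n + 1) - S n) (n : ℕ)
    (hP : (altp (slA c) (slB c) (n + 1)).1 = !![S (n + 1), S (n + 2); S n, S (n + 1)])
    (hQ : (altp (slB c) (slA c) (n + 1)).1 = !![S (n + 1), -S n; -S (n + 2), S (n + 1)]) :
    (altp (slA c) (slB c) (n + 4 + 1)).1 =
        !![S (n + 4 + 1), S (n + 4 + 2); S (n + 4), S (n + 4 + 1)] ∧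
      (altp (slB c) (slA c) (n + 4 + 1)).1 =
        !![S (n + 4 + 1), -S (n + 4); -S (n + 4 + 2), S (n + 4 + 1)] := by
  have r0 : S n = c * S (n + 1) - S (n + 2) := by linarith [hr n]
  have r3 : S (n + 3) = c * S (n + 2) - S (n + 1) := hr (n + 1)
  have r4 : S (n + 4) = c * S (n + 3) - S (n + 2) := hr (n + 2)
  have r5 : S (n + 4 + 1) = c * S (n + 4) - S (n + 3) := hr (n + 3)
  have r6 : S (n + 4 + 2) = c * S (n + 4 + 1) - S (n + 4) := hr (n + 4)
  have p1 := mulA (c := c) (mulB (c := c) (mulA (c := c) (mulB (c := c) hP)))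
  have q1 := mulB (c := c) (mulA (c := c) (mulB (c := c) (mulA (c := c) hQ)))
  constructor
  · refine p1.trans (mat_congr ?_ ?_ ?_ ?_) <;> simp only [r6, r5, r4, r3, r0] <;> ring
  · refine q1.trans (mat_congr ?_ ?_ ?_ ?_) <;> simp only [r6, r5, r4, r3, r0] <;> ring

private lemma forms1 (c : ℝ) (S : ℕ → ℝ) (h0 : S 0 = 0) (h1 : S 1 = 1)
    (hr : ∀ n, S (n + 2) = c * S (n + 1) - S n) (m : ℕ) :
    (altp (slA c) (slB c) (4 * m + 1)).1 =
        !![S (4 * m + 1), S (4 * m + 2); S (4 * m), S (4 * m + 1)] ∧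
      (altp (slB c) (slA c) (4 * m + 1)).1 =
        !![S (4 * m + 1), -S (4 * m); -S (4 * m + 2), S (4 * m + 1)] := by
  induction m with
  | zero =>
    have h2 : S 2 = c := by rw [hr 0, h1, h0]; ring
    constructor
    · show (slA c * 1).1 = _
      rw [mul_one]
      show !![1, c; 0, 1] = _
      simp [h0, h1, h2]
    · show (slB c * 1).1 = _
      rw [mul_one]
      show !![1, 0; -c, 1] = _
      simp [h0, h1, h2]
  | succ m ih => exact form_step c S hr (4 * m) ih.1 ih.2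

private lemma braid_of (c : ℝ) (S : ℕ → ℝ) (h0 : S 0 = 0) (h1 : S 1 = 1)
    (hr : ∀ n, S (n + 2) = c * S (n + 1) - S n) (k : ℕ) (hk : 1 ≤ k) (hS : S k = 0)
    (hS1 : S (k + 1) = -1) : altp (slA c) (slB c) k = altp (slB c) (slA c) k := by
  have hS2 : S (k - 1) = 1 := by
    obtain ⟨j, rfl⟩ : ∃ j, k = j + 1 := ⟨k - 1, by omega⟩
    have := hr j
    rw [show j + 2 = j + 1 + 1 by ring, hS1, hS] at this
    rw [Nat.add_sub_cancel]
    linarith
  apply Subtype.ext
  obtain ⟨m, hm⟩ : ∃ m, k = 4 * m + 1 ∨ k = 4 * m + 2 ∨ k = 4 * m + 3 ∨ k = 4 * m + 4 :=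
    ⟨(k - 1) / 4, by omega⟩
  obtain ⟨hP, hQ⟩ := forms1 c S h0 h1 hr m
  have r3 : S (4 * m + 3) = c * S (4 * m + 2) - S (4 * m + 1) := hr (4 * m + 1)
  have r4 : S (4 * m + 4) = c * S (4 * m + 3) - S (4 * m + 2) := hr (4 * m + 2)
  have r5 : S (4 * m + 5) = c * S (4 * m + 4) - S (4 * m + 3) := hr (4 * m + 3)
  rcases hm with rfl | rfl | rfl | rfl
  · rw [hP, hQ]
    rw [show 4 * m + 1 + 1 = 4 * m + 2 by ring] at hS1
    rw [show 4 * m + 1 - 1 = 4 * m by omega] at hS2
    rw [hS1, hS2]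
    simp
  · rw [show 4 * m + 2 + 1 = 4 * m + 3 by ring] at hS1
    rw [show 4 * m + 2 - 1 = 4 * m + 1 by omega] at hS2
    have p := mulA (c := c) hQ
    have q := mulB (c := c) hP
    refine p.trans (Eq.trans (mat_congr ?_ ?_ ?_ ?_) q.symm)
    · rw [hS]; ring
    · rw [hS, hS2]
      have : S (4 * m) = - c * S (4 * m + 1) * (-1) := by
        have := hr (4 * m)
        rw [hS] at this
        linarith
      rw [this, hS2]; ring
    · rw [hS, hS2]
      have : S (4 * m) = c * S (4 * m + 1) := by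
        have := hr (4 * m)
        rw [hS] at this
        linarith
      rw [this, hS2]; ring
    · rw [hS]; ring
  · rw [show 4 * m + 3 + 1 = 4 * m + 4 by ring] at hS1
    rw [show 4 * m + 3 - 1 = 4 * m + 2 by omega] at hS2
    have p := mulA (c := c) (mulB (c := c) hP)
    have q := mulB (c := c) (mulA (c := c) hQ)
    have r2 : S (4 * m) = c * S (4 * m + 1) - S (4 * m + 2) := by
      have := hr (4 * m)
      linarith
    have r1 : S (4 * m + 1) = c := by
      rw [hS, hS2] at r3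
      linarith
    refine p.trans (Eq.trans (mat_congr ?_ ?_ ?_ ?_) q.symm) <;>
      rw [r2] <;> simp only [hS2, r1] <;> ring
  · rw [show 4 * m + 4 + 1 = 4 * m + 5 by ring] at hS1
    rw [show 4 * m + 4 - 1 = 4 * m + 3 by omega] at hS2
    have p := mulA (c := c) (mulB (c := c) (mulA (c := c) hQ))
    have q := mulB (c := c) (mulA (c := c) (mulB (c := c) hP))
    have r2 : S (4 * m) = c * S (4 * m + 1) - S (4 * m + 2) := by
      have := hr (4 * m)
      linarith
    have r1 : S (4 * m + 2) = c := by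
      rw [hS, hS2] at r4
      linarith
    have r0 : S (4 * m + 1) = c * c - 1 := by
      rw [hS2, r1] at r3
      linarith
    refine p.trans (Eq.trans (mat_congr ?_ ?_ ?_ ?_) q.symm) <;>
      rw [r2] <;> simp only [r1, r0] <;> ring

private lemma sin_rec (θ : ℝ) (n : ℕ) :
    Real.sin ((n + 2 : ℕ) * θ) = 2 * Real.cos θ * Real.sin ((n + 1 : ℕ) * θ) -
      Real.sin (n * θ) := by
  have h1 : ((n + 2 : ℕ) : ℝ) * θ = (n + 1 : ℕ) * θ + θ := by push_cast; ring
  have h2 : (n : ℝ) * θ = (n + 1 : ℕ) * θ - θ := by push_cast; ring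
  rw [h1, h2, Real.sin_add, Real.sin_sub]
  ring

theorem sl2_braid {k : ℕ} (hk : 2 ≤ k) :
    altp (slA (2 * Real.cos (Real.pi / k))) (slB (2 * Real.cos (Real.pi / k))) k =
      altp (slB (2 * Real.cos (Real.pi / k))) (slA (2 * Real.cos (Real.pi / k))) k := by
  set θ := Real.pi / k with hθ
  have hk0 : (0 : ℝ) < k := by exact_mod_cast (by omega : 0 < k)
  have hkθ : (k : ℝ) * θ = Real.pi := by rw [hθ]; field_simp
  have hθ0 : 0 < θ := div_pos Real.pi_pos hk0
  have hθ1 : θ < Real.pi := by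
    have : (2 : ℝ) ≤ k := by exact_mod_cast hk
    nlinarith
  have hs : Real.sin θ ≠ 0 := (Real.sin_pos_of_pos_of_lt_pi hθ0 hθ1).ne'
  refine braid_of _ (fun n => Real.sin (n * θ) / Real.sin θ) (by simp) ?_ ?_ k (by omega) ?_ ?_
  · simp [hs]
  · intro n
    have := sin_rec θ n
    rw [this]
    field_simp
  · simp only [hkθ, Real.sin_pi, zero_div]
  · have h1 : ((k + 1 : ℕ) : ℝ) * θ = Real.pi + θ := by
      push_cast
      rw [add_mul, hkθ, one_mul]
    simp only [h1]
    rw [add_comm, Real.sin_add_pi]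
    field_simp

private lemma slA_zpow (c : ℝ) (e : ℤ) : (slA c ^ e) = slA (e * c) := by
  have hadd : ∀ a b : ℝ, slA a * slA b = slA (a + b) := by
    intro a b
    apply Subtype.ext
    have h := mulA (c := a) (X := slA b) (a := 1) (b := b) (d := 0) (e := 1) rfl
    rw [h]
    show _ = !![1, a + b; 0, 1]
    exact mat_congr (by ring) (by ring) rfl rfl
  induction e using Int.induction_on with
  | zero =>
    apply Subtype.ext
    show (1 : Matrix (Fin 2) (Fin 2) ℝ) = !![1, _; 0, 1]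
    simp [Matrix.one_fin_two]
  | succ n ih =>
    rw [zpow_add_one, ih, hadd]
    congr 1
    push_cast
    ring
  | pred n ih =>
    rw [zpow_sub_one, ih, mul_inv_eq_iff_eq_mul, hadd]
    congr 1
    push_cast
    ring

private lemma slB_zpow (c : ℝ) (e : ℤ) : (slB c ^ e) = slB (e * c) := by
  have hadd : ∀ a b : ℝ, slB a * slB b = slB (a + b) := by
    intro a b
    apply Subtype.ext
    have h := mulB (c := a) (X := slB b) (a := 1) (b := 0) (d := -b) (e := 1) rfl
    rw [h]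
    show _ = !![1, 0; -(a + b), 1]
    exact mat_congr rfl rfl (by ring) (by ring)
  induction e using Int.induction_on with
  | zero =>
    apply Subtype.ext
    show (1 : Matrix (Fin 2) (Fin 2) ℝ) = !![1, 0; _, 1]
    simp [Matrix.one_fin_two]
  | succ n ih =>
    rw [zpow_add_one, ih, hadd]
    congr 1
    push_cast
    ring
  | pred n ih =>
    rw [zpow_sub_one, ih, mul_inv_eq_iff_eq_mul, hadd]
    congr 1
    push_cast
    ring

/-- the invariant -/
private def Inv (c : ℝ) (s : ℕ → ℝ) (G : ℕ) (e : ℤ) (p q : ℝ) : Prop :=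
  q ≠ 0 ∧ |q| * s (G + 3) ≤ |p| * s (G + 2) ∧ (Even e → c * |q| ≤ |p|)

/-- the numbers `sin (n θ)` -/
private structure Sn (k : ℕ) (c : ℝ) (s : ℕ → ℝ) : Prop where
  cpos : 0 < c
  pos : ∀ n, 1 ≤ n → n < k → 0 < s n
  zer : s 0 = 0
  zk : s k = 0
  rc : ∀ n, s (n + 2) = c * s (n + 1) - s n
  dec : ∀ n, s (n + 2) * s 3 - s (n + 3) * s 2 = s n * s 1

private lemma Sn.nn {k : ℕ} {c : ℝ} {s : ℕ → ℝ} (h : Sn k c s) {n : ℕ} (hn : n ≤ k) :
    0 ≤ s n := by
  rcases Nat.eq_zero_or_pos n with h0 | h0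
  · rw [h0, h.zer]
  · rcases Nat.lt_or_ge n k with h1 | h1
    · exact (h.pos n h0 h1).le
    · rw [show n = k by omega, h.zk]

private lemma inv_first {k : ℕ} (hk : 4 ≤ k) {c : ℝ} {s : ℕ → ℝ} (h : Sn k c s) {e : ℤ}
    (he : e ≠ 0) {a q : ℝ} (hq : q ≠ 0) (ha : |a| = |(e : ℝ)| * c) :
    Inv c s 0 e (a * q) q := by
  have h1 : (1 : ℝ) ≤ |(e : ℝ)| := by
    have : (1 : ℤ) ≤ |e| := Int.one_le_abs he
    exact_mod_cast this
  have h2 : c * |q| ≤ |a * q| := by
    rw [abs_mul, ha]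
    nlinarith [mul_nonneg h.cpos.le (abs_nonneg q)]
  refine ⟨hq, ?_, fun _ => h2⟩
  have h3 := h.rc 1
  have h4 := h.pos 1 (by omega) (by omega)
  have h5 := h.pos 2 (by omega) (by omega)
  show |q| * s 3 ≤ |a * q| * s 2
  have h6 : s 3 = c * s 2 - s 1 := h3
  have h7 : |q| * s 3 ≤ |q| * (c * s 2) := mul_le_mul_of_nonneg_left (by linarith) (abs_nonneg _)
  nlinarith

private lemma inv_step {k : ℕ} {c : ℝ} {s : ℕ → ℝ} (h : Sn k c s) {G : ℕ} {e e' : ℤ}
    (he : e ≠ 0) {a p q : ℝ} (ha : |a| = |(e : ℝ)| * c) (hi : Inv c s G e' p q) {G' : ℕ}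
    (hG : (G' = G + 1 ∧ Odd e ∧ Odd e') ∨ (G' = G ∧ ¬ (Odd e ∧ Odd e'))) (hk : G' + 4 ≤ k) :
    Inv c s G' e (q + a * p) p := by
  obtain ⟨hq, h1, h2⟩ := hi
  have hcp := h.cpos
  have hqp : 0 < |q| := abs_pos.2 hq
  have s1 := h.pos 1 (by omega) (by omega)
  have s2 := h.pos (G + 2) (by omega) (by omega)
  have s3 := h.pos (G + 3) (by omega) (by omega)
  have s1' := h.nn (n := G + 1) (by omega)
  have s4 := h.nn (n := G + 4) (by omega)
  have hp : p ≠ 0 := by
    intro h0
    rw [h0, abs_zero, zero_mul] at h1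
    have := mul_pos hqp s3
    linarith
  have hpp : 0 < |p| := abs_pos.2 hp
  have habs : |(e : ℝ)| * c * |p| - |q| ≤ |q + a * p| := by
    have h3 : |a * p| ≤ |q + a * p| + |q| := by
      have : a * p = (q + a * p) + (-q) := by ring
      calc |a * p| = |(q + a * p) + (-q)| := by rw [← this]
        _ ≤ |q + a * p| + |-q| := abs_add_le _ _
        _ = _ := by rw [abs_neg]
    rw [abs_mul, ha] at h3
    linarith
  have he1 : (1 : ℝ) ≤ |(e : ℝ)| := by
    have : (1 : ℤ) ≤ |e| := Int.one_le_abs he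
    exact_mod_cast this
  have habs1 : c * |p| - |q| ≤ |q + a * p| := by
    have : c * |p| ≤ |(e : ℝ)| * c * |p| := by nlinarith [mul_pos hcp hpp]
    linarith
  -- even case
  have hev : Even e → c * |p| ≤ |q + a * p| := by
    intro hee
    have h3 : (2 : ℝ) ≤ |(e : ℝ)| := by
      have h4 : (2 : ℤ) ≤ |e| := by
        obtain ⟨r, hr⟩ := hee
        have : r ≠ 0 := by
          rintro rfl
          exact he (by simpa using hr)
        have h5 := Int.one_le_abs this
        rw [hr, ← two_mul, abs_mul]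
        simp only [Nat.abs_ofNat]
        linarith
      exact_mod_cast h4
    have h4 : 2 * (c * |p|) ≤ |(e : ℝ)| * c * |p| := by nlinarith [mul_pos hcp hpp]
    have h5 : |q| ≤ c * |p| := by
      have h6 := h.rc (G + 2)
      have h7 : s (G + 2) ≤ c * s (G + 3) := by
        have : s (G + 4) = c * s (G + 3) - s (G + 2) := h6
        linarith
      have h8 : |q| * s (G + 3) ≤ (c * |p|) * s (G + 3) := by
        calc |q| * s (G + 3) ≤ |p| * s (G + 2) := h1
          _ ≤ |p| * (c * s (G + 3)) := mul_le_mul_of_nonneg_left h7 hpp.le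
          _ = _ := by ring
      exact le_of_mul_le_mul_right h8 s3
    linarith
  refine ⟨hp, ?_, hev⟩
  rcases hG with ⟨rfl, ho, ho'⟩ | ⟨rfl, hno⟩
  · -- odd, odd
    have h6 : s (G + 4) = c * s (G + 3) - s (G + 2) := h.rc (G + 2)
    show |p| * s (G + 4) ≤ |q + a * p| * s (G + 3)
    rw [h6]
    nlinarith [mul_le_mul_of_nonneg_right habs1 s3.le]
  · by_cases hee : Even e
    · have h3 := hev hee
      have h4 : s (G' + 3) = c * s (G' + 2) - s (G' + 1) := h.rc (G' + 1)
      calc |p| * s (G' + 3) ≤ |p| * (c * s (G' + 2)) :=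
            mul_le_mul_of_nonneg_left (by linarith) hpp.le
        _ = (c * |p|) * s (G' + 2) := by ring
        _ ≤ _ := mul_le_mul_of_nonneg_right h3 s2.le
    · have hoe : Odd e := Int.not_even_iff_odd.1 hee
      have hee' : Even e' := by
        by_contra hc
        exact hno ⟨hoe, Int.not_even_iff_odd.1 hc⟩
      have h3 := h2 hee'
      -- c |q'| ≥ (c² - 1) |p|
      have h4 : (c * c - 1) * |p| ≤ c * |q + a * p| := by
        have := mul_le_mul_of_nonneg_left habs1 hcp.le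
        nlinarith
      have h5 := h.dec G'
      have h6 : s 3 = c * s 2 - s 1 := h.rc 1
      have h7 : s 2 = c * s 1 := by
        have := h.rc 0
        rw [h.zer, sub_zero] at this
        exact this
      have h8 : 0 ≤ s G' * s 1 := mul_nonneg (h.nn (by omega)) s1.le
      have h9 : s (G' + 3) * (c * s 1) ≤ s (G' + 2) * ((c * c - 1) * s 1) := by
        have e1 : s 3 = (c * c - 1) * s 1 := by rw [h6, h7]; ring
        rw [e1, h7] at h5
        linarith
      have h10 : s (G' + 3) * c ≤ s (G' + 2) * (c * c - 1) := by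
        have : (s (G' + 3) * c) * s 1 ≤ (s (G' + 2) * (c * c - 1)) * s 1 := by linarith
        exact le_of_mul_le_mul_right this s1
      have h11 : c * (|p| * s (G' + 3)) ≤ c * (|q + a * p| * s (G' + 2)) := by
        calc c * (|p| * s (G' + 3)) = |p| * (s (G' + 3) * c) := by ring
          _ ≤ |p| * (s (G' + 2) * (c * c - 1)) := mul_le_mul_of_nonneg_left h10 hpp.le
          _ = ((c * c - 1) * |p|) * s (G' + 2) := by ring
          _ ≤ (c * |q + a * p|) * s (G' + 2) := mul_le_mul_of_nonneg_right h4 s2.le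
          _ = _ := by ring
      exact le_of_mul_le_mul_left h11 hcp

private lemma mulA_vec (c : ℝ) (X : Matrix.SpecialLinearGroup (Fin 2) ℝ) (v : Fin 2 → ℝ) :
    ((slA c * X).1.mulVec v) 0 = (X.1.mulVec v) 0 + c * (X.1.mulVec v) 1 ∧
      ((slA c * X).1.mulVec v) 1 = (X.1.mulVec v) 1 := by
  have h1 : (slA c * X).1 = !![1, c; 0, 1] * X.1 := rfl
  rw [h1, ← Matrix.mulVec_mulVec]
  constructor <;> simp [Matrix.mulVec, dotProduct, Fin.sum_univ_two]

private lemma mulB_vec (c : ℝ) (X : Matrix.SpecialLinearGroup (Fin 2) ℝ) (v : Fin 2 → ℝ) :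
    ((slB c * X).1.mulVec v) 1 = (X.1.mulVec v) 1 + (-c) * (X.1.mulVec v) 0 ∧
      ((slB c * X).1.mulVec v) 0 = (X.1.mulVec v) 0 := by
  have h1 : (slB c * X).1 = !![1, 0; -c, 1] * X.1 := rfl
  rw [h1, ← Matrix.mulVec_mulVec]
  constructor
  · simp [Matrix.mulVec, dotProduct, Fin.sum_univ_two]
    ring
  · simp [Matrix.mulVec, dotProduct, Fin.sum_univ_two]

private lemma main_inv {k : ℕ} (hk : 4 ≤ k) {c : ℝ} {s : ℕ → ℝ} (h : Sn k c s) :
    ∀ (es : List ℤ) (e : ℤ), (∀ x ∈ e :: es, x ≠ 0) → gp (e :: es) + 4 ≤ k →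
      (∃ v : Fin 2 → ℝ, (v 0 = 0 ∨ v 1 = 0) ∧
        Inv c s (gp (e :: es)) e (((ev (slA c) (slB c) (e :: es)).1.mulVec v) 0)
          (((ev (slA c) (slB c) (e :: es)).1.mulVec v) 1)) ∧
      (∃ v : Fin 2 → ℝ, (v 0 = 0 ∨ v 1 = 0) ∧
        Inv c s (gp (e :: es)) e (((ev (slB c) (slA c) (e :: es)).1.mulVec v) 1)
          (((ev (slB c) (slA c) (e :: es)).1.mulVec v) 0)) := by
  intro es
  induction es with
  | nil =>
    intro e h0 hg
    have he : e ≠ 0 := h0 e (by simp)
    constructor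
    · refine ⟨![0, 1], Or.inl rfl, ?_⟩
      have e1 : ev (slA c) (slB c) [e] = slA (e * c) * 1 := by
        show slA c ^ e * 1 = _
        rw [slA_zpow]
      rw [e1]
      obtain ⟨a1, a2⟩ := mulA_vec (e * c) 1 ![0, 1]
      rw [a1, a2]
      have b1 : ((1 : Matrix.SpecialLinearGroup (Fin 2) ℝ).1.mulVec ![0, 1]) 0 = (0 : ℝ) := by
        simp
      have b2 : ((1 : Matrix.SpecialLinearGroup (Fin 2) ℝ).1.mulVec ![0, 1]) 1 = (1 : ℝ) := by
        simp
      rw [b1, b2, zero_add]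
      exact inv_first hk h he one_ne_zero (by rw [abs_mul, abs_of_pos h.cpos])
    · refine ⟨![1, 0], Or.inr rfl, ?_⟩
      have e1 : ev (slB c) (slA c) [e] = slB (e * c) * 1 := by
        show slB c ^ e * 1 = _
        rw [slB_zpow]
      rw [e1]
      obtain ⟨a1, a2⟩ := mulB_vec (e * c) 1 ![1, 0]
      rw [a1, a2]
      have b1 : ((1 : Matrix.SpecialLinearGroup (Fin 2) ℝ).1.mulVec ![1, 0]) 1 = (0 : ℝ) := by
        simp
      have b2 : ((1 : Matrix.SpecialLinearGroup (Fin 2) ℝ).1.mulVec ![1, 0]) 0 = (1 : ℝ) := by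
        simp
      rw [b1, b2, zero_add]
      exact inv_first hk h he one_ne_zero (by rw [abs_neg, abs_mul, abs_of_pos h.cpos])
  | cons e' es ih =>
    intro e h0 hg
    have he : e ≠ 0 := h0 e (by simp)
    have hgp : gp (e :: e' :: es) = (if Odd e ∧ Odd e' then 1 else 0) + gp (e' :: es) := rfl
    have hG : (gp (e :: e' :: es) = gp (e' :: es) + 1 ∧ Odd e ∧ Odd e') ∨
        (gp (e :: e' :: es) = gp (e' :: es) ∧ ¬ (Odd e ∧ Odd e')) := by
      by_cases ho : Odd e ∧ Odd e'
      · left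
        rw [hgp, if_pos ho]
        exact ⟨add_comm _ _, ho⟩
      · right
        rw [hgp, if_neg ho, zero_add]
        exact ⟨rfl, ho⟩
    obtain ⟨⟨v, hv, hiv⟩, ⟨w, hw, hiw⟩⟩ := ih e' (fun x hx => h0 x (List.mem_cons_of_mem _ hx))
      (by rcases hG with ⟨h1, _⟩ | ⟨h1, _⟩ <;> omega)
    constructor
    · refine ⟨w, hw, ?_⟩
      have e1 : ev (slA c) (slB c) (e :: e' :: es) =
          slA (e * c) * ev (slB c) (slA c) (e' :: es) := by
        show slA c ^ e * _ = _
        rw [slA_zpow]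
      obtain ⟨a1, a2⟩ := mulA_vec (e * c) (ev (slB c) (slA c) (e' :: es)) w
      rw [e1, a1, a2]
      exact inv_step h he (by rw [abs_mul, abs_of_pos h.cpos]) hiw hG hg
    · refine ⟨v, hv, ?_⟩
      have e1 : ev (slB c) (slA c) (e :: e' :: es) =
          slB (e * c) * ev (slA c) (slB c) (e' :: es) := by
        show slB c ^ e * _ = _
        rw [slB_zpow]
      obtain ⟨a1, a2⟩ := mulB_vec (e * c) (ev (slA c) (slB c) (e' :: es)) v
      rw [e1, a1, a2]
      exact inv_step h he (by rw [abs_neg, abs_mul, abs_of_pos h.cpos]) hiv hG hg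

private lemma inv_ne {k : ℕ} {c : ℝ} {s : ℕ → ℝ} (h : Sn k c s) {G : ℕ} {e : ℤ} {p q : ℝ}
    (hk : G + 4 ≤ k) (hi : Inv c s G e p q) : p ≠ 0 ∧ q ≠ 0 := by
  refine ⟨?_, hi.1⟩
  intro h0
  have h1 := hi.2.1
  rw [h0, abs_zero, zero_mul] at h1
  have := mul_pos (abs_pos.2 hi.1) (h.pos (G + 3) (by omega) (by omega))
  linarith

theorem sl2_free {k : ℕ} (hk : 4 ≤ k) {es : List ℤ} (hne : es ≠ []) (h0 : ∀ e ∈ es, e ≠ 0)
    (hg : gp es + 4 ≤ k) :
    ev (slA (2 * Real.cos (Real.pi / k))) (slB (2 * Real.cos (Real.pi / k))) es ≠ 1 ∧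
      ev (slB (2 * Real.cos (Real.pi / k))) (slA (2 * Real.cos (Real.pi / k))) es ≠ 1 := by
  set θ := Real.pi / k with hθ
  have hk0 : (0 : ℝ) < k := by exact_mod_cast (by omega : 0 < k)
  have hkθ : (k : ℝ) * θ = Real.pi := by rw [hθ]; field_simp
  have hθ0 : 0 < θ := div_pos Real.pi_pos hk0
  have hk4 : (4 : ℝ) ≤ k := by exact_mod_cast hk
  have hθ1 : θ < Real.pi / 2 := by
    have := Real.pi_pos
    nlinarith
  have hS : Sn k (2 * Real.cos θ) (fun n => Real.sin (n * θ)) := by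
    refine ⟨?_, ?_, by simp, ?_, sin_rec θ, ?_⟩
    · have := Real.cos_pos_of_mem_Ioo ⟨by linarith [Real.pi_pos], hθ1⟩
      linarith
    · intro n hn hnk
      apply Real.sin_pos_of_pos_of_lt_pi
      · have : (0 : ℝ) < n := by exact_mod_cast hn
        positivity
      · rw [← hkθ]
        have : (n : ℝ) < k := by exact_mod_cast hnk
        exact mul_lt_mul_of_pos_right this hθ0
    · simp only [hkθ, Real.sin_pi]
    · intro n
      have e1 : ((n + 2 : ℕ) : ℝ) * θ = n * θ + 2 * θ := by push_cast; ring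
      have e2 : ((n + 3 : ℕ) : ℝ) * θ = n * θ + 3 * θ := by push_cast; ring
      have e3 : ((3 : ℕ) : ℝ) * θ = 3 * θ := by push_cast; ring
      have e4 : ((2 : ℕ) : ℝ) * θ = 2 * θ := by push_cast; ring
      have e5 : ((1 : ℕ) : ℝ) * θ = θ := by push_cast; ring
      simp only [e1, e2, e3, e4, e5]
      rw [Real.sin_add, Real.sin_add (n * θ) (3 * θ)]
      have h3 : 3 * θ = 2 * θ + θ := by ring
      rw [h3, Real.sin_add (2 * θ) θ, Real.cos_add (2 * θ) θ]
      have h4 := Real.sin_sq_add_cos_sq (2 * θ)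
      linear_combination (Real.sin (n * θ) * Real.sin θ) * h4
  obtain ⟨e, es', rfl⟩ := List.exists_cons_of_ne_nil hne
  obtain ⟨⟨v, hv, hiv⟩, ⟨w, hw, hiw⟩⟩ := main_inv hk hS es' e h0 hg
  have hv' := inv_ne hS hg hiv
  have hw' := inv_ne hS hg hiw
  constructor
  · intro h1
    rw [h1] at hv'
    simp only [Matrix.SpecialLinearGroup.coe_one, Matrix.one_mulVec] at hv'
    rcases hv with h | h
    · exact hv'.1 h
    · exact hv'.2 h
  · intro h1
    rw [h1] at hw'
    simp only [Matrix.SpecialLinearGroup.coe_one, Matrix.one_mulVec] at hw'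
    rcases hw with h | h
    · exact hw'.2 h
    · exact hw'.1 h

end AHX
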