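import Pool.Agent.AHX.FamB

set_option autoImplicit false

/-!
# AHX module WINDA: the windmill, basic facts

`W : WM ..` is a stage of the windmill, `S = Sg Y U A` is the set of members of the family which are
not in `A` and meet `U`.  All constants: `U ∩ Y l` has measure `≤ 2` for `l ∉ A` (`W.out`).

* `u1_conv`: for `x, y ∈ U1` with `u, v ∈ U`, `d x u ≤ 1`, `d y v ≤ 1`: by `split`, `z` between `x`
  and `y` is between `x` and `u`, or `u` and `v`, or `v` and `y`.  In the first case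
  `d x z + d z u ≤ 1`, so `z = x` or `z = u`.
* `sg_inv`: `h⁻¹ ∈ H`, `W.invA`.
* `pr_u`: `pr_inter` with `A := Y l`, `B := U`.  `pr_u1`: the same with `B := U1 d U`.
* `u1_small`: put `a₀ = pr d U a`, `a₁ = pr d U a'`.  `Y l` meets `U` in some `u`; `a₀` is between
  `a` and `u`, so `a₀ ∈ Y l`; `d a a₀ ≤ 1` (`pr_le`), so `m a a₀ = 0`; the same for `a'`.
  `m a₀ a₁ ≤ 2` by `W.out`.  `m_tri` twice: `m a a' ≤ 0 + 2 + 0 + 4`.
* `near_mem`: if `Y l ∩ Y l'` is not empty, `helly` gives `c ∈ Y l ∩ Y l' ∩ U`; take `a = c`; both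
  `c` and `pr d (Y l) y` are in `Y l ∩ Y l'` (`pr_inter`), so `ov` applies.  Otherwise take
  `a = pr d (Y l) y`, which is equal to `pr d (Y l) u` for `u ∈ U ∩ Y l'` (`pr_const`), which is in
  `U` (`pr_u`).
* `rot_far`: `L ≤ m b (n • b) ≤ m b a' + m a' (n • b) + 2` and `m b a' ≤ m b a + m a a' + 2 ≤ 8`.
-/

namespace AHX

variable {V Γ Λ : Type} [Group Γ] [MulAction Γ V] [MulAction Γ Λ]
  {d m : V → V → ℕ} {Y : Λ → Set V} {N : Λ → Subgroup Γ} {L : ℕ} {x₀ : V} {U : Set V}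
  {H : Subgroup Γ} {A : Set Λ} {x y a b a' : V} {l l' : Λ} {g n h : Γ}

theorem sub_u1 (T : Tree d) (hx : x ∈ U) : x ∈ U1 d U :=
  ⟨x, hx, by rw [T.refl]; omega⟩

theorem u1_conv (T : Tree d) (hU : Conv d U) : Conv d (U1 d U) := by
  rintro x ⟨u, hu, hxu⟩ y ⟨v, hv, hyv⟩ z hz
  rcases T.split hz u with h | h
  · unfold Btw at h
    exact ⟨u, hu, by omega⟩
  · rcases T.split h v with h' | h'
    · exact sub_u1 T (hU u hu v hv z h')
    · unfold Btw at h'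
      have s1 := T.symm v z
      have s2 := T.symm v y
      exact ⟨v, hv, by omega⟩

theorem u1_inv (F : Fam d m Y N L) (W : WM d m Y N L x₀ U H A) (hh : h ∈ H) (hx : x ∈ U1 d U) :
    h • x ∈ U1 d U := by
  obtain ⟨u, hu, hxu⟩ := hx
  exact ⟨h • u, W.invU h hh u hu, by rw [F.dinv]; exact hxu⟩

theorem sg_inv (F : Fam d m Y N L) (W : WM d m Y N L x₀ U H A) (hh : h ∈ H)
    (hl : l ∈ Sg Y U A) : h • l ∈ Sg Y U A := by
  obtain ⟨hA, u, hu, hul⟩ := hl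
  refine ⟨fun hc => hA ?_, h • u, W.invU h hh u hu, F.eqY h l u hul⟩
  have h1 := W.invA h⁻¹ (H.inv_mem hh) _ hc
  rwa [inv_smul_smul] at h1

theorem pr_u (F : Fam d m Y N L) (W : WM d m Y N L x₀ U H A) (hl : l ∈ Sg Y U A) (hx : x ∈ U) :
    pr d (Y l) x ∈ U := by
  obtain ⟨_, u, hu, hul⟩ := hl
  exact pr_inter F.tree (F.conv l) W.conv ⟨u, hul, hu⟩ hx

theorem pr_u1 (F : Fam d m Y N L) (W : WM d m Y N L x₀ U H A) (hl : l ∈ Sg Y U A)
    (hx : x ∈ U1 d U) : pr d (Y l) x ∈ U1 d U := by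
  obtain ⟨_, u, hu, hul⟩ := hl
  exact pr_inter F.tree (F.conv l) (u1_conv F.tree W.conv) ⟨u, hul, sub_u1 F.tree hu⟩ hx

theorem u1_small (F : Fam d m Y N L) (W : WM d m Y N L x₀ U H A) (hl : l ∈ Sg Y U A)
    (ha : a ∈ U1 d U) (hay : a ∈ Y l) (ha' : a' ∈ U1 d U) (hay' : a' ∈ Y l) : m a a' ≤ 6 := by
  obtain ⟨hA, u, hu, hul⟩ := hl
  have key : ∀ b, b ∈ U1 d U → b ∈ Y l →
      pr d U b ∈ U ∧ pr d U b ∈ Y l ∧ m b (pr d U b) = 0 := by
    rintro b ⟨w, hw, hbw⟩ hbY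
    have hg := pr_gate F.tree W.conv ⟨u, hu⟩ b
    refine ⟨hg.1, F.conv l b hbY u hul _ (hg.2 u hu), F.msmall _ _ ?_⟩
    exact le_trans (pr_le F.tree W.conv hw) hbw
  obtain ⟨k1, k2, k3⟩ := key a ha hay
  obtain ⟨k1', k2', k3'⟩ := key a' ha' hay'
  have h1 := W.out l hA _ k1 _ k1' k2 k2'
  have h2 := F.m_tri a (pr d U a) a'
  have h3 := F.m_tri (pr d U a) (pr d U a') a'
  have h4 := F.msymm (pr d U a') a'
  omega

theorem near_mem (F : Fam d m Y N L) (W : WM d m Y N L x₀ U H A) (hl : l ∈ Sg Y U A)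
    (hl' : l' ∈ Sg Y U A) (hne : l ≠ l') (hy : y ∈ Y l') :
    ∃ a ∈ U1 d U, a ∈ Y l ∧ m a (pr d (Y l) y) = 0 := by
  obtain ⟨_, u', hu', hul'⟩ := id hl'
  obtain ⟨_, u, hu, hul⟩ := id hl
  by_cases hd : (Y l ∩ Y l').Nonempty
  · obtain ⟨c, hc1, hc2, hc3⟩ := helly F.tree (F.conv l) (F.conv l') W.conv hd ⟨u, hul, hu⟩
      ⟨u', hul', hu'⟩
    refine ⟨c, sub_u1 F.tree hc3, hc1, ?_⟩
    exact F.ov l l' c _ hne hc1 hc2 (F.prM l y) (pr_inter F.tree (F.conv l) (F.conv l') hd hy)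
  · have hd' : ∀ c ∈ Y l, c ∉ Y l' := fun c hc hc' => hd ⟨c, hc, hc'⟩
    refine ⟨pr d (Y l) u', sub_u1 F.tree (pr_u F W hl hu'), F.prM l u', ?_⟩
    rw [pr_const F.tree (F.conv l) (F.nonempty l) (F.conv l') hd' hul' hy]
    exact F.m_self _

theorem near_u1 (F : Fam d m Y N L) (W : WM d m Y N L x₀ U H A) (hl : l ∈ Sg Y U A)
    (hy : y ∈ U1 d U) : ∃ a ∈ U1 d U, a ∈ Y l ∧ m a (pr d (Y l) y) = 0 :=
  ⟨pr d (Y l) y, pr_u1 F W hl hy, F.prM l y, F.m_self _⟩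

theorem rot_far (F : Fam d m Y N L) (W : WM d m Y N L x₀ U H A) (hl : l ∈ Sg Y U A)
    (hn : n ∈ N l) (h1 : n ≠ 1) (ha : a ∈ U1 d U) (hay : a ∈ Y l) (hb : b ∈ Y l)
    (h0 : m a b = 0) (ha' : a' ∈ U1 d U) (hay' : a' ∈ Y l) : L ≤ m a' (n • b) + 10 := by
  have h2 := F.big l n hn h1 b hb
  have h3 := F.m_tri b a' (n • b)
  have h4 := F.m_tri b a a'
  have h5 := u1_small F W hl ha hay ha' hay'
  have h6 := F.msymm b a
  omega

end AHX
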