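import Pool.Agent.AHX.WindA

set_option autoImplicit false
set_option linter.unusedSectionVars false

/-!
# AHX module WINDB: the points behind a member of the family

`S = Sg Y U A`.

* `beh_pr`: induction on `Beh`.  `on`: take `y' = y`.  `rot`: the point is `n • y` with
  `y ∈ U1 d U`.  Let `q = pr d (Y l') (n • y) = n • pr d (Y l') y` (`pr_smulN`).  By `near_u1` and
  `rot_far` (with `b = pr d (Y l') y`): `L ≤ m a' q + 10` for all `a' ∈ U1 ∩ Y l'`.  We show
  `pr d (Y l) (n • y) = pr d (Y l) q` with `pr_pass` (`A := Y l`, `B := Y l'`): if `a ∈ Y l` had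
  `pr d (Y l') a = q`, then `near_mem` (with `l, l'` exchanged) gives `a' ∈ U1 ∩ Y l'` with
  `m a' q = 0`, contradiction to `L ≥ 35`.  `step`: the same, but `y` is behind `l''`, and by the
  induction hypothesis `pr d (Y l') y = pr d (Y l') y''` with `y'' ∈ Y l''`, so `near_mem` gives
  `a ∈ U1 ∩ Y l'` with `m a (pr d (Y l') y) = 0`.
* `beh_near`: `beh_pr` and `near_mem`.
* `rot_far1`: `near_u1` and `rot_far`.  `rot_far2`: `beh_near` and `rot_far`.
* `beh_smul`: induction on `Beh`, `h • (n • y) = (h * n * h⁻¹) • (h • y)`.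
* `u2_inv`: the set of all `g` such that `g` and `g⁻¹` map `U2` into `U2` is a subgroup; it contains
  `H` (`beh_smul`) and every `N l`, `l ∈ S`: for `n ∈ N l`, `n ≠ 1` and `x ∈ U2`: if `x ∈ U1` use
  `rot`; if `x` is behind `l' ≠ l` use `step`; if `x` is behind `l`: `on`: `n • x ∈ Y l`;
  `x = n' • y`: if `n * n' = 1` then `n • x = y`, otherwise use `rot` or `step` for `n * n'`.
* `u2_conv`: it is enough to show that `[x₀, x]` is in `U2` for every `x ∈ U2` (`split` at `x₀`).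
  `x ∈ U1`: `u1_conv`.  `x` behind `l`, induction: `on`: with `u ∈ U ∩ Y l`, `split` at `u`: points of
  `[x₀, u]` are in `U`, points of `[u, x]` are in `Y l`.  `x = n • y`: `split` at `u`, `n • u`,
  `n • x₀`: `[x₀, u] ⊆ U`, `[u, n • u] ⊆ Y l`, `[n • u, n • x₀] = n • [u, x₀]`,
  `[n • x₀, n • y] = n • [x₀, y]`, and `U2` is invariant under `n` (`u2_inv`).
-/

namespace AHX

variable {V Γ Λ : Type} [Group Γ] [MulAction Γ V] [MulAction Γ Λ]
  {d m : V → V → ℕ} {Y : Λ → Set V} {N : Λ → Subgroup Γ} {L : ℕ} {x₀ : V} {U : Set V}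
  {H : Subgroup Γ} {A : Set Λ} {x y a b a' : V} {l l' : Λ} {g n h : Γ}

theorem beh_mem (h : Beh d Y N U (Sg Y U A) l y) : l ∈ Sg Y U A := by
  cases h with
  | on h _ => exact h
  | rot h _ _ _ => exact h
  | step h _ _ _ _ => exact h

theorem rot_far1 (F : Fam d m Y N L) (W : WM d m Y N L x₀ U H A) (hl : l ∈ Sg Y U A)
    (hn : n ∈ N l) (h1 : n ≠ 1) (hy : y ∈ U1 d U) (ha' : a' ∈ U1 d U) (hay' : a' ∈ Y l) :
    L ≤ m a' (pr d (Y l) (n • y)) + 10 := by
  obtain ⟨a, ha, hay, h0⟩ := near_u1 F W hl hy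
  rw [F.pr_smulN hn]
  exact rot_far F W hl hn h1 ha hay (F.prM l y) h0 ha' hay'

private theorem windb_key (F : Fam d m Y N L) (hL : 35 ≤ L) (W : WM d m Y N L x₀ U H A)
    (hl : l ∈ Sg Y U A) (hl' : l' ∈ Sg Y U A) (hne : l ≠ l') {z : V}
    (hz : ∀ a' ∈ U1 d U, a' ∈ Y l' → L ≤ m a' (pr d (Y l') z) + 10) :
    ∃ y' ∈ Y l', pr d (Y l) z = pr d (Y l) y' := by
  refine ⟨pr d (Y l') z, F.prM l' z, ?_⟩
  refine pr_pass F.tree (F.conv l) (F.nonempty l) (F.conv l') (F.nonempty l') ?_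
  intro a ha hpa
  obtain ⟨a', ha', hay', h0⟩ := near_mem F W hl' hl hne.symm ha
  have h1 := hz a' ha' hay'
  rw [← hpa, h0] at h1
  omega

theorem beh_pr (F : Fam d m Y N L) (hL : 35 ≤ L) (W : WM d m Y N L x₀ U H A)
    (hy : Beh d Y N U (Sg Y U A) l' y) (hl : l ∈ Sg Y U A) (hne : l ≠ l') :
    ∃ y' ∈ Y l', pr d (Y l) y = pr d (Y l) y' := by
  induction hy generalizing l with
  | @on l' y _ hy => exact ⟨y, hy, rfl⟩
  | @rot l' n y hl' hn h1 hy =>
    exact windb_key F hL W hl hl' hne (fun a' ha' hay' =>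
      rot_far1 F W hl' hn h1 hy ha' hay')
  | @step l' l'' n y hl' hn h1 hne' hb ih =>
    refine windb_key F hL W hl hl' hne (fun a' ha' hay' => ?_)
    obtain ⟨y'', hy'', hpr⟩ := ih hl' hne'.symm
    obtain ⟨a, ha, hay, h0⟩ := near_mem F W hl' (beh_mem hb) hne'.symm hy''
    rw [F.pr_smulN hn]
    rw [← hpr] at h0
    exact rot_far F W hl' hn h1 ha hay (F.prM l' y) h0 ha' hay'

theorem beh_near (F : Fam d m Y N L) (hL : 35 ≤ L) (W : WM d m Y N L x₀ U H A)
    (hy : Beh d Y N U (Sg Y U A) l' y) (hl : l ∈ Sg Y U A) (hne : l ≠ l') :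
    ∃ a ∈ U1 d U, a ∈ Y l ∧ m a (pr d (Y l) y) = 0 := by
  obtain ⟨y', hy', hpr⟩ := beh_pr F hL W hy hl hne
  rw [hpr]
  exact near_mem F W hl (beh_mem hy) hne hy'

theorem rot_far2 (F : Fam d m Y N L) (hL : 35 ≤ L) (W : WM d m Y N L x₀ U H A)
    (hl : l ∈ Sg Y U A) (hn : n ∈ N l) (h1 : n ≠ 1) (hy : Beh d Y N U (Sg Y U A) l' y)
    (hne : l ≠ l') (ha' : a' ∈ U1 d U) (hay' : a' ∈ Y l) :
    L ≤ m a' (pr d (Y l) (n • y)) + 10 := by
  obtain ⟨a, ha, hay, h0⟩ := beh_near F hL W hy hl hne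
  rw [F.pr_smulN hn]
  exact rot_far F W hl hn h1 ha hay (F.prM l y) h0 ha' hay'

theorem beh_smul (F : Fam d m Y N L) (W : WM d m Y N L x₀ U H A)
    (hy : Beh d Y N U (Sg Y U A) l y) (hh : h ∈ H) : Beh d Y N U (Sg Y U A) (h • l) (h • y) := by
  have hconj : ∀ (n : Γ) (y : V), h • n • y = (h * n * h⁻¹) • (h • y) := by
    intro n y
    rw [smul_smul, smul_smul]
    congr 1
    group
  have hne1 : ∀ n : Γ, n ≠ 1 → h * n * h⁻¹ ≠ 1 := by
    intro n h1 h2
    apply h1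
    have h3 : n = h⁻¹ * (h * n * h⁻¹) * h := by group
    rw [h3, h2]
    group
  induction hy with
  | @on l y hl hy => exact Beh.on (sg_inv F W hh hl) (F.eqY h l y hy)
  | @rot l n y hl hn h1 hy =>
    rw [hconj]
    exact Beh.rot (sg_inv F W hh hl) (F.eqN h l n hn) (hne1 n h1) (u1_inv F W hh hy)
  | @step l l' n y hl hn h1 hne _ ih =>
    rw [hconj]
    exact Beh.step (sg_inv F W hh hl) (F.eqN h l n hn) (hne1 n h1)
      (fun he => hne (smul_left_cancel h he)) ih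

private theorem windb_N (F : Fam d m Y N L) (hl : l ∈ Sg Y U A) (hn : n ∈ N l)
    (hx : x ∈ U2 d Y N U (Sg Y U A)) : n • x ∈ U2 d Y N U (Sg Y U A) := by
  by_cases h1 : n = 1
  · rw [h1, one_smul]
    exact hx
  rcases hx with hx | ⟨l', hb⟩
  · exact Or.inr ⟨l, Beh.rot hl hn h1 hx⟩
  · by_cases hll : l' = l
    · subst hll
      cases hb with
      | on _ hy => exact Or.inr ⟨l', Beh.on hl (F.smulN hn hy)⟩
      | @rot _ n' y _ hn' _ hy =>
        rw [smul_smul]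
        by_cases h2 : n * n' = 1
        · rw [h2, one_smul]
          exact Or.inl hy
        · exact Or.inr ⟨l', Beh.rot hl ((N l').mul_mem hn hn') h2 hy⟩
      | @step _ l'' n' y _ hn' _ hne hy =>
        rw [smul_smul]
        by_cases h2 : n * n' = 1
        · rw [h2, one_smul]
          exact Or.inr ⟨l'', hy⟩
        · exact Or.inr ⟨l', Beh.step hl ((N l').mul_mem hn hn') h2 hne hy⟩
    · exact Or.inr ⟨l, Beh.step hl hn h1 hll hb⟩

theorem u2_inv (F : Fam d m Y N L) (W : WM d m Y N L x₀ U H A) (hg : g ∈ H2 N H (Sg Y U A))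
    (hx : x ∈ U2 d Y N U (Sg Y U A)) : g • x ∈ U2 d Y N U (Sg Y U A) := by
  let K : Subgroup Γ :=
    { carrier := {g | (∀ x ∈ U2 d Y N U (Sg Y U A), g • x ∈ U2 d Y N U (Sg Y U A)) ∧
        ∀ x ∈ U2 d Y N U (Sg Y U A), g⁻¹ • x ∈ U2 d Y N U (Sg Y U A)}
      mul_mem' := by
        rintro a b ⟨ha, ha'⟩ ⟨hb, hb'⟩
        refine ⟨fun x hx => ?_, fun x hx => ?_⟩
        · rw [mul_smul]
          exact ha _ (hb _ hx)
        · rw [mul_inv_rev, mul_smul]
          exact hb' _ (ha' _ hx)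
      one_mem' := by
        refine ⟨fun x hx => ?_, fun x hx => ?_⟩
        · rw [one_smul]
          exact hx
        · rw [inv_one, one_smul]
          exact hx
      inv_mem' := by
        rintro a ⟨ha, ha'⟩
        refine ⟨ha', fun x hx => ?_⟩
        rw [inv_inv]
        exact ha x hx }
  have hHx : ∀ h ∈ H, ∀ x ∈ U2 d Y N U (Sg Y U A), h • x ∈ U2 d Y N U (Sg Y U A) := by
    rintro h hh x (hx | ⟨l, hb⟩)
    · exact Or.inl (u1_inv F W hh hx)
    · exact Or.inr ⟨h • l, beh_smul F W hb hh⟩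
  have hK : H2 N H (Sg Y U A) ≤ K := by
    refine sup_le ?_ (iSup₂_le fun l hl => ?_)
    · intro h hh
      exact ⟨hHx h hh, hHx h⁻¹ (H.inv_mem hh)⟩
    · intro n hn
      exact ⟨fun x hx => windb_N F hl hn hx,
        fun x hx => windb_N F hl ((N l).inv_mem hn) hx⟩
  exact (hK hg).1 x hx

private theorem windb_btw (F : Fam d m Y N L) {z : V} (h : Btw d (g • x) z (g • y)) :
    Btw d x (g⁻¹ • z) y := by
  unfold Btw at h ⊢
  rw [← F.dinv g x (g⁻¹ • z), ← F.dinv g (g⁻¹ • z) y, smul_inv_smul, h, F.dinv]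

private theorem windb_step (F : Fam d m Y N L) (W : WM d m Y N L x₀ U H A)
    (hl : l ∈ Sg Y U A) (hn : n ∈ N l)
    (hy : ∀ z, Btw d x₀ z y → z ∈ U2 d Y N U (Sg Y U A)) {z : V}
    (hz : Btw d x₀ z (n • y)) : z ∈ U2 d Y N U (Sg Y U A) := by
  obtain ⟨u, hu, huY⟩ := hl.2
  have hnH : n ∈ H2 N H (Sg Y U A) :=
    (le_sup_right : (⨆ l ∈ Sg Y U A, N l) ≤ H2 N H (Sg Y U A))
      ((le_iSup₂_of_le l hl le_rfl : N l ≤ ⨆ l ∈ Sg Y U A, N l) hn)
  have hback : n⁻¹ • z ∈ U2 d Y N U (Sg Y U A) → z ∈ U2 d Y N U (Sg Y U A) := by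
    intro h
    have h1 := u2_inv F W hnH h
    rwa [smul_inv_smul] at h1
  rcases F.tree.split hz u with h | h
  · exact Or.inl (sub_u1 F.tree (W.conv x₀ W.base u hu z h))
  · rcases F.tree.split h (n • u) with h | h
    · exact Or.inr ⟨l, Beh.on hl (F.conv l u huY (n • u) (F.smulN hn huY) z h)⟩
    · rcases F.tree.split h (n • x₀) with h | h
      · exact hback (Or.inl (sub_u1 F.tree (W.conv u hu x₀ W.base _ (windb_btw F h))))
      · exact hback (hy _ (windb_btw F h))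

theorem u2_conv (F : Fam d m Y N L) (W : WM d m Y N L x₀ U H A) :
    Conv d (U2 d Y N U (Sg Y U A)) := by
  have hU1 : ∀ x ∈ U1 d U, ∀ z, Btw d x₀ z x → z ∈ U2 d Y N U (Sg Y U A) :=
    fun x hx z hz => Or.inl (u1_conv F.tree W.conv x₀ (sub_u1 F.tree W.base) x hx z hz)
  have key : ∀ x ∈ U2 d Y N U (Sg Y U A), ∀ z, Btw d x₀ z x → z ∈ U2 d Y N U (Sg Y U A) := by
    rintro x (hx | ⟨l, hb⟩)
    · exact hU1 x hx
    · induction hb with
      | @on l y hl hy =>
        intro z hz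
        obtain ⟨u, hu, huY⟩ := hl.2
        rcases F.tree.split hz u with h | h
        · exact Or.inl (sub_u1 F.tree (W.conv x₀ W.base u hu z h))
        · exact Or.inr ⟨l, Beh.on hl (F.conv l u huY y hy z h)⟩
      | @rot l n y hl hn h1 hy =>
        intro z hz
        exact windb_step F W hl hn (hU1 y hy) hz
      | @step l l' n y hl hn h1 hne _ ih =>
        intro z hz
        exact windb_step F W hl hn ih hz
  intro x hx y hy z hz
  rcases F.tree.split hz x₀ with h | h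
  · exact key x hx z (Btw.symm F.tree h)
  · exact key y hy z h

end AHX
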