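import Pool.Agent.AHX.WindB

set_option autoImplicit false

/-!
# AHX module WINDC: the members of the family which are not included meet the new set in a small set

`S = Sg Y U A`, `A' = A2 N H S A`.

* `out_disj`: `l ∉ A'` implies `l ∉ A` and `l ∉ S` (`1 ∈ H2`), so `Y l` does not meet `U`.
* `out_smul`: `A'` is invariant under the subgroup `H2`.
* `out0`: let `r = pr d U x = pr d U y` (`pr_const`, as `Y l ∩ U` is empty) and let `q` be the median
  of `x, y, r`; `q ∈ Y l` since `q` is between `x` and `y`.  Claim `m x q = 0`.  If `x ∈ U1`, then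
  `d x r ≤ 1` (`pr_le`), `q` is between `x` and `r` and `q ≠ r` (`r ∈ U`, `q ∈ Y l`), so `q = x`.  If
  `x ∈ Y l'` with `l' ∈ S`: there is `u ∈ U ∩ Y l'`, `r` is between `x` and `u` (gate), so
  `r ∈ Y l'` and then `q ∈ Y l'`; `l ≠ l'`, so `m x q = 0` by `ov`.  In the same way `m y q = 0`, and
  `madd` gives `m x y ≤ 2`.
* `out_sep` (the point `x` is not in `Y l'`, the point `n • z` is behind `l'`): let `p = pr d (Y l')`.
  There is `a ∈ U1 ∩ Y l'` with `m a (p x) = 0` (`near_u1` or `near_mem`), and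
  `L ≤ m a (p (n • z)) + 10` (`rot_far1` or `rot_far2`); so `m (p x) (p (n • z)) ≥ L - 12 > 0` by
  `m_tri`.  By `pr_pos` the points `p x` and `p (n • z)` are between `x` and `n • z`, so in `Y l`,
  and in `Y l'`; contradiction to `ov`.
* `out1`: induction on `Beh d Y N U S l' y`, generalizing `l` and `x`.  `on`: `out0`.
  `y = n • z` (`rot` or `step`): if `x ∈ Y l'`, apply `out0` (case `rot`) or the induction hypothesis
  (case `step`) to `n⁻¹ • l`, `n⁻¹ • x ∈ Y l'` and `z`.  If `x ∉ Y l'`: `out_sep`.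
* `out2`: `x, y ∈ U2`.  If `x ∈ U1` or `x ∈ Y l'`, `l' ∈ S`, this is `out0` or `out1`.  Otherwise
  induction on `Beh d Y N U S l' x` generalizing `l` and `y`: `x = n • z`, apply `n⁻¹` (`u2_inv`) and
  use the case `z ∈ U1` or the induction hypothesis.
-/

namespace AHX

variable {V Γ Λ : Type} [Group Γ] [MulAction Γ V] [MulAction Γ Λ]
  {d m : V → V → ℕ} {Y : Λ → Set V} {N : Λ → Subgroup Γ} {L : ℕ} {x₀ : V} {U : Set V}
  {H : Subgroup Γ} {A : Set Λ} {x y z a b a' : V} {l l' : Λ} {g n h : Γ}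

theorem windc_le (hl : l ∈ Sg Y U A) : N l ≤ H2 N H (Sg Y U A) :=
  le_sup_of_le_right (le_iSup₂_of_le l hl le_rfl)

theorem out_disj (F : Fam d m Y N L) (W : WM d m Y N L x₀ U H A)
    (hl : l ∉ A2 N H (Sg Y U A) A) : l ∉ Sg Y U A ∧ l ∉ A ∧ ∀ u ∈ U, u ∉ Y l := by
  have h1 : l ∉ A ∪ Sg Y U A := fun h =>
    hl ⟨1, (H2 N H (Sg Y U A)).one_mem, l, h, (one_smul _ l).symm⟩
  have hS : l ∉ Sg Y U A := fun h => h1 (Or.inr h)
  have hA : l ∉ A := fun h => h1 (Or.inl h)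
  exact ⟨hS, hA, fun u hu hul => hS ⟨hA, u, hu, hul⟩⟩

theorem out_smul (hl : l ∉ A2 N H (Sg Y U A) A) (hg : g ∈ H2 N H (Sg Y U A)) :
    g • l ∉ A2 N H (Sg Y U A) A := by
  rintro ⟨h, hh, l', hl', he⟩
  refine hl ⟨g⁻¹ * h, (H2 N H (Sg Y U A)).mul_mem ((H2 N H (Sg Y U A)).inv_mem hg) hh, l', hl', ?_⟩
  rw [mul_smul, ← he, inv_smul_smul]

theorem windc_half (F : Fam d m Y N L) (W : WM d m Y N L x₀ U H A)
    (hl : l ∉ A2 N H (Sg Y U A) A) (hx : x ∈ U1 d U ∨ ∃ l' ∈ Sg Y U A, x ∈ Y l')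
    (hxl : x ∈ Y l) {q : V} (hq : q ∈ Y l) (hb : Btw d x q (pr d U x)) : m x q = 0 := by
  obtain ⟨hS, hA, hdis⟩ := out_disj F W hl
  have T := F.tree
  have hne : U.Nonempty := ⟨x₀, W.base⟩
  have hr : pr d U x ∈ U := pr_mem T W.conv hne x
  rcases hx with ⟨u, hu, hxu⟩ | ⟨l', hl', hxl'⟩
  · have h1 : d x (pr d U x) ≤ d x u := pr_le T W.conv hu
    have h2 : d q (pr d U x) ≠ 0 := by
      intro h0
      have := T.eq0 _ _ h0
      rw [← this] at hr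
      exact hdis q hr hq
    unfold Btw at hb
    exact F.msmall x q (by omega)
  · obtain ⟨-, u, hu, hul'⟩ := hl'
    have h1 : Btw d x (pr d U x) u := (pr_gate T W.conv hne x).2 u hu
    have h2 : pr d U x ∈ Y l' := F.conv l' x hxl' u hul' _ h1
    have h3 : q ∈ Y l' := F.conv l' x hxl' _ h2 _ hb
    have hll : l ≠ l' := by
      rintro rfl
      exact hdis u hu hul'
    exact F.ov l l' x q hll hxl hxl' hq h3

theorem out0 (F : Fam d m Y N L) (W : WM d m Y N L x₀ U H A)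
    (hl : l ∉ A2 N H (Sg Y U A) A) (hx : x ∈ U1 d U ∨ ∃ l' ∈ Sg Y U A, x ∈ Y l')
    (hy : y ∈ U1 d U ∨ ∃ l' ∈ Sg Y U A, y ∈ Y l') (hxl : x ∈ Y l) (hyl : y ∈ Y l) :
    m x y ≤ 2 := by
  obtain ⟨hS, hA, hdis⟩ := out_disj F W hl
  have T := F.tree
  have hr : pr d U x = pr d U y := pr_const T W.conv ⟨x₀, W.base⟩ (F.conv l) hdis hxl hyl
  obtain ⟨q, h1, h2, h3⟩ := T.med x y (pr d U x)
  have hq : q ∈ Y l := F.conv l x hxl y hyl q h1
  have h4 := windc_half F W hl hx hxl hq h3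
  rw [hr] at h2
  have h5 := windc_half F W hl hy hyl hq h2
  have h6 := F.madd x q y h1
  rw [F.msymm q y, h4, h5] at h6
  omega

theorem out_sep (F : Fam d m Y N L) (hL : 35 ≤ L) (W : WM d m Y N L x₀ U H A)
    (hl : l ∉ A2 N H (Sg Y U A) A) (hx : x ∈ U1 d U ∨ ∃ l₁ ∈ Sg Y U A, x ∈ Y l₁)
    (hl' : l' ∈ Sg Y U A) (hxl' : x ∉ Y l') (hn : n ∈ N l') (h1 : n ≠ 1)
    (hz : z ∈ U1 d U ∨ ∃ l₂, l₂ ≠ l' ∧ Beh d Y N U (Sg Y U A) l₂ z)
    (hxl : x ∈ Y l) (hyl : n • z ∈ Y l) : False := by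
  obtain ⟨hS, hA, hdis⟩ := out_disj F W hl
  have hex : ∃ a ∈ U1 d U, a ∈ Y l' ∧ m a (pr d (Y l') x) = 0 := by
    rcases hx with hx | ⟨l₁, hl₁, hxl₁⟩
    · exact near_u1 F W hl' hx
    · refine near_mem F W hl' hl₁ ?_ hxl₁
      rintro rfl
      exact hxl' hxl₁
  obtain ⟨a, ha, hay, ha0⟩ := hex
  have hfar : L ≤ m a (pr d (Y l') (n • z)) + 10 := by
    rcases hz with hz | ⟨l₂, hne, hz⟩
    · exact rot_far1 F W hl' hn h1 hz ha hay
    · exact rot_far2 F hL W hl' hn h1 hz (Ne.symm hne) ha hay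
  have htri := F.m_tri a (pr d (Y l') x) (pr d (Y l') (n • z))
  have hpos : 1 ≤ m (pr d (Y l') x) (pr d (Y l') (n • z)) := by omega
  obtain ⟨hb1, hb2⟩ := F.pr_pos hpos
  have hne : l ≠ l' := by
    rintro rfl
    exact hS hl'
  have h0 := F.ov l l' _ _ hne (F.conv l x hxl _ hyl _ hb1) (F.prM l' x)
    (F.conv l x hxl _ hyl _ hb2) (F.prM l' (n • z))
  omega

theorem windc_smul (F : Fam d m Y N L) (n : Γ) (x z : V) : m x (n • z) = m (n⁻¹ • x) z := by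
  have h := F.minv n (n⁻¹ • x) z
  rwa [smul_inv_smul] at h

theorem windc_mem (F : Fam d m Y N L) (h : n • z ∈ Y l) : z ∈ Y (n⁻¹ • l) := by
  have h1 := (F.memY (g := n⁻¹)).2 h
  rwa [inv_smul_smul] at h1

theorem out1 (F : Fam d m Y N L) (hL : 35 ≤ L) (W : WM d m Y N L x₀ U H A)
    (hy : Beh d Y N U (Sg Y U A) l' y)
    (hl : l ∉ A2 N H (Sg Y U A) A) (hx : x ∈ U1 d U ∨ ∃ l₁ ∈ Sg Y U A, x ∈ Y l₁)
    (hxl : x ∈ Y l) (hyl : y ∈ Y l) : m x y ≤ 2 := by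
  induction hy generalizing l x with
  | @on l' y hl' hyl' => exact out0 F W hl hx (Or.inr ⟨l', hl', hyl'⟩) hxl hyl
  | @rot l' n z hl' hn h1 hz =>
    by_cases hxl' : x ∈ Y l'
    · have hn' : n⁻¹ ∈ N l' := (N l').inv_mem hn
      have h2 := out0 F W (x := n⁻¹ • x) (y := z) (out_smul hl (windc_le hl' hn'))
        (Or.inr ⟨l', hl', F.smulN hn' hxl'⟩) (Or.inl hz) (F.memY.2 hxl) (windc_mem F hyl)
      rwa [windc_smul F]
    · exact absurd (out_sep F hL W hl hx hl' hxl' hn h1 (Or.inl hz) hxl hyl) id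
  | @step l' l'' n z hl' hn h1 hne hz ih =>
    by_cases hxl' : x ∈ Y l'
    · have hn' : n⁻¹ ∈ N l' := (N l').inv_mem hn
      have h2 := ih (x := n⁻¹ • x) (out_smul hl (windc_le hl' hn'))
        (Or.inr ⟨l', hl', F.smulN hn' hxl'⟩) (F.memY.2 hxl) (windc_mem F hyl)
      rwa [windc_smul F]
    · exact absurd (out_sep F hL W hl hx hl' hxl' hn h1 (Or.inr ⟨l'', hne, hz⟩) hxl hyl) id

theorem windc_two (F : Fam d m Y N L) (hL : 35 ≤ L) (W : WM d m Y N L x₀ U H A)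
    (hl : l ∉ A2 N H (Sg Y U A) A) (hx : x ∈ U1 d U ∨ ∃ l₁ ∈ Sg Y U A, x ∈ Y l₁)
    (hy : y ∈ U2 d Y N U (Sg Y U A)) (hxl : x ∈ Y l) (hyl : y ∈ Y l) : m x y ≤ 2 := by
  rcases hy with hy | ⟨l', hy⟩
  · exact out0 F W hl hx (Or.inl hy) hxl hyl
  · exact out1 F hL W hy hl hx hxl hyl

theorem out2 (F : Fam d m Y N L) (hL : 35 ≤ L) (W : WM d m Y N L x₀ U H A)
    (hl : l ∉ A2 N H (Sg Y U A) A) (hx : x ∈ U2 d Y N U (Sg Y U A))
    (hy : y ∈ U2 d Y N U (Sg Y U A)) (hxl : x ∈ Y l) (hyl : y ∈ Y l) : m x y ≤ 2 := by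
  rcases hx with hx | ⟨l', hx⟩
  · exact windc_two F hL W hl (Or.inl hx) hy hxl hyl
  · induction hx generalizing l y with
    | @on l' x hl' hxl' => exact windc_two F hL W hl (Or.inr ⟨l', hl', hxl'⟩) hy hxl hyl
    | @rot l' n z hl' hn h1 hz =>
      have hn' : n⁻¹ ∈ N l' := (N l').inv_mem hn
      have hg := windc_le (H := H) hl' hn'
      have h2 := windc_two F hL W (x := z) (y := n⁻¹ • y) (out_smul hl hg) (Or.inl hz)
        (u2_inv F W hg hy) (windc_mem F hxl) (F.memY.2 hyl)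
      rw [F.msymm, windc_smul F, F.msymm]
      exact h2
    | @step l' l'' n z hl' hn h1 hne hz ih =>
      have hn' : n⁻¹ ∈ N l' := (N l').inv_mem hn
      have hg := windc_le (H := H) hl' hn'
      have h2 := ih (y := n⁻¹ • y) (out_smul hl hg)
        (u2_inv F W hg hy) (windc_mem F hxl) (F.memY.2 hyl)
      rw [F.msymm, windc_smul F, F.msymm]
      exact h2

end AHX
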